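import Mathlib

/-! Project ACH (MP_9d9192_al). -/

set_option autoImplicit false

namespace Pool.ACH

/-- PIECE ACH-A1 (50 lines).  Additivity of the trace.  `ker δ` is the image of the injective
`ι : U → V`, `δ : V → W` is surjective.  Choose a linear section `s` of `δ` and the linear `r` with
`id = ι r + s δ`.  `tr Φ = tr (Φ ι r) + tr (Φ s δ) = tr (r Φ ι) + tr (δ Φ s)
= tr (r ι ΦU) + tr (ΦW δ s) = tr ΦU + tr ΦW` (`LinearMap.trace_comp_comm'`). -/
theorem trace_exact {F : Type*} [Field F] {U V W : Type*} [AddCommGroup U] [AddCommGroup V]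
    [AddCommGroup W] [Module F U] [Module F V] [Module F W] [FiniteDimensional F U]
    [FiniteDimensional F V] [FiniteDimensional F W] (ι : U →ₗ[F] V) (δ : V →ₗ[F] W)
    (hι : Function.Injective ι) (hδ : Function.Surjective δ)
    (hex : ∀ x, δ x = 0 ↔ ∃ y, ι y = x) (ΦU : U →ₗ[F] U) (Φ : V →ₗ[F] V) (ΦW : W →ₗ[F] W)
    (h1 : ∀ x, ι (ΦU x) = Φ (ι x)) (h2 : ∀ x, δ (Φ x) = ΦW (δ x)) :
    LinearMap.trace F V Φ = LinearMap.trace F U ΦU + LinearMap.trace F W ΦW := by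
  obtain ⟨s, hs⟩ := LinearMap.exists_rightInverse_of_surjective δ (LinearMap.range_eq_top.mpr hδ)
  obtain ⟨r0, hr0⟩ := LinearMap.exists_leftInverse_of_injective ι (LinearMap.ker_eq_bot.mpr hι)
  have hs' : ∀ w, δ (s w) = w := fun w => LinearMap.congr_fun hs w
  have hr' : ∀ u, r0 (ι u) = u := fun u => LinearMap.congr_fun hr0 u
  have hδι : ∀ u, δ (ι u) = 0 := fun u => (hex _).mpr ⟨u, rfl⟩
  set r : V →ₗ[F] U := r0 ∘ₗ (LinearMap.id - s ∘ₗ δ) with hr
  have hsum : ι ∘ₗ r + s ∘ₗ δ = LinearMap.id := by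
    ext x
    obtain ⟨y, hy⟩ := (hex (x - s (δ x))).mp (by rw [map_sub, hs', sub_self])
    simp only [hr, LinearMap.add_apply, LinearMap.comp_apply, LinearMap.sub_apply,
      LinearMap.id_apply]
    rw [← hy, hr', hy, sub_add_cancel]
  have hrι : ∀ u, r (ι u) = u := by
    intro u
    simp only [hr, LinearMap.comp_apply, LinearMap.sub_apply, LinearMap.id_apply]
    rw [hδι, map_zero, sub_zero, hr']
  have e1 : Φ = (Φ ∘ₗ ι) ∘ₗ r + (Φ ∘ₗ s) ∘ₗ δ := by
    rw [LinearMap.comp_assoc, LinearMap.comp_assoc, ← LinearMap.comp_add, hsum, LinearMap.comp_id]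
  have e2 : r ∘ₗ (Φ ∘ₗ ι) = ΦU := by
    ext u
    simp only [LinearMap.comp_apply]
    rw [← h1, hrι]
  have e3 : δ ∘ₗ (Φ ∘ₗ s) = ΦW := by
    ext w
    simp only [LinearMap.comp_apply]
    rw [h2, hs']
  conv_lhs => rw [e1]
  rw [map_add, LinearMap.trace_comp_comm', e2, LinearMap.trace_comp_comm', e3]

end Pool.ACH
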