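import Pool.Agent.Helper20.ACH.A1

/-! Project ACH (MP_9d9192_al). -/

set_option autoImplicit false

namespace Pool.ACH

private theorem a2_trace_congr {F : Type*} [Field F] {C : Type*} [AddCommGroup C] [Module F C]
    (Φ : C →ₗ[F] C) {S T : Submodule F C} (h : S = T) (hS : ∀ x ∈ S, Φ x ∈ S)
    (hT : ∀ x ∈ T, Φ x ∈ T) :
    LinearMap.trace F S (Φ.restrict hS) = LinearMap.trace F T (Φ.restrict hT) := by
  subst h
  rfl

private theorem a2_step {F : Type*} [Field F] {C D : Type*} [AddCommGroup C] [AddCommGroup D]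
    [Module F C] [Module F D] [FiniteDimensional F C] [FiniteDimensional F D]
    (δ : C →ₗ[F] D) (Φ : C →ₗ[F] C) (Ψ : D →ₗ[F] D) (c : ∀ x, δ (Φ x) = Ψ (δ x))
    (hK : ∀ x ∈ LinearMap.ker δ, Φ x ∈ LinearMap.ker δ)
    (hR : ∀ x ∈ LinearMap.range δ, Ψ x ∈ LinearMap.range δ) :
    LinearMap.trace F C Φ = LinearMap.trace F (LinearMap.ker δ) (Φ.restrict hK) +
      LinearMap.trace F (LinearMap.range δ) (Ψ.restrict hR) := by
  refine trace_exact (LinearMap.ker δ).subtype δ.rangeRestrict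
    (Submodule.injective_subtype _) (LinearMap.surjective_rangeRestrict δ) ?_ _ Φ _ ?_ ?_
  · intro x
    constructor
    · intro hx
      refine ⟨⟨x, ?_⟩, rfl⟩
      rw [LinearMap.mem_ker]
      exact congrArg Subtype.val hx
    · rintro ⟨y, rfl⟩
      apply Subtype.ext
      exact LinearMap.mem_ker.1 y.2
  · intro x
    rfl
  · intro x
    apply Subtype.ext
    exact c x

/-- PIECE ACH-A2 (80 lines, uses `trace_exact`).  The Lefschetz number of a chain map `Φ` on a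
complex with cohomology `F e, 0, 0, F ν` on which `Φ` acts by `1` and `-1` is `2`.
Apply `trace_exact` to `0 → ker δ_i → C_i → range δ_i → 0` (`i = 0,1,2`) and
`0 → range δ2 → C3 → C3 ⧸ range δ2 → 0`. -/
theorem lefschetz {F : Type*} [Field F] {C0 C1 C2 C3 : Type*} [AddCommGroup C0]
    [AddCommGroup C1] [AddCommGroup C2] [AddCommGroup C3] [Module F C0] [Module F C1]
    [Module F C2] [Module F C3] [FiniteDimensional F C0] [FiniteDimensional F C1]
    [FiniteDimensional F C2] [FiniteDimensional F C3]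
    (δ0 : C0 →ₗ[F] C1) (δ1 : C1 →ₗ[F] C2) (δ2 : C2 →ₗ[F] C3)
    (Φ0 : C0 →ₗ[F] C0) (Φ1 : C1 →ₗ[F] C1) (Φ2 : C2 →ₗ[F] C2) (Φ3 : C3 →ₗ[F] C3)
    (c0 : ∀ x, δ0 (Φ0 x) = Φ1 (δ0 x)) (c1 : ∀ x, δ1 (Φ1 x) = Φ2 (δ1 x))
    (c2 : ∀ x, δ2 (Φ2 x) = Φ3 (δ2 x))
    (e : C0) (he : e ≠ 0) (h0 : ∀ x, δ0 x = 0 ↔ ∃ a : F, a • e = x) (hΦ0 : Φ0 e = e)
    (h1 : ∀ x, δ1 x = 0 ↔ ∃ y, δ0 y = x) (h2 : ∀ x, δ2 x = 0 ↔ ∃ y, δ1 y = x)
    (ν : C3) (h3 : ∀ x, ∃ (a : F) (y : C2), x = a • ν + δ2 y)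
    (h3' : ∀ (a : F) (y : C2), a • ν = δ2 y → a = 0) (hΦ3 : ∃ y, Φ3 ν = -ν + δ2 y) :
    LinearMap.trace F C0 Φ0 - LinearMap.trace F C1 Φ1 + LinearMap.trace F C2 Φ2
      - LinearMap.trace F C3 Φ3 = 2 := by
  have k0 : ∀ x ∈ LinearMap.ker δ0, Φ0 x ∈ LinearMap.ker δ0 := fun x hx => by
    rw [LinearMap.mem_ker] at hx ⊢
    rw [c0, hx, map_zero]
  have k1 : ∀ x ∈ LinearMap.ker δ1, Φ1 x ∈ LinearMap.ker δ1 := fun x hx => by
    rw [LinearMap.mem_ker] at hx ⊢
    rw [c1, hx, map_zero]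
  have k2 : ∀ x ∈ LinearMap.ker δ2, Φ2 x ∈ LinearMap.ker δ2 := fun x hx => by
    rw [LinearMap.mem_ker] at hx ⊢
    rw [c2, hx, map_zero]
  have r0 : ∀ x ∈ LinearMap.range δ0, Φ1 x ∈ LinearMap.range δ0 := by
    rintro _ ⟨y, rfl⟩
    exact ⟨Φ0 y, c0 y⟩
  have r1 : ∀ x ∈ LinearMap.range δ1, Φ2 x ∈ LinearMap.range δ1 := by
    rintro _ ⟨y, rfl⟩
    exact ⟨Φ1 y, c1 y⟩
  have r2 : ∀ x ∈ LinearMap.range δ2, Φ3 x ∈ LinearMap.range δ2 := by
    rintro _ ⟨y, rfl⟩
    exact ⟨Φ2 y, c2 y⟩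
  have q01 : LinearMap.range δ0 = LinearMap.ker δ1 := by
    ext x
    rw [LinearMap.mem_ker, h1 x, LinearMap.mem_range]
  have q12 : LinearMap.range δ1 = LinearMap.ker δ2 := by
    ext x
    rw [LinearMap.mem_ker, h2 x, LinearMap.mem_range]
  have s0 := a2_step δ0 Φ0 Φ1 c0 k0 r0
  have s1 := a2_step δ1 Φ1 Φ2 c1 k1 r1
  have s2 := a2_step δ2 Φ2 Φ3 c2 k2 r2
  have t01 := a2_trace_congr Φ1 q01 r0 k1
  have t12 := a2_trace_congr Φ2 q12 r1 k2
  -- the top quotient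
  have s3 : LinearMap.trace F C3 Φ3 = LinearMap.trace F (LinearMap.range δ2) (Φ3.restrict r2) +
      LinearMap.trace F (C3 ⧸ LinearMap.range δ2)
        ((LinearMap.range δ2).mapQ (LinearMap.range δ2) Φ3 r2) := by
    refine trace_exact (LinearMap.range δ2).subtype (LinearMap.range δ2).mkQ
      (Submodule.injective_subtype _) (Submodule.mkQ_surjective _) ?_ _ Φ3 _ ?_ ?_
    · intro x
      rw [Submodule.mkQ_apply, Submodule.Quotient.mk_eq_zero]
      constructor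
      · intro hx
        exact ⟨⟨x, hx⟩, rfl⟩
      · rintro ⟨y, rfl⟩
        exact y.2
    · intro x
      rfl
    · intro x
      rfl
  have e0 : LinearMap.trace F (LinearMap.ker δ0) (Φ0.restrict k0) = 1 := by
    have hid : Φ0.restrict k0 = LinearMap.id := by
      ext ⟨x, hx⟩
      obtain ⟨a, rfl⟩ := (h0 x).1 (LinearMap.mem_ker.1 hx)
      simp only [LinearMap.restrict_apply, LinearMap.id_apply]
      rw [map_smul, hΦ0]
    have hfin : Module.finrank F (LinearMap.ker δ0) = 1 := by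
      refine finrank_eq_one (⟨e, LinearMap.mem_ker.2 ((h0 e).2 ⟨1, one_smul _ _⟩)⟩ :
        LinearMap.ker δ0) ?_ ?_
      · intro h
        exact he (congrArg Subtype.val h)
      · rintro ⟨x, hx⟩
        obtain ⟨a, ha⟩ := (h0 x).1 (LinearMap.mem_ker.1 hx)
        exact ⟨a, Subtype.ext ha⟩
    rw [hid, LinearMap.trace_id, hfin, Nat.cast_one]
  have e3 : LinearMap.trace F (C3 ⧸ LinearMap.range δ2)
        ((LinearMap.range δ2).mapQ (LinearMap.range δ2) Φ3 r2) = -1 := by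
    obtain ⟨y0, hy0⟩ := hΦ3
    have hid : (LinearMap.range δ2).mapQ (LinearMap.range δ2) Φ3 r2 = -LinearMap.id := by
      apply LinearMap.ext
      intro q
      obtain ⟨x, rfl⟩ := Submodule.mkQ_surjective _ q
      obtain ⟨a, y, hx⟩ := h3 x
      simp only [LinearMap.neg_apply, LinearMap.id_apply, Submodule.mkQ_apply,
        Submodule.mapQ_apply]
      rw [← Submodule.Quotient.mk_neg, Submodule.Quotient.eq]
      refine ⟨a • y0 + Φ2 y + y, ?_⟩
      rw [hx, map_add, map_add, map_add, map_smul, map_smul, hy0, c2]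
      module
    have hfin : Module.finrank F (C3 ⧸ LinearMap.range δ2) = 1 := by
      refine finrank_eq_one ((LinearMap.range δ2).mkQ ν) ?_ ?_
      · intro h
        rw [Submodule.mkQ_apply, Submodule.Quotient.mk_eq_zero] at h
        obtain ⟨y, hy⟩ := h
        have := h3' 1 y (by rw [one_smul, hy])
        exact one_ne_zero this
      · intro q
        obtain ⟨x, rfl⟩ := Submodule.mkQ_surjective _ q
        obtain ⟨a, y, hx⟩ := h3 x
        refine ⟨a, ?_⟩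
        rw [← map_smul, Submodule.mkQ_apply, Submodule.mkQ_apply, Submodule.Quotient.eq]
        refine ⟨-y, ?_⟩
        rw [hx, map_neg]
        module
    rw [hid, map_neg, LinearMap.trace_id, hfin, Nat.cast_one]
  rw [s0, s1, s2, s3, t01, t12, e0, e3]
  ring

end Pool.ACH
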