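import Pool.Agent.Helper20.ACH.ATrace

/-! Project ACH (MP_9d9192_al). -/

set_option autoImplicit false

namespace Pool.ACH

/-- PIECE ACH-A3 (30 lines).  `ω ↦ (ω(e_j))_j` is injective on invariants (`DB.expand_inv`). -/
theorem finite_IM {L P : Type} [Group L] [AddCommGroup P] [DistribMulAction L P]
    (b : DB L P) : FiniteDimensional ℚ (IM L P) := by
  let f : IM L P →ₗ[ℚ] (b.J → ℚ) :=
    { toFun := fun ω j => (ω : P →+ ℚ) (b.e j)
      map_add' := fun ω ω' => by
        funext j
        rfl
      map_smul' := fun c ω => by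
        funext j
        rfl }
  have hf : Function.Injective f := by
    intro ω ω' h
    apply Subtype.ext
    ext p
    rw [b.expand_inv (ω : P →+ ℚ) ω.2 p, b.expand_inv (ω' : P →+ ℚ) ω'.2 p]
    refine Finset.sum_congr rfl fun j _ => ?_
    have h1 : (ω : P →+ ℚ) (b.e j) = (ω' : P →+ ℚ) (b.e j) := congrFun h j
    rw [h1]
  exact Module.Finite.of_injective f hf

end Pool.ACH
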