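import Pool.Agent.Helper20.ACH.ATrace

/-! Project ACH (MP_9d9192_al). -/

set_option autoImplicit false

namespace Pool.ACH

/-- PIECE ACH-A4 (60 lines).  For `γ ∈ G ⧸ L` the set `{x | θ̄ x = x γ}` is empty or has exactly as
many elements as `FixQ` (`x, x'` in it: `θ̄(x' x⁻¹) = x' x⁻¹`), so its cardinality is a multiple of
`Nat.card FixQ`.  So for every finitely supported `c : G → ℤ` the sum
`Σᶠ γ, c γ * #{x | θ̄ x = x γ̄}` is a multiple of `Nat.card FixQ`. -/
theorem card_twisted {G : Type} [Group G] (θ : G ≃* G) (L : Subgroup G) [L.Normal]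
    (hL : L.index ≠ 0) (h : ∀ g, θ g ∈ L ↔ g ∈ L) (c : G → ℤ) :
    ((Nat.card (FixQ θ L h) : ℕ) : ℤ) ∣ ∑ᶠ γ : G, c γ *
      (Nat.card {x : G ⧸ L // QuotientGroup.map L L (θ : G →* G) (fun g hg => (h g).2 hg) x
        = x * (γ : G ⧸ L)} : ℤ) := by
  classical
  refine finsum_induction (fun z : ℤ => ((Nat.card (FixQ θ L h) : ℕ) : ℤ) ∣ z) (dvd_zero _)
    (fun x y hx hy => dvd_add hx hy) fun γ => ?_
  refine Dvd.dvd.mul_left ?_ _
  rw [Int.natCast_dvd_natCast]
  set τ := QuotientGroup.map L L (θ : G →* G) (fun g hg => (h g).2 hg) with hτ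
  by_cases hne : Nonempty {x : G ⧸ L // τ x = x * (γ : G ⧸ L)}
  · obtain ⟨⟨x, hx⟩⟩ := hne
    have e : FixQ θ L h ≃ {x : G ⧸ L // τ x = x * (γ : G ⧸ L)} :=
      { toFun := fun f => ⟨f.1 * x, by
          have hf : τ f.1 = f.1 := f.2
          rw [map_mul, hf, hx, mul_assoc]⟩
        invFun := fun y => ⟨y.1 * x⁻¹, by
          change τ (y.1 * x⁻¹) = y.1 * x⁻¹
          rw [map_mul, map_inv, y.2, hx, mul_inv_rev, mul_assoc, mul_inv_cancel_left]⟩
        left_inv := fun f => by
          apply Subtype.ext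
          change f.1 * x * x⁻¹ = f.1
          rw [mul_inv_cancel_right]
        right_inv := fun y => by
          apply Subtype.ext
          change y.1 * x⁻¹ * x = y.1
          rw [inv_mul_cancel_right] }
    rw [Nat.card_congr e]
  · rw [not_nonempty_iff] at hne
    rw [Nat.card_of_isEmpty (α := {x : G ⧸ L // τ x = x * (γ : G ⧸ L)})]
    exact dvd_zero _

end Pool.ACH
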