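import Pool.Agent.Helper20.ACH.A4

/-! Project ACH (MP_9d9192_al). -/

set_option autoImplicit false

namespace Pool.ACH

private theorem A5_inv {G P : Type} [Group G] [AddCommGroup P] [DistribMulAction G P]
    (φ : P →+ ℤ) (hφ : IsFs G φ) (L : Subgroup G) (a : G → ℚ)
    (ha : ∀ l ∈ L, ∀ g, a (l * g) = a g) : Inv L (tw φ hφ a) := by
  intro l p
  change tw φ hφ a ((l : G) • p) = tw φ hφ a p
  rw [tw_smul]
  congr 2
  funext g
  exact ha l l.2 g

private theorem A5_mk {G : Type} [Group G] (L : Subgroup G) [L.Normal] {l : G} (hl : l ∈ L)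
    (g : G) : ((l * g : G) : G ⧸ L) = (g : G ⧸ L) := by
  rw [QuotientGroup.mk_mul, (QuotientGroup.eq_one_iff l).2 hl, one_mul]

/-- the dual basis of the space of invariant maps -/
private noncomputable def A5_v {G P : Type} [Group G] [AddCommGroup P] [DistribMulAction G P]
    (b : DB G P) (L : Subgroup G) [L.Normal] (j : b.J) (q : G ⧸ L) : IM L P := by
  classical
  exact ⟨tw (b.φ j) (b.fs j) (fun g => if (g : G ⧸ L) = q then (1 : ℚ) else 0),
    A5_inv _ _ _ _ fun l hl g => by rw [A5_mk L hl]⟩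

private theorem A5_v_apply {G P : Type} [Group G] [AddCommGroup P] [DistribMulAction G P]
    (b : DB G P) (L : Subgroup G) [L.Normal] [DecidableEq (G ⧸ L)] (j : b.J) (q : G ⧸ L) (p : P) :
    (A5_v b L j q).1 p = ∑ᶠ g : G, b.φ j (g⁻¹ • p) • (if (g : G ⧸ L) = q then (1 : ℚ) else 0) := by
  unfold A5_v
  rw [tw_apply]
  congr!

private theorem A5_expand {G P : Type} [Group G] [AddCommGroup P] [DistribMulAction G P]
    (b : DB G P) (L : Subgroup G) [L.Normal] [Fintype (G ⧸ L)] (ω : IM L P) :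
    ω = ∑ j, ∑ q : G ⧸ L, ω.1 (q.out • b.e j) • A5_v b L j q := by
  classical
  have key : ∀ p, ω.1 p = ∑ j, ∑ q : G ⧸ L, ω.1 (q.out • b.e j) * (A5_v b L j q).1 p := by
    intro p
    rw [b.expand ω.1 p]
    refine Finset.sum_congr rfl fun j _ => ?_
    have h1 : (fun g : G => ω.1 (g • b.e j)) = fun g : G => ∑ q : G ⧸ L,
        ω.1 (q.out • b.e j) * (if (g : G ⧸ L) = q then (1 : ℚ) else 0) := by
      funext g
      simp only [mul_ite, mul_one, mul_zero]
      rw [Finset.sum_ite_eq Finset.univ (g : G ⧸ L) fun q => ω.1 (q.out • b.e j),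
        if_pos (Finset.mem_univ _)]
      have h2 : (((g : G ⧸ L).out : G) : G ⧸ L) = (g : G ⧸ L) := Quotient.out_eq' _
      have h3 : g * ((g : G ⧸ L).out)⁻¹ ∈ L := by
        rw [← QuotientGroup.eq_one_iff, QuotientGroup.mk_mul, QuotientGroup.mk_inv, h2,
          mul_inv_cancel]
      have h4 := ω.2 ⟨_, h3⟩ ((g : G ⧸ L).out • b.e j)
      change ω.1 ((g * ((g : G ⧸ L).out)⁻¹) • ((g : G ⧸ L).out • b.e j)) = _ at h4
      rw [smul_smul, inv_mul_cancel_right] at h4
      exact h4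
    rw [h1, tw_sum, AddMonoidHom.finsetSum_apply]
    refine Finset.sum_congr rfl fun q _ => ?_
    have h2 := map_tw (AddMonoidHom.mulLeft (ω.1 (q.out • b.e j))) (b.φ j) (b.fs j)
      (fun g : G => if (g : G ⧸ L) = q then (1 : ℚ) else 0) p
    rw [tw_apply, ← A5_v_apply] at h2
    exact h2.symm
  apply Subtype.ext
  apply AddMonoidHom.ext
  intro p
  rw [key p]
  simp only [Submodule.coe_sum, Submodule.coe_smul, AddMonoidHom.finsetSum_apply,
    AddMonoidHom.smul_apply, smul_eq_mul]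

private theorem A5_finite {G P : Type} [Group G] [AddCommGroup P] [DistribMulAction G P]
    (b : DB G P) (L : Subgroup G) [L.Normal] [Fintype (G ⧸ L)] : Module.Finite ℚ (IM L P) := by
  classical
  refine ⟨⟨Finset.univ.image (fun x : b.J × (G ⧸ L) => A5_v b L x.1 x.2), ?_⟩⟩
  rw [eq_top_iff]
  rintro ω -
  rw [A5_expand b L ω]
  refine Submodule.sum_mem _ fun j _ => Submodule.sum_mem _ fun q _ => Submodule.smul_mem _ _ ?_
  refine Submodule.subset_span ?_
  rw [Finset.coe_image]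
  exact ⟨(j, q), by simp, rfl⟩

/-- evaluation at a point -/
private def A5_ev {G P : Type} [Group G] [AddCommGroup P] [DistribMulAction G P]
    (L : Subgroup G) (p : P) : IM L P →ₗ[ℚ] ℚ where
  toFun ω := ω.1 p
  map_add' _ _ := rfl
  map_smul' _ _ := rfl

/-- PIECE ACH-A5 (130 lines).  Trace formula.  For `ω` invariant under `L` and `b = (φ_j, e_j)`:
`ω(p) = Σ_j Σ_g φ_j(g⁻¹p) ω(g e_j)` and `ω(g e_j) = ω(q.out e_j)` for `q = ḡ` (as
`g = l q.out`, `l ∈ L`, `L` normal).  So `id = Σ_{j,q} ev_{q.out e_j} ⊗ v_{j,q}` with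
`v_{j,q} = tw φ_j (g ↦ if ḡ = q then 1 else 0) ∈ IM L P`, and the trace of `Φ = pull F` is
`Σ_{j,q} v_{j,q}(F(q.out e_j))` (`Φ = Σ smulRight ev (Φ v)`, `LinearMap.trace_smulRight`)
`= Σ_{j,q} Σ_{g, ḡ = q} φ_j(g⁻¹ θ(q.out) F e_j)`.  Substituting `γ = g⁻¹ θ(q.out)` this is
`Σ_j Σ_γ φ_j(γ F e_j) #{q | θ̄ q = q γ̄}`, a multiple of `Nat.card FixQ` by `card_twisted`. -/
theorem trace_pull {G P : Type} [Group G] [AddCommGroup P] [DistribMulAction G P] (b : DB G P)
    (θ : G ≃* G) (L : Subgroup G) [L.Normal] (hL : L.index ≠ 0) (h : ∀ g, θ g ∈ L ↔ g ∈ L)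
    (F : P →+ P) (hF : ∀ (g : G) (p : P), F (g • p) = θ g • F p) :
    ∃ n : ℤ, LinearMap.trace ℚ (IM L P) (pull (resAut θ L h) F (fun g p => hF g p))
      = (n : ℚ) * Nat.card (FixQ θ L h) := by
  classical
  have : L.FiniteIndex := ⟨hL⟩
  let _ : Fintype (G ⧸ L) := Subgroup.fintypeQuotientOfFiniteIndex
  have := A5_finite b L
  set Φ := pull (resAut θ L h) F (fun g p => hF g p) with hΦ
  have h1 : Φ = ∑ j, ∑ q : G ⧸ L, (A5_ev L (q.out • b.e j)).smulRight (Φ (A5_v b L j q)) := by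
    apply LinearMap.ext
    intro ω
    conv_lhs => rw [A5_expand b L ω]
    simp only [map_sum, map_smul, LinearMap.sum_apply, LinearMap.smulRight_apply]
    rfl
  have h2 : LinearMap.trace ℚ (IM L P) Φ = ∑ j, ∑ q : G ⧸ L,
      (A5_v b L j q).1 (θ q.out • F (b.e j)) := by
    rw [h1]
    simp only [map_sum, LinearMap.trace_smulRight]
    refine Finset.sum_congr rfl fun j _ => Finset.sum_congr rfl fun q _ => ?_
    change (A5_v b L j q).1 (F (q.out • b.e j)) = _
    rw [hF]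
  have hfin : ∀ j, {γ : G | b.φ j (γ • F (b.e j)) ≠ 0}.Finite := by
    intro j
    refine ((b.fs j (F (b.e j))).preimage (inv_injective.injOn (s := _))).subset fun γ hγ => ?_
    simp only [Set.mem_preimage, Set.mem_ofPred_eq, inv_inv]
    exact hγ
  have h3 : ∀ j, ∀ q : G ⧸ L, (A5_v b L j q).1 (θ q.out • F (b.e j)) =
      ∑ γ ∈ (hfin j).toFinset, (b.φ j (γ • F (b.e j)) : ℚ) *
        (if QuotientGroup.map L L (θ : G →* G) (fun g hg => (h g).2 hg) q = q * (γ : G ⧸ L)
          then (1 : ℚ) else 0) := by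
    intro j q
    rw [A5_v_apply, ← finsum_comp_equiv ((Equiv.inv G).trans (Equiv.mulLeft (θ q.out)))]
    rw [finsum_eq_sum_of_support_subset (s := (hfin j).toFinset)]
    · refine Finset.sum_congr rfl fun γ _ => ?_
      have h4 : (((Equiv.inv G).trans (Equiv.mulLeft (θ q.out))) γ) = θ q.out * γ⁻¹ := rfl
      rw [h4, smul_smul, mul_inv_rev, inv_inv, inv_mul_cancel_right, zsmul_eq_mul]
      congr 1
      have h5 : QuotientGroup.map L L (θ : G →* G) (fun g hg => (h g).2 hg) q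
          = ((θ q.out : G) : G ⧸ L) := by
        conv_lhs => rw [← Quotient.out_eq' q]
        rfl
      have h6 : ((θ q.out * γ⁻¹ : G) : G ⧸ L) = q ↔
          QuotientGroup.map L L (θ : G →* G) (fun g hg => (h g).2 hg) q = q * (γ : G ⧸ L) := by
        rw [h5, QuotientGroup.mk_mul, QuotientGroup.mk_inv, mul_inv_eq_iff_eq_mul]
      by_cases h7 : ((θ q.out * γ⁻¹ : G) : G ⧸ L) = q
      · rw [if_pos h7, if_pos (h6.1 h7)]
      · rw [if_neg h7, if_neg fun h8 => h7 (h6.2 h8)]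
    · intro γ hγ
      rw [Set.Finite.coe_toFinset]
      intro h0
      apply hγ
      have h4 : (((Equiv.inv G).trans (Equiv.mulLeft (θ q.out))) γ) = θ q.out * γ⁻¹ := rfl
      simp only [h4, smul_smul, mul_inv_rev, inv_inv, inv_mul_cancel_right]
      rw [h0, zero_smul]
  have h4 : ∀ j, ∃ n : ℤ, ∑ q : G ⧸ L, (A5_v b L j q).1 (θ q.out • F (b.e j)) =
      (n : ℚ) * Nat.card (FixQ θ L h) := by
    intro j
    obtain ⟨n, hn⟩ := card_twisted θ L hL h (fun γ => b.φ j (γ • F (b.e j)))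
    refine ⟨n, ?_⟩
    rw [finsum_eq_sum_of_support_subset (s := (hfin j).toFinset)] at hn
    · have h5 := congrArg (fun x : ℤ => (x : ℚ)) hn
      simp only [Int.cast_sum, Int.cast_mul, Int.cast_natCast] at h5
      rw [mul_comm, ← h5, Finset.sum_congr rfl fun q _ => h3 j q, Finset.sum_comm]
      refine Finset.sum_congr rfl fun γ _ => ?_
      rw [← Finset.mul_sum, Finset.sum_boole, Nat.card_eq_fintype_card, Fintype.card_subtype]
    · intro γ hγ
      rw [Set.Finite.coe_toFinset]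
      intro h0
      apply hγ
      simp only
      rw [h0, zero_mul]
  choose n hn using h4
  refine ⟨∑ j, n j, ?_⟩
  rw [h2, Finset.sum_congr rfl fun j _ => hn j, ← Finset.sum_mul]
  push_cast
  rfl

end Pool.ACH
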