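import Pool.Agent.Helper20.ACH.P3

/-! Project ACH (MP_9d9192_al). -/

set_option autoImplicit false

namespace Pool.ACH

variable {G : Type} [Group G] {P0 P1 P2 P3 : Type} [AddCommGroup P0] [AddCommGroup P1]
    [AddCommGroup P2] [AddCommGroup P3] [DistribMulAction G P0] [DistribMulAction G P1]
    [DistribMulAction G P2] [DistribMulAction G P3]

/-- PIECE ACH-A6 (60 lines).  `g ↦ [χ_g ⊗ a]` is a homomorphism to `(P2 → ℚ)/Cob` for every `a`
(`chi_mul`), so `χ_g ⊗ (n a) ~ χ_{g^n} ⊗ a`, and it kills commutators; as `g^n ∈ commutator G` for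
some `n > 0` (finite abelianization), `χ_g ⊗ a = χ_g ⊗ (n (a/n)) ~ 0`. -/
theorem PD3Data.chi_rat (D : PD3Data G P0 P1 P2 P3) (hfin : Finite (Abelianization G)) (g : G)
    (a : ℚ) : D.Cob (D.chi g a) := by
  classical
  -- the subgroup of coboundaries and the quotient
  let C : AddSubgroup (P2 →+ ℚ) :=
    { carrier := {ω | D.Cob ω}
      zero_mem' := PD3Data.Cob.zero D
      add_mem' := fun h h' => PD3Data.Cob.add D h h'
      neg_mem' := fun h => PD3Data.Cob.neg D h }
  have hmk : ∀ ω : P2 →+ ℚ, (QuotientAddGroup.mk ω : (P2 →+ ℚ) ⧸ C) = 0 ↔ D.Cob ω :=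
    fun ω => QuotientAddGroup.eq_zero_iff ω
  have hmul : ∀ (b : ℚ) (x y : G), (QuotientAddGroup.mk (D.chi (x * y) b) : (P2 →+ ℚ) ⧸ C) =
      QuotientAddGroup.mk (D.chi x b) + QuotientAddGroup.mk (D.chi y b) := by
    intro b x y
    have h1 := (hmk _).2 (D.chi_mul x y b)
    rw [QuotientAddGroup.mk_sub, QuotientAddGroup.mk_sub, sub_eq_zero, sub_eq_iff_eq_add] at h1
    rw [h1, add_comm]
  let f : ℚ → G →* Multiplicative ((P2 →+ ℚ) ⧸ C) := fun b =>
    MonoidHom.mk' (fun x => Multiplicative.ofAdd (QuotientAddGroup.mk (D.chi x b))) (by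
      intro x y
      rw [hmul b x y]
      rfl)
  have hn : 0 < Nat.card (Abelianization G) := Nat.card_pos
  set n := Nat.card (Abelianization G) with hndef
  have hkill : ∀ b : ℚ, n • (QuotientAddGroup.mk (D.chi g b) : (P2 →+ ℚ) ⧸ C) = 0 := by
    intro b
    have h1 : (Abelianization.of g) ^ n = 1 := pow_card_eq_one'
    have h2 : Abelianization.lift (f b) ((Abelianization.of g) ^ n) = 1 := by
      rw [h1, map_one]
    rw [map_pow, Abelianization.lift_apply_of] at h2
    exact h2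
  have hadd : ∀ m : ℕ, ∀ b : ℚ, D.chi g (m • b) = m • D.chi g b := by
    intro m b
    exact map_nsmul (AddMonoidHom.mk' (fun c : ℚ => D.chi g c) fun x y => D.chi_add_right g x y)
      m b
  have h3 := hkill (a / n)
  have h4 : n • (a / (n : ℚ)) = a := by
    rw [nsmul_eq_mul]
    field_simp
  rw [← hmk]
  have h5 : (QuotientAddGroup.mk (D.chi g a) : (P2 →+ ℚ) ⧸ C) =
      n • QuotientAddGroup.mk (D.chi g (a / n)) := by
    conv_lhs => rw [← h4, hadd]
    rfl
  rw [h5, h3]

end Pool.ACH
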