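import Pool.Agent.Helper20.ACH.Defs

/-! Project ACH (MP_9d9192_al). -/

set_option autoImplicit false

namespace Pool.ACH

variable {G : Type} [Group G] {P0 P1 P2 P3 : Type} [AddCommGroup P0] [AddCommGroup P1]
    [AddCommGroup P2] [AddCommGroup P3] [DistribMulAction G P0] [DistribMulAction G P1]
    [DistribMulAction G P2] [DistribMulAction G P3]

/-- PIECE ACH-F1 (120 lines).  `G` is finitely generated.  Let `S` be the finite set of all `g`
with `(D.b0.φ i) (g⁻¹ • D.d0 (D.b1.e j)) ≠ 0` for some `i, j`, and `H = Subgroup.closure S`.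
Let `f : P0 →+ ((G ⧸ H) →₀ ℤ)`, `f = D.b0.lift (fun i g => single (g : G ⧸ H) (D.ε (D.b0.e i)))`;
it satisfies `f (g • p) = g • f p` (left translation on `G ⧸ H`, i.e. `Finsupp.mapDomain`), and
the sum of the coefficients of `f p` is `ε p` (`DB.expand_inv` for `ε`).  By the choice of `S`,
`f (d0 (e_j))` is a multiple of `single (1 : G ⧸ H)`, with sum of coefficients
`ε (d0 e_j) = 0`; so `f (d0 e_j) = 0`, so `f ∘ d0 = 0` (`DB.expand`), so `f (g • p0 - p0) = 0`
(`exact0`), so `f p0` is invariant under `G`, of finite support and with sum of coefficients `1`.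
As `G` is transitive on `G ⧸ H`, `f p0` is constant and nonzero, so `G ⧸ H` is finite, and its
cardinality divides `1`.  So `H = ⊤`. -/
theorem PD3Data.fg (D : PD3Data G P0 P1 P2 P3) : Group.FG G := by
  classical
  let S : Set G := ⋃ i : D.b0.J, ⋃ j : D.b1.J, {g : G | D.b0.φ i (g⁻¹ • D.d0 (D.b1.e j)) ≠ 0}
  have hSfin : S.Finite := by
    apply Set.finite_iUnion
    intro i
    apply Set.finite_iUnion
    intro j
    exact D.b0.fs i _
  let H : Subgroup G := Subgroup.closure S
  let f : P0 →+ ((G ⧸ H) →₀ ℤ) :=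
    D.b0.lift (fun i g => Finsupp.single (g : G ⧸ H) (D.ε (D.b0.e i)))
  let σ : ((G ⧸ H) →₀ ℤ) →+ ℤ := Finsupp.liftAddHom (fun _ => AddMonoidHom.id ℤ)
  have hσs : ∀ (x : G ⧸ H) (n : ℤ), σ (Finsupp.single x n) = n := by
    intro x n
    simp [σ]
  have hinv : Inv G D.ε := D.ε_smul
  -- equivariance
  have hfs : ∀ (g : G) (p : P0), f (g • p) = Finsupp.mapDomain (fun x : G ⧸ H => g • x) (f p) := by
    intro g p
    have h1 : f (g • p) = _ := D.b0.lift_smul _ g p
    rw [h1, DB.lift_apply]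
    have h2 : Finsupp.mapDomain (fun x : G ⧸ H => g • x) (f p) =
        (Finsupp.mapDomain.addMonoidHom (fun x : G ⧸ H => g • x) : ((G ⧸ H) →₀ ℤ) →+ _) (f p) := rfl
    have h3 : f p = _ := D.b0.lift_apply _ p
    rw [h2, h3, map_sum]
    refine Finset.sum_congr rfl fun i _ => ?_
    rw [map_tw]
    congr 2
    funext h
    simp only [Finsupp.mapDomain.addMonoidHom_apply, Finsupp.mapDomain_single]
    rfl
  -- the sum of the coefficients
  have hσf : ∀ p : P0, σ (f p) = D.ε p := by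
    intro p
    have h3 : f p = _ := D.b0.lift_apply _ p
    rw [h3, map_sum, D.b0.expand_inv D.ε hinv p]
    refine Finset.sum_congr rfl fun i _ => ?_
    rw [map_tw]
    congr 2
    funext h
    exact hσs _ _
  have hε0 : ∀ q : P1, D.ε (D.d0 q) = 0 := fun q => (D.exact0 _).mpr ⟨q, rfl⟩
  -- the generators
  have hfe : ∀ j, f (D.d0 (D.b1.e j)) = 0 := by
    intro j
    have h1 : f (D.d0 (D.b1.e j)) = _ := D.b0.lift_apply _ _
    have h2 : ∀ i, tw (D.b0.φ i) (D.b0.fs i)
        (fun g => Finsupp.single (g : G ⧸ H) (D.ε (D.b0.e i))) (D.d0 (D.b1.e j)) =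
        Finsupp.singleAddHom ((1 : G) : G ⧸ H)
          (tw (D.b0.φ i) (D.b0.fs i) (fun _ => D.ε (D.b0.e i)) (D.d0 (D.b1.e j))) := by
      intro i
      rw [map_tw, tw_apply, tw_apply]
      refine finsum_congr fun g => ?_
      by_cases hg : D.b0.φ i (g⁻¹ • D.d0 (D.b1.e j)) = 0
      · rw [hg, zero_smul, zero_smul]
      · have hgS : g ∈ S := by
          simp only [S, Set.mem_iUnion]
          exact ⟨i, j, hg⟩
        have hgH : g ∈ H := Subgroup.subset_closure hgS
        have h4 : (g : G ⧸ H) = ((1 : G) : G ⧸ H) := by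
          rw [QuotientGroup.eq]
          simpa using hgH
        rw [h4]
        rfl
    rw [h1, Finset.sum_congr rfl (fun i _ => h2 i), ← map_sum, ← D.b0.expand_inv D.ε hinv,
      hε0, map_zero]
  have hfd : ∀ q : P1, f (D.d0 q) = 0 := by
    intro q
    have h1 := D.b1.expand (f.comp D.d0) q
    have h2 : ∀ (j : D.b1.J) (g : G), (f.comp D.d0) (g • D.b1.e j) = 0 := by
      intro j g
      rw [AddMonoidHom.comp_apply, D.d0_smul, hfs, hfe, Finsupp.mapDomain_zero]
    simp only [h2, tw_zero, AddMonoidHom.zero_apply, Finset.sum_const_zero] at h1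
    exact h1
  -- the invariant vector
  have hvi : ∀ g : G, Finsupp.mapDomain (fun x : G ⧸ H => g • x) (f D.p0) = f D.p0 := by
    intro g
    have h1 : D.ε (g • D.p0 - D.p0) = 0 := by rw [map_sub, D.ε_smul, sub_self]
    obtain ⟨q, hq⟩ := (D.exact0 _).mp h1
    have h2 := hfd q
    rw [hq, map_sub, sub_eq_zero] at h2
    rw [← hfs, h2]
  have hc : ∀ x : G ⧸ H, f D.p0 x = f D.p0 ((1 : G) : G ⧸ H) := by
    intro x
    obtain ⟨g, rfl⟩ := QuotientGroup.mk_surjective x
    have h1 : Function.Injective (fun x : G ⧸ H => g • x) := MulAction.injective g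
    have h2 := Finsupp.mapDomain_apply h1 (f D.p0) ((1 : G) : G ⧸ H)
    rw [hvi g] at h2
    have h3 : g • ((1 : G) : G ⧸ H) = ((g : G) : G ⧸ H) := by
      change (((g * 1 : G)) : G ⧸ H) = _
      rw [mul_one]
    have h4 : f D.p0 (g • ((1 : G) : G ⧸ H)) = f D.p0 ((1 : G) : G ⧸ H) := h2
    rw [h3] at h4
    exact h4
  have hσ1 : σ (f D.p0) = 1 := by rw [hσf, D.ε_p0]
  have hcne : f D.p0 ((1 : G) : G ⧸ H) ≠ 0 := by
    intro h0
    have h1 : f D.p0 = 0 := by
      ext x
      rw [hc x, h0]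
      rfl
    rw [h1, map_zero] at hσ1
    exact zero_ne_one hσ1
  have hfin : Finite (G ⧸ H) := by
    have h1 : (Set.univ : Set (G ⧸ H)) ⊆ (f D.p0).support := by
      intro x _
      rw [Finset.mem_coe, Finsupp.mem_support_iff, hc x]
      exact hcne
    exact Set.finite_univ_iff.mp ((f D.p0).support.finite_toSet.subset h1)
  have : Fintype (G ⧸ H) := Fintype.ofFinite _
  have hsum : σ (f D.p0) = (Fintype.card (G ⧸ H) : ℤ) * f D.p0 ((1 : G) : G ⧸ H) := by
    have h1 : σ (f D.p0) = (f D.p0).sum (fun _ n => n) := by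
      simp only [σ, Finsupp.liftAddHom_apply]
      rfl
    rw [h1, Finsupp.sum_fintype _ _ (fun _ => rfl), Finset.sum_congr rfl (fun x _ => hc x),
      Finset.sum_const, Finset.card_univ, nsmul_eq_mul]
  rw [hσ1] at hsum
  have hcard : Fintype.card (G ⧸ H) = 1 := by
    have h1 : (Fintype.card (G ⧸ H) : ℤ) ∣ 1 := ⟨_, hsum⟩
    have h2 := Int.eq_one_of_dvd_one (by positivity) h1
    exact_mod_cast h2
  have hindex : H.index = 1 := by
    rw [Subgroup.index, Nat.card_eq_fintype_card, hcard]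
  have htop : H = ⊤ := Subgroup.index_eq_one.mp hindex
  exact Group.fg_iff.mpr ⟨S, htop, hSfin⟩

theorem Achiral.fg {θ : G ≃* G} (hA : Achiral G θ) : Group.FG G := by
  obtain ⟨P0, P1, P2, P3, _, _, _, _, _, _, _, _, D, _⟩ := hA
  exact D.fg

end Pool.ACH
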