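import Pool.Agent.Helper20.ACH.Defs

/-! Project ACH (MP_9d9192_al). -/

set_option autoImplicit false

namespace Pool.ACH

variable {G : Type} [Group G]

/-- PIECE ACH-F2 (50 lines).  A finitely generated group which does not map onto `ℤ` has no
nonzero homomorphism to `ℚ`: multiply `f` by a common denominator of its values on a finite
generating set; the values are then integers, the image is `dℤ`, `d ≠ 0`; divide by `d`. -/
theorem hom_rat_eq_zero (hfg : Group.FG G)
    (h : ¬ ∃ f : G →* Multiplicative ℤ, Function.Surjective f) (y : G → ℚ)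
    (hy : ∀ g h, y (g * h) = y g + y h) (g : G) : y g = 0 := by
  classical
  by_contra hg
  have hy1 : y 1 = 0 := by
    have := hy 1 1
    rw [mul_one] at this
    linarith
  have hyinv : ∀ g, y g⁻¹ = - y g := by
    intro g
    have := hy g g⁻¹
    rw [mul_inv_cancel, hy1] at this
    linarith
  obtain ⟨S, hS⟩ := Group.fg_def.1 hfg
  set N : ℕ := ∏ s ∈ S, (y s).den with hN
  have hN0 : (N : ℚ) ≠ 0 := by
    rw [hN]
    exact_mod_cast Finset.prod_ne_zero_iff.2 fun s _ => (y s).den_nz
  have hint : ∀ g : G, ∃ k : ℤ, (N : ℚ) * y g = k := by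
    intro g
    have hmem : g ∈ Subgroup.closure (S : Set G) := by
      rw [hS]
      trivial
    induction hmem using Subgroup.closure_induction with
    | mem x hx =>
      obtain ⟨c, hc⟩ : (y x).den ∣ N := Finset.dvd_prod_of_mem (fun s => (y s).den) hx
      refine ⟨c * (y x).num, ?_⟩
      have h1 : ((y x).den : ℚ) * y x = (y x).num := Rat.den_mul_eq_num (y x)
      rw [hc]
      push_cast
      calc ((y x).den : ℚ) * c * y x = c * (((y x).den : ℚ) * y x) := by ring
        _ = c * (y x).num := by rw [h1]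
    | one => exact ⟨0, by rw [hy1]; simp⟩
    | mul a b _ _ ha hb =>
      obtain ⟨k, hk⟩ := ha
      obtain ⟨l, hl⟩ := hb
      refine ⟨k + l, ?_⟩
      rw [hy, mul_add, hk, hl]
      push_cast
      ring
    | inv a _ ha =>
      obtain ⟨k, hk⟩ := ha
      refine ⟨-k, ?_⟩
      rw [hyinv, mul_neg, hk]
      push_cast
      ring
  choose z hz using hint
  have hzmul : ∀ a b, z (a * b) = z a + z b := by
    intro a b
    have : ((z (a * b) : ℤ) : ℚ) = ((z a + z b : ℤ) : ℚ) := by
      rw [← hz, hy, mul_add, hz, hz]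
      push_cast
      ring
    exact_mod_cast this
  have hz1 : z 1 = 0 := by
    have := hzmul 1 1
    rw [mul_one] at this
    linarith
  have hzinv : ∀ a, z a⁻¹ = - z a := by
    intro a
    have := hzmul a a⁻¹
    rw [mul_inv_cancel, hz1] at this
    linarith
  have hzg : z g ≠ 0 := by
    intro h0
    have h1 := hz g
    rw [h0] at h1
    rcases mul_eq_zero.1 (h1.trans (by simp)) with h2 | h2
    · exact hN0 h2
    · exact hg h2
  let H : AddSubgroup ℤ :=
    { carrier := {k | ∃ a, z a = k}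
      zero_mem' := ⟨1, hz1⟩
      add_mem' := by
        rintro _ _ ⟨a, rfl⟩ ⟨b, rfl⟩
        exact ⟨a * b, hzmul a b⟩
      neg_mem' := by
        rintro _ ⟨a, rfl⟩
        exact ⟨a⁻¹, hzinv a⟩ }
  obtain ⟨d, hd⟩ := Int.subgroup_cyclic H
  have hmem : ∀ k : ℤ, k ∈ H ↔ ∃ n : ℤ, n • d = k := by
    intro k
    rw [hd]
    exact AddSubgroup.mem_closure_singleton
  have hdvd : ∀ a, ∃ n : ℤ, n * d = z a := by
    intro a
    obtain ⟨n, hn⟩ := (hmem (z a)).1 ⟨a, rfl⟩
    exact ⟨n, by rw [← hn, smul_eq_mul]⟩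
  have hd0 : d ≠ 0 := by
    intro h0
    obtain ⟨n, hn⟩ := hdvd g
    rw [h0, mul_zero] at hn
    exact hzg hn.symm
  obtain ⟨g₀, hg₀⟩ : ∃ a, z a = d := (hmem d).2 ⟨1, one_smul _ _⟩
  choose q hq using hdvd
  have hqmul : ∀ a b, q (a * b) = q a + q b := by
    intro a b
    have h1 : q (a * b) * d = (q a + q b) * d := by
      rw [hq, hzmul, add_mul, hq, hq]
    exact mul_right_cancel₀ hd0 h1
  have hq1 : q 1 = 0 := by
    have := hqmul 1 1
    rw [mul_one] at this
    linarith
  have hq0 : q g₀ = 1 := by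
    have h1 := hq g₀
    rw [hg₀] at h1
    have h2 : q g₀ * d = 1 * d := by rw [h1, one_mul]
    exact mul_right_cancel₀ hd0 h2
  let f : G →* Multiplicative ℤ :=
    { toFun := fun a => Multiplicative.ofAdd (q a)
      map_one' := by rw [hq1]; rfl
      map_mul' := fun a b => by rw [hqmul]; rfl }
  refine h ⟨f, fun n => ⟨g₀ ^ (Multiplicative.toAdd n), ?_⟩⟩
  rw [map_zpow]
  have h1 : f g₀ = Multiplicative.ofAdd 1 := by
    change Multiplicative.ofAdd (q g₀) = _
    rw [hq0]
  rw [h1, ← ofAdd_zsmul]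
  simp

end Pool.ACH
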