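import Pool.Agent.Helper20.ACH.Defs

/-! Project ACH (MP_9d9192_al). -/

set_option autoImplicit false

namespace Pool.ACH

variable {G : Type} [Group G]

/-- PIECE ACH-F3 (70 lines).  The abelianization of a finitely generated group which does not map
onto `ℤ` is finite (structure of finitely generated abelian groups:
`CommGroup.equiv_free_prod_prod_multiplicative_zmod` or
`AddCommGroup.equiv_free_prod_directSum_zmod`). -/
theorem finite_abelianization (hfg : Group.FG G)
    (h : ¬ ∃ f : G →* Multiplicative ℤ, Function.Surjective f) : Finite (Abelianization G) := by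
  have : Group.FG G := hfg
  have : Group.FG (Abelianization G) :=
    Group.fg_of_surjective (f := Abelianization.of) (QuotientGroup.mk_surjective)
  obtain ⟨ι, j, hι, hj, p, hp, e, ⟨E⟩⟩ :=
    CommGroup.equiv_free_prod_prod_multiplicative_zmod (Abelianization G)
  have hempty : IsEmpty j := by
    by_contra hne
    rw [not_isEmpty_iff] at hne
    obtain ⟨a⟩ := hne
    apply h
    refine ⟨((Pi.evalMonoidHom (fun _ : j => Multiplicative ℤ) a).comp
      (MonoidHom.fst _ _)).comp (E.toMonoidHom.comp Abelianization.of), ?_⟩
    intro y
    obtain ⟨g, hg⟩ := QuotientGroup.mk_surjective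
      (E.symm ((fun _ => y), 1) : Abelianization G)
    refine ⟨g, ?_⟩
    have hg' : Abelianization.of g = E.symm ((fun _ => y), 1) := hg
    simp [hg']
  have : ∀ i, NeZero (p i ^ e i) := fun i => ⟨pow_ne_zero _ (hp i).ne_zero⟩
  have : ∀ i, Finite (Multiplicative (ZMod (p i ^ e i))) := fun i =>
    (inferInstance : Finite (ZMod (p i ^ e i)))
  have : Finite (j → Multiplicative ℤ) := by infer_instance
  exact Finite.of_equiv _ E.symm.toEquiv

end Pool.ACH
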