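import Pool.Agent.Helper20.ACH.H1

/-! Project ACH (MP_9d9192_al). -/

set_option autoImplicit false

namespace Pool.ACH

variable {G : Type} [Group G] {P0 P1 P2 P3 : Type} [AddCommGroup P0] [AddCommGroup P1]
    [AddCommGroup P2] [AddCommGroup P3] [DistribMulAction G P0] [DistribMulAction G P1]
    [DistribMulAction G P2] [DistribMulAction G P3]

variable (D : PD3Data G P0 P1 P2 P3)

variable {A : Type*} [AddCommGroup A]

namespace PD3Data

/-- PIECE ACH-H1 (60 lines).  Degree one: an invariant cocycle `ω : P1 → A`, `ω∘d1 = 0`, comes from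
a homomorphism `β`.  `ω` factors through `d0` on `ker ε`: there is an additive
`b' : ker ε → A` with `b'(d0 p) = ω p`, invariant; `β g = b'(g p0 - p0)`,
`B(p) = b'(p - ε(p) p0)`. -/
theorem exists_hom (ω : P1 →+ A) (hω : Inv G ω) (h : ∀ p, ω (D.d1 p) = 0) :
    ∃ (β : G → A) (B : P0 →+ A), (∀ g h, β (g * h) = β g + β h) ∧
      (∀ g p, B (g • p) = B p + D.ε p • β g) ∧ ∀ p, ω p = B (D.d0 p) := by
  have key : ∀ q q' : P1, D.d0 q = D.d0 q' → ω q = ω q' := by
    intro q q' hqq
    obtain ⟨r, hr⟩ := (D.exact1 (q - q')).1 (by rw [map_sub, hqq, sub_self])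
    have h1 := h r
    rw [hr, map_sub] at h1
    exact sub_eq_zero.1 h1
  have hex : ∀ p : P0, ∃ q, D.d0 q = p - D.ε p • D.p0 := by
    intro p
    refine (D.exact0 _).1 ?_
    rw [map_sub, map_zsmul, D.ε_p0]
    simp
  choose q hq using hex
  let B : P0 →+ A := AddMonoidHom.mk' (fun p => ω (q p)) (by
    intro a b
    rw [← map_add]
    refine key _ _ ?_
    rw [map_add, hq, hq, hq, map_add, add_smul]
    abel)
  have hB : ∀ (p : P0) (x : P1), D.d0 x = p - D.ε p • D.p0 → ω x = B p := fun p x hx =>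
    key _ _ (hx.trans (hq p).symm)
  have h2 : ∀ (g : G) (p : P0), B (g • p) = B p + D.ε p • B (g • D.p0) := by
    intro g p
    rw [← hB (g • p) (g • q p + D.ε p • q (g • D.p0)) ?_]
    · rw [map_add, hω, map_zsmul]
      rfl
    · rw [map_add, D.d0_smul, hq, map_zsmul, hq, D.ε_smul, D.ε_smul, D.ε_p0, one_smul, smul_sub,
        smul_sub, smul_comm g (D.ε p) D.p0]
      abel
  refine ⟨fun g => B (g • D.p0), B, ?_, h2, ?_⟩
  · intro g k
    show B ((g * k) • D.p0) = B (g • D.p0) + B (k • D.p0)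
    rw [mul_smul, h2, D.ε_smul, D.ε_p0, one_smul, add_comm]
  · intro p
    refine hB _ _ ?_
    have : D.ε (D.d0 p) = 0 := (D.exact0 _).2 ⟨p, rfl⟩
    rw [this, zero_smul, sub_zero]

end PD3Data

end Pool.ACH
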