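import Pool.Agent.Helper20.ACH.P1

/-! Project ACH (MP_9d9192_al). -/

set_option autoImplicit false

namespace Pool.ACH

variable {G : Type} [Group G] {P0 P1 P2 P3 : Type} [AddCommGroup P0] [AddCommGroup P1]
    [AddCommGroup P2] [AddCommGroup P3] [DistribMulAction G P0] [DistribMulAction G P1]
    [DistribMulAction G P2] [DistribMulAction G P3]

variable (D : PD3Data G P0 P1 P2 P3)

variable {k : Type*} [AddCommGroup k]

namespace PD3Data

/-- PIECE ACH-P2 (60 lines, uses `deg_key`).  The functional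
`L ω = Σ_j deg φ_j • ω(e_j)` on additive maps `P3 → k` satisfies `L (a · N z) = a` and
`L (ω ∘ d2) = 0` for `ω : P2 → k` invariant: `ω = Σ_i tw φ²_i (const ω(e²_i))`
(`DB.expand_inv` for `b2`), so `ω(d2 e_j) = Σ_i (N(φ²_i ∘ d2))(e_j) • ω(e²_i)` (`tw_comp`,
`tw_const`), and `Σ_j deg φ_j (N(φ²_i∘d2))(e_j) = deg (φ²_i ∘ d2) = 0`. -/
theorem top_zero (a : k) (ω : P2 →+ k) (hω : Inv G ω)
    (h : ∀ p, tw D.z D.z_fs (fun _ => a) p = ω (D.d2 p)) : a = 0 := by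
  have hfs : ∀ i, IsFs G ((D.b2.φ i).comp D.d2) := fun i => (D.b2.fs i).comp D.d2 D.d2_smul
  have h1 : ∑ j, D.deg (D.b3.φ j) (D.b3.fs j) • tw D.z D.z_fs (fun _ => a) (D.b3.e j) = a := by
    have h2 : ∀ j, D.deg (D.b3.φ j) (D.b3.fs j) • tw D.z D.z_fs (fun _ => a) (D.b3.e j) =
        ((tw D.z D.z_fs (fun _ => (1 : ℤ)) (D.b3.e j)) * D.deg (D.b3.φ j) (D.b3.fs j)) • a := by
      intro j
      rw [tw_const, smul_smul, mul_comm]
    rw [Finset.sum_congr rfl fun j _ => h2 j, ← Finset.sum_smul, D.deg_key D.z D.z_fs, D.deg_z,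
      one_smul]
  have h3 : ∑ j, D.deg (D.b3.φ j) (D.b3.fs j) • ω (D.d2 (D.b3.e j)) = 0 := by
    have h4 : ∀ j, D.deg (D.b3.φ j) (D.b3.fs j) • ω (D.d2 (D.b3.e j)) =
        ∑ i, ((tw ((D.b2.φ i).comp D.d2) (hfs i) (fun _ => (1 : ℤ)) (D.b3.e j)) *
          D.deg (D.b3.φ j) (D.b3.fs j)) • ω (D.b2.e i) := by
      intro j
      rw [D.b2.expand_inv ω hω (D.d2 (D.b3.e j)), Finset.smul_sum]
      refine Finset.sum_congr rfl fun i _ => ?_
      rw [tw_comp (D.b2.φ i) (D.b2.fs i) D.d2 D.d2_smul (hfs i), tw_const, smul_smul, mul_comm]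
    rw [Finset.sum_congr rfl fun j _ => h4 j, Finset.sum_comm]
    refine Finset.sum_eq_zero fun i _ => ?_
    rw [← Finset.sum_smul, D.deg_key _ (hfs i), D.deg_comp _ (D.b2.fs i) (hfs i), zero_smul]
  rw [← h1, ← h3]
  exact Finset.sum_congr rfl fun j _ => by rw [h]

/-- PIECE ACH-P2.  Every invariant `ω : P3 → k` is cohomologous to `a · N z` for some `a ∈ k`:
`ω = Σ_j tw φ_j (const ω(e_j))` and `φ_j = n_j z + ψ_j ∘ d2`, so
`ω = tw z (const (Σ_j n_j ω(e_j))) + Σ_j (tw ψ_j (const ω(e_j))) ∘ d2`. -/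
theorem top_gen (ω : P3 →+ k) (hω : Inv G ω) :
    ∃ (a : k) (ω2 : P2 →+ k), Inv G ω2 ∧
      ∀ p, ω p = tw D.z D.z_fs (fun _ => a) p + ω2 (D.d2 p) := by
  choose n ψ hψ hφ using fun j => D.D3 (D.b3.φ j) (D.b3.fs j)
  refine ⟨∑ j, n j • ω (D.b3.e j), ∑ j, tw (ψ j) (hψ j) (fun _ => ω (D.b3.e j)), ?_, ?_⟩
  · intro g p
    rw [AddMonoidHom.finsetSum_apply, AddMonoidHom.finsetSum_apply]
    exact Finset.sum_congr rfl fun j _ => tw_inv (ψ j) (hψ j) _ g p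
  · intro p
    have hfs : ∀ j, IsFs G ((ψ j).comp D.d2) := fun j => (hψ j).comp D.d2 D.d2_smul
    have hz : ∀ j, IsFs G (n j • D.z) := fun j => D.z_fs.zsmul (n j)
    rw [D.b3.expand_inv ω hω p, tw_sum Finset.univ D.z D.z_fs (fun j _ => n j • ω (D.b3.e j)),
      AddMonoidHom.finsetSum_apply, AddMonoidHom.finsetSum_apply, ← Finset.sum_add_distrib]
    refine Finset.sum_congr rfl fun j _ => ?_
    rw [tw_congr (hφ j) (D.b3.fs j) ((hz j).add (hfs j)),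
      tw_add_left (hz j) (hfs j) ((hz j).add (hfs j)), AddMonoidHom.add_apply,
      tw_zsmul_left D.z_fs (n j) (hz j), AddMonoidHom.smul_apply,
      tw_comp (ψ j) (hψ j) D.d2 D.d2_smul (hfs j)]
    congr 1
    rw [tw_const, tw_const D.z D.z_fs (n j • ω (D.b3.e j)), smul_smul, smul_smul, mul_comm]

end PD3Data

end Pool.ACH
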