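import Pool.Agent.Helper20.ACH.PD3

/-! Project ACH (MP_9d9192_al). -/

set_option autoImplicit false

namespace Pool.ACH

variable {G : Type} [Group G] {P0 P1 P2 P3 : Type} [AddCommGroup P0] [AddCommGroup P1]
    [AddCommGroup P2] [AddCommGroup P3] [DistribMulAction G P0] [DistribMulAction G P1]
    [DistribMulAction G P2] [DistribMulAction G P3]

variable (D : PD3Data G P0 P1 P2 P3)

namespace PD3Data

private theorem P1_rt (φ : P3 →+ ℤ) (h : IsFs G φ) (g : G) :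
    ∃ ψ : P2 →+ ℤ, IsFs G ψ ∧ ∀ p, φ (g • p) = D.deg φ h * D.z p + ψ (D.d2 p) := by
  obtain ⟨ψ, hψ, e⟩ := D.deg_spec φ h
  obtain ⟨c, hc, hz⟩ := D.ori g
  refine ⟨D.deg φ h • c + rt g ψ, (hc.zsmul _).add (hψ.rt g), fun p => ?_⟩
  have e1 : φ (g • p) = D.deg φ h * D.z (g • p) + ψ (D.d2 (g • p)) := by
    conv_lhs => rw [e]
    simp
  rw [e1, hz, D.d2_smul, AddMonoidHom.add_apply, AddMonoidHom.smul_apply, rt_apply, smul_eq_mul]
  ring

/-- PIECE ACH-P1 (100 lines).  Key identity: with the dual basis `φ_j, e_j` of `P3` and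
`(N f)(p) = Σ_g f(g⁻¹ p)`, one has `Σ_j (N f)(e_j) deg φ_j = deg f`.
Proof: `f = Σ_j Σ_{g ∈ S_j} f(g e_j) • rt g⁻¹ φ_j` where `S_j = {g | f(g e_j) ≠ 0}` is finite
(`DB.expand`).  Further `deg` is additive and `deg (rt g⁻¹ φ_j) = deg φ_j`: if
`φ = n z + ψ∘d2` then `rt g⁻¹ φ = n z + n c∘d2 + (rt g⁻¹ ψ)∘d2` with `c` from `D.ori g⁻¹`.
So `deg f = Σ_j (Σ_g f(g e_j)) deg φ_j`, and `Σ_g f(g e_j) = Σ_g f(g⁻¹ e_j) = (N f)(e_j)`. -/
theorem deg_key (f : P3 →+ ℤ) (hf : IsFs G f) :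
    ∑ j, (tw f hf (fun _ => (1 : ℤ)) (D.b3.e j)) * D.deg (D.b3.φ j) (D.b3.fs j)
      = D.deg f hf := by
  classical
  choose ψ hψ e using fun (j : D.b3.J) (g : G) => D.P1_rt (D.b3.φ j) (D.b3.fs j) g⁻¹
  have hS : ∀ j, {g : G | f (g • D.b3.e j) ≠ 0}.Finite := by
    intro j
    have h1 := (hf (D.b3.e j)).preimage ((inv_injective (G := G)).injOn
      (s := (fun g : G => g⁻¹) ⁻¹' {g | f (g⁻¹ • D.b3.e j) ≠ 0}))
    refine h1.subset fun g hg => ?_
    simp only [Set.mem_preimage, Set.mem_ofPred_eq, inv_inv]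
    exact hg
  have h1 : ∀ j, tw f hf (fun _ => (1 : ℤ)) (D.b3.e j) =
      ∑ g ∈ (hS j).toFinset, f (g • D.b3.e j) := by
    intro j
    rw [tw_apply, ← finsum_comp_equiv (Equiv.inv G)]
    have h2 : ∀ g : G, f ((Equiv.inv G g)⁻¹ • D.b3.e j) • (1 : ℤ) = f (g • D.b3.e j) := by
      intro g
      simp
    rw [finsum_congr h2]
    exact finsum_eq_sum_of_support_subset _ fun g hg => by
      rw [Set.Finite.coe_toFinset]
      exact hg
  symm
  refine D.deg_unique f hf _ (∑ j, ∑ g ∈ (hS j).toFinset, f (g • D.b3.e j) • ψ j g)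
    (IsFs.sum _ fun j _ => IsFs.sum _ fun g _ => (hψ j g).zsmul _) ?_
  ext p
  rw [D.b3.expand f p, AddMonoidHom.add_apply, AddMonoidHom.smul_apply, AddMonoidHom.comp_apply,
    AddMonoidHom.finsetSum_apply, smul_eq_mul, Finset.sum_mul, ← Finset.sum_add_distrib]
  refine Finset.sum_congr rfl fun j _ => ?_
  rw [tw_apply, h1 j, AddMonoidHom.finsetSum_apply, Finset.sum_mul, Finset.sum_mul,
    ← Finset.sum_add_distrib]
  rw [finsum_eq_sum_of_support_subset (s := (hS j).toFinset)]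
  · refine Finset.sum_congr rfl fun g _ => ?_
    rw [e j g p, AddMonoidHom.smul_apply, smul_eq_mul, smul_eq_mul]
    ring
  · intro g hg
    rw [Set.Finite.coe_toFinset]
    intro h0
    exact hg (by simp [h0])

end PD3Data

end Pool.ACH
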