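import Pool.Agent.Helper20.ACH.Chi
import Pool.Agent.Helper20.ACH.P1

/-! Project ACH (MP_9d9192_al). -/

set_option autoImplicit false

namespace Pool.ACH

variable {G : Type} [Group G] {P0 P1 P2 P3 : Type} [AddCommGroup P0] [AddCommGroup P1]
    [AddCommGroup P2] [AddCommGroup P3] [DistribMulAction G P0] [DistribMulAction G P1]
    [DistribMulAction G P2] [DistribMulAction G P3]

variable (D : PD3Data G P0 P1 P2 P3)

variable {k : Type*} [AddCommGroup k]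

namespace PD3Data

private theorem p4_tw_sum_left {P : Type} [AddCommGroup P] [DistribMulAction G P] {ι : Type*}
    (s : Finset ι) (φ : ι → (P →+ ℤ)) (hφ : ∀ i, IsFs G (φ i)) (h : IsFs G (∑ i ∈ s, φ i))
    (a : G → k) : tw (∑ i ∈ s, φ i) h a = ∑ i ∈ s, tw (φ i) (hφ i) a := by
  classical
  induction s using Finset.induction_on with
  | empty => ext p; simp [tw_apply]
  | insert i s hi ih =>
    have hs : IsFs G (∑ i ∈ s, φ i) := IsFs.sum s fun i _ => hφ i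
    rw [tw_congr (Finset.sum_insert hi) h ((hφ i).add hs),
      tw_add_left (hφ i) hs, ih hs, Finset.sum_insert hi]

/-- sums of classes `chi` up to coboundaries -/
private def P4Gen (ω : P2 →+ k) : Prop :=
  ∃ l : List (G × k), D.Cob (ω - (l.map fun x => D.chi x.1 x.2).sum)

private theorem p4_of_cob {ω : P2 →+ k} (h : D.Cob ω) : P4Gen D ω :=
  ⟨[], by simpa using h⟩

private theorem p4_chi (g : G) (a : k) : P4Gen D (D.chi g a) :=
  ⟨[(g, a)], by simpa using Cob.zero D⟩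

private theorem p4_add {ω ω' : P2 →+ k} (h : P4Gen D ω) (h' : P4Gen D ω') :
    P4Gen D (ω + ω') := by
  obtain ⟨l, hl⟩ := h
  obtain ⟨l', hl'⟩ := h'
  refine ⟨l ++ l', ?_⟩
  have := Cob.add D hl hl'
  rw [List.map_append, List.sum_append]
  have e : ω + ω' - ((l.map fun x => D.chi x.1 x.2).sum + (l'.map fun x => D.chi x.1 x.2).sum) =
      ω - (l.map fun x => D.chi x.1 x.2).sum + (ω' - (l'.map fun x => D.chi x.1 x.2).sum) := by
    abel
  rw [e]
  exact this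

private theorem p4_sum {ι : Type*} (s : Finset ι) (ω : ι → (P2 →+ k))
    (h : ∀ i ∈ s, P4Gen D (ω i)) : P4Gen D (∑ i ∈ s, ω i) := by
  classical
  induction s using Finset.induction_on with
  | empty => simpa using p4_of_cob D (Cob.zero D)
  | insert i s hi ih =>
    rw [Finset.sum_insert hi]
    exact p4_add D (h i (Finset.mem_insert_self i s))
      (ih fun j hj => h j (Finset.mem_insert_of_mem hj))

private theorem p4_zsmul_chi (m : ℤ) (g : G) (a : k) : m • D.chi g a = D.chi g (m • a) := by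
  ext p
  have := D.map_chi (zsmulAddGroupHom m) g a p
  simpa using this

private theorem p4_N {P : Type} [AddCommGroup P] [DistribMulAction G P] (φ : P →+ ℤ)
    (hφ : IsFs G φ) (q : P) (S : Finset G) (hS : ∀ g, φ (g • q) ≠ 0 → g ∈ S) :
    tw φ hφ (fun _ => (1 : ℤ)) q = ∑ g ∈ S, φ (g • q) := by
  rw [tw_apply, ← finsum_comp_equiv (Equiv.inv G)]
  rw [finsum_eq_sum_of_support_subset _ (s := S) ?_]
  · refine Finset.sum_congr rfl fun g _ => ?_
    simp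
  · intro g hg
    apply hS
    intro h0
    apply hg
    simp [h0]

private theorem p4_step (φ : P2 →+ ℤ) (hφ : IsFs G φ) (β : D.b3.J → (P2 →+ ℤ))
    (hβ : ∀ j, IsFs G (β j))
    (hη : ∀ j, D.b3.φ j = D.deg (D.b3.φ j) (D.b3.fs j) • D.z + (β j).comp D.d2) (a : k) :
    P4Gen D (tw φ hφ (fun _ => a) -
      ∑ j, (tw φ hφ (fun _ => (1 : ℤ)) (D.d2 (D.b3.e j))) • tw (β j) (hβ j) (fun _ => a)) := by
  classical
  have hfin : ∀ j, {g : G | φ (g • D.d2 (D.b3.e j)) ≠ 0}.Finite := by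
    intro j
    have h := (hφ (D.d2 (D.b3.e j))).preimage (inv_injective.injOn
      (s := (fun g : G => g⁻¹) ⁻¹' {g | φ (g⁻¹ • D.d2 (D.b3.e j)) ≠ 0}))
    refine h.subset fun g hg => ?_
    simpa using hg
  set S : D.b3.J → Finset G := fun j => (hfin j).toFinset with hSdef
  have hS : ∀ j g, φ (g • D.d2 (D.b3.e j)) ≠ 0 → g ∈ S j := by
    intro j g hg
    simpa [hSdef] using hg
  set n : D.b3.J → ℤ := fun j => D.deg (D.b3.φ j) (D.b3.fs j) with hn
  set Θ : D.b3.J → G → (P2 →+ ℤ) := fun j g =>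
    φ (g • D.d2 (D.b3.e j)) • (n j • D.c g⁻¹ + rt g⁻¹ (β j)) with hΘdef
  have hΘ : ∀ j g, IsFs G (Θ j g) := fun j g =>
    (((D.c_fs g⁻¹).zsmul _).add ((hβ j).rt _)).zsmul _
  have hΘ2 : ∀ j, IsFs G (∑ g ∈ S j, Θ j g) := fun j => IsFs.sum _ fun g _ => hΘ j g
  have hΘ3 : IsFs G (∑ j, ∑ g ∈ S j, Θ j g) := IsFs.sum _ fun j _ => hΘ2 j
  -- the difference vanishes on the boundaries
  have hzero : ∀ p, (φ - ∑ j, ∑ g ∈ S j, Θ j g) (D.d2 p) = 0 := by
    intro p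
    have e1 := D.b3.expand (φ.comp D.d2) p
    have e2 : ∀ j, tw (D.b3.φ j) (D.b3.fs j) (fun g => (φ.comp D.d2) (g • D.b3.e j)) p =
        (∑ g ∈ S j, φ (g • D.d2 (D.b3.e j))) * n j * D.z p + ∑ g ∈ S j, Θ j g (D.d2 p) := by
      intro j
      rw [tw_apply, finsum_eq_sum_of_support_subset _ (s := S j) ?_]
      · rw [Finset.sum_mul, Finset.sum_mul, ← Finset.sum_add_distrib]
        refine Finset.sum_congr rfl fun g _ => ?_
        have e3 : D.b3.φ j (g⁻¹ • p) =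
            n j * (D.z p + D.c g⁻¹ (D.d2 p)) + β j (g⁻¹ • D.d2 p) := by
          have e4 := DFunLike.congr_fun (hη j) (g⁻¹ • p)
          rw [AddMonoidHom.add_apply, AddMonoidHom.smul_apply, AddMonoidHom.comp_apply, D.c_spec,
            D.d2_smul, smul_eq_mul] at e4
          exact e4
        rw [e3]
        simp only [hΘdef, AddMonoidHom.comp_apply, AddMonoidHom.smul_apply,
          AddMonoidHom.add_apply, rt_apply, smul_eq_mul, D.d2_smul]
        ring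
      · intro g hg
        apply hS
        intro h0
        apply hg
        simp [D.d2_smul, h0]
    have e5 : (∑ j, (∑ g ∈ S j, φ (g • D.d2 (D.b3.e j))) * n j) = 0 := by
      have hc : IsFs G (φ.comp D.d2) := hφ.comp D.d2 D.d2_smul
      have e6 := D.deg_key (φ.comp D.d2) hc
      rw [D.deg_comp φ hφ hc] at e6
      rw [← e6]
      refine Finset.sum_congr rfl fun j _ => ?_
      rw [p4_N (φ.comp D.d2) hc (D.b3.e j) (S j) (fun g hg => hS j g (by
        simpa [D.d2_smul] using hg))]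
      simp [D.d2_smul, hn]
    have e7 : φ (D.d2 p) = (∑ j, (∑ g ∈ S j, φ (g • D.d2 (D.b3.e j))) * n j) * D.z p +
        ∑ j, ∑ g ∈ S j, Θ j g (D.d2 p) := by
      have e8 : φ (D.d2 p) = (φ.comp D.d2) p := rfl
      rw [e8, e1, Finset.sum_mul, ← Finset.sum_add_distrib]
      exact Finset.sum_congr rfl fun j _ => e2 j
    rw [AddMonoidHom.sub_apply, e7, e5, zero_mul, zero_add]
    simp [AddMonoidHom.finsetSum_apply]
  obtain ⟨ψ, hψ, hψe⟩ := D.D2 _ (hφ.sub hΘ3) hzero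
  have hψd : IsFs G (ψ.comp D.d1) := hψ.comp D.d1 D.d1_smul
  have t1 : tw (φ - ∑ j, ∑ g ∈ S j, Θ j g) (hφ.sub hΘ3) (fun _ => a) =
      tw φ hφ (fun _ => a) - ∑ j, ∑ g ∈ S j, tw (Θ j g) (hΘ j g) (fun _ => a) := by
    rw [tw_sub_left hφ hΘ3, p4_tw_sum_left _ _ hΘ2]
    congr 1
    exact Finset.sum_congr rfl fun j _ => p4_tw_sum_left _ _ (hΘ j) _ _
  have t2 : ∀ j g, tw (Θ j g) (hΘ j g) (fun _ => a) =
      (φ (g • D.d2 (D.b3.e j)) * n j) • D.chi g⁻¹ a +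
        φ (g • D.d2 (D.b3.e j)) • tw (β j) (hβ j) (fun _ => a) := by
    intro j g
    have h1 : IsFs G (n j • D.c g⁻¹) := (D.c_fs g⁻¹).zsmul _
    have h2 : IsFs G (rt g⁻¹ (β j)) := (hβ j).rt _
    have h3 : IsFs G (n j • D.c g⁻¹ + rt g⁻¹ (β j)) := h1.add h2
    have := tw_zsmul_left h3 (φ (g • D.d2 (D.b3.e j))) (hΘ j g) (fun _ => a)
    rw [this, tw_add_left h1 h2 h3, tw_zsmul_left (D.c_fs g⁻¹) (n j) h1, tw_rt _ (hβ j) g⁻¹ h2,
      smul_add, mul_smul]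
    rfl
  have t3 : D.Cob (tw (φ - ∑ j, ∑ g ∈ S j, Θ j g) (hφ.sub hΘ3) (fun _ => a)) := by
    refine ⟨tw ψ hψ (fun _ => a), tw_inv _ _ _, fun p => ?_⟩
    rw [tw_comp ψ hψ D.d1 D.d1_smul hψd, tw_congr hψe _ hψd]
  have t4 : tw φ hφ (fun _ => a) -
      ∑ j, (tw φ hφ (fun _ => (1 : ℤ)) (D.d2 (D.b3.e j))) • tw (β j) (hβ j) (fun _ => a) =
      tw (φ - ∑ j, ∑ g ∈ S j, Θ j g) (hφ.sub hΘ3) (fun _ => a) +
        ∑ j, ∑ g ∈ S j, D.chi g⁻¹ ((φ (g • D.d2 (D.b3.e j)) * n j) • a) := by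
    rw [t1]
    have t5 : ∀ j, ∑ g ∈ S j, tw (Θ j g) (hΘ j g) (fun _ => a) =
        ∑ g ∈ S j, D.chi g⁻¹ ((φ (g • D.d2 (D.b3.e j)) * n j) • a) +
        (tw φ hφ (fun _ => (1 : ℤ)) (D.d2 (D.b3.e j))) • tw (β j) (hβ j) (fun _ => a) := by
      intro j
      rw [p4_N φ hφ (D.d2 (D.b3.e j)) (S j) (hS j), Finset.sum_smul, ← Finset.sum_add_distrib]
      refine Finset.sum_congr rfl fun g _ => ?_
      rw [t2, p4_zsmul_chi]
    rw [Finset.sum_congr rfl fun j _ => t5 j, Finset.sum_add_distrib]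
    abel
  rw [t4]
  refine p4_add D (p4_of_cob D t3) (p4_sum D _ _ fun j _ => p4_sum D _ _ fun g _ => p4_chi D _ _)

/-- PIECE ACH-P4 (150 lines).  Surjectivity.  With the dual basis `η_j, f_j` of `P3` and
`η_j = n_j z + β_j∘d2`, one has for every `φ : P2 → ℤ` of finite support: the finitely supported
map `φ - Σ_j Σ_g φ(g • d2 f_j) • (n_j • c_{g⁻¹} + rt g⁻¹ β_j)` vanishes on `d2 P3`.  Indeed
`φ(d2 p) = Σ_j Σ_g η_j(g⁻¹p) φ(g d2 f_j)` (`DB.expand` for `φ∘d2`),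
`η_j(g⁻¹ p) = n_j z(p) + n_j c_{g⁻¹}(d2 p) + β_j(g⁻¹ d2 p)`, and
`Σ_j n_j Σ_g φ(g d2 f_j) = deg (φ∘d2) = 0` (`deg_key`, `deg_comp`).  So this map is `ψ∘d1` (`D2`);
apply `tw _ (const a)`:  `a·Nφ = Σ_j Σ_g φ(g d2 f_j) n_j • chi g⁻¹ a + Σ_j (Nφ)(d2 f_j) • a·Nβ_j
+ (tw ψ (const a))∘d1`.
Sum over the dual basis `φ = φ²_i`, `a = ω(e²_i)`: as `ω = Σ_i ω(e²_i)·Nφ²_i` (`expand_inv`), the
second sum becomes `Σ_j ω(d2 f_j)·Nβ_j = 0`. -/
theorem chi_surj (ω : P2 →+ k) (hω : Inv G ω) (h : ∀ p, ω (D.d2 p) = 0) :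
    ∃ (n : ℕ) (g : Fin n → G) (s : Fin n → k), D.Cob (ω - ∑ i, D.chi (g i) (s i)) := by
  choose β hβ hη using fun j => D.deg_spec (D.b3.φ j) (D.b3.fs j)
  have key : P4Gen D ω := by
    have h1 := p4_sum D Finset.univ _ fun i (_ : i ∈ Finset.univ) =>
      p4_step D (D.b2.φ i) (D.b2.fs i) β hβ hη (ω (D.b2.e i))
    have h2 : ∑ i, (tw (D.b2.φ i) (D.b2.fs i) (fun _ => ω (D.b2.e i)) -
        ∑ j, (tw (D.b2.φ i) (D.b2.fs i) (fun _ => (1 : ℤ)) (D.d2 (D.b3.e j))) •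
          tw (β j) (hβ j) (fun _ => ω (D.b2.e i))) = ω := by
      rw [Finset.sum_sub_distrib]
      have h3 : ∑ i, tw (D.b2.φ i) (D.b2.fs i) (fun _ => ω (D.b2.e i)) = ω := by
        ext p
        rw [AddMonoidHom.finsetSum_apply, ← D.b2.expand_inv ω hω]
      have h4 : ∑ i, ∑ j, (tw (D.b2.φ i) (D.b2.fs i) (fun _ => (1 : ℤ)) (D.d2 (D.b3.e j))) •
          tw (β j) (hβ j) (fun _ => ω (D.b2.e i)) = 0 := by
        rw [Finset.sum_comm]
        refine Finset.sum_eq_zero fun j _ => ?_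
        ext p
        rw [AddMonoidHom.finsetSum_apply]
        have h5 : ∀ i, ((tw (D.b2.φ i) (D.b2.fs i) (fun _ => (1 : ℤ)) (D.d2 (D.b3.e j))) •
            tw (β j) (hβ j) (fun _ => ω (D.b2.e i))) p =
            tw (β j) (hβ j) (fun _ => (1 : ℤ)) p •
              tw (D.b2.φ i) (D.b2.fs i) (fun _ => ω (D.b2.e i)) (D.d2 (D.b3.e j)) := by
          intro i
          rw [AddMonoidHom.smul_apply, tw_const (β j), tw_const (D.b2.φ i) _ (ω _), smul_smul,
            smul_smul, mul_comm]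
        rw [Finset.sum_congr rfl fun i _ => h5 i, ← Finset.smul_sum, ← D.b2.expand_inv ω hω, h,
          smul_zero]
        rfl
      rw [h3, h4, sub_zero]
    rw [h2] at h1
    exact h1
  obtain ⟨l, hl⟩ := key
  refine ⟨l.length, fun i => (l.get i).1, fun i => (l.get i).2, ?_⟩
  have e : ∑ i : Fin l.length, D.chi (l.get i).1 (l.get i).2 =
      (l.map fun x => D.chi x.1 x.2).sum := by
    rw [← Fin.sum_univ_fun_getElem l (fun x => D.chi x.1 x.2)]
    rfl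
  rw [e]
  exact hl

end PD3Data

end Pool.ACH
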