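import Pool.Agent.Helper20.ACH.R2

/-! Project ACH (MP_9d9192_al). -/

set_option autoImplicit false

namespace Pool.ACH

variable {G : Type} [Group G]

variable {P0 P1 P2 P3 : Type} [AddCommGroup P0] [AddCommGroup P1]
    [AddCommGroup P2] [AddCommGroup P3] [DistribMulAction G P0] [DistribMulAction G P1]
    [DistribMulAction G P2] [DistribMulAction G P3]

/-- Restriction of the data to a subgroup of finite index. -/
noncomputable def PD3Data.restrict (D : PD3Data G P0 P1 P2 P3) (H : Subgroup G)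
    (hH : H.index ≠ 0) : PD3Data H P0 P1 P2 P3 where
  ε := D.ε
  d0 := D.d0
  d1 := D.d1
  d2 := D.d2
  ε_smul g p := D.ε_smul g p
  d0_smul g p := D.d0_smul g p
  d1_smul g p := D.d1_smul g p
  d2_smul g p := D.d2_smul g p
  p0 := D.p0
  ε_p0 := D.ε_p0
  exact0 := D.exact0
  exact1 := D.exact1
  exact2 := D.exact2
  d2_inj := D.d2_inj
  b0 := (D.b0.restrict H hH).some
  b1 := (D.b1.restrict H hH).some
  b2 := (D.b2.restrict H hH).some
  b3 := (D.b3.restrict H hH).some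
  z := D.z
  z_fs := D.z_fs.restrict H
  D2 φ hφ h := by
    obtain ⟨ψ, hψ, h1⟩ := D.D2 φ (hφ.of_restrict H hH) h
    exact ⟨ψ, hψ.restrict H, h1⟩
  D3 φ hφ := by
    obtain ⟨n, ψ, hψ, h1⟩ := D.D3 φ (hφ.of_restrict H hH)
    exact ⟨n, ψ, hψ.restrict H, h1⟩
  D3' n ψ hψ h := D.D3' n ψ (hψ.of_restrict H hH) h
  ori g := by
    obtain ⟨c, hc, h⟩ := D.ori (g : G)
    exact ⟨c, hc.restrict H, h⟩

/-- Restriction of a reversing chain map. -/
noncomputable def Rev.restrict {D : PD3Data G P0 P1 P2 P3} {θ : G ≃* G} (R : Rev D θ)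
    (H : Subgroup G) (hH : H.index ≠ 0) (h : ∀ g, θ g ∈ H ↔ g ∈ H) :
    Rev (D.restrict H hH) (resAut θ H h) where
  F0 := R.F0
  F1 := R.F1
  F2 := R.F2
  F3 := R.F3
  F0_smul g p := R.F0_smul g p
  F1_smul g p := R.F1_smul g p
  F2_smul g p := R.F2_smul g p
  F3_smul g p := R.F3_smul g p
  ε_F0 := R.ε_F0
  comm0 := R.comm0
  comm1 := R.comm1
  comm2 := R.comm2
  ψ := R.ψ
  ψ_fs := R.ψ_fs.restrict H
  rev := R.rev

theorem Achiral.restrict {θ : G ≃* G} (hA : Achiral G θ) (H : Subgroup G) (hH : H.index ≠ 0)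
    (h : ∀ g, θ g ∈ H ↔ g ∈ H) : Achiral H (resAut θ H h) := by
  obtain ⟨P0, P1, P2, P3, _, _, _, _, _, _, _, _, D, ⟨R⟩⟩ := hA
  exact ⟨P0, P1, P2, P3, _, _, _, _, _, _, _, _, D.restrict H hH, ⟨R.restrict H hH h⟩⟩

end Pool.ACH
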