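import Pool.Agent.Helper20.ACH.A2
import Pool.Agent.Helper20.ACH.A3
import Pool.Agent.Helper20.ACH.A5
import Pool.Agent.Helper20.ACH.A6
import Pool.Agent.Helper20.ACH.Restr
import Pool.Agent.Helper20.ACH.HOM
import Pool.Agent.Helper20.ACH.P2
import Pool.Agent.Helper20.ACH.P4
import Pool.Agent.Helper20.ACH.F1
import Pool.Agent.Helper20.ACH.F2
import Pool.Agent.Helper20.ACH.F3

/-! Project ACH (MP_9d9192_al). -/

set_option autoImplicit false

namespace Pool.ACH

variable {G : Type} [Group G]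

private theorem A7_tw {L P : Type} [Group L] [AddCommGroup P] [DistribMulAction L P]
    (φ : P →+ ℤ) (hφ : IsFs L φ) (a : ℚ) (p : P) :
    tw φ hφ (fun _ : L => a) p = a * tw φ hφ (fun _ : L => (1 : ℚ)) p := by
  have h := map_tw (AddMonoidHom.mulLeft a) φ hφ (fun _ : L => (1 : ℚ)) p
  simp only [AddMonoidHom.coe_mulLeft, mul_one] at h
  exact h.symm

private theorem A7_cob {L P0 P1 P2 P3 : Type} [Group L] [AddCommGroup P0]
    [AddCommGroup P1] [AddCommGroup P2] [AddCommGroup P3] [DistribMulAction L P0]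
    [DistribMulAction L P1] [DistribMulAction L P2] [DistribMulAction L P3]
    (D : PD3Data L P0 P1 P2 P3) {k : Type*} [AddCommGroup k] {ι : Type*} (s : Finset ι)
    (f : ι → (P2 →+ k)) (h : ∀ i ∈ s, D.Cob (f i)) : D.Cob (∑ i ∈ s, f i) := by
  classical
  induction s using Finset.induction_on with
  | empty => simpa using PD3Data.Cob.zero D
  | insert i s hi ih =>
    rw [Finset.sum_insert hi]
    exact PD3Data.Cob.add D (h i (Finset.mem_insert_self i s))
      (ih fun j hj => h j (Finset.mem_insert_of_mem hj))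

/-- the Lefschetz number over one group, with the chain map acting through an automorphism -/
private theorem A7_main {L P0 P1 P2 P3 : Type} [Group L] [AddCommGroup P0]
    [AddCommGroup P1] [AddCommGroup P2] [AddCommGroup P3] [DistribMulAction L P0]
    [DistribMulAction L P1] [DistribMulAction L P2] [DistribMulAction L P3]
    (D : PD3Data L P0 P1 P2 P3) {θ : L ≃* L} (R : Rev D θ)
    (hZ : ¬ ∃ f : L →* Multiplicative ℤ, Function.Surjective f) :
    LinearMap.trace ℚ (IM L P0) (pull θ R.F0 R.F0_smul)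
      - LinearMap.trace ℚ (IM L P1) (pull θ R.F1 R.F1_smul)
      + LinearMap.trace ℚ (IM L P2) (pull θ R.F2 R.F2_smul)
      - LinearMap.trace ℚ (IM L P3) (pull θ R.F3 R.F3_smul) = 2 := by
  have hfg : Group.FG L := D.fg
  have := finite_IM D.b0
  have := finite_IM D.b1
  have := finite_IM D.b2
  have := finite_IM D.b3
  have h00 : ∀ (P : Type) [AddCommGroup P] [DistribMulAction L P] (x y : IM L P),
      x = y ↔ ∀ p, x.1 p = y.1 p := by
    intro P _ _ x y
    constructor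
    · rintro rfl p
      rfl
    · intro h
      apply Subtype.ext
      ext p
      exact h p
  let e : IM L P0 := ⟨(Int.castAddHom ℚ).comp D.ε, fun g p => by
    simp [D.ε_smul]⟩
  let ν : IM L P3 := ⟨tw D.z D.z_fs (fun _ => (1 : ℚ)), tw_inv _ _ _⟩
  have he : ∀ p, e.1 p = (D.ε p : ℚ) := fun p => rfl
  have hν : ∀ p, ν.1 p = tw D.z D.z_fs (fun _ => (1 : ℚ)) p := fun p => rfl
  refine lefschetz (pull (MulEquiv.refl L) D.d0 D.d0_smul)
    (pull (MulEquiv.refl L) D.d1 D.d1_smul) (pull (MulEquiv.refl L) D.d2 D.d2_smul)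
    (pull θ R.F0 R.F0_smul) (pull θ R.F1 R.F1_smul) (pull θ R.F2 R.F2_smul)
    (pull θ R.F3 R.F3_smul) ?_ ?_ ?_ e ?_ ?_ ?_ ?_ ?_ ν ?_ ?_ ?_
  · intro x
    rw [h00]
    intro p
    rw [pull_apply, pull_apply, pull_apply, pull_apply, R.comm0]
  · intro x
    rw [h00]
    intro p
    rw [pull_apply, pull_apply, pull_apply, pull_apply, R.comm1]
  · intro x
    rw [h00]
    intro p
    rw [pull_apply, pull_apply, pull_apply, pull_apply, R.comm2]
  · intro h
    have h1 := he D.p0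
    rw [h, D.ε_p0] at h1
    simp at h1
  · intro x
    constructor
    · intro h
      have h1 : ∀ p, x.1 (D.d0 p) = 0 := fun p => (h00 _ _ _).1 h p
      refine ⟨x.1 D.p0, ?_⟩
      rw [h00]
      intro p
      rw [D.h0 x.1 h1 p]
      change x.1 D.p0 * e.1 p = _
      rw [he, zsmul_eq_mul, mul_comm]
    · rintro ⟨a, rfl⟩
      rw [h00]
      intro p
      rw [pull_apply]
      change a * e.1 (D.d0 p) = 0
      rw [he, D.ε_d0, Int.cast_zero, mul_zero]
  · rw [h00]
    intro p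
    rw [pull_apply, he, he, R.ε_F0]
  · intro x
    constructor
    · intro h
      have h1 : ∀ p, x.1 (D.d1 p) = 0 := fun p => (h00 _ _ _).1 h p
      obtain ⟨β, B, hβ, hB, hx⟩ := D.exists_hom x.1 x.2 h1
      have hβ0 : ∀ g, β g = 0 := hom_rat_eq_zero hfg hZ β hβ
      refine ⟨⟨B, fun g p => by rw [hB, hβ0, smul_zero, add_zero]⟩, ?_⟩
      rw [h00]
      intro p
      rw [pull_apply]
      exact (hx p).symm
    · rintro ⟨y, rfl⟩
      rw [h00]
      intro p
      rw [pull_apply, pull_apply, D.d0_d1]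
      simp
  · intro x
    constructor
    · intro h
      have h1 : ∀ p, x.1 (D.d2 p) = 0 := fun p => (h00 _ _ _).1 h p
      obtain ⟨n, g, s, hs⟩ := D.chi_surj x.1 x.2 h1
      have h2 := A7_cob D Finset.univ (fun i => D.chi (g i) (s i))
        (fun i _ => D.chi_rat (finite_abelianization hfg hZ) (g i) (s i))
      have h3 := PD3Data.Cob.add D hs h2
      rw [sub_add_cancel] at h3
      obtain ⟨u, hu, hx⟩ := h3
      refine ⟨⟨u, hu⟩, ?_⟩
      rw [h00]
      intro p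
      rw [pull_apply]
      exact (hx p).symm
    · rintro ⟨y, rfl⟩
      rw [h00]
      intro p
      rw [pull_apply, pull_apply, D.d1_d2]
      simp
  · intro x
    obtain ⟨a, ω2, hω, hx⟩ := D.top_gen x.1 x.2
    refine ⟨a, ⟨ω2, hω⟩, ?_⟩
    rw [h00]
    intro p
    change x.1 p = a * ν.1 p + ω2 (D.d2 p)
    rw [hx, hν, A7_tw]
  · intro a y h
    refine D.top_zero a y.1 y.2 fun p => ?_
    have h1 : a * ν.1 p = y.1 (D.d2 p) := (h00 _ _ _).1 h p
    rw [A7_tw, ← hν, h1]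
  · refine ⟨⟨tw R.ψ R.ψ_fs (fun _ => (1 : ℚ)), tw_inv _ _ _⟩, ?_⟩
    rw [h00]
    intro p
    rw [pull_apply]
    change tw D.z D.z_fs (fun _ => (1 : ℚ)) (R.F3 p) =
      -(tw D.z D.z_fs (fun _ => (1 : ℚ)) p) + tw R.ψ R.ψ_fs (fun _ => (1 : ℚ)) (D.d2 p)
    have e1 : D.z.comp R.F3 = -D.z + R.ψ.comp D.d2 := by
      ext q
      exact R.rev q
    have f1 : IsFs L (D.z.comp R.F3) := D.z_fs.comp_semi θ R.F3 R.F3_smul
    have f2 : IsFs L (R.ψ.comp D.d2) := R.ψ_fs.comp D.d2 D.d2_smul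
    rw [tw_comp_semi D.z D.z_fs θ R.F3 R.F3_smul f1, tw_comp R.ψ R.ψ_fs D.d2 D.d2_smul f2,
      tw_congr e1 f1 (D.z_fs.neg.add f2), tw_add_left D.z_fs.neg f2, tw_neg_left D.z_fs]
    rfl

/-- PIECE ACH-A7 (100 lines).  Assembly.  Apply `lefschetz` with `C_i = IM L P_i`,
`δ_i = pull (MulEquiv.refl L) D.d_i`, `Φ_i = pull (resAut θ L h) R.F_i`,
`e = ε` (as a rational map), `ν = tw z (const 1)`, for the data `D.restrict L hL`:
exactness in degree 0 is `h0`; in degree 1: `exists_hom` for `D.restrict L hL` and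
`hom_rat_eq_zero` (then `B` is invariant); in degree 2: `chi_surj` and `chi_rat`;
in degree 3: `top_gen`, `top_zero`; `Φ3 ν = -ν + δ2 (..)`: `tw_comp_semi` and `R.rev`.
By `trace_pull` the left hand side of `lefschetz` is an integral multiple of
`Nat.card FixQ`, so `Nat.card FixQ ∣ 2`. -/
theorem factA {θ : G ≃* G} (hA : Achiral G θ) (L : Subgroup G) [L.Normal] (hL : L.index ≠ 0)
    (h : ∀ g, θ g ∈ L ↔ g ∈ L)
    (hZ : ¬ ∃ f : L →* Multiplicative ℤ, Function.Surjective f) :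
    Nat.card (FixQ θ L h) ∣ 2 := by
  obtain ⟨P0, P1, P2, P3, _, _, _, _, _, _, _, _, D, ⟨R⟩⟩ := hA
  have h1 := A7_main (D.restrict L hL) (R.restrict L hL h) hZ
  obtain ⟨n0, e0⟩ := trace_pull D.b0 θ L hL h R.F0 R.F0_smul
  obtain ⟨n1, e1⟩ := trace_pull D.b1 θ L hL h R.F1 R.F1_smul
  obtain ⟨n2, e2⟩ := trace_pull D.b2 θ L hL h R.F2 R.F2_smul
  obtain ⟨n3, e3⟩ := trace_pull D.b3 θ L hL h R.F3 R.F3_smul
  have h2 : (n0 : ℚ) * Nat.card (FixQ θ L h) - (n1 : ℚ) * Nat.card (FixQ θ L h)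
      + (n2 : ℚ) * Nat.card (FixQ θ L h) - (n3 : ℚ) * Nat.card (FixQ θ L h) = 2 := by
    rw [← e0, ← e1, ← e2, ← e3]
    exact h1
  have h3 : (n0 - n1 + n2 - n3) * ((Nat.card (FixQ θ L h) : ℕ) : ℤ) = 2 := by
    have h4 : (((n0 - n1 + n2 - n3) * ((Nat.card (FixQ θ L h) : ℕ) : ℤ) : ℤ) : ℚ) = ((2 : ℤ) : ℚ) := by
      push_cast
      rw [← h2]
      ring
    exact_mod_cast h4
  have h5 : ((Nat.card (FixQ θ L h) : ℕ) : ℤ) ∣ ((2 : ℕ) : ℤ) :=
    ⟨n0 - n1 + n2 - n3, by rw [mul_comm]; exact_mod_cast h3.symm⟩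
  exact Int.natCast_dvd_natCast.1 h5

end Pool.ACH
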