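import Pool.Agent.Helper20.ACH.Defs

/-! Project ACH (MP_9d9192_al). -/

set_option autoImplicit false

namespace Pool.ACH

variable {G : Type} [Group G]

/-- PIECE ACH-R5 (30 lines).  `K ≤ H` of finite index gives `K.map H.subtype ≤ G` of finite index,
isomorphic to `K`. -/
theorem FAb.restrict (hF : FAb G) (H : Subgroup G) (hH : H.index ≠ 0) : FAb H := by
  rintro K hK ⟨f, hf⟩
  have h1 : (K.map H.subtype).index ≠ 0 := by
    rw [Subgroup.index_map_subtype]
    exact mul_ne_zero hK hH
  let e : K ≃* K.map H.subtype := K.equivMapOfInjective H.subtype H.subtype_injective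
  refine hF (K.map H.subtype) h1 ⟨f.comp e.symm.toMonoidHom, ?_⟩
  exact hf.comp e.symm.surjective

end Pool.ACH
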