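import Pool.Agent.Helper20.ACH.A7
import Pool.Agent.Helper20.ACH.R5

/-! Project ACH (MP_9d9192_al). -/

set_option autoImplicit false

namespace Pool.ACH

variable {G : Type} [Group G]

/-- PIECE ACH-A8 (30 lines).  If `θ` acts trivially on `G ⧸ L` then all points are fixed.
(`θ g ∈ L ↔ g ∈ L` follows from `hθ`.) -/
theorem index_dvd_two {θ : G ≃* G} (hA : Achiral G θ) (hF : FAb G) (L : Subgroup G) [L.Normal]
    (hL : L.index ≠ 0) (hθ : ∀ g, g⁻¹ * θ g ∈ L) : L.index ∣ 2 := by
  have h : ∀ g, θ g ∈ L ↔ g ∈ L := by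
    intro g
    constructor
    · intro hg
      have h1 := L.mul_mem hg (L.inv_mem (hθ g))
      simpa [mul_assoc] using h1
    · intro hg
      have h1 := L.mul_mem hg (hθ g)
      simpa using h1
  have h2 := factA hA L hL h (hF L hL)
  have h3 : ∀ x : G ⧸ L,
      QuotientGroup.map L L (θ : G →* G) (fun g hg => (h g).2 hg) x = x := by
    intro x
    obtain ⟨g, rfl⟩ := QuotientGroup.mk_surjective x
    rw [QuotientGroup.map_mk]
    exact (QuotientGroup.eq.2 (hθ g)).symm
  have h4 : Nat.card (FixQ θ L h) = L.index := by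
    rw [Subgroup.index]
    exact Nat.card_congr (Equiv.subtypeUnivEquiv h3)
  rwa [h4] at h2

/-- PIECE ACH-A8 (50 lines).  `L = commutator G`, of finite index (`finite_abelianization`).  The
fixed points of `θ̄` form a subgroup of `G ⧸ L` of order dividing `2`, which contains `x`. -/
theorem sq_mem_commutator {θ : G ≃* G} (hA : Achiral G θ) (hF : FAb G) (x : G)
    (hx : x⁻¹ * θ x ∈ commutator G) : x ^ 2 ∈ commutator G := by
  have htop : ¬ ∃ f : G →* Multiplicative ℤ, Function.Surjective f := by
    rintro ⟨f, hf⟩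
    refine hF ⊤ (by simp) ⟨f.comp (Subgroup.subtype ⊤), ?_⟩
    intro y
    obtain ⟨g, hg⟩ := hf y
    exact ⟨⟨g, trivial⟩, hg⟩
  have hfin : Finite (G ⧸ commutator G) := finite_abelianization hA.fg htop
  have hL : (commutator G).index ≠ 0 := Subgroup.index_ne_zero_of_finite
  have h : ∀ g, θ g ∈ commutator G ↔ g ∈ commutator G := by
    intro g
    have h1 : (commutator G).comap θ.toMonoidHom = commutator G :=
      (inferInstance : (commutator G).Characteristic).fixed θ
    constructor
    · intro hg
      rw [← h1]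
      exact hg
    · intro hg
      rw [← h1] at hg
      exact hg
  have h2 := factA hA (commutator G) hL h (hF _ hL)
  let f : G ⧸ commutator G →* G ⧸ commutator G :=
    QuotientGroup.map (commutator G) (commutator G) (θ : G →* G) (fun g hg => (h g).2 hg)
  let H : Subgroup (G ⧸ commutator G) := f.eqLocus (MonoidHom.id _)
  have h3 : Nat.card H ∣ 2 := h2
  have h4 : ((x : G) : G ⧸ commutator G) ∈ H := by
    change f (x : G ⧸ commutator G) = (x : G ⧸ commutator G)
    exact (QuotientGroup.eq.2 hx).symm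
  have h5 : (⟨(x : G ⧸ commutator G), h4⟩ : H) ^ 2 = 1 := by
    obtain ⟨m, hm⟩ := h3
    rw [hm, pow_mul, pow_card_eq_one', one_pow]
  have h6 : ((x : G) : G ⧸ commutator G) ^ 2 = 1 := congrArg Subtype.val h5
  rw [← QuotientGroup.mk_pow] at h6
  exact (QuotientGroup.eq_one_iff _).1 h6

end Pool.ACH
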