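import Pool.Agent.Helper20.ACH.Defs

/-! Project ACH (MP_9d9192_al): spaces of invariants and the trace formula. -/

set_option autoImplicit false

namespace Pool.ACH

/-- `Hom_L(P, ℚ)`. -/
def IM (L P : Type) [Group L] [AddCommGroup P] [DistribMulAction L P] :
    Submodule ℚ (P →+ ℚ) where
  carrier := {ω | Inv L ω}
  zero_mem' := fun _ _ => by simp
  add_mem' := fun {a b} ha hb g p => by
    rw [AddMonoidHom.add_apply, AddMonoidHom.add_apply, ha g p, hb g p]
  smul_mem' := fun c a ha g p => by
    rw [AddMonoidHom.smul_apply, AddMonoidHom.smul_apply, ha g p]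

/-- Pullback by a semilinear map. -/
def pull {L P Q : Type} [Group L] [AddCommGroup P] [DistribMulAction L P] [AddCommGroup Q]
    [DistribMulAction L Q] (θ : L ≃* L) (F : P →+ Q)
    (hF : ∀ (g : L) (p : P), F (g • p) = θ g • F p) : IM L Q →ₗ[ℚ] IM L P where
  toFun ω := ⟨ω.1.comp F, fun g p => by
    rw [AddMonoidHom.coe_comp, Function.comp_apply, Function.comp_apply, hF, ω.2 (θ g) (F p)]⟩
  map_add' a b := by ext p; rfl
  map_smul' c a := by ext p; rfl

@[simp] theorem pull_apply {L P Q : Type} [Group L] [AddCommGroup P] [DistribMulAction L P]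
    [AddCommGroup Q] [DistribMulAction L Q] (θ : L ≃* L) (F : P →+ Q)
    (hF : ∀ (g : L) (p : P), F (g • p) = θ g • F p) (ω : IM L Q) (p : P) :
    (pull θ F hF ω).1 p = ω.1 (F p) := rfl

/-- The fixed points of an automorphism on a quotient by an invariant normal subgroup. -/
def FixQ {G : Type} [Group G] (θ : G ≃* G) (L : Subgroup G) [L.Normal]
    (h : ∀ g, θ g ∈ L ↔ g ∈ L) : Type :=
  {x : G ⧸ L // QuotientGroup.map L L (θ : G →* G) (fun g hg => (h g).2 hg) x = x}

end Pool.ACH
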