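import Pool.Agent.Helper20.ACH.Defs

/-! Project ACH (MP_9d9192_al): bridge to Mathlib, definitions. -/

set_option autoImplicit false

namespace Pool.ACH

/-- The action of `G` on a module over its integral group ring. -/
@[reducible] noncomputable def gAct (G M : Type) [Group G] [AddCommGroup M] [Module (MonoidAlgebra ℤ G) M] :
    DistribMulAction G M :=
  DistribMulAction.compHom M (MonoidAlgebra.of ℤ G)

/-- Elementary form of: `G` is of type FP, `H^i(G; ℤ[G]) = 0` for `i ≥ 1`, `i ≠ 3` and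
`H^3(G; ℤ[G]) ≅ ℤ`. -/
structure ResData (G : Type) [Group G] where
  X : ℕ → Type
  ab : ∀ i, AddCommGroup (X i)
  ac : ∀ i, DistribMulAction G (X i)
  d : ∀ i, X (i + 1) →+ X i
  π : X 0 →+ ℤ
  d_smul : ∀ (i : ℕ) (g : G) (x : X (i + 1)), d i (g • x) = g • d i x
  π_smul : ∀ (g : G) (x : X 0), π (g • x) = π x
  π_surj : Function.Surjective π
  exact0 : ∀ x, π x = 0 ↔ ∃ y, d 0 y = x
  exact : ∀ i x, d i x = 0 ↔ ∃ y, d (i + 1) y = x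
  b : ∀ i, Nonempty (DB G (X i))
  n : ℕ
  bound : ∀ i, n < i → Subsingleton (X i)
  coh : ∀ i, i + 1 ≠ 3 → ∀ φ : X (i + 1) →+ ℤ, IsFs G φ → (∀ x, φ (d (i + 1) x) = 0) →
    ∃ ψ : X i →+ ℤ, IsFs G ψ ∧ ∀ x, φ x = ψ (d i x)
  z : X 3 →+ ℤ
  z_fs : IsFs G z
  z_d : ∀ x, z (d 3 x) = 0
  z_gen : ∀ φ : X 3 →+ ℤ, IsFs G φ → (∀ x, φ (d 3 x) = 0) →
    ∃ (m : ℤ) (ψ : X 2 →+ ℤ), IsFs G ψ ∧ ∀ x, φ x = m * z x + ψ (d 2 x)
  z_free : ∀ (m : ℤ) (ψ : X 2 →+ ℤ), IsFs G ψ → (∀ x, m * z x = ψ (d 2 x)) → m = 0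

attribute [instance] ResData.ab ResData.ac

/-- The data `PD3Data` without the orientability condition. -/
structure PD3Pre (G P0 P1 P2 P3 : Type) [Group G] [AddCommGroup P0] [AddCommGroup P1]
    [AddCommGroup P2] [AddCommGroup P3] [DistribMulAction G P0] [DistribMulAction G P1]
    [DistribMulAction G P2] [DistribMulAction G P3] where
  ε : P0 →+ ℤ
  d0 : P1 →+ P0
  d1 : P2 →+ P1
  d2 : P3 →+ P2
  ε_smul : ∀ (g : G) (p : P0), ε (g • p) = ε p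
  d0_smul : ∀ (g : G) (p : P1), d0 (g • p) = g • d0 p
  d1_smul : ∀ (g : G) (p : P2), d1 (g • p) = g • d1 p
  d2_smul : ∀ (g : G) (p : P3), d2 (g • p) = g • d2 p
  p0 : P0
  ε_p0 : ε p0 = 1
  exact0 : ∀ p, ε p = 0 ↔ ∃ q, d0 q = p
  exact1 : ∀ p, d0 p = 0 ↔ ∃ q, d1 q = p
  exact2 : ∀ p, d1 p = 0 ↔ ∃ q, d2 q = p
  d2_inj : Function.Injective d2
  b0 : DB G P0
  b1 : DB G P1
  b2 : DB G P2
  b3 : DB G P3
  z : P3 →+ ℤ
  z_fs : IsFs G z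
  D2 : ∀ φ : P2 →+ ℤ, IsFs G φ → (∀ p, φ (d2 p) = 0) →
    ∃ ψ : P1 →+ ℤ, IsFs G ψ ∧ φ = ψ.comp d1
  D3 : ∀ φ : P3 →+ ℤ, IsFs G φ →
    ∃ (n : ℤ) (ψ : P2 →+ ℤ), IsFs G ψ ∧ φ = n • z + ψ.comp d2
  D3' : ∀ (n : ℤ) (ψ : P2 →+ ℤ), IsFs G ψ → n • z = ψ.comp d2 → n = 0

/-- Adding orientability. -/
def PD3Pre.toData {G P0 P1 P2 P3 : Type} [Group G] [AddCommGroup P0] [AddCommGroup P1]
    [AddCommGroup P2] [AddCommGroup P3] [DistribMulAction G P0] [DistribMulAction G P1]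
    [DistribMulAction G P2] [DistribMulAction G P3] (D : PD3Pre G P0 P1 P2 P3)
    (h : ∀ g : G, ∃ c : P2 →+ ℤ, IsFs G c ∧ ∀ p, D.z (g • p) = D.z p + c (D.d2 p)) :
    PD3Data G P0 P1 P2 P3 where
  ε := D.ε
  d0 := D.d0
  d1 := D.d1
  d2 := D.d2
  ε_smul := D.ε_smul
  d0_smul := D.d0_smul
  d1_smul := D.d1_smul
  d2_smul := D.d2_smul
  p0 := D.p0
  ε_p0 := D.ε_p0
  exact0 := D.exact0
  exact1 := D.exact1
  exact2 := D.exact2
  d2_inj := D.d2_inj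
  b0 := D.b0
  b1 := D.b1
  b2 := D.b2
  b3 := D.b3
  z := D.z
  z_fs := D.z_fs
  D2 := D.D2
  D3 := D.D3
  D3' := D.D3'
  ori := h

/-- A chain map over `θ`. -/
structure Chain {G P0 P1 P2 P3 : Type} [Group G] [AddCommGroup P0] [AddCommGroup P1]
    [AddCommGroup P2] [AddCommGroup P3] [DistribMulAction G P0] [DistribMulAction G P1]
    [DistribMulAction G P2] [DistribMulAction G P3] (D : PD3Pre G P0 P1 P2 P3)
    (θ : G ≃* G) where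
  F0 : P0 →+ P0
  F1 : P1 →+ P1
  F2 : P2 →+ P2
  F3 : P3 →+ P3
  F0_smul : ∀ (g : G) (p : P0), F0 (g • p) = θ g • F0 p
  F1_smul : ∀ (g : G) (p : P1), F1 (g • p) = θ g • F1 p
  F2_smul : ∀ (g : G) (p : P2), F2 (g • p) = θ g • F2 p
  F3_smul : ∀ (g : G) (p : P3), F3 (g • p) = θ g • F3 p
  ε_F0 : ∀ p, D.ε (F0 p) = D.ε p
  comm0 : ∀ p, F0 (D.d0 p) = D.d0 (F1 p)
  comm1 : ∀ p, F1 (D.d1 p) = D.d1 (F2 p)
  comm2 : ∀ p, F2 (D.d2 p) = D.d2 (F3 p)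

/-- The action of an automorphism on the integral cohomology of a group, as given by the
functoriality of group cohomology. -/
noncomputable def cohAction (G : Type) [Group G] (θ : G ≃* G) (n : ℕ) :
    groupCohomology (Rep.trivial ℤ G ℤ) n ⟶ groupCohomology (Rep.trivial ℤ G ℤ) n :=
  groupCohomology.map (A := Rep.trivial ℤ G ℤ) (B := Rep.trivial ℤ G ℤ) θ.toMonoidHom
    (CategoryTheory.CategoryStruct.id (Rep.trivial ℤ G ℤ)) n

end Pool.ACH
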