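import Pool.Agent.Helper20.ACH.BA

/-! Project ACH (MP_9d9192_al): bridge to Mathlib. -/

set_option autoImplicit false

namespace Pool.ACH

attribute [local instance] gAct

private theorem BB_act {G M : Type} [Group G] [AddCommGroup M] [Module (MonoidAlgebra ℤ G) M]
    (g : G) (e : M) : g • e = (MonoidAlgebra.single g (1 : ℤ) : MonoidAlgebra ℤ G) • e := rfl

private theorem BB_smul {G M : Type} [Group G] [AddCommGroup M] [Module (MonoidAlgebra ℤ G) M]
    (r : MonoidAlgebra ℤ G) (e : M) : r • e = ∑ᶠ g : G, r.coeff g • (g • e) := by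
  classical
  have h : (Function.support fun g : G => r.coeff g • (g • e)) ⊆ (r.coeff.support : Set G) := by
    intro g hg
    rw [Finset.mem_coe, Finsupp.mem_support_iff]
    intro h0
    apply hg
    simp only [h0, zero_smul]
  rw [finsum_eq_sum_of_support_subset _ h]
  conv_lhs => rw [← MonoidAlgebra.sum_coeff_single r]
  rw [Finsupp.sum, Finset.sum_smul]
  refine Finset.sum_congr rfl fun g _ => ?_
  rw [BB_act, ← smul_assoc]
  congr 1
  rw [MonoidAlgebra.smul_single, smul_eq_mul, mul_one]

/-- PIECE ACH-BB (90 lines).  Dual basis lemma.  There are a surjection `(Fin n → R) → M` of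
`R = ℤ[G]`-modules and a linear section `s`; `e_j` is the image of the `j`-th basis vector and
`φ_j(x)` is the coefficient at `1` of the `j`-th coordinate of `s x`; the coefficient at `g` is
`φ_j(g⁻¹ x)`. -/
theorem exists_DB (G M : Type) [Group G] [AddCommGroup M] [Module (MonoidAlgebra ℤ G) M]
    [Module.Finite (MonoidAlgebra ℤ G) M] [Module.Projective (MonoidAlgebra ℤ G) M] :
    Nonempty (DB G M) := by
  classical
  obtain ⟨n, f, hf⟩ := Module.Finite.exists_fin' (MonoidAlgebra ℤ G) M
  obtain ⟨s, hs⟩ := Module.projective_lifting_property f LinearMap.id hf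
  have hs1 : ∀ x, f (s x) = x := fun x => by
    have h := LinearMap.congr_fun hs x
    exact h
  let φ : Fin n → (M →+ ℤ) := fun j =>
    { toFun := fun x => (s x j).coeff 1
      map_zero' := by rw [map_zero]; rfl
      map_add' := fun x y => by rw [map_add]; rfl }
  have hφ : ∀ (j : Fin n) (g : G) (x : M), φ j (g⁻¹ • x) = (s x j).coeff g := by
    intro j g x
    change (s (g⁻¹ • x) j).coeff 1 = (s x j).coeff g
    rw [BB_act, map_smul, Pi.smul_apply, smul_eq_mul, MonoidAlgebra.coeff_single_mul_apply,
      one_mul, inv_inv, mul_one]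
  refine ⟨⟨Fin n, inferInstance, φ, fun j => f (Pi.single j 1), fun j x => ?_, fun x => ?_⟩⟩
  · have h : {g : G | φ j (g⁻¹ • x) ≠ 0} = ((s x j).coeff.support : Set G) := by
      ext g
      rw [Set.mem_ofPred_eq, hφ, Finset.mem_coe, Finsupp.mem_support_iff]
    rw [h]
    exact Finset.finite_toSet _
  · have h : s x = ∑ j, (s x j) • (Pi.single j 1 : Fin n → MonoidAlgebra ℤ G) := by
      funext i
      rw [Finset.sum_apply, Finset.sum_eq_single i]
      · rw [Pi.smul_apply, Pi.single_eq_same, smul_eq_mul, mul_one]
      · intro j _ hj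
        rw [Pi.smul_apply, Pi.single_eq_of_ne hj.symm, smul_zero]
      · intro h
        exact absurd (Finset.mem_univ i) h
    conv_lhs => rw [← hs1 x, h, map_sum]
    refine Finset.sum_congr rfl fun j _ => ?_
    rw [map_smul, BB_smul]
    refine finsum_congr fun g => ?_
    rw [hφ]

end Pool.ACH
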