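import Pool.Agent.Helper20.ACH.BA

/-! Project ACH (MP_9d9192_al): bridge to Mathlib. -/

set_option autoImplicit false

open CategoryTheory

namespace Pool.ACH

attribute [local instance] gAct

private theorem BC_succ {R : Type} [Ring R] {M : ModuleCat.{0} R} (P : ProjectiveResolution M)
    (i : ℕ) (x : P.complex.X (i + 1)) : (P.complex.d (i + 1) i).hom x = 0 ↔
      ∃ y : P.complex.X (i + 2), (P.complex.d (i + 2) (i + 1)).hom y = x := by
  constructor
  · intro hx
    exact (ShortComplex.moduleCat_exact_iff _).1 (P.exact_succ i) x hx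
  · rintro ⟨y, rfl⟩
    have h := P.complex.d_comp_d (i + 2) (i + 1) i
    have h2 := congrArg (fun f : P.complex.X (i + 2) ⟶ P.complex.X i => f.hom y) h
    exact h2

private theorem BC_zero {R : Type} [Ring R] {M : ModuleCat.{0} R} (P : ProjectiveResolution M)
    (x : P.complex.X 0) : (P.π.f 0).hom x = 0 ↔
      ∃ y : P.complex.X 1, (P.complex.d 1 0).hom y = x := by
  constructor
  · intro hx
    exact (ShortComplex.moduleCat_exact_iff _).1 P.exact₀ x hx
  · rintro ⟨y, rfl⟩
    have h := P.complex_d_comp_π_f_zero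
    have h2 := congrArg (fun f => f.hom y) h
    exact h2

private theorem BC_surj {R : Type} [Ring R] {M : ModuleCat.{0} R} (P : ProjectiveResolution M) :
    Function.Surjective (P.π.f 0).hom :=
  (ModuleCat.epi_iff_surjective (P.π.f 0)).1 inferInstance

/-- The carrier of the trivial module. -/
private noncomputable def BC_e (G : Type) [Group G] :
    (Rep.equivalenceModuleMonoidAlgebra.functor.obj (Rep.trivial ℤ G ℤ) : Type) ≃+ ℤ :=
  (Rep.trivial ℤ G ℤ).ρ.asModuleEquiv.toAddEquiv

private theorem BC_e_smul (G : Type) [Group G] (g : G)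
    (x : (Rep.equivalenceModuleMonoidAlgebra.functor.obj (Rep.trivial ℤ G ℤ) : Type)) :
    BC_e G ((MonoidAlgebra.of ℤ G g) • x) = BC_e G x := by
  have h := Representation.asModuleEquiv_map_smul (Rep.trivial ℤ G ℤ).ρ
    (MonoidAlgebra.of ℤ G g) x
  rw [Representation.asAlgebraHom_of] at h
  exact h

/-- PIECE ACH-BC (100 lines).  Exactness of a projective resolution of the trivial module, in
terms of elements (`ProjectiveResolution.exact_succ`, `exact₀`, `Epi` of `π.f 0`,
`ShortComplex.moduleCat_exact_iff`); the carrier of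
`Rep.equivalenceModuleMonoidAlgebra.functor.obj (Rep.trivial ℤ G ℤ)` is (definitionally) `ℤ`, on
which `G` acts trivially. -/
theorem res_exact (G : Type) [Group G] (P : ProjectiveResolution
      (Rep.equivalenceModuleMonoidAlgebra.functor.obj (Rep.trivial ℤ G ℤ))) :
    (∃ π : (P.complex.X 0 : Type) →+ ℤ, (∀ (g : G) (x : P.complex.X 0), π (g • x) = π x) ∧
      Function.Surjective π ∧
      ∀ x, π x = 0 ↔ ∃ y : P.complex.X 1, (P.complex.d 1 0).hom y = x) ∧
    ∀ (i : ℕ) (x : P.complex.X (i + 1)), (P.complex.d (i + 1) i).hom x = 0 ↔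
      ∃ y : P.complex.X (i + 2), (P.complex.d (i + 2) (i + 1)).hom y = x := by
  refine ⟨⟨((BC_e G).toAddMonoidHom).comp (P.π.f 0).hom.toAddMonoidHom, ?_, ?_, ?_⟩,
    fun i x => BC_succ P i x⟩
  · intro g x
    have h1 : (P.π.f 0).hom ((MonoidAlgebra.of ℤ G g) • x) =
        (MonoidAlgebra.of ℤ G g) • (P.π.f 0).hom x := map_smul _ _ _
    have h2 := congrArg (BC_e G) h1
    exact h2.trans (BC_e_smul G g _)
  · exact (BC_e G).surjective.comp (BC_surj P)
  · intro x
    rw [← BC_zero P x]
    constructor
    · intro h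
      have h1 : BC_e G ((P.π.f 0).hom x) = BC_e G 0 := by
        rw [map_zero]
        exact h
      exact (BC_e G).injective h1
    · intro h
      have h1 : BC_e G ((P.π.f 0).hom x) = BC_e G 0 := congrArg (BC_e G) h
      rw [map_zero] at h1
      exact h1

end Pool.ACH
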