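import Mathlib

/-! Project ACH (MP_9d9192_al): bridge to Mathlib. -/

set_option autoImplicit false

open CategoryTheory

namespace Pool.ACH

private theorem BD1_iso (K : CochainComplex (ModuleCat.{0} ℤ) ℕ) (i : ℕ) :
    Nonempty (K.homology (i + 1) ≅ (K.sc' i (i + 1) (i + 2)).moduleCatLeftHomologyData.H) :=
  ⟨ShortComplex.homologyMapIso (K.isoSc' i (i + 1) (i + 2) (by simp) (by simp)) ≪≫
    (K.sc' i (i + 1) (i + 2)).moduleCatHomologyIso⟩

private theorem BD1_surj {R : Type} [Ring R] (S : ShortComplex (ModuleCat.{0} R))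
    (w : S.moduleCatLeftHomologyData.H) :
    ∃ c : S.X₂, ∃ hc : S.g.hom c = 0, S.moduleCatLeftHomologyData.π.hom ⟨c, hc⟩ = w := by
  obtain ⟨c, hc⟩ := Submodule.mkQ_surjective (LinearMap.range S.moduleCatToCycles) w
  exact ⟨c.1, c.2, hc⟩

private theorem BD1_zero {R : Type} [Ring R] (S : ShortComplex (ModuleCat.{0} R))
    (c : S.X₂) (hc : S.g.hom c = 0) :
    S.moduleCatLeftHomologyData.π.hom ⟨c, hc⟩ = 0 ↔ ∃ g : S.X₁, S.f.hom g = c := by
  have h1 : S.moduleCatLeftHomologyData.π.hom ⟨c, hc⟩ = 0 ↔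
      (⟨c, hc⟩ : LinearMap.ker S.g.hom) ∈ LinearMap.range S.moduleCatToCycles :=
    Submodule.Quotient.mk_eq_zero _
  rw [h1]
  constructor
  · rintro ⟨g, hg⟩
    exact ⟨g, congrArg Subtype.val hg⟩
  · rintro ⟨g, hg⟩
    exact ⟨g, Subtype.ext hg⟩

/-- the class of a cocycle, as an additive map -/
private noncomputable def BD1_cl (S : ShortComplex (ModuleCat.{0} ℤ)) :
    (S.g.hom.toAddMonoidHom).ker →+ S.moduleCatLeftHomologyData.H where
  toFun c := S.moduleCatLeftHomologyData.π.hom ⟨c.1, c.2⟩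
  map_zero' := map_zero _
  map_add' a b := map_add S.moduleCatLeftHomologyData.π.hom ⟨a.1, a.2⟩ ⟨b.1, b.2⟩

/-- PIECE ACH-BD1 (50 lines).  A cocycle in a degree with trivial homology is a coboundary. -/
theorem exact_of_subsingleton (K : CochainComplex (ModuleCat.{0} ℤ) ℕ) (i : ℕ)
    (h : Subsingleton (K.homology (i + 1))) (f : K.X (i + 1))
    (hf : (K.d (i + 1) (i + 2)).hom f = 0) : ∃ g : K.X i, (K.d i (i + 1)).hom g = f := by
  have h1 : K.ExactAt (i + 1) := by
    rw [HomologicalComplex.exactAt_iff_isZero_homology]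
    exact ModuleCat.isZero_of_subsingleton _
  rw [K.exactAt_iff' i (i + 1) (i + 2) (by simp) (by simp),
    ShortComplex.moduleCat_exact_iff] at h1
  exact h1 f hf

/-- PIECE ACH-BD1 (80 lines).  Homology isomorphic to `ℤ` is generated by the class of one
cocycle of infinite order. -/
theorem gen_of_iso (K : CochainComplex (ModuleCat.{0} ℤ) ℕ) (i : ℕ)
    (e : K.homology (i + 1) ≃+ ℤ) :
    ∃ z : K.X (i + 1), (K.d (i + 1) (i + 2)).hom z = 0 ∧
      (∀ f : K.X (i + 1), (K.d (i + 1) (i + 2)).hom f = 0 →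
        ∃ (m : ℤ) (g : K.X i), f = m • z + (K.d i (i + 1)).hom g) ∧
      (∀ (m : ℤ) (g : K.X i), m • z = (K.d i (i + 1)).hom g → m = 0) := by
  obtain ⟨φ⟩ := BD1_iso K i
  set S := K.sc' i (i + 1) (i + 2) with hS
  let E : S.moduleCatLeftHomologyData.H ≃+ ℤ := φ.toLinearEquiv.symm.toAddEquiv.trans e
  obtain ⟨z, hz0, hz⟩ := BD1_surj S (E.symm 1)
  let z' : (S.g.hom.toAddMonoidHom).ker := ⟨z, hz0⟩
  have hE1 : E (BD1_cl S z') = 1 := by
    have : BD1_cl S z' = E.symm 1 := hz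
    rw [this, AddEquiv.apply_symm_apply]
  let zz : K.X (i + 1) := z
  refine ⟨zz, hz0, ?_, ?_⟩
  · intro f hf
    let c : (S.g.hom.toAddMonoidHom).ker := ⟨f, hf⟩
    set m : ℤ := E (BD1_cl S c) with hm
    have h1 : E (BD1_cl S (c - m • z')) = 0 := by
      rw [map_sub, map_zsmul, map_sub, map_zsmul, hE1, ← hm]
      simp
    have h2 : BD1_cl S (c - m • z') = 0 := by
      apply E.injective
      rw [h1, map_zero]
    obtain ⟨g, hg⟩ := (BD1_zero S _ _).mp h2
    refine ⟨m, g, ?_⟩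
    have h3 : (K.d i (i + 1)).hom g = f - m • zz := hg
    rw [h3]
    abel
  · intro m g hmg
    have h2 : BD1_cl S (m • z') = 0 := (BD1_zero S _ _).mpr ⟨g, hmg.symm⟩
    have h3 : E (BD1_cl S (m • z')) = m := by
      rw [map_zsmul, map_zsmul, hE1]
      simp
    rw [h2, map_zero] at h3
    exact h3.symm

end Pool.ACH
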