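import Mathlib

/-! Project ACH (MP_9d9192_al): bridge to Mathlib. -/

set_option autoImplicit false

open CategoryTheory

namespace Pool.ACH

/-- PIECE ACH-BD2 (80 lines).  Transport of a projective resolution along the equivalence
`Rep.equivalenceModuleMonoidAlgebra` (`Functor.mapProjectiveResolution` for the inverse, then
composition of `π` with the unit isomorphism at `Rep.trivial ℤ G ℤ`); the complex is, by
construction, the image of the given one. -/
theorem exists_repRes (G : Type) [Group G] (P : ProjectiveResolution
      (Rep.equivalenceModuleMonoidAlgebra.functor.obj (Rep.trivial ℤ G ℤ))) :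
    ∃ P' : ProjectiveResolution (Rep.trivial ℤ G ℤ),
      P'.complex = ((Rep.ofModuleMonoidAlgebra (k := ℤ) (G := G)).mapHomologicalComplex
        (ComplexShape.down ℕ)).obj P.complex := by
  have h1 : (Rep.ofModuleMonoidAlgebra (k := ℤ) (G := G)).Additive :=
    Functor.additive_of_preserves_binary_products _
  have h2 : (Rep.ofModuleMonoidAlgebra (k := ℤ) (G := G)).PreservesHomology := inferInstance
  have h3 : (Rep.ofModuleMonoidAlgebra (k := ℤ) (G := G)).PreservesProjectiveObjects :=
    ⟨fun {X} hX => (Rep.equivalenceModuleMonoidAlgebra (k := ℤ) (G := G)).symm.map_projective_iff X |>.mpr hX⟩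
  let Q := (Rep.ofModuleMonoidAlgebra (k := ℤ) (G := G)).mapProjectiveResolution P
  let e : (Rep.ofModuleMonoidAlgebra (k := ℤ) (G := G)).obj
    (Rep.equivalenceModuleMonoidAlgebra.functor.obj (Rep.trivial ℤ G ℤ)) ≅ Rep.trivial ℤ G ℤ :=
    ((Rep.equivalenceModuleMonoidAlgebra (k := ℤ) (G := G)).unitIso.app (Rep.trivial ℤ G ℤ)).symm
  refine ⟨{ complex := Q.complex, projective := Q.projective, hasHomology := Q.hasHomology,
            π := Q.π ≫ (ChainComplex.single₀ _).map e.hom, quasiIso := ?_ }, rfl⟩
  infer_instance

end Pool.ACH
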