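import Pool.Agent.Helper20.ACH.BA

/-! Project ACH (MP_9d9192_al): bridge to Mathlib. -/

set_option autoImplicit false

open CategoryTheory

namespace Pool.ACH

attribute [local instance] gAct

section

variable {G : Type} [Group G]


/-- The underlying additive map of a `G`-map. -/
private noncomputable def BD3_f {M : ModuleCat.{0} (MonoidAlgebra ℤ G)}
    (f : (Rep.ofModuleMonoidAlgebra (k := ℤ) (G := G)).obj M ⟶ Rep.ofMulAction ℤ G G) :
    (M : Type) →+ MonoidAlgebra ℤ G where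
  toFun x := f.hom x
  map_zero' := map_zero f.hom
  map_add' x y := map_add f.hom x y

private theorem BD3_smul {M : ModuleCat.{0} (MonoidAlgebra ℤ G)}
    (f : (Rep.ofModuleMonoidAlgebra (k := ℤ) (G := G)).obj M ⟶ Rep.ofMulAction ℤ G G)
    (g : G) (x : M) : BD3_f f (g • x) = Representation.ofMulAction ℤ G G g (BD3_f f x) := by
  have h := Rep.hom_comm_apply f g x
  have h2 : ((Rep.ofModuleMonoidAlgebra (k := ℤ) (G := G)).obj M).ρ g x = (g • x : (M : Type)) := by
    rfl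
  rw [h2] at h
  exact h

private theorem BD3_coeff {M : ModuleCat.{0} (MonoidAlgebra ℤ G)}
    (f : (Rep.ofModuleMonoidAlgebra (k := ℤ) (G := G)).obj M ⟶ Rep.ofMulAction ℤ G G)
    (g h : G) (x : M) : (BD3_f f (g • x)).coeff h = (BD3_f f x).coeff (g⁻¹ * h) := by
  rw [BD3_smul, Representation.coeff_ofMulAction]
  rfl

private noncomputable def BD3_coe1 : MonoidAlgebra ℤ G →+ ℤ where
  toFun x := x.coeff 1
  map_zero' := rfl
  map_add' _ _ := rfl

private noncomputable def BD3_Psi (M : ModuleCat.{0} (MonoidAlgebra ℤ G)) :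
    ((Rep.ofModuleMonoidAlgebra (k := ℤ) (G := G)).obj M ⟶ Rep.ofMulAction ℤ G G) →+
        ((M : Type) →+ ℤ) where
  toFun f := BD3_coe1.comp (BD3_f f)
  map_zero' := by
    ext x
    rfl
  map_add' f g := by
    ext x
    rfl


private theorem BD3_Psi_apply (M : ModuleCat.{0} (MonoidAlgebra ℤ G))
    (f : (Rep.ofModuleMonoidAlgebra (k := ℤ) (G := G)).obj M ⟶ Rep.ofMulAction ℤ G G) (x : M) :
    BD3_Psi M f x = (BD3_f f x).coeff 1 := rfl

private theorem BD3_coeff_eq {M : ModuleCat.{0} (MonoidAlgebra ℤ G)}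
    (f : (Rep.ofModuleMonoidAlgebra (k := ℤ) (G := G)).obj M ⟶ Rep.ofMulAction ℤ G G)
    (g : G) (x : M) : (BD3_f f x).coeff g = BD3_Psi M f (g⁻¹ • x) := by
  rw [BD3_Psi_apply, BD3_coeff, inv_inv, mul_one]

omit [Group G] in
private theorem BD3_ext {x y : MonoidAlgebra ℤ G} (h : ∀ g, x.coeff g = y.coeff g) : x = y := by
  apply MonoidAlgebra.ext
  exact Finsupp.ext h

private theorem BD3_inj (M : ModuleCat.{0} (MonoidAlgebra ℤ G)) :
    Function.Injective (BD3_Psi M) := by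
  intro f f' h
  have h1 : ∀ x : M, BD3_f f x = BD3_f f' x := by
    intro x
    apply BD3_ext
    intro g
    rw [BD3_coeff_eq, BD3_coeff_eq, h]
  apply Rep.hom_ext
  apply DFunLike.ext
  intro x
  exact h1 x

private noncomputable def BD3_mk {M : ModuleCat.{0} (MonoidAlgebra ℤ G)} (φ : (M : Type) →+ ℤ)
    (hφ : IsFs G φ) : (M : Type) →+ MonoidAlgebra ℤ G where
  toFun x := MonoidAlgebra.ofCoeff (Finsupp.ofSupportFinite (fun g => φ (g⁻¹ • x)) (hφ x))
  map_zero' := by
    apply BD3_ext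
    intro g
    show φ (g⁻¹ • (0 : M)) = 0
    rw [smul_zero, map_zero]
  map_add' x y := by
    apply BD3_ext
    intro g
    show φ (g⁻¹ • (x + y)) = φ (g⁻¹ • x) + φ (g⁻¹ • y)
    rw [smul_add, map_add]

private theorem BD3_mk_coeff {M : ModuleCat.{0} (MonoidAlgebra ℤ G)} (φ : (M : Type) →+ ℤ)
    (hφ : IsFs G φ) (x : M) (g : G) : (BD3_mk φ hφ x).coeff g = φ (g⁻¹ • x) := rfl

private theorem BD3_zsmul {V W : Type} {_ : AddCommGroup V} {_ : AddCommGroup W}
    {mV : Module ℤ V} {mW : Module ℤ W} (f : V →+ W) (n : ℤ) (x : V) :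
    f (@HSMul.hSMul ℤ V V (@instHSMul ℤ V mV.toDistribMulAction.toDistribSMul.toSMul) n x) =
      @HSMul.hSMul ℤ W W (@instHSMul ℤ W mW.toDistribMulAction.toDistribSMul.toSMul) n (f x) := by
  have h := map_intCast_smul f ℤ ℤ n x
  rw [Int.cast_id] at h
  exact h

private theorem BD3_mk_smul {M : ModuleCat.{0} (MonoidAlgebra ℤ G)} (φ : (M : Type) →+ ℤ)
    (hφ : IsFs G φ) (g : G) (x : M) :
    BD3_mk φ hφ (g • x) = Representation.ofMulAction ℤ G G g (BD3_mk φ hφ x) := by
  apply BD3_ext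
  intro h
  rw [Representation.coeff_ofMulAction, BD3_mk_coeff, BD3_mk_coeff, smul_smul, smul_eq_mul,
    mul_inv_rev, inv_inv]

private noncomputable def BD3_hom {k : Type} [CommRing k] {A B : Rep.{0} k G} (f : A.V → B.V)
    (hadd : ∀ x y, f (x + y) = f x + f y) (hsmul : ∀ (n : k) x, f (n • x) = n • f x)
    (hf : ∀ g x, f (A.ρ g x) = B.ρ g (f x)) : A ⟶ B :=
  Rep.ofHom
    { toFun := f
      map_add' := hadd
      map_smul' := hsmul
      isIntertwining' := fun g => by
        apply LinearMap.ext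
        intro x
        exact hf g x }

private noncomputable def BD3_homZ {A B : Rep.{0} ℤ G} (f : A.V →+ B.V)
    (hf : ∀ g x, f (A.ρ g x) = B.ρ g (f x)) : A ⟶ B :=
  BD3_hom f (map_add f) (fun n x => @BD3_zsmul A.V B.V _ _ A.hV2 B.hV2 f n x) hf

private noncomputable def BD3_mkHom {M : ModuleCat.{0} (MonoidAlgebra ℤ G)} (φ : (M : Type) →+ ℤ)
    (hφ : IsFs G φ) :
    (Rep.ofModuleMonoidAlgebra (k := ℤ) (G := G)).obj M ⟶ Rep.ofMulAction ℤ G G :=
  BD3_homZ (A := (Rep.ofModuleMonoidAlgebra (k := ℤ) (G := G)).obj M)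
    (B := Rep.ofMulAction ℤ G G) (BD3_mk φ hφ) (fun g x => BD3_mk_smul φ hφ g x)

end

/-- PIECE ACH-BD3 (120 lines).  The natural correspondence between `G`-maps `M → ℤ[G]` and finitely
supported additive maps `M → ℤ`: `Ψ f x` is the coefficient at `1` of `f x`; it is injective (the
coefficient of `f x` at `g` is that of `f (g⁻¹ x)` at `1`), its image consists of the finitely
supported maps (`x ↦ Σ_g φ(g⁻¹ x) g`), and it is natural. -/
theorem exists_psi (G : Type) [Group G] :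
    ∃ Ψ : ∀ M : ModuleCat.{0} (MonoidAlgebra ℤ G),
      ((Rep.ofModuleMonoidAlgebra (k := ℤ) (G := G)).obj M ⟶ Rep.ofMulAction ℤ G G) →+
        ((M : Type) →+ ℤ),
      (∀ M, Function.Injective (Ψ M)) ∧
      (∀ (M : ModuleCat.{0} (MonoidAlgebra ℤ G)) (φ : (M : Type) →+ ℤ),
        (∃ f, Ψ M f = φ) ↔ IsFs G φ) ∧
      (∀ (M N : ModuleCat.{0} (MonoidAlgebra ℤ G)) (u : M ⟶ N)
        (f : (Rep.ofModuleMonoidAlgebra (k := ℤ) (G := G)).obj N ⟶ Rep.ofMulAction ℤ G G)
        (x : M), Ψ M ((Rep.ofModuleMonoidAlgebra (k := ℤ) (G := G)).map u ≫ f) x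
          = Ψ N f (u.hom x)) := by
  refine ⟨BD3_Psi, BD3_inj, ?_, ?_⟩
  · intro M φ
    constructor
    · rintro ⟨f, rfl⟩ x
      have h : {g : G | BD3_Psi M f (g⁻¹ • x) ≠ 0} = Function.support (BD3_f f x).coeff := by
        ext g
        rw [Function.mem_support, BD3_coeff_eq]
        rfl
      rw [h]
      exact (BD3_f f x).coeff.hasFiniteSupport
    · intro hφ
      refine ⟨BD3_mkHom φ hφ, ?_⟩
      ext x
      show φ ((1 : G)⁻¹ • x) = φ x
      rw [inv_one, one_smul]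
  · intro M N u f x
    rfl

end Pool.ACH
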