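import Pool.Agent.Helper20.ACH.BD1
import Pool.Agent.Helper20.ACH.BD2
import Pool.Agent.Helper20.ACH.BD3

/-! Project ACH (MP_9d9192_al): bridge to Mathlib. -/

set_option autoImplicit false

open CategoryTheory

namespace Pool.ACH

attribute [local instance] gAct

/-- The cochain complex of the `G`-maps from a resolution to the group ring. -/
private noncomputable def BD4_K (G : Type) [Group G] (P : ProjectiveResolution
      (Rep.equivalenceModuleMonoidAlgebra.functor.obj (Rep.trivial ℤ G ℤ))) :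
    CochainComplex (ModuleCat.{0} ℤ) ℕ :=
  ChainComplex.linearYonedaObj (((Rep.ofModuleMonoidAlgebra (k := ℤ)
    (G := G)).mapHomologicalComplex (ComplexShape.down ℕ)).obj P.complex) ℤ
    (Rep.ofMulAction ℤ G G)

private theorem BD4_iso (G : Type) [Group G] (P : ProjectiveResolution
      (Rep.equivalenceModuleMonoidAlgebra.functor.obj (Rep.trivial ℤ G ℤ))) (n : ℕ) :
    Nonempty (groupCohomology (Rep.ofMulAction ℤ G G) n ≅ (BD4_K G P).homology n) := by
  obtain ⟨P', hP'⟩ := exists_repRes G P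
  unfold BD4_K
  rw [← hP']
  exact ⟨groupCohomologyIso (Rep.ofMulAction ℤ G G) n P'⟩

private theorem BD4_d (G : Type) [Group G] (P : ProjectiveResolution
      (Rep.equivalenceModuleMonoidAlgebra.functor.obj (Rep.trivial ℤ G ℤ))) (i j : ℕ)
    (f : (Rep.ofModuleMonoidAlgebra (k := ℤ) (G := G)).obj (P.complex.X i) ⟶
      Rep.ofMulAction ℤ G G) :
    ((BD4_K G P).d i j).hom f =
      (Rep.ofModuleMonoidAlgebra (k := ℤ) (G := G)).map (P.complex.d j i) ≫ f := rfl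

/-- PIECE ACH-BD4 (120 lines).  Vanishing of `H^{i+1}(G; ℤ[G])` in terms of finitely supported
maps.  `groupCohomologyIso (Rep.ofMulAction ℤ G G) (i+1) P'` with `P'` of `exists_repRes`
identifies it with the homology of the complex with terms `P'.complex.X i ⟶ ℤ[G]`
(`linearYonedaObj`); use `exact_of_subsingleton` and `exists_psi`. -/
theorem coh_vanish (G : Type) [Group G] (P : ProjectiveResolution
      (Rep.equivalenceModuleMonoidAlgebra.functor.obj (Rep.trivial ℤ G ℤ))) (i : ℕ)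
    (h : Subsingleton (groupCohomology (Rep.ofMulAction ℤ G G) (i + 1)).carrier)
    (φ : (P.complex.X (i + 1) : Type) →+ ℤ) (hφ : IsFs G φ)
    (hd : ∀ x : P.complex.X (i + 2), φ ((P.complex.d (i + 2) (i + 1)).hom x) = 0) :
    ∃ ψ : (P.complex.X i : Type) →+ ℤ, IsFs G ψ ∧
      ∀ x : P.complex.X (i + 1), φ x = ψ ((P.complex.d (i + 1) i).hom x) := by
  obtain ⟨Ψ, hinj, him, hnat⟩ := exists_psi G
  obtain ⟨e⟩ := BD4_iso G P (i + 1)
  have hs : Subsingleton ((BD4_K G P).homology (i + 1)) :=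
    e.toLinearEquiv.symm.toEquiv.subsingleton
  obtain ⟨f, hf⟩ := (him _ φ).2 hφ
  have h1 : ((BD4_K G P).d (i + 1) (i + 2)).hom f = 0 := by
    rw [BD4_d]
    refine hinj _ ?_
    ext x
    rw [hnat, hf, hd]
    exact (DFunLike.congr_fun (map_zero (Ψ (P.complex.X (i + 2)))) x).symm
  obtain ⟨g, hg⟩ := exact_of_subsingleton (BD4_K G P) i hs f h1
  let g' : (Rep.ofModuleMonoidAlgebra (k := ℤ) (G := G)).obj (P.complex.X i) ⟶
      Rep.ofMulAction ℤ G G := g
  refine ⟨Ψ _ g', (him _ _).1 ⟨g', rfl⟩, fun x => ?_⟩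
  have h2 : (Rep.ofModuleMonoidAlgebra (k := ℤ) (G := G)).map (P.complex.d (i + 1) i) ≫ g' = f :=
    hg
  rw [← hnat, h2, hf]

/-- PIECE ACH-BD4 (80 lines).  `H^3(G; ℤ[G]) ≅ ℤ` in terms of finitely supported maps, by
`gen_of_iso`. -/
theorem coh_three (G : Type) [Group G] (P : ProjectiveResolution
      (Rep.equivalenceModuleMonoidAlgebra.functor.obj (Rep.trivial ℤ G ℤ)))
    (h : Nonempty ((groupCohomology (Rep.ofMulAction ℤ G G) 3).carrier ≃+ ℤ)) :
    ∃ z : (P.complex.X 3 : Type) →+ ℤ, IsFs G z ∧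
      (∀ x : P.complex.X 4, z ((P.complex.d 4 3).hom x) = 0) ∧
      (∀ φ : (P.complex.X 3 : Type) →+ ℤ, IsFs G φ →
        (∀ x : P.complex.X 4, φ ((P.complex.d 4 3).hom x) = 0) →
        ∃ (m : ℤ) (ψ : (P.complex.X 2 : Type) →+ ℤ), IsFs G ψ ∧
          ∀ x : P.complex.X 3, φ x = m * z x + ψ ((P.complex.d 3 2).hom x)) ∧
      (∀ (m : ℤ) (ψ : (P.complex.X 2 : Type) →+ ℤ), IsFs G ψ →
        (∀ x : P.complex.X 3, m * z x = ψ ((P.complex.d 3 2).hom x)) → m = 0) := by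
  obtain ⟨Ψ, hinj, him, hnat⟩ := exists_psi G
  obtain ⟨e⟩ := BD4_iso G P 3
  obtain ⟨e'⟩ := h
  obtain ⟨z, hz0, hz1, hz2⟩ := gen_of_iso (BD4_K G P) 2
    (e.toLinearEquiv.symm.toAddEquiv.trans e')
  let z' : (Rep.ofModuleMonoidAlgebra (k := ℤ) (G := G)).obj (P.complex.X 3) ⟶
      Rep.ofMulAction ℤ G G := z
  refine ⟨Ψ _ z', (him _ _).1 ⟨z', rfl⟩, fun x => ?_, fun φ hφ hd => ?_, fun m ψ hψ hm => ?_⟩
  · rw [← hnat]
    have h1 : (Rep.ofModuleMonoidAlgebra (k := ℤ) (G := G)).map (P.complex.d 4 3) ≫ z' = 0 := hz0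
    rw [h1]
    exact DFunLike.congr_fun (map_zero (Ψ (P.complex.X 4))) x
  · obtain ⟨f, hf⟩ := (him _ φ).2 hφ
    have h1 : ((BD4_K G P).d 3 4).hom f = 0 := by
      rw [BD4_d]
      refine hinj _ ?_
      ext x
      rw [hnat, hf, hd]
      exact (DFunLike.congr_fun (map_zero (Ψ (P.complex.X 4))) x).symm
    obtain ⟨m, g, hg⟩ := hz1 f h1
    let g' : (Rep.ofModuleMonoidAlgebra (k := ℤ) (G := G)).obj (P.complex.X 2) ⟶
      Rep.ofMulAction ℤ G G := g
    refine ⟨m, Ψ _ g', (him _ _).1 ⟨g', rfl⟩, fun x => ?_⟩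
    have h2 : f = m • z' + (Rep.ofModuleMonoidAlgebra (k := ℤ) (G := G)).map
        (P.complex.d 3 2) ≫ g' := hg
    rw [← hnat, ← hf, h2, map_add, map_zsmul]
    rfl
  · obtain ⟨f, hf⟩ := (him _ ψ).2 hψ
    refine hz2 m f ?_
    have h2 : m • z' = (Rep.ofModuleMonoidAlgebra (k := ℤ) (G := G)).map (P.complex.d 3 2) ≫ f := by
      refine hinj _ ?_
      ext x
      rw [map_zsmul, hnat, hf, ← hm]
      rfl
    exact h2

end Pool.ACH
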