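import Pool.Agent.Helper20.ACH.BB
import Pool.Agent.Helper20.ACH.BC
import Pool.Agent.Helper20.ACH.BD4

/-! Project ACH (MP_9d9192_al): bridge to Mathlib. -/

set_option autoImplicit false

open CategoryTheory

namespace Pool.ACH

attribute [local instance] gAct

/-- PIECE ACH-BE (60 lines).  Assembly: `X i = P.complex.X i` with the action `gAct`, `d i` the
differential.  `exists_DB` (projectivity: `IsProjective.iff_projective`), `res_exact`,
`coh_vanish`, `coh_three`; zero objects of `ModuleCat` are subsingletons. -/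
theorem resData_of_frozen (G : Type) [Group G]
    (hP : ∃ P : ProjectiveResolution
        (Rep.equivalenceModuleMonoidAlgebra.functor.obj (Rep.trivial ℤ G ℤ)),
      (∃ n : ℕ, ∀ i : ℕ, n < i → Limits.IsZero (P.complex.X i)) ∧
      (∀ i : ℕ, Module.Finite (MonoidAlgebra ℤ G) (P.complex.X i).carrier))
    (h : ∀ i : ℕ, i ≠ 3 →
      Subsingleton (groupCohomology (Rep.ofMulAction ℤ G G) i).carrier)
    (h3 : Nonempty ((groupCohomology (Rep.ofMulAction ℤ G G) 3).carrier ≃+ ℤ)) :
    Nonempty (ResData G) := by
  obtain ⟨P, ⟨n, hn⟩, hfin⟩ := hP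
  obtain ⟨⟨π, hπ1, hπ2, hπ3⟩, hex⟩ := res_exact G P
  obtain ⟨z, hz1, hz2, hz3, hz4⟩ := coh_three G P h3
  have hDB : ∀ i, Nonempty (DB G (P.complex.X i)) := by
    intro i
    have := hfin i
    have : Module.Projective (MonoidAlgebra ℤ G) (P.complex.X i) :=
      (IsProjective.iff_projective _).2 (P.projective i)
    exact exists_DB G (P.complex.X i)
  exact ⟨{
    X := fun i => (P.complex.X i : Type)
    ab := fun i => inferInstance
    ac := fun i => gAct G (P.complex.X i)
    d := fun i => (P.complex.d (i + 1) i).hom.toAddMonoidHom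
    π := π
    d_smul := fun i g x => (P.complex.d (i + 1) i).hom.map_smul (MonoidAlgebra.of ℤ G g) x
    π_smul := hπ1
    π_surj := hπ2
    exact0 := hπ3
    exact := hex
    b := hDB
    n := n
    bound := fun i hi => ModuleCat.subsingleton_of_isZero (hn i hi)
    coh := fun i hi φ hφ hd => coh_vanish G P i (h (i + 1) hi) φ hφ hd
    z := z
    z_fs := hz1
    z_d := hz2
    z_gen := hz3
    z_free := hz4 }⟩

end Pool.ACH
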