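import Pool.Agent.Helper20.ACH.BA

/-! Project ACH (MP_9d9192_al): bridge, truncation of the resolution. -/

set_option autoImplicit false

namespace Pool.ACH

variable {G : Type} [Group G]

private theorem BK_step (R : ResData G) (j : ℕ) (hj : 2 ≤ j)
    (h : ∃ ρ : R.X (j + 2) →+ R.X (j + 2), (∀ (g : G) (x), ρ (g • x) = g • ρ x) ∧
      (∀ x, R.d (j + 1) (ρ x) = 0) ∧ ∀ x, R.d (j + 1) x = 0 → ρ x = x) :
    ∃ ρ : R.X (j + 1) →+ R.X (j + 1), (∀ (g : G) (x), ρ (g • x) = g • ρ x) ∧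
      (∀ x, R.d j (ρ x) = 0) ∧ ∀ x, R.d j x = 0 → ρ x = x := by
  obtain ⟨ρ, h1, h2, h3⟩ := h
  obtain ⟨b⟩ := R.b (j + 2)
  have hs : ∀ (g : G) (x : R.X (j + 2)),
      (AddMonoidHom.id (R.X (j + 2)) - ρ) (g • x) = g • (AddMonoidHom.id (R.X (j + 2)) - ρ) x := by
    intro g x
    rw [AddMonoidHom.sub_apply, AddMonoidHom.sub_apply, smul_sub, h1]
    rfl
  have hfs : ∀ i : b.J, IsFs G ((b.φ i).comp (AddMonoidHom.id (R.X (j + 2)) - ρ)) := fun i =>
    (b.fs i).comp _ hs
  have hv : ∀ (i : b.J) (x : R.X (j + 3)),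
      ((b.φ i).comp (AddMonoidHom.id (R.X (j + 2)) - ρ)) (R.d (j + 2) x) = 0 := by
    intro i x
    have e1 : R.d (j + 1) (R.d (j + 2) x) = 0 := (R.exact (j + 1) _).2 ⟨x, rfl⟩
    have e2 := h3 _ e1
    rw [AddMonoidHom.comp_apply, AddMonoidHom.sub_apply, e2, AddMonoidHom.id_apply, sub_self,
      map_zero]
  choose ψ hψ1 hψ2 using fun i => R.coh (j + 1) (by omega) _ (hfs i) (hv i)
  have hdd : ∀ (g : G) (i : b.J), R.d j (g • R.d (j + 1) (b.e i)) = 0 := by
    intro g i
    rw [R.d_smul]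
    have e1 : R.d j (R.d (j + 1) (b.e i)) = 0 := (R.exact j _).2 ⟨_, rfl⟩
    rw [e1, smul_zero]
  refine ⟨∑ i, tw (ψ i) (hψ1 i) (fun g => g • R.d (j + 1) (b.e i)), ?_, ?_, ?_⟩
  · intro g x
    rw [AddMonoidHom.finsetSum_apply, AddMonoidHom.finsetSum_apply, Finset.smul_sum]
    refine Finset.sum_congr rfl fun i _ => ?_
    rw [tw_smul]
    have e1 := map_tw (DistribSMul.toAddMonoidHom (R.X (j + 1)) g) (ψ i) (hψ1 i)
      (fun g => g • R.d (j + 1) (b.e i)) x
    have e2 : g • tw (ψ i) (hψ1 i) (fun g => g • R.d (j + 1) (b.e i)) x =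
        (DistribSMul.toAddMonoidHom (R.X (j + 1)) g)
          (tw (ψ i) (hψ1 i) (fun g => g • R.d (j + 1) (b.e i)) x) := rfl
    rw [e2, e1]
    congr 2
    funext k
    simp [mul_smul]
  · intro x
    rw [AddMonoidHom.finsetSum_apply, map_sum]
    refine Finset.sum_eq_zero fun i _ => ?_
    rw [map_tw]
    have e1 : (fun g : G => R.d j (g • R.d (j + 1) (b.e i))) = fun _ => 0 := by
      funext g
      exact hdd g i
    rw [e1, tw_zero]
    rfl
  · intro x hx
    obtain ⟨y, rfl⟩ := (R.exact j x).1 hx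
    rw [AddMonoidHom.finsetSum_apply]
    have e1 : R.d (j + 1) (y - ρ y) = R.d (j + 1) y := by
      rw [map_sub, h2, sub_zero]
    refine Eq.trans ?_ e1
    rw [b.expand (R.d (j + 1)) (y - ρ y)]
    refine Finset.sum_congr rfl fun i _ => ?_
    have hc : IsFs G ((ψ i).comp (R.d (j + 1))) := (hψ1 i).comp _ (R.d_smul (j + 1))
    rw [tw_comp (ψ i) (hψ1 i) (R.d (j + 1)) (R.d_smul (j + 1)) hc]
    have e2 : (ψ i).comp (R.d (j + 1)) = (b.φ i).comp (AddMonoidHom.id (R.X (j + 2)) - ρ) := by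
      ext p
      exact (hψ2 i p).symm
    rw [tw_congr e2 hc (hfs i)]
    have e3 := tw_comp (b.φ i) (b.fs i) (AddMonoidHom.id (R.X (j + 2)) - ρ) hs (hfs i)
      (fun g => g • R.d (j + 1) (b.e i)) y
    rw [← e3]
    have e4 : (AddMonoidHom.id (R.X (j + 2)) - ρ) y = y - ρ y := rfl
    rw [e4]
    congr 2
    funext g
    exact (R.d_smul (j + 1) g (b.e i)).symm

/-- PIECE ACH-BK1 (120 lines).  `ker (d j)` is an equivariant direct summand of `X (j+1)` for
`j ≥ 2`.  Descending induction.  If `j + 1 > n` then `ρ = 0`.  Suppose `ρ` is such a projection on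
`X (j+2)` onto `ker (d (j+1))`, `j ≥ 2`, and let `φ_i, e_i` be the dual basis of `X (j+2)`.
`φ'_i = φ_i∘(1 - ρ)` is finitely supported (`IsFs.comp`) and vanishes on
`ker (d (j+1)) = im (d (j+2))`, so `φ'_i = ψ_i∘d (j+1)` with `ψ_i` finitely supported
(`R.coh (j+1)`, `j + 2 ≠ 3`).  Put `ρ'(y) = Σ_i tw ψ_i (g ↦ g • d e_i) (y)` on `X (j+1)`.
It is equivariant (`tw_smul`, `map_tw`), has values in `im (d (j+1)) = ker (d j)`, and for
`y = d x`: `ρ'(d x) = Σ_i Σ_g φ_i(g⁻¹(x - ρ x)) g d e_i = d (x - ρ x) = d x` (`DB.expand`). -/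
theorem ResData.exists_proj (R : ResData G) (j : ℕ) (hj : 2 ≤ j) :
    ∃ ρ : R.X (j + 1) →+ R.X (j + 1), (∀ (g : G) (x), ρ (g • x) = g • ρ x) ∧
      (∀ x, R.d j (ρ x) = 0) ∧ ∀ x, R.d j x = 0 → ρ x = x := by
  have key : ∀ k j : ℕ, 2 ≤ j → R.n < j + 1 + k →
      ∃ ρ : R.X (j + 1) →+ R.X (j + 1), (∀ (g : G) (x), ρ (g • x) = g • ρ x) ∧
      (∀ x, R.d j (ρ x) = 0) ∧ ∀ x, R.d j x = 0 → ρ x = x := by
    intro k
    induction k with
    | zero =>
      intro j hj hn
      have hs : Subsingleton (R.X (j + 1)) := R.bound (j + 1) hn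
      exact ⟨0, fun g x => by simp, fun x => by simp, fun x _ => Subsingleton.elim _ _⟩
    | succ k ih =>
      intro j hj hn
      exact BK_step R j hj (ih (j + 1) (by omega) (by omega))
  exact key R.n j hj (by omega)

/-- The kernel of an equivariant endomorphism. -/
private def BK_ker {X : Type} [AddCommGroup X] [DistribMulAction G X] (ρ : X →+ X) : Type :=
  {x : X // ρ x = 0}

private instance BK_acg {X : Type} [AddCommGroup X] [DistribMulAction G X] (ρ : X →+ X) :
    AddCommGroup (BK_ker (G := G) ρ) :=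
  inferInstanceAs (AddCommGroup ρ.ker)

@[reducible] private def BK_act {X : Type} [AddCommGroup X] [DistribMulAction G X] (ρ : X →+ X)
    (h : ∀ (g : G) (x : X), ρ (g • x) = g • ρ x) : DistribMulAction G (BK_ker (G := G) ρ) where
  smul g x := ⟨g • x.1, by rw [h, x.2, smul_zero]⟩
  one_smul x := Subtype.ext (one_smul G x.1)
  mul_smul g k x := Subtype.ext (mul_smul g k x.1)
  smul_zero g := Subtype.ext (smul_zero g)
  smul_add g x y := Subtype.ext (smul_add g x.1 y.1)

/-- PIECE ACH-BK2 (150 lines).  `P0, P1, P2 = X 0, X 1, X 2` and `P3 = ker (d 1) ⊆ X 2` with `d2`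
the inclusion.  By `exists_proj` with `j = 2` there is an equivariant `s : P3 → X 3` with
`s (d 2 x) = x - ρ x` (well-defined), `d 2 (s y) = y`; the dual basis of `P3` is
`φ_i∘s, d 2 e_i` for the dual basis `φ_i, e_i` of `X 3`.  `z` factors through `d 2` (`R.z_d`,
`R.exact`): `z_K = z∘s`.  `D2` is `R.coh 1`; `D3`, `D3'` are `R.z_gen`, `R.z_free` applied to
`φ∘d 2`. -/
theorem ResData.exists_pre (R : ResData G) :
    ∃ (P0 P1 P2 P3 : Type) (_ : AddCommGroup P0) (_ : AddCommGroup P1) (_ : AddCommGroup P2)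
      (_ : AddCommGroup P3) (_ : DistribMulAction G P0) (_ : DistribMulAction G P1)
      (_ : DistribMulAction G P2) (_ : DistribMulAction G P3),
      Nonempty (PD3Pre G P0 P1 P2 P3) := by
  obtain ⟨ρ, h1, h2, h3⟩ := R.exists_proj 2 le_rfl
  let _ : DistribMulAction G (BK_ker (G := G) ρ) := BK_act ρ h1
  obtain ⟨b0⟩ := R.b 0
  obtain ⟨b1⟩ := R.b 1
  obtain ⟨b2⟩ := R.b 2
  obtain ⟨b3⟩ := R.b 3
  obtain ⟨p0, hp0⟩ := R.π_surj 1
  let inc : BK_ker (G := G) ρ →+ R.X 3 :=
    { toFun := fun x => x.1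
      map_zero' := rfl
      map_add' := fun _ _ => rfl }
  have hinc : ∀ (g : G) (x : BK_ker (G := G) ρ), inc (g • x) = g • inc x := fun g x => rfl
  have hρ : ∀ x, ρ (x - ρ x) = 0 := fun x => by
    rw [map_sub, h3 _ (h2 x), sub_self]
  let pr : R.X 3 →+ BK_ker (G := G) ρ :=
    { toFun := fun x => ⟨x - ρ x, hρ x⟩
      map_zero' := Subtype.ext (by simp; rfl)
      map_add' := fun x y => Subtype.ext (by
        change x + y - ρ (x + y) = (x - ρ x) + (y - ρ y)
        rw [map_add]; abel) }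
  have hpr : ∀ (g : G) (x : R.X 3), pr (g • x) = g • pr x := fun g x => Subtype.ext (by
    change g • x - ρ (g • x) = g • (x - ρ x)
    rw [h1, smul_sub])
  have hpi : ∀ x : BK_ker (G := G) ρ, pr (inc x) = x := fun x => Subtype.ext (by
    change x.1 - ρ x.1 = x.1
    rw [x.2, sub_zero])
  have hip : ∀ x : R.X 3, inc (pr x) = x - ρ x := fun x => rfl
  have hdp : ∀ x : R.X 3, R.d 2 (inc (pr x)) = R.d 2 x := fun x => by
    rw [hip, map_sub, h2, sub_zero]
  have hzp : ∀ x : R.X 3, R.z (inc (pr x)) = R.z x := fun x => by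
    obtain ⟨y, hy⟩ := (R.exact 2 _).1 (h2 x)
    rw [hip, map_sub, ← hy, R.z_d, sub_zero]
  refine ⟨R.X 0, R.X 1, R.X 2, BK_ker (G := G) ρ, R.ab 0, R.ab 1, R.ab 2, inferInstance,
    R.ac 0, R.ac 1, R.ac 2, inferInstance, ⟨?_⟩⟩
  exact
    { ε := R.π
      d0 := R.d 0
      d1 := R.d 1
      d2 := (R.d 2).comp inc
      ε_smul := R.π_smul
      d0_smul := R.d_smul 0
      d1_smul := R.d_smul 1
      d2_smul := fun g p => by
        rw [AddMonoidHom.comp_apply, hinc, R.d_smul]; rfl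
      p0 := p0
      ε_p0 := hp0
      exact0 := R.exact0
      exact1 := R.exact 0
      exact2 := fun p => by
        rw [R.exact 1 p]
        constructor
        · rintro ⟨y, rfl⟩
          exact ⟨pr y, hdp y⟩
        · rintro ⟨q, rfl⟩
          exact ⟨inc q, rfl⟩
      d2_inj := by
        rw [injective_iff_map_eq_zero]
        intro x hx
        have e1 : ρ (inc x) = inc x := h3 _ hx
        have e2 : ρ (inc x) = 0 := x.2
        exact Subtype.ext (e1.symm.trans e2)
      b0 := b0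
      b1 := b1
      b2 := b2
      b3 :=
        { J := b3.J
          fin := b3.fin
          φ := fun j => (b3.φ j).comp inc
          e := fun j => pr (b3.e j)
          fs := fun j => (b3.fs j).comp inc hinc
          span := fun p => by
            have e1 := congrArg pr (b3.span (inc p))
            rw [hpi, map_sum] at e1
            refine e1.trans (Finset.sum_congr rfl fun j _ => ?_)
            have e2 := map_tw pr (b3.φ j) (b3.fs j) (fun g => g • b3.e j) (inc p)
            rw [tw_apply, tw_apply] at e2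
            rw [e2]
            refine finsum_congr fun g => ?_
            rw [hpr, ← hinc]
            rfl }
      z := R.z.comp inc
      z_fs := R.z_fs.comp inc hinc
      D2 := fun φ hφ hv => by
        obtain ⟨ψ, hψ, hψ2⟩ := R.coh 1 (by omega) φ hφ (fun x => by
          rw [← hdp x]; exact hv (pr x))
        exact ⟨ψ, hψ, AddMonoidHom.ext hψ2⟩
      D3 := fun φ hφ => by
        obtain ⟨m, ψ, hψ, hψ2⟩ := R.z_gen (φ.comp pr) (hφ.comp pr hpr) (fun x => by
          have e1 : R.d 2 (R.d 3 x) = 0 := (R.exact 2 _).2 ⟨x, rfl⟩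
          have e2 : pr (R.d 3 x) = 0 := Subtype.ext (by
            change R.d 3 x - ρ (R.d 3 x) = 0
            rw [h3 _ e1, sub_self])
          rw [AddMonoidHom.comp_apply, e2, map_zero])
        refine ⟨m, ψ, hψ, ?_⟩
        ext x
        have e1 := hψ2 (inc x)
        rw [AddMonoidHom.comp_apply, hpi] at e1
        rw [e1]
        simp
      D3' := fun n ψ hψ h => by
        refine R.z_free n ψ hψ fun x => ?_
        have e1 := DFunLike.congr_fun h (pr x)
        have e2 : n * R.z (inc (pr x)) = ψ (R.d 2 (inc (pr x))) := by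
          simpa using e1
        rw [hzp, hdp] at e2
        exact e2 }

end Pool.ACH
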