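import Pool.Agent.Helper20.ACH.BA

/-! Project ACH (MP_9d9192_al): bridge, chain maps. -/

set_option autoImplicit false

namespace Pool.ACH

variable {G : Type} [Group G] {P0 P1 P2 P3 : Type} [AddCommGroup P0] [AddCommGroup P1]
    [AddCommGroup P2] [AddCommGroup P3] [DistribMulAction G P0] [DistribMulAction G P1]
    [DistribMulAction G P2] [DistribMulAction G P3]

/-- PIECE ACH-BM1 (70 lines).  Existence of chain maps over `θ`.
`F0 = D.b0.lift (fun j g => D.ε (e_j) • θ g • D.p0)`, then `DB.exists_lift` for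
`F0∘d0` through `d0`, `F1∘d1` through `d1`, `F2∘d2` through `d2`. -/
theorem PD3Pre.exists_chain (D : PD3Pre G P0 P1 P2 P3) (θ : G ≃* G) : Nonempty (Chain D θ) := by
  have h00 : ∀ p, D.ε (D.d0 p) = 0 := fun p => (D.exact0 _).2 ⟨p, rfl⟩
  have h01 : ∀ p, D.d0 (D.d1 p) = 0 := fun p => (D.exact1 _).2 ⟨p, rfl⟩
  have h12 : ∀ p, D.d1 (D.d2 p) = 0 := fun p => (D.exact2 _).2 ⟨p, rfl⟩
  have hF0 : ∃ F0 : P0 →+ P0, (∀ (g : G) (p : P0), F0 (g • p) = θ g • F0 p) ∧
      ∀ p, D.ε (F0 p) = D.ε p := by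
    letI : DistribMulAction G ℤ :=
      { smul := fun _ n => n
        one_smul := fun _ => rfl
        mul_smul := fun _ _ _ => rfl
        smul_zero := fun _ => rfl
        smul_add := fun _ _ _ => rfl }
    obtain ⟨F, h1, h2⟩ := D.b0.exists_lift (θ : G →* G) D.ε (fun g x => D.ε_smul g x) D.ε
      (fun g x => D.ε_smul g x) (fun p => ⟨p, rfl⟩)
    exact ⟨F, h1, h2⟩
  obtain ⟨F0, F0s, F0e⟩ := hF0
  obtain ⟨F1, F1s, F1e⟩ := D.b1.exists_lift (θ : G →* G) D.d0 D.d0_smul (F0.comp D.d0)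
    (fun g p => by
      rw [AddMonoidHom.comp_apply, AddMonoidHom.comp_apply, D.d0_smul, F0s]; rfl)
    (fun p => by
      rw [← D.exact0, AddMonoidHom.comp_apply, F0e, h00])
  obtain ⟨F2, F2s, F2e⟩ := D.b2.exists_lift (θ : G →* G) D.d1 D.d1_smul (F1.comp D.d1)
    (fun g p => by
      rw [AddMonoidHom.comp_apply, AddMonoidHom.comp_apply, D.d1_smul, F1s])
    (fun p => by
      rw [← D.exact1, AddMonoidHom.comp_apply, F1e, AddMonoidHom.comp_apply, h01, map_zero])
  obtain ⟨F3, F3s, F3e⟩ := D.b3.exists_lift (θ : G →* G) D.d2 D.d2_smul (F2.comp D.d2)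
    (fun g p => by
      rw [AddMonoidHom.comp_apply, AddMonoidHom.comp_apply, D.d2_smul, F2s])
    (fun p => by
      rw [← D.exact2, AddMonoidHom.comp_apply, F2e, AddMonoidHom.comp_apply, h12, map_zero])
  exact ⟨{ F0 := F0, F1 := F1, F2 := F2, F3 := F3
           F0_smul := F0s
           F1_smul := F1s
           F2_smul := F2s
           F3_smul := F3s
           ε_F0 := F0e
           comm0 := fun p => (F1e p).symm
           comm1 := fun p => (F2e p).symm
           comm2 := fun p => (F3e p).symm }⟩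

/-- PIECE ACH-BM2 (80 lines).  A chain map over the identity is homotopic to the identity:
`s0 : P0 → P1` with `d0 s0 = E0 - 1`, `s1` with `d1 s1 = E1 - 1 - s0 d0`, `s2` with
`d2 s2 = E2 - 1 - s1 d1` (`DB.exists_lift` with trivial `θ`), and then
`d2 (E3 - 1 - s2 d2) = 0`, so `E3 - 1 = s2 d2`. -/
theorem Chain.homotopy {D : PD3Pre G P0 P1 P2 P3} (E : Chain D (MulEquiv.refl G)) :
    ∃ s : P2 →+ P3, (∀ (g : G) (p : P2), s (g • p) = g • s p) ∧
      ∀ p, E.F3 p = p + s (D.d2 p) := by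
  have h00 : ∀ p, D.ε (D.d0 p) = 0 := fun p => (D.exact0 _).2 ⟨p, rfl⟩
  have h01 : ∀ p, D.d0 (D.d1 p) = 0 := fun p => (D.exact1 _).2 ⟨p, rfl⟩
  have h12 : ∀ p, D.d1 (D.d2 p) = 0 := fun p => (D.exact2 _).2 ⟨p, rfl⟩
  have e0 : ∀ (g : G) (p : P0), E.F0 (g • p) = g • E.F0 p := fun g p => E.F0_smul g p
  have e1 : ∀ (g : G) (p : P1), E.F1 (g • p) = g • E.F1 p := fun g p => E.F1_smul g p
  have e2 : ∀ (g : G) (p : P2), E.F2 (g • p) = g • E.F2 p := fun g p => E.F2_smul g p
  obtain ⟨s0, s0s, s0e⟩ := D.b0.exists_lift (MonoidHom.id G) D.d0 D.d0_smul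
    (E.F0 - AddMonoidHom.id P0)
    (fun g p => by
      simp only [AddMonoidHom.sub_apply, AddMonoidHom.id_apply, MonoidHom.id_apply, e0, smul_sub])
    (fun p => by
      rw [← D.exact0, AddMonoidHom.sub_apply, AddMonoidHom.id_apply, map_sub, E.ε_F0, sub_self])
  obtain ⟨s1, s1s, s1e⟩ := D.b1.exists_lift (MonoidHom.id G) D.d1 D.d1_smul
    (E.F1 - AddMonoidHom.id P1 - s0.comp D.d0)
    (fun g p => by
      have := s0s g (D.d0 p)
      simp only [MonoidHom.id_apply] at this
      simp only [AddMonoidHom.sub_apply, AddMonoidHom.id_apply, MonoidHom.id_apply,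
        AddMonoidHom.comp_apply, e1, smul_sub, D.d0_smul, this])
    (fun p => by
      have h := s0e (D.d0 p)
      simp only [AddMonoidHom.sub_apply, AddMonoidHom.id_apply] at h
      rw [← D.exact1]
      simp only [AddMonoidHom.sub_apply, AddMonoidHom.id_apply, AddMonoidHom.comp_apply, map_sub]
      rw [h, ← E.comm0]
      abel)
  obtain ⟨s2, s2s, s2e⟩ := D.b2.exists_lift (MonoidHom.id G) D.d2 D.d2_smul
    (E.F2 - AddMonoidHom.id P2 - s1.comp D.d1)
    (fun g p => by
      have := s1s g (D.d1 p)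
      simp only [MonoidHom.id_apply] at this
      simp only [AddMonoidHom.sub_apply, AddMonoidHom.id_apply, MonoidHom.id_apply,
        AddMonoidHom.comp_apply, e2, smul_sub, D.d1_smul, this])
    (fun p => by
      have h := s1e (D.d1 p)
      simp only [AddMonoidHom.sub_apply, AddMonoidHom.id_apply, AddMonoidHom.comp_apply, h01,
        map_zero, sub_zero] at h
      rw [← D.exact2]
      simp only [AddMonoidHom.sub_apply, AddMonoidHom.id_apply, AddMonoidHom.comp_apply, map_sub]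
      rw [h, ← E.comm1]
      abel)
  refine ⟨s2, fun g p => s2s g p, fun p => D.d2_inj ?_⟩
  have h := s2e (D.d2 p)
  simp only [AddMonoidHom.sub_apply, AddMonoidHom.id_apply, AddMonoidHom.comp_apply, h12,
    map_zero, sub_zero] at h
  rw [map_add, h, ← E.comm2]
  abel

end Pool.ACH
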