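import Pool.Agent.Helper20.ACH.BA

/-! Project ACH (MP_9d9192_al): bridge, comparison of cocycles. -/

set_option autoImplicit false

namespace Pool.ACH

/-- Contraction, PIECE ACH-BM3 (120 lines).  For `M = Hom(P, ℤ)`, `P` with dual basis
`φ_j, e_j`, put `b(g_1, …, g_{n-1})(p) = Σ_j tw φ_j (g ↦ c(g⁻¹, g_1, …, g_{n-1})(e_j)) (p)`.
Degree one. -/
theorem contract1 {G P : Type} [Group G] [AddCommGroup P] [DistribMulAction G P] (b : DB G P)
    (c : G → (P →+ ℤ)) (hc : ∀ g h p, c h (g⁻¹ • p) - c (g * h) p + c g p = 0) :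
    ∃ u : P →+ ℤ, ∀ g p, c g p = u (g⁻¹ • p) - u p := by
  refine ⟨b.lift fun j y => c y⁻¹ (b.e j), fun g p => ?_⟩
  have h1 : (fun (j : b.J) (y : G) => c (g⁻¹ * y)⁻¹ (b.e j)) =
      fun j y => c g (y • b.e j) + c y⁻¹ (b.e j) := by
    funext j y
    have h := hc y⁻¹ g (b.e j)
    rw [inv_inv] at h
    rw [mul_inv_rev, inv_inv]
    linarith
  rw [DB.lift_smul, h1, DB.lift_add, AddMonoidHom.add_apply, DB.lift_eq b (c g)]
  ring

/-- PIECE ACH-BM3.  Degree two. -/
theorem contract2 {G P : Type} [Group G] [AddCommGroup P] [DistribMulAction G P] (b : DB G P)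
    (c : G → G → (P →+ ℤ))
    (hc : ∀ g h k p, c h k (g⁻¹ • p) - c (g * h) k p + c g (h * k) p - c g h p = 0) :
    ∃ u : G → (P →+ ℤ), ∀ g h p, c g h p = u h (g⁻¹ • p) - u (g * h) p + u g p := by
  refine ⟨fun h => b.lift fun j y => c y⁻¹ h (b.e j), fun g h p => ?_⟩
  have h1 : (fun (j : b.J) (y : G) => c (g⁻¹ * y)⁻¹ h (b.e j) + c y⁻¹ g (b.e j)) =
      fun j y => c g h (y • b.e j) + c y⁻¹ (g * h) (b.e j) := by
    funext j y
    have h := hc y⁻¹ g h (b.e j)
    rw [inv_inv] at h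
    rw [mul_inv_rev, inv_inv]
    linarith
  have h2 := congrArg (fun a => b.lift a p) h1
  simp only [DB.lift_add, AddMonoidHom.add_apply, DB.lift_eq b (c g h)] at h2
  simp only [DB.lift_smul]
  linarith

/-- PIECE ACH-BM3.  Degree three. -/
theorem contract3 {G P : Type} [Group G] [AddCommGroup P] [DistribMulAction G P] (b : DB G P)
    (c : G → G → G → (P →+ ℤ))
    (hc : ∀ g h k l p, c h k l (g⁻¹ • p) - c (g * h) k l p + c g (h * k) l p - c g h (k * l) p
      + c g h k p = 0) :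
    ∃ u : G → G → (P →+ ℤ), ∀ g h k p,
      c g h k p = u h k (g⁻¹ • p) - u (g * h) k p + u g (h * k) p - u g h p := by
  refine ⟨fun h k => b.lift fun j y => c y⁻¹ h k (b.e j), fun g h k p => ?_⟩
  have h1 : (fun (j : b.J) (y : G) => c (g⁻¹ * y)⁻¹ h k (b.e j) + c y⁻¹ g (h * k) (b.e j)) =
      fun j y => c g h k (y • b.e j) + c y⁻¹ (g * h) k (b.e j) + c y⁻¹ g h (b.e j) := by
    funext j y
    have h := hc y⁻¹ g h k (b.e j)
    rw [inv_inv] at h
    rw [mul_inv_rev, inv_inv]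
    linarith
  have h2 := congrArg (fun a => b.lift a p) h1
  have h3 : b.lift (fun j y => c g h k (y • b.e j) + c y⁻¹ (g * h) k (b.e j) + c y⁻¹ g h (b.e j)) =
      b.lift (fun j y => c g h k (y • b.e j)) + b.lift (fun j y => c y⁻¹ (g * h) k (b.e j)) +
        b.lift (fun j y => c y⁻¹ g h (b.e j)) := by
    rw [← DB.lift_add, ← DB.lift_add]
  rw [h3] at h2
  simp only [DB.lift_add, AddMonoidHom.add_apply, DB.lift_eq b (c g h k)] at h2
  simp only [DB.lift_smul]
  linarith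

variable {G : Type} [Group G] {P0 P1 P2 P3 : Type} [AddCommGroup P0] [AddCommGroup P1]
    [AddCommGroup P2] [AddCommGroup P3] [DistribMulAction G P0] [DistribMulAction G P1]
    [DistribMulAction G P2] [DistribMulAction G P3]

/-- The function `f` of three variables is connected with the additive map `A2`. -/
def Conn (D : PD3Pre G P0 P1 P2 P3) (f : G → G → G → ℤ) (A2 : P2 →+ ℤ) : Prop :=
  ∃ (A0 : G → G → (P0 →+ ℤ)) (A1 : G → (P1 →+ ℤ)),
    (∀ g h k p, f g h k * D.ε p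
      = A0 h k (g⁻¹ • p) - A0 (g * h) k p + A0 g (h * k) p - A0 g h p) ∧
    (∀ g h p, A0 g h (D.d0 p) = A1 h (g⁻¹ • p) - A1 (g * h) p + A1 g p) ∧
    (∀ g p, A1 g (D.d1 p) = A2 (g⁻¹ • p) - A2 p)

end Pool.ACH
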