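import Pool.Agent.Helper20.ACH.BM4

/-! Project ACH (MP_9d9192_al): bridge, comparison of cocycles. -/

set_option autoImplicit false

namespace Pool.ACH

variable {G : Type} [Group G] {P0 P1 P2 P3 : Type} [AddCommGroup P0] [AddCommGroup P1]
    [AddCommGroup P2] [AddCommGroup P3] [DistribMulAction G P0] [DistribMulAction G P1]
    [DistribMulAction G P2] [DistribMulAction G P3]

/-- PIECE ACH-BM5 (60 lines).  Every 3-cocycle is connected with some `A2`: `contract3` for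
`c g h k = f g h k • ε` on `P0`, `contract2` for `A0 g h ∘ d0` on `P1`, `contract1` for
`A1 g ∘ d1` on `P2`. -/
theorem exists_conn (D : PD3Pre G P0 P1 P2 P3) (f : G → G → G → ℤ)
    (hf : ∀ g h k l, f h k l - f (g * h) k l + f g (h * k) l - f g h (k * l) + f g h k = 0) :
    ∃ A2 : P2 →+ ℤ, Conn D f A2 := by
  obtain ⟨A0, hA0⟩ := contract3 D.b0 (fun g h k => f g h k • D.ε) (by
    intro g h k l p
    simp only [AddMonoidHom.smul_apply, smul_eq_mul, D.ε_smul]
    linear_combination (D.ε p) * hf g h k l)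
  have hε : ∀ p, D.ε (D.d0 p) = 0 := fun p => (D.exact0 _).2 ⟨p, rfl⟩
  have hd0 : ∀ p, D.d0 (D.d1 p) = 0 := fun p => (D.exact1 _).2 ⟨p, rfl⟩
  obtain ⟨A1, hA1⟩ := contract2 D.b1 (fun g h => (A0 g h).comp D.d0) (by
    intro g h k p
    have h1 := hA0 g h k (D.d0 p)
    rw [AddMonoidHom.smul_apply, hε, smul_zero] at h1
    simp only [AddMonoidHom.comp_apply, D.d0_smul]
    exact h1.symm)
  obtain ⟨A2, hA2⟩ := contract1 D.b2 (fun g => (A1 g).comp D.d1) (by
    intro g h p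
    have h1 := hA1 g h (D.d1 p)
    rw [AddMonoidHom.comp_apply, hd0, map_zero] at h1
    simp only [AddMonoidHom.comp_apply, D.d1_smul]
    exact h1.symm)
  refine ⟨A2, A0, A1, ?_, ?_, ?_⟩
  · intro g h k p
    exact hA0 g h k p
  · intro g h p
    exact hA1 g h p
  · intro g p
    exact hA2 g p

/-- PIECE ACH-BM5 (20 lines).  `A2 ∘ d2` is invariant. -/
theorem Conn.inv {D : PD3Pre G P0 P1 P2 P3} {f : G → G → G → ℤ} {A2 : P2 →+ ℤ}
    (h : Conn D f A2) : Inv G (A2.comp D.d2) := by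
  obtain ⟨A0, A1, -, -, h3⟩ := h
  intro g p
  have h1 := h3 g⁻¹ (D.d2 p)
  rw [(D.exact2 (D.d2 p)).2 ⟨p, rfl⟩, map_zero, inv_inv] at h1
  rw [AddMonoidHom.comp_apply, AddMonoidHom.comp_apply, D.d2_smul]
  linarith

/-- PIECE ACH-BM5 (40 lines).  Functoriality: `A0'(g,h) = A0(θ g, θ h)∘F0`, etc. -/
theorem Conn.theta {D : PD3Pre G P0 P1 P2 P3} {θ : G ≃* G} (C : Chain D θ)
    {f : G → G → G → ℤ} {A2 : P2 →+ ℤ} (h : Conn D f A2) :
    Conn D (fun g h k => f (θ g) (θ h) (θ k)) (A2.comp C.F2) := by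
  obtain ⟨A0, A1, h1, h2, h3⟩ := h
  refine ⟨fun g h => (A0 (θ g) (θ h)).comp C.F0, fun g => (A1 (θ g)).comp C.F1, ?_, ?_, ?_⟩
  · intro g h k p
    have e := h1 (θ g) (θ h) (θ k) (C.F0 p)
    rw [C.ε_F0] at e
    simp only [AddMonoidHom.comp_apply, C.F0_smul, map_inv, map_mul]
    exact e
  · intro g h p
    have e := h2 (θ g) (θ h) (C.F1 p)
    simp only [AddMonoidHom.comp_apply, C.F1_smul, map_inv, map_mul, C.comm0]
    exact e
  · intro g p
    have e := h3 (θ g) (C.F2 p)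
    simp only [AddMonoidHom.comp_apply, C.F2_smul, map_inv, C.comm1]
    exact e

/-- PIECE ACH-BM5 (30 lines).  Differences. -/
theorem Conn.sub {D : PD3Pre G P0 P1 P2 P3} {f f' : G → G → G → ℤ} {A2 A2' : P2 →+ ℤ}
    (h : Conn D f A2) (h' : Conn D f' A2') :
    Conn D (fun g h k => f g h k - f' g h k) (A2 - A2') := by
  obtain ⟨A0, A1, h1, h2, h3⟩ := h
  obtain ⟨A0', A1', h1', h2', h3'⟩ := h'
  refine ⟨fun g h => A0 g h - A0' g h, fun g => A1 g - A1' g, ?_, ?_, ?_⟩
  · intro g h k p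
    simp only [AddMonoidHom.sub_apply]
    linear_combination h1 g h k p - h1' g h k p
  · intro g h p
    simp only [AddMonoidHom.sub_apply]
    linear_combination h2 g h p - h2' g h p
  · intro g p
    simp only [AddMonoidHom.sub_apply]
    linear_combination h3 g p - h3' g p

end Pool.ACH
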