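import Pool.Agent.Helper20.ACH.BM4

/-! Project ACH (MP_9d9192_al): bridge, comparison of cocycles. -/

set_option autoImplicit false

namespace Pool.ACH

variable {G : Type} [Group G] {P0 P1 P2 P3 : Type} [AddCommGroup P0] [AddCommGroup P1]
    [AddCommGroup P2] [AddCommGroup P3] [DistribMulAction G P0] [DistribMulAction G P1]
    [DistribMulAction G P2] [DistribMulAction G P3]

/-- The chains of a comparison with the bar resolution. -/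
private theorem BM6_chains (D : PD3Pre G P0 P1 P2 P3) :
    ∃ (s1 : G → P1) (s2 : G → G → P2) (s3 : G → G → G → P3),
      (∀ g, D.d0 (s1 g) = g • D.p0 - D.p0) ∧
      (∀ g h, D.d1 (s2 g h) = g • s1 h - s1 (g * h) + s1 g) ∧
      (∀ g h k, D.d2 (s3 g h k) = g • s2 h k - s2 (g * h) k + s2 g (h * k) - s2 g h) := by
  have e1 : ∀ g : G, ∃ q, D.d0 q = g • D.p0 - D.p0 := by
    intro g
    rw [← D.exact0, map_sub, D.ε_smul, sub_self]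
  choose s1 hs1 using e1
  have e2 : ∀ g h : G, ∃ q, D.d1 q = g • s1 h - s1 (g * h) + s1 g := by
    intro g h
    rw [← D.exact1, map_add, map_sub, D.d0_smul, hs1, hs1, hs1, smul_sub, mul_smul]
    abel
  choose s2 hs2 using e2
  have e3 : ∀ g h k : G, ∃ q, D.d2 q = g • s2 h k - s2 (g * h) k + s2 g (h * k) - s2 g h := by
    intro g h k
    rw [← D.exact2, map_sub, map_add, map_sub, D.d1_smul, hs2, hs2, hs2, hs2, smul_add, smul_sub,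
      mul_smul, mul_assoc]
    abel
  choose s3 hs3 using e3
  exact ⟨s1, s2, s3, hs1, hs2, hs3⟩

/-- PIECE ACH-BM6 (150 lines).  If `A2∘d2 = u∘d2` with `u` invariant, then `f` is a coboundary.
Replacing `A2` by `A2 - u` we may assume `A2∘d2 = 0`.  By exactness choose
`σ1(g) ∈ P1`, `d0 σ1(g) = g p0 - p0`; `σ2(g,h) ∈ P2`,
`d1 σ2(g,h) = g σ1(h) - σ1(g h) + σ1(g)`; `σ3(g,h,k) ∈ P3`,
`d2 σ3(g,h,k) = g σ2(h,k) - σ2(g h,k) + σ2(g,h k) - σ2(g,h)`.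
Put `b0(g,h) = A0(g,h)(p0)`, `b1(g,h) = A1(h)(σ1(g⁻¹))`, `b2(g,h) = A2(σ2(h⁻¹,g⁻¹))` and
`(δb)(g,h,k) = b(h,k) - b(g h,k) + b(g,h k) - b(g,h)`.  Then (all by the relations of `Conn`)
`f(g,h,k) = (δb0)(g,h,k) + A0(h,k)(d0 σ1(g⁻¹))`,
`A0(h,k)(d0 σ1(g⁻¹)) + (δb1)(g,h,k) = A1(k)(h⁻¹σ1(g⁻¹) - σ1(h⁻¹g⁻¹) + σ1(h⁻¹))
= A1(k)(d1 σ2(h⁻¹,g⁻¹)) = A2(k⁻¹σ2(h⁻¹,g⁻¹)) - A2(σ2(h⁻¹,g⁻¹))
= A2(d2 σ3(k⁻¹,h⁻¹,g⁻¹)) + (δb2)(g,h,k)`.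
So `f = δ(b0 - b1 + b2)`. -/
theorem Conn.cob {D : PD3Pre G P0 P1 P2 P3} {f : G → G → G → ℤ} {A2 : P2 →+ ℤ}
    (h : Conn D f A2) (u : P2 →+ ℤ) (hu : Inv G u) (hA : ∀ p, A2 (D.d2 p) = u (D.d2 p)) :
    ∃ b : G → G → ℤ, ∀ g h k, f g h k = b h k - b (g * h) k + b g (h * k) - b g h := by
  obtain ⟨A0, A1, h0, h1, h2⟩ := h
  obtain ⟨s1, s2, s3, t1, t2, t3⟩ := BM6_chains D
  refine ⟨fun g h => A0 g h D.p0 - A1 h (s1 g⁻¹) + (A2 (s2 h⁻¹ g⁻¹) - u (s2 h⁻¹ g⁻¹)), ?_⟩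
  intro g h k
  have k0 := h0 g h k D.p0
  rw [D.ε_p0, mul_one] at k0
  have k1 : A0 h k (g⁻¹ • D.p0) = A0 h k D.p0 + A0 h k (D.d0 (s1 g⁻¹)) := by
    rw [t1, map_sub]
    ring
  have k2 := h1 h k (s1 g⁻¹)
  have k3 : A1 k (D.d1 (s2 h⁻¹ g⁻¹)) =
      A1 k (h⁻¹ • s1 g⁻¹) - A1 k (s1 (h⁻¹ * g⁻¹)) + A1 k (s1 h⁻¹) := by
    rw [t2, map_add, map_sub]
  have k4 := h2 k (s2 h⁻¹ g⁻¹)
  have k5 : A2 (D.d2 (s3 k⁻¹ h⁻¹ g⁻¹)) = A2 (k⁻¹ • s2 h⁻¹ g⁻¹) - A2 (s2 (k⁻¹ * h⁻¹) g⁻¹) +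
      A2 (s2 k⁻¹ (h⁻¹ * g⁻¹)) - A2 (s2 k⁻¹ h⁻¹) := by
    rw [t3, map_sub, map_add, map_sub]
  have k6 : u (D.d2 (s3 k⁻¹ h⁻¹ g⁻¹)) = u (k⁻¹ • s2 h⁻¹ g⁻¹) - u (s2 (k⁻¹ * h⁻¹) g⁻¹) +
      u (s2 k⁻¹ (h⁻¹ * g⁻¹)) - u (s2 k⁻¹ h⁻¹) := by
    rw [t3, map_sub, map_add, map_sub]
  have k7 := hu k⁻¹ (s2 h⁻¹ g⁻¹)
  have k8 := hA (s3 k⁻¹ h⁻¹ g⁻¹)
  simp only [mul_inv_rev]
  linear_combination k0 + k1 + k2 - k3 + k4 - k5 + k6 + k7 + k8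

end Pool.ACH
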