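import Pool.Agent.Helper20.ACH.BA

/-! Project ACH (MP_9d9192_al): bridge, cocycles of Mathlib. -/

set_option autoImplicit false

namespace Pool.ACH

section BM7aux

open CategoryTheory groupCohomology

private theorem BM7_d3 (G : Type) [Group G] (F : (Fin 3 → G) → ℤ) (g h k l : G) :
    (ConcreteCategory.hom (inhomogeneousCochains.d (Rep.trivial ℤ G ℤ) 3)) F ![g, h, k, l] =
      F ![h, k, l] - F ![g * h, k, l] + F ![g, h * k, l] - F ![g, h, k * l] + F ![g, h, k] := by
  have e0 : (fun i : Fin 3 => (![g, h, k, l] : Fin 4 → G) i.succ) = ![h, k, l] := by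
    funext i; fin_cases i <;> rfl
  have e1 : Fin.contractNth (0 : Fin 4) (· * ·) ![g, h, k, l] = ![g * h, k, l] := by
    funext i; fin_cases i <;> rfl
  have e2 : Fin.contractNth (1 : Fin 4) (· * ·) ![g, h, k, l] = ![g, h * k, l] := by
    funext i; fin_cases i <;> rfl
  have e3 : Fin.contractNth (2 : Fin 4) (· * ·) ![g, h, k, l] = ![g, h, k * l] := by
    funext i; fin_cases i <;> rfl
  have e4 : Fin.contractNth (3 : Fin 4) (· * ·) ![g, h, k, l] = ![g, h, k] := by
    funext i; fin_cases i <;> rfl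
  rw [inhomogeneousCochains.d_hom_apply, e0, Fin.sum_univ_four, e1, e2, e3, e4]
  change F ![h, k, l] + ((-1 : ℤ) ^ 1 * F ![g * h, k, l] + (-1 : ℤ) ^ 2 * F ![g, h * k, l] +
    (-1 : ℤ) ^ 3 * F ![g, h, k * l] + (-1 : ℤ) ^ 4 * F ![g, h, k]) = _
  ring

private theorem BM7_d2 (G : Type) [Group G] (F : (Fin 2 → G) → ℤ) (g h k : G) :
    (ConcreteCategory.hom (inhomogeneousCochains.d (Rep.trivial ℤ G ℤ) 2)) F ![g, h, k] =
      F ![h, k] - F ![g * h, k] + F ![g, h * k] - F ![g, h] := by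
  have e0 : (fun i : Fin 2 => (![g, h, k] : Fin 3 → G) i.succ) = ![h, k] := by
    funext i; fin_cases i <;> rfl
  have e1 : Fin.contractNth (0 : Fin 3) (· * ·) ![g, h, k] = ![g * h, k] := by
    funext i; fin_cases i <;> rfl
  have e2 : Fin.contractNth (1 : Fin 3) (· * ·) ![g, h, k] = ![g, h * k] := by
    funext i; fin_cases i <;> rfl
  have e3 : Fin.contractNth (2 : Fin 3) (· * ·) ![g, h, k] = ![g, h] := by
    funext i; fin_cases i <;> rfl
  rw [inhomogeneousCochains.d_hom_apply, e0, Fin.sum_univ_three, e1, e2, e3]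
  change F ![h, k] + ((-1 : ℤ) ^ 1 * F ![g * h, k] + (-1 : ℤ) ^ 2 * F ![g, h * k] +
    (-1 : ℤ) ^ 3 * F ![g, h]) = _
  ring

private theorem BM7_main (G : Type) [Group G] (θ : G ≃* G)
    (h : ∃ c : groupCohomology (Rep.trivial ℤ G ℤ) 3, (cohAction G θ 3).hom c ≠ c) :
    ∃ f : G → G → G → ℤ,
      (∀ g h k l, f h k l - f (g * h) k l + f g (h * k) l - f g h (k * l) + f g h k = 0) ∧
      ¬ ∃ b : G → G → ℤ, ∀ g h k, f (θ g) (θ h) (θ k) - f g h k
        = b h k - b (g * h) k + b g (h * k) - b g h := by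
  obtain ⟨c, hc⟩ := h
  induction c using groupCohomology_induction_on with
  | h x =>
  let F : (Fin 3 → G) → ℤ := iCocycles (Rep.trivial ℤ G ℤ) 3 x
  have hF : (ConcreteCategory.hom (inhomogeneousCochains.d (Rep.trivial ℤ G ℤ) 3)) F = 0 := by
    have h1 := (inhomogeneousCochains (Rep.trivial ℤ G ℤ)).iCycles_d 3 4
    rw [inhomogeneousCochains.d_def] at h1
    exact ConcreteCategory.congr_hom h1 x
  refine ⟨fun g h k => F ![g, h, k], ?_, ?_⟩
  · intro g h k l
    rw [← BM7_d3, hF]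
    rfl
  · rintro ⟨b, hb⟩
    apply hc
    have h1 : (cohAction G θ 3).hom (π (Rep.trivial ℤ G ℤ) 3 x) =
        π (Rep.trivial ℤ G ℤ) 3 (cocyclesMap (A := Rep.trivial ℤ G ℤ)
          (B := Rep.trivial ℤ G ℤ) θ.toMonoidHom (𝟙 _) 3 x) := 
      π_map_apply _ _ _ _
    rw [h1]
    let B : (Fin 2 → G) → ℤ := fun v => b (v 0) (v 1)
    have h2 : cocyclesMap (A := Rep.trivial ℤ G ℤ)
          (B := Rep.trivial ℤ G ℤ) θ.toMonoidHom (𝟙 _) 3 x = x +
          toCocycles (Rep.trivial ℤ G ℤ) 2 3 B := by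
      apply (ModuleCat.mono_iff_injective (iCocycles (Rep.trivial ℤ G ℤ) 3)).1 inferInstance
      have h3 : iCocycles (Rep.trivial ℤ G ℤ) 3 (toCocycles (Rep.trivial ℤ G ℤ) 2 3 B) =
          (ConcreteCategory.hom (inhomogeneousCochains.d (Rep.trivial ℤ G ℤ) 2)) B := by
        have h4 := (inhomogeneousCochains (Rep.trivial ℤ G ℤ)).toCycles_i 2 3
        rw [inhomogeneousCochains.d_def] at h4
        exact ConcreteCategory.congr_hom h4 B
      have h5 : iCocycles (Rep.trivial ℤ G ℤ) 3 (cocyclesMap (A := Rep.trivial ℤ G ℤ)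
          (B := Rep.trivial ℤ G ℤ) θ.toMonoidHom (𝟙 _) 3 x) = fun v => F (θ ∘ v) := by
        have h6 := HomologicalComplex.cyclesMap_i (cochainsMap (A := Rep.trivial ℤ G ℤ)
          (B := Rep.trivial ℤ G ℤ) θ.toMonoidHom (𝟙 _)) 3
        exact ConcreteCategory.congr_hom h6 x
      rw [map_add, h3, h5]
      funext v
      have hv : v = ![v 0, v 1, v 2] := by
        funext i; fin_cases i <;> rfl
      have hθv : θ ∘ v = ![θ (v 0), θ (v 1), θ (v 2)] := by
        funext i; fin_cases i <;> rfl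
      rw [hθv]
      change F ![θ (v 0), θ (v 1), θ (v 2)] = F v +
        (ConcreteCategory.hom (inhomogeneousCochains.d (Rep.trivial ℤ G ℤ) 2)) B v
      have h7 := hb (v 0) (v 1) (v 2)
      rw [hv, BM7_d2]
      change F ![θ (v 0), θ (v 1), θ (v 2)] = F ![v 0, v 1, v 2] +
        (b (v 1) (v 2) - b (v 0 * v 1) (v 2) + b (v 0) (v 1 * v 2) - b (v 0) (v 1))
      linarith
    have h8 : π (Rep.trivial ℤ G ℤ) 3 (toCocycles (Rep.trivial ℤ G ℤ) 2 3 B) = 0 := by
      have h9 := (inhomogeneousCochains (Rep.trivial ℤ G ℤ)).toCycles_comp_homologyπ 2 3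
      exact ConcreteCategory.congr_hom h9 B
    rw [h2, map_add, h8, add_zero]
end BM7aux

/-- PIECE ACH-BM7 (100 lines).  A nontrivial action on `H^3(G; ℤ)` gives a 3-cocycle `f` such that
`f∘θ - f` is not a coboundary.  `c` is the class of a cocycle (`groupCohomology_induction_on`),
`groupCohomology.π_map`; the differential is `inhomogeneousCochains.d_hom_apply` in degrees 2, 3;
write a function on `Fin 3 → G` as a function of three variables. -/
theorem exists_cocycle (G : Type) [Group G] (θ : G ≃* G)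
    (h : ∃ c : groupCohomology (Rep.trivial ℤ G ℤ) 3, (cohAction G θ 3).hom c ≠ c) :
    ∃ f : G → G → G → ℤ,
      (∀ g h k l, f h k l - f (g * h) k l + f g (h * k) l - f g h (k * l) + f g h k = 0) ∧
      ¬ ∃ b : G → G → ℤ, ∀ g h k, f (θ g) (θ h) (θ k) - f g h k
        = b h k - b (g * h) k + b g (h * k) - b g h :=
  BM7_main G θ h

end Pool.ACH
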