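import Pool.Agent.Helper20.ACH.BM1
import Pool.Agent.Helper20.ACH.BM5
import Pool.Agent.Helper20.ACH.BM6
import Pool.Agent.Helper20.ACH.BM7
import Pool.Agent.Helper20.ACH.BE
import Pool.Agent.Helper20.ACH.BK

/-! Project ACH (MP_9d9192_al): bridge, orientation. -/

set_option autoImplicit false

namespace Pool.ACH

variable {G : Type} [Group G] {P0 P1 P2 P3 : Type} [AddCommGroup P0] [AddCommGroup P1]
    [AddCommGroup P2] [AddCommGroup P3] [DistribMulAction G P0] [DistribMulAction G P1]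
    [DistribMulAction G P2] [DistribMulAction G P3]

/-- PIECE ACH-BZ1 (40 lines).  As `PD3Data.top_gen` (which does not use orientability): every
invariant `ω : P3 → ℤ` is `tw z (const a) + ω2∘d2`. -/
theorem PD3Pre.top_gen (D : PD3Pre G P0 P1 P2 P3) (ω : P3 →+ ℤ) (hω : Inv G ω) :
    ∃ (a : ℤ) (ω2 : P2 →+ ℤ), Inv G ω2 ∧
      ∀ p, ω p = tw D.z D.z_fs (fun _ => a) p + ω2 (D.d2 p) := by
  choose n ψ hψ hφ using fun j => D.D3 (D.b3.φ j) (D.b3.fs j)
  refine ⟨∑ j, n j • ω (D.b3.e j), ∑ j, tw (ψ j) (hψ j) (fun _ => ω (D.b3.e j)), ?_, ?_⟩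
  · intro g p
    rw [AddMonoidHom.finsetSum_apply, AddMonoidHom.finsetSum_apply]
    exact Finset.sum_congr rfl fun j _ => tw_inv (ψ j) (hψ j) _ g p
  · intro p
    have hfs : ∀ j, IsFs G ((ψ j).comp D.d2) := fun j => (hψ j).comp D.d2 D.d2_smul
    have hz : ∀ j, IsFs G (n j • D.z) := fun j => D.z_fs.zsmul (n j)
    rw [D.b3.expand_inv ω hω p, tw_sum Finset.univ D.z D.z_fs (fun j _ => n j • ω (D.b3.e j)),
      AddMonoidHom.finsetSum_apply, AddMonoidHom.finsetSum_apply, ← Finset.sum_add_distrib]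
    refine Finset.sum_congr rfl fun j _ => ?_
    rw [tw_congr (hφ j) (D.b3.fs j) ((hz j).add (hfs j)),
      tw_add_left (hz j) (hfs j) ((hz j).add (hfs j)), AddMonoidHom.add_apply,
      tw_zsmul_left D.z_fs (n j) (hz j), AddMonoidHom.smul_apply,
      tw_comp (ψ j) (hψ j) D.d2 D.d2_smul (hfs j)]
    congr 1
    rw [tw_const, tw_const D.z D.z_fs (n j • ω (D.b3.e j)), smul_smul, smul_smul, mul_comm]

/-- PIECE ACH-BZ2 (60 lines).  For a chain map `C` over `θ`: `z∘F3 = n z + ψ∘d2` with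
`n = ±1`.  Take a chain map `C'` over `θ⁻¹`, `z∘F3' = n' z + ψ'∘d2`; `E = C∘C'` is a chain map over
the identity, so `E.F3 p = p + s(d2 p)` (`Chain.homotopy`) and
`z (F3 (F3' p)) = n n' z p + …` gives `n n' = 1` by `D3'`. -/
theorem Chain.sign {D : PD3Pre G P0 P1 P2 P3} {θ : G ≃* G} (C : Chain D θ) :
    ∃ (n : ℤ) (ψ : P2 →+ ℤ), (n = 1 ∨ n = -1) ∧ IsFs G ψ ∧
      ∀ p, D.z (C.F3 p) = n * D.z p + ψ (D.d2 p) := by
  obtain ⟨C'⟩ := D.exists_chain θ.symm
  obtain ⟨n, ψ, hψ, h1⟩ := D.D3 (D.z.comp C.F3) (D.z_fs.comp_semi θ C.F3 C.F3_smul)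
  obtain ⟨n', ψ', hψ', h1'⟩ := D.D3 (D.z.comp C'.F3) (D.z_fs.comp_semi θ.symm C'.F3 C'.F3_smul)
  have h2 : ∀ p, D.z (C.F3 p) = n * D.z p + ψ (D.d2 p) := fun p => by
    have := DFunLike.congr_fun h1 p
    simpa using this
  have h2' : ∀ p, D.z (C'.F3 p) = n' * D.z p + ψ' (D.d2 p) := fun p => by
    have := DFunLike.congr_fun h1' p
    simpa using this
  let E : Chain D (MulEquiv.refl G) :=
    { F0 := C.F0.comp C'.F0
      F1 := C.F1.comp C'.F1
      F2 := C.F2.comp C'.F2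
      F3 := C.F3.comp C'.F3
      F0_smul := fun g p => by simp [C.F0_smul, C'.F0_smul]
      F1_smul := fun g p => by simp [C.F1_smul, C'.F1_smul]
      F2_smul := fun g p => by simp [C.F2_smul, C'.F2_smul]
      F3_smul := fun g p => by simp [C.F3_smul, C'.F3_smul]
      ε_F0 := fun p => by simp [C.ε_F0, C'.ε_F0]
      comm0 := fun p => by simp [C.comm0, C'.comm0]
      comm1 := fun p => by simp [C.comm1, C'.comm1]
      comm2 := fun p => by simp [C.comm2, C'.comm2] }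
  obtain ⟨s, hs, hE⟩ := E.homotopy
  have hE' : ∀ p, C.F3 (C'.F3 p) = p + s (D.d2 p) := hE
  have hfs : IsFs G (D.z.comp s - n • ψ' - ψ.comp C'.F2) :=
    ((D.z_fs.comp s hs).sub (hψ'.zsmul n)).sub (hψ.comp_semi θ.symm C'.F2 C'.F2_smul)
  have h3 : n * n' - 1 = 0 := by
    refine D.D3' (n * n' - 1) _ hfs ?_
    ext p
    have h4 : D.z (C.F3 (C'.F3 p)) = D.z p + D.z (s (D.d2 p)) := by rw [hE', map_add]
    rw [h2, h2', ← C'.comm2] at h4
    simp only [AddMonoidHom.smul_apply, AddMonoidHom.coe_comp, Function.comp_apply,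
      AddMonoidHom.sub_apply, smul_eq_mul]
    linarith [h4]
  exact ⟨n, ψ, Int.eq_one_or_neg_one_of_mul_eq_one (v := n') (by linarith), hψ, h2⟩

/-- PIECE ACH-BZ3 (60 lines).  For `g ∈ G`: `z(g p) = w z(p) + c(d2 p)` with `w = ±1`: by `D3`
there are such `w`, `w'` for `g`, `g⁻¹`, and `z(g (g⁻¹ p)) = z p` gives `w w' = 1`. -/
theorem PD3Pre.sign (D : PD3Pre G P0 P1 P2 P3) (g : G) :
    ∃ (w : ℤ) (c : P2 →+ ℤ), (w = 1 ∨ w = -1) ∧ IsFs G c ∧
      ∀ p, D.z (g • p) = w * D.z p + c (D.d2 p) := by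
  obtain ⟨w, c, hc, h1⟩ := D.D3 (rt g D.z) (D.z_fs.rt g)
  obtain ⟨w', c', hc', h1'⟩ := D.D3 (rt g⁻¹ D.z) (D.z_fs.rt g⁻¹)
  have h2 : ∀ p, D.z (g • p) = w * D.z p + c (D.d2 p) := fun p => by
    have := DFunLike.congr_fun h1 p
    simpa using this
  have h2' : ∀ p, D.z (g⁻¹ • p) = w' * D.z p + c' (D.d2 p) := fun p => by
    have := DFunLike.congr_fun h1' p
    simpa using this
  have hfs : IsFs G (- (w • c') - rt g⁻¹ c) := (hc'.zsmul w).neg.sub (hc.rt g⁻¹)
  have h3 : w * w' - 1 = 0 := by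
    refine D.D3' (w * w' - 1) _ hfs ?_
    ext p
    have h4 : D.z (g • (g⁻¹ • p)) = D.z p := by rw [smul_inv_smul]
    rw [h2, h2', D.d2_smul] at h4
    simp only [AddMonoidHom.smul_apply, AddMonoidHom.coe_comp, Function.comp_apply,
      AddMonoidHom.sub_apply, AddMonoidHom.neg_apply, smul_eq_mul, rt_apply]
    linarith [h4]
  exact ⟨w, c, Int.eq_one_or_neg_one_of_mul_eq_one (v := w') (by linarith), hc, h2⟩

/-- PIECE ACH-BZ4 (120 lines).  Let `f` be as in `exists_cocycle`, `C` a chain map over `θ`,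
`A2` connected with `f` (`exists_conn`), `ω = A2∘d2` (`Conn.inv`), `ω = a N z + ω2∘d2`
(`top_gen`), `z∘F3 = n z + ψ∘d2` (`Chain.sign`).  By `Conn.theta` and `Conn.sub`,
`A2∘F2 - A2` is connected with `f∘θ - f`, and `(A2∘F2 - A2)∘d2 = ω∘F3 - ω` is
`a (n - 1) N z` modulo invariant coboundaries (`tw_comp_semi`: `(N z)∘F3 = N(z∘F3)`); by `Conn.cob`
it is not an invariant coboundary.  If `n = 1` this is a contradiction, so `n = -1`.  If some `g`
had `w = -1` in `PD3Pre.sign`, then `N z = N(rt g z) = -N z + (N c)∘d2`, so `2 N z` would be an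
invariant coboundary, again a contradiction.  So `w = 1` for all `g`: this gives
`D.toData`, and `C` with `n = -1` is a `Rev`. -/
theorem rev_of_cocycle (D : PD3Pre G P0 P1 P2 P3) (θ : G ≃* G) (f : G → G → G → ℤ)
    (hf : ∀ g h k l, f h k l - f (g * h) k l + f g (h * k) l - f g h (k * l) + f g h k = 0)
    (hn : ¬ ∃ b : G → G → ℤ, ∀ g h k, f (θ g) (θ h) (θ k) - f g h k
        = b h k - b (g * h) k + b g (h * k) - b g h) :
    ∃ D' : PD3Data G P0 P1 P2 P3, Nonempty (Rev D' θ) := by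
  obtain ⟨C⟩ := D.exists_chain θ
  obtain ⟨A2, hA⟩ := exists_conn D f hf
  obtain ⟨a, ω2, hω2, e⟩ := D.top_gen (A2.comp D.d2) hA.inv
  obtain ⟨n, ψ, hn', hψ, hF⟩ := C.sign
  have hT := (hA.theta C).sub hA
  have hK : ∀ u : P2 →+ ℤ, Inv G u →
      ¬ ∀ p, (A2.comp C.F2 - A2) (D.d2 p) = u (D.d2 p) := by
    intro u hu hp
    exact hn (hT.cob u hu hp)
  have hz3 : IsFs G (D.z.comp C.F3) := D.z_fs.comp_semi θ C.F3 C.F3_smul
  have hnz : IsFs G (n • D.z) := D.z_fs.zsmul n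
  have hψd : IsFs G (ψ.comp D.d2) := hψ.comp _ D.d2_smul
  have hzF : D.z.comp C.F3 = n • D.z + ψ.comp D.d2 := by
    ext p
    rw [AddMonoidHom.comp_apply, hF, AddMonoidHom.add_apply, AddMonoidHom.smul_apply,
      AddMonoidHom.comp_apply, smul_eq_mul]
  have h1 : ∀ p, tw D.z D.z_fs (fun _ => a) (C.F3 p)
      = n * tw D.z D.z_fs (fun _ => a) p + tw ψ hψ (fun _ => a) (D.d2 p) := by
    intro p
    rw [tw_comp_semi D.z D.z_fs θ C.F3 C.F3_smul hz3, tw_congr hzF hz3 (hnz.add hψd),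
      tw_add_left hnz hψd, tw_zsmul_left D.z_fs n hnz, AddMonoidHom.add_apply,
      AddMonoidHom.smul_apply, smul_eq_mul, tw_comp ψ hψ D.d2 D.d2_smul hψd]
  have hu1 : Inv G (tw ψ hψ (fun _ => a) + ω2.comp C.F2 - ω2) := by
    intro g p
    rw [AddMonoidHom.sub_apply, AddMonoidHom.sub_apply, AddMonoidHom.add_apply,
      AddMonoidHom.add_apply, AddMonoidHom.comp_apply, AddMonoidHom.comp_apply,
      tw_inv ψ hψ a g p, C.F2_smul, hω2 (θ g) (C.F2 p), hω2 g p]
  have h2 : ∀ p, (A2.comp C.F2 - A2) (D.d2 p) = (n - 1) * tw D.z D.z_fs (fun _ => a) p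
      + (tw ψ hψ (fun _ => a) + ω2.comp C.F2 - ω2) (D.d2 p) := by
    intro p
    have e1 := e (C.F3 p)
    have e2 := e p
    rw [h1 p] at e1
    rw [AddMonoidHom.comp_apply] at e1 e2
    have e3 : C.F2 (D.d2 p) = D.d2 (C.F3 p) := C.comm2 p
    rw [AddMonoidHom.sub_apply, AddMonoidHom.comp_apply, AddMonoidHom.sub_apply,
      AddMonoidHom.add_apply, AddMonoidHom.comp_apply, e3, e1, e2]
    ring
  have hn1 : n = -1 := by
    rcases hn' with h | h
    · exfalso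
      refine hK _ hu1 fun p => ?_
      rw [h2 p, h]
      ring
    · exact h
  have hor : ∀ g : G, ∃ c : P2 →+ ℤ, IsFs G c ∧ ∀ p, D.z (g • p) = D.z p + c (D.d2 p) := by
    intro g
    obtain ⟨w, c, hw, hc, hz⟩ := D.sign g
    rcases hw with h | h
    · refine ⟨c, hc, fun p => ?_⟩
      rw [hz, h, one_mul]
    · exfalso
      have hrt : IsFs G (rt g D.z) := D.z_fs.rt g
      have hcd : IsFs G (c.comp D.d2) := hc.comp _ D.d2_smul
      have hrz : rt g D.z = -D.z + c.comp D.d2 := by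
        ext p
        rw [rt_apply, hz, h, AddMonoidHom.add_apply, AddMonoidHom.neg_apply,
          AddMonoidHom.comp_apply]
        ring
      have h3 : ∀ p, tw D.z D.z_fs (fun _ => a) p
          = - tw D.z D.z_fs (fun _ => a) p + tw c hc (fun _ => a) (D.d2 p) := by
        intro p
        have h4 : tw (rt g D.z) hrt (fun _ => a) p = tw D.z D.z_fs (fun _ => a) p := by
          rw [tw_rt D.z D.z_fs g hrt (fun _ : G => a)]
        rw [tw_congr hrz hrt (D.z_fs.neg.add hcd), tw_add_left D.z_fs.neg hcd,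
          tw_neg_left D.z_fs D.z_fs.neg, AddMonoidHom.add_apply, AddMonoidHom.neg_apply] at h4
        rw [tw_comp c hc D.d2 D.d2_smul hcd]
        exact h4.symm
      refine hK (tw ψ hψ (fun _ => a) + ω2.comp C.F2 - ω2 - tw c hc (fun _ => a))
        (fun g p => ?_) fun p => ?_
      · rw [AddMonoidHom.sub_apply _ (tw c hc fun _ => a),
          AddMonoidHom.sub_apply _ (tw c hc fun _ => a), hu1 g p, tw_inv c hc a g p]
      · rw [h2 p, hn1, AddMonoidHom.sub_apply _ (tw c hc fun _ => a)]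
        linarith [h3 p]
  refine ⟨D.toData hor, ⟨{
    F0 := C.F0
    F1 := C.F1
    F2 := C.F2
    F3 := C.F3
    F0_smul := C.F0_smul
    F1_smul := C.F1_smul
    F2_smul := C.F2_smul
    F3_smul := C.F3_smul
    ε_F0 := C.ε_F0
    comm0 := C.comm0
    comm1 := C.comm1
    comm2 := C.comm2
    ψ := ψ
    ψ_fs := hψ
    rev := fun p => ?_ }⟩⟩
  have h5 := hF p
  rw [hn1] at h5
  change D.z (C.F3 p) = - D.z p + ψ (D.d2 p)
  rw [h5]
  ring

open CategoryTheory in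
/-- The frozen hypotheses and a nontrivial action on `H^3(G; ℤ)` give an achiral group. -/
theorem achiral_of_frozen (G : Type) [Group G]
    (hP : ∃ P : ProjectiveResolution
        (Rep.equivalenceModuleMonoidAlgebra.functor.obj (Rep.trivial ℤ G ℤ)),
      (∃ n : ℕ, ∀ i : ℕ, n < i → Limits.IsZero (P.complex.X i)) ∧
      (∀ i : ℕ, Module.Finite (MonoidAlgebra ℤ G) (P.complex.X i).carrier))
    (h : ∀ i : ℕ, i ≠ 3 →
      Subsingleton (groupCohomology (Rep.ofMulAction ℤ G G) i).carrier)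
    (h3 : Nonempty ((groupCohomology (Rep.ofMulAction ℤ G G) 3).carrier ≃+ ℤ))
    (θ : G ≃* G)
    (hθ : ∃ c : groupCohomology (Rep.trivial ℤ G ℤ) 3, (cohAction G θ 3).hom c ≠ c) :
    Achiral G θ := by
  obtain ⟨R⟩ := resData_of_frozen G hP h h3
  obtain ⟨P0, P1, P2, P3, _, _, _, _, _, _, _, _, ⟨D⟩⟩ := R.exists_pre
  obtain ⟨f, hf, hn⟩ := exists_cocycle G θ hθ
  obtain ⟨D', hR⟩ := rev_of_cocycle D θ f hf hn
  exact ⟨P0, P1, P2, P3, _, _, _, _, _, _, _, _, D', hR⟩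

end Pool.ACH
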