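import Pool.Agent.Helper20.ACH.PD3

/-! Project ACH (MP_9d9192_al): the classes `χ_g` in the second cohomology. -/

set_option autoImplicit false

namespace Pool.ACH

variable {G : Type} [Group G] {P0 P1 P2 P3 : Type} [AddCommGroup P0] [AddCommGroup P1]
    [AddCommGroup P2] [AddCommGroup P3] [DistribMulAction G P0] [DistribMulAction G P1]
    [DistribMulAction G P2] [DistribMulAction G P3]

namespace PD3Data

variable (D : PD3Data G P0 P1 P2 P3)

/-- `z(g p) = z(p) + c_g(d2 p)`. -/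
noncomputable def c (g : G) : P2 →+ ℤ := (D.ori g).choose

theorem c_fs (g : G) : IsFs G (D.c g) := (D.ori g).choose_spec.1

theorem c_spec (g : G) (p : P3) : D.z (g • p) = D.z p + D.c g (D.d2 p) :=
  (D.ori g).choose_spec.2 p

variable {k : Type*} [AddCommGroup k] {A : Type*} [AddCommGroup A]

/-- The cocycle `χ_g ⊗ a`: `p ↦ Σ_γ c_g(γ⁻¹ p) • a`. -/
noncomputable def chi (g : G) (a : k) : P2 →+ k := tw (D.c g) (D.c_fs g) (fun _ => a)

/-- Coboundaries in degree two. -/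
def Cob (ω : P2 →+ k) : Prop := ∃ u : P1 →+ k, Inv G u ∧ ∀ p, ω p = u (D.d1 p)

theorem Cob.zero : D.Cob (0 : P2 →+ k) := ⟨0, fun _ _ => by simp, fun _ => by simp⟩

theorem Cob.add {ω ω' : P2 →+ k} (h : D.Cob ω) (h' : D.Cob ω') : D.Cob (ω + ω') := by
  obtain ⟨u, hu, e⟩ := h
  obtain ⟨u', hu', e'⟩ := h'
  refine ⟨u + u', fun g p => by simp [hu g p, hu' g p], fun p => by simp [e, e']⟩

theorem Cob.neg {ω : P2 →+ k} (h : D.Cob ω) : D.Cob (-ω) := by
  obtain ⟨u, hu, e⟩ := h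
  refine ⟨-u, fun g p => by simp [hu g p], fun p => by simp [e]⟩

theorem Cob.sub {ω ω' : P2 →+ k} (h : D.Cob ω) (h' : D.Cob ω') : D.Cob (ω - ω') := by
  rw [sub_eq_add_neg]; exact Cob.add D h (Cob.neg D h')

theorem chi_inv (g : G) (a : k) : Inv G (D.chi g a) := tw_inv _ _ _

theorem chi_add_right (g : G) (a b : k) : D.chi g (a + b) = D.chi g a + D.chi g b :=
  tw_add _ _ _ _

theorem map_chi (L : k →+ A) (g : G) (a : k) (p : P2) : L (D.chi g a p) = D.chi g (L a) p :=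
  map_tw L _ _ _ _

/-- The twisted form of `c_g ∘ d2 = rt g z - z`. -/
theorem tw_c_d2 (g : G) (a : G → k) (p : P3) :
    tw (D.c g) (D.c_fs g) a (D.d2 p)
      = tw D.z D.z_fs (fun h => a (h * g)) p - tw D.z D.z_fs a p := by
  have hz : IsFs G (rt g D.z) := D.z_fs.rt g
  have h1 : (D.c g).comp D.d2 = rt g D.z - D.z := by
    ext q
    have := D.c_spec g q
    simp only [AddMonoidHom.coe_comp, Function.comp_apply, AddMonoidHom.sub_apply, rt_apply]
    omega
  rw [tw_comp _ _ D.d2 D.d2_smul ((D.c_fs g).comp _ D.d2_smul),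
    tw_congr h1 _ (hz.sub D.z_fs), tw_sub_left hz D.z_fs, tw_rt _ D.z_fs]
  rfl

theorem chi_d2 (g : G) (a : k) (p : P3) : D.chi g a (D.d2 p) = 0 := by
  rw [chi, tw_c_d2, sub_self]

end PD3Data

end Pool.ACH
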