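import Mathlib

/-!
Project ACH (MP_9d9192_al), definitions.  Elementary description of an orientable
Poincare duality group of dimension three by a projective resolution of length three, given by
explicit dual bases, and of an orientation reversing automorphism by a chain map.
-/

set_option autoImplicit false

namespace Pool.ACH

section Basic

variable {G : Type} [Group G] {P Q : Type} [AddCommGroup P] [AddCommGroup Q]
  [DistribMulAction G P] [DistribMulAction G Q]
  {k : Type*} [AddCommGroup k] {k' : Type*} [AddCommGroup k']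

/-- The additive maps `φ : P → ℤ` of finite support on every orbit; they correspond to the
`G`-maps `P → ℤ[G]`, by `p ↦ Σ_g φ (g⁻¹ p) g`. -/
def IsFs (G : Type) {P : Type} [Group G] [AddCommGroup P] [DistribMulAction G P]
    (φ : P →+ ℤ) : Prop :=
  ∀ p : P, {g : G | φ (g⁻¹ • p) ≠ 0}.Finite

/-- `G`-invariant additive maps. -/
def Inv (G : Type) {P : Type} [Group G] [AddCommGroup P] [DistribMulAction G P]
    {k : Type*} [AddCommGroup k] (ω : P →+ k) : Prop :=
  ∀ (g : G) (p : P), ω (g • p) = ω p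

/-- The additive map `p ↦ Σ_g φ(g⁻¹ p) • a g`. -/
noncomputable def tw (φ : P →+ ℤ) (hφ : IsFs G φ) (a : G → k) : P →+ k where
  toFun p := ∑ᶠ g : G, φ (g⁻¹ • p) • a g
  map_zero' := by simp
  map_add' p q := by
    have h1 : (Function.support fun g : G => φ (g⁻¹ • p) • a g).Finite :=
      (hφ p).subset (fun g hg => by
        intro h0; apply hg; simp [h0])
    have h2 : (Function.support fun g : G => φ (g⁻¹ • q) • a g).Finite :=
      (hφ q).subset (fun g hg => by
        intro h0; apply hg; simp [h0])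
    rw [← finsum_add_distrib h1 h2]
    refine finsum_congr fun g => ?_
    rw [smul_add, map_add, add_smul]

/-- A finite dual basis: this says that `P` is a finitely generated projective `ℤ[G]`-module. -/
structure DB (G P : Type) [Group G] [AddCommGroup P] [DistribMulAction G P] where
  J : Type
  fin : Fintype J
  φ : J → (P →+ ℤ)
  e : J → P
  fs : ∀ j, IsFs G (φ j)
  span : ∀ p : P, p = ∑ j, ∑ᶠ g : G, φ j (g⁻¹ • p) • (g • e j)

attribute [instance] DB.fin

end Basic

/-- A finitely generated projective resolution of length three of the trivial module `ℤ` together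
with a fundamental class: the data of an orientable Poincare duality group of dimension three. -/
structure PD3Data (G P0 P1 P2 P3 : Type) [Group G] [AddCommGroup P0] [AddCommGroup P1]
    [AddCommGroup P2] [AddCommGroup P3] [DistribMulAction G P0] [DistribMulAction G P1]
    [DistribMulAction G P2] [DistribMulAction G P3] where
  ε : P0 →+ ℤ
  d0 : P1 →+ P0
  d1 : P2 →+ P1
  d2 : P3 →+ P2
  ε_smul : ∀ (g : G) (p : P0), ε (g • p) = ε p
  d0_smul : ∀ (g : G) (p : P1), d0 (g • p) = g • d0 p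
  d1_smul : ∀ (g : G) (p : P2), d1 (g • p) = g • d1 p
  d2_smul : ∀ (g : G) (p : P3), d2 (g • p) = g • d2 p
  p0 : P0
  ε_p0 : ε p0 = 1
  exact0 : ∀ p, ε p = 0 ↔ ∃ q, d0 q = p
  exact1 : ∀ p, d0 p = 0 ↔ ∃ q, d1 q = p
  exact2 : ∀ p, d1 p = 0 ↔ ∃ q, d2 q = p
  d2_inj : Function.Injective d2
  b0 : DB G P0
  b1 : DB G P1
  b2 : DB G P2
  b3 : DB G P3
  z : P3 →+ ℤ
  z_fs : IsFs G z
  D2 : ∀ φ : P2 →+ ℤ, IsFs G φ → (∀ p, φ (d2 p) = 0) →
    ∃ ψ : P1 →+ ℤ, IsFs G ψ ∧ φ = ψ.comp d1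
  D3 : ∀ φ : P3 →+ ℤ, IsFs G φ →
    ∃ (n : ℤ) (ψ : P2 →+ ℤ), IsFs G ψ ∧ φ = n • z + ψ.comp d2
  D3' : ∀ (n : ℤ) (ψ : P2 →+ ℤ), IsFs G ψ → n • z = ψ.comp d2 → n = 0
  ori : ∀ g : G, ∃ c : P2 →+ ℤ, IsFs G c ∧ ∀ p, z (g • p) = z p + c (d2 p)

/-- A chain map over the automorphism `θ` which reverses the fundamental class. -/
structure Rev {G P0 P1 P2 P3 : Type} [Group G] [AddCommGroup P0] [AddCommGroup P1]
    [AddCommGroup P2] [AddCommGroup P3] [DistribMulAction G P0] [DistribMulAction G P1]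
    [DistribMulAction G P2] [DistribMulAction G P3] (D : PD3Data G P0 P1 P2 P3)
    (θ : G ≃* G) where
  F0 : P0 →+ P0
  F1 : P1 →+ P1
  F2 : P2 →+ P2
  F3 : P3 →+ P3
  F0_smul : ∀ (g : G) (p : P0), F0 (g • p) = θ g • F0 p
  F1_smul : ∀ (g : G) (p : P1), F1 (g • p) = θ g • F1 p
  F2_smul : ∀ (g : G) (p : P2), F2 (g • p) = θ g • F2 p
  F3_smul : ∀ (g : G) (p : P3), F3 (g • p) = θ g • F3 p
  ε_F0 : ∀ p, D.ε (F0 p) = D.ε p
  comm0 : ∀ p, F0 (D.d0 p) = D.d0 (F1 p)
  comm1 : ∀ p, F1 (D.d1 p) = D.d1 (F2 p)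
  comm2 : ∀ p, F2 (D.d2 p) = D.d2 (F3 p)
  ψ : P2 →+ ℤ
  ψ_fs : IsFs G ψ
  rev : ∀ p, D.z (F3 p) = - D.z p + ψ (D.d2 p)

/-- `θ` is an orientation reversing automorphism of the orientable `PD_3`-group `G`. -/
def Achiral (G : Type) [Group G] (θ : G ≃* G) : Prop :=
  ∃ (P0 P1 P2 P3 : Type) (_ : AddCommGroup P0) (_ : AddCommGroup P1) (_ : AddCommGroup P2)
    (_ : AddCommGroup P3) (_ : DistribMulAction G P0) (_ : DistribMulAction G P1)
    (_ : DistribMulAction G P2) (_ : DistribMulAction G P3) (D : PD3Data G P0 P1 P2 P3),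
    Nonempty (Rev D θ)

/-- No subgroup of finite index maps onto `ℤ`. -/
def FAb (G : Type) [Group G] : Prop :=
  ∀ H : Subgroup G, H.index ≠ 0 → ¬ ∃ f : H →* Multiplicative ℤ, Function.Surjective f

/-- The restriction of an automorphism to an invariant subgroup. -/
def resAut {G : Type} [Group G] (θ : G ≃* G) (H : Subgroup G) (h : ∀ g, θ g ∈ H ↔ g ∈ H) :
    H ≃* H where
  toFun x := ⟨θ x, (h x).2 x.2⟩
  invFun x := ⟨θ.symm x, (h _).1 (by simp)⟩
  left_inv x := by ext; simp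
  right_inv x := by ext; simp
  map_mul' x y := by ext; simp

@[simp] theorem coe_resAut {G : Type} [Group G] (θ : G ≃* G) (H : Subgroup G)
    (h : ∀ g, θ g ∈ H ↔ g ∈ H) (x : H) : ((resAut θ H h x : H) : G) = θ x := rfl

/-- Conjugation by `c` after `θ`. -/
def conjAut {G : Type} [Group G] (c : G) (θ : G ≃* G) : G ≃* G := θ.trans (MulAut.conj c)

@[simp] theorem conjAut_apply {G : Type} [Group G] (c : G) (θ : G ≃* G) (g : G) :
    conjAut c θ g = c * θ g * c⁻¹ := rfl

section API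

variable {G : Type} [Group G] {P Q : Type} [AddCommGroup P] [AddCommGroup Q]
  [DistribMulAction G P] [DistribMulAction G Q]
  {k : Type*} [AddCommGroup k] {k' : Type*} [AddCommGroup k']

theorem tw_apply (φ : P →+ ℤ) (hφ : IsFs G φ) (a : G → k) (p : P) :
    tw φ hφ a p = ∑ᶠ g : G, φ (g⁻¹ • p) • a g := rfl

theorem tw_supp (φ : P →+ ℤ) (hφ : IsFs G φ) (a : G → k) (p : P) :
    (Function.support fun g : G => φ (g⁻¹ • p) • a g).Finite :=
  (hφ p).subset (fun g hg => by
    intro h0; apply hg; simp [h0])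

theorem tw_smul (φ : P →+ ℤ) (hφ : IsFs G φ) (a : G → k) (h : G) (p : P) :
    tw φ hφ a (h • p) = tw φ hφ (fun g => a (h * g)) p := by
  rw [tw_apply, tw_apply, ← finsum_comp_equiv (Equiv.mulLeft h)]
  refine finsum_congr fun g => ?_
  simp [mul_smul]

theorem tw_add (φ : P →+ ℤ) (hφ : IsFs G φ) (a b : G → k) :
    tw φ hφ (fun g => a g + b g) = tw φ hφ a + tw φ hφ b := by
  ext p
  rw [AddMonoidHom.add_apply, tw_apply, tw_apply, tw_apply,
    ← finsum_add_distrib (tw_supp φ hφ a p) (tw_supp φ hφ b p)]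
  exact finsum_congr fun g => smul_add _ _ _

theorem tw_zero (φ : P →+ ℤ) (hφ : IsFs G φ) :
    tw φ hφ (fun _ : G => (0 : k)) = 0 := by
  ext p; simp [tw_apply]

theorem tw_sum {ι : Type*} (s : Finset ι) (φ : P →+ ℤ) (hφ : IsFs G φ) (a : ι → G → k) :
    tw φ hφ (fun g => ∑ i ∈ s, a i g) = ∑ i ∈ s, tw φ hφ (a i) := by
  classical
  induction s using Finset.induction_on with
  | empty => simp [tw_zero]
  | insert i s hi ih => simp only [Finset.sum_insert hi, tw_add, ih]

theorem map_tw (L : k →+ k') (φ : P →+ ℤ) (hφ : IsFs G φ) (a : G → k) (p : P) :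
    L (tw φ hφ a p) = tw φ hφ (fun g => L (a g)) p := by
  rw [tw_apply, tw_apply, AddMonoidHom.map_finsum L (tw_supp φ hφ a p)]
  exact finsum_congr fun g => map_zsmul L _ _

theorem tw_neg (φ : P →+ ℤ) (hφ : IsFs G φ) (a : G → k) :
    tw φ hφ (fun g => - a g) = - tw φ hφ a := by
  ext p
  have := map_tw (-(AddMonoidHom.id k)) φ hφ a p
  simpa using this.symm

theorem tw_sub (φ : P →+ ℤ) (hφ : IsFs G φ) (a b : G → k) :
    tw φ hφ (fun g => a g - b g) = tw φ hφ a - tw φ hφ b := by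
  have := tw_add φ hφ a (fun g => - b g)
  simp only [tw_neg] at this
  simpa [sub_eq_add_neg] using this

theorem tw_const (φ : P →+ ℤ) (hφ : IsFs G φ) (a : k) (p : P) :
    tw φ hφ (fun _ => a) p = (tw φ hφ (fun _ => (1 : ℤ)) p) • a := by
  have := map_tw ((zmultiplesHom k) a) φ hφ (fun _ => (1 : ℤ)) p
  simpa using this.symm

theorem tw_congr {φ φ' : P →+ ℤ} (h : φ = φ') (hφ : IsFs G φ) (hφ' : IsFs G φ') (a : G → k) :
    tw φ hφ a = tw φ' hφ' a := by
  subst h; rfl

theorem tw_inv (φ : P →+ ℤ) (hφ : IsFs G φ) (a : k) : Inv G (tw φ hφ (fun _ => a)) := by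
  intro g p
  rw [tw_smul]

/-! Closure properties of `IsFs`. -/

theorem IsFs.zero : IsFs G (0 : P →+ ℤ) := by
  intro p; simp

theorem IsFs.add {φ ψ : P →+ ℤ} (hφ : IsFs G φ) (hψ : IsFs G ψ) : IsFs G (φ + ψ) := by
  intro p
  refine ((hφ p).union (hψ p)).subset fun g hg => ?_
  by_contra h
  simp only [Set.mem_union, Set.mem_ofPred_eq, not_or, not_not] at h
  exact hg (by simp [h.1, h.2])

theorem IsFs.neg {φ : P →+ ℤ} (hφ : IsFs G φ) : IsFs G (-φ) := by
  intro p
  refine (hφ p).subset fun g hg => ?_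
  intro h; exact hg (by simp [h])

theorem IsFs.sub {φ ψ : P →+ ℤ} (hφ : IsFs G φ) (hψ : IsFs G ψ) : IsFs G (φ - ψ) := by
  rw [sub_eq_add_neg]; exact hφ.add hψ.neg

theorem IsFs.zsmul {φ : P →+ ℤ} (hφ : IsFs G φ) (n : ℤ) : IsFs G (n • φ) := by
  intro p
  refine (hφ p).subset fun g hg => ?_
  intro h; exact hg (by simp [h])

theorem IsFs.sum {ι : Type*} (s : Finset ι) {φ : ι → (P →+ ℤ)} (hφ : ∀ i ∈ s, IsFs G (φ i)) :
    IsFs G (∑ i ∈ s, φ i) := by
  classical
  induction s using Finset.induction_on with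
  | empty => simpa using IsFs.zero
  | insert i s hi ih =>
    rw [Finset.sum_insert hi]
    exact (hφ i (Finset.mem_insert_self i s)).add
      (ih fun j hj => hφ j (Finset.mem_insert_of_mem hj))

/-- Composition with a semilinear map. -/
theorem IsFs.comp_semi {φ : Q →+ ℤ} (hφ : IsFs G φ) (θ : G ≃* G) (F : P →+ Q)
    (hF : ∀ (g : G) (p : P), F (g • p) = θ g • F p) : IsFs G (φ.comp F) := by
  intro p
  have h := (hφ (F p)).preimage (θ.injective.injOn (s := θ ⁻¹' {g | φ (g⁻¹ • F p) ≠ 0}))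
  refine h.subset fun g hg => ?_
  simp only [Set.mem_preimage, Set.mem_ofPred_eq]
  simp only [Set.mem_ofPred_eq, AddMonoidHom.coe_comp, Function.comp_apply, hF, map_inv] at hg
  exact hg

theorem IsFs.comp {φ : Q →+ ℤ} (hφ : IsFs G φ) (F : P →+ Q)
    (hF : ∀ (g : G) (p : P), F (g • p) = g • F p) : IsFs G (φ.comp F) :=
  hφ.comp_semi (MulEquiv.refl G) F hF

/-- Right translation `φ·h`. -/
def rt (h : G) (φ : P →+ ℤ) : P →+ ℤ := φ.comp (DistribSMul.toAddMonoidHom P h)

@[simp] theorem rt_apply (h : G) (φ : P →+ ℤ) (p : P) : rt h φ p = φ (h • p) := rfl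

theorem IsFs.rt {φ : P →+ ℤ} (hφ : IsFs G φ) (h : G) : IsFs G (rt h φ) := by
  intro p
  have h1 := (hφ p).preimage ((mul_left_injective h⁻¹).injOn
    (s := (fun g => g * h⁻¹) ⁻¹' {g | φ (g⁻¹ • p) ≠ 0}))
  refine h1.subset fun g hg => ?_
  simp only [Set.mem_preimage, Set.mem_ofPred_eq, mul_inv_rev, inv_inv]
  simp only [Set.mem_ofPred_eq, rt_apply, smul_smul] at hg
  exact hg

theorem tw_rt (φ : P →+ ℤ) (hφ : IsFs G φ) (h : G) (hφ' : IsFs G (rt h φ)) (a : G → k) :
    tw (rt h φ) hφ' a = tw φ hφ (fun g => a (g * h)) := by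
  ext p
  rw [tw_apply, tw_apply, ← finsum_comp_equiv (Equiv.mulRight h)]
  refine finsum_congr fun g => ?_
  simp [smul_smul]

theorem tw_add_left {φ ψ : P →+ ℤ} (hφ : IsFs G φ) (hψ : IsFs G ψ) (h : IsFs G (φ + ψ))
    (a : G → k) : tw (φ + ψ) h a = tw φ hφ a + tw ψ hψ a := by
  ext p
  rw [AddMonoidHom.add_apply, tw_apply, tw_apply, tw_apply,
    ← finsum_add_distrib (tw_supp φ hφ a p) (tw_supp ψ hψ a p)]
  exact finsum_congr fun g => by rw [AddMonoidHom.add_apply, add_smul]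

theorem tw_neg_left {φ : P →+ ℤ} (hφ : IsFs G φ) (h : IsFs G (-φ))
    (a : G → k) : tw (-φ) h a = - tw φ hφ a := by
  ext p
  rw [AddMonoidHom.neg_apply, tw_apply, tw_apply, ← finsum_neg_distrib]
  exact finsum_congr fun g => by rw [AddMonoidHom.neg_apply, neg_smul]

theorem tw_sub_left {φ ψ : P →+ ℤ} (hφ : IsFs G φ) (hψ : IsFs G ψ) (h : IsFs G (φ - ψ))
    (a : G → k) : tw (φ - ψ) h a = tw φ hφ a - tw ψ hψ a := by
  have := tw_add_left hφ hψ.neg (hφ.add hψ.neg) a
  rw [tw_neg_left hψ] at this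
  rw [tw_congr (sub_eq_add_neg φ ψ) h (hφ.add hψ.neg), this, sub_eq_add_neg]

theorem tw_zsmul_left {φ : P →+ ℤ} (hφ : IsFs G φ) (n : ℤ) (h : IsFs G (n • φ))
    (a : G → k) : tw (n • φ) h a = n • tw φ hφ a := by
  ext p
  rw [AddMonoidHom.smul_apply, tw_apply, tw_apply, smul_finsum' n (tw_supp φ hφ a p)]
  exact finsum_congr fun g => by
    rw [AddMonoidHom.smul_apply, smul_eq_mul, mul_smul]

/-- Composition on the left with a semilinear map. -/
theorem tw_comp_semi (φ : Q →+ ℤ) (hφ : IsFs G φ) (θ : G ≃* G) (F : P →+ Q)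
    (hF : ∀ (g : G) (p : P), F (g • p) = θ g • F p) (h : IsFs G (φ.comp F)) (a : G → k) (p : P) :
    tw φ hφ a (F p) = tw (φ.comp F) h (fun g => a (θ g)) p := by
  rw [tw_apply, tw_apply, ← finsum_comp_equiv θ.toEquiv]
  refine finsum_congr fun g => ?_
  simp [hF]

theorem tw_comp (φ : Q →+ ℤ) (hφ : IsFs G φ) (F : P →+ Q)
    (hF : ∀ (g : G) (p : P), F (g • p) = g • F p) (h : IsFs G (φ.comp F)) (a : G → k) (p : P) :
    tw φ hφ a (F p) = tw (φ.comp F) h a p :=
  tw_comp_semi φ hφ (MulEquiv.refl G) F hF h a p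

/-- Expansion of an additive map in a dual basis. -/
theorem DB.expand (b : DB G P) (ω : P →+ k) (p : P) :
    ω p = ∑ j, tw (b.φ j) (b.fs j) (fun g => ω (g • b.e j)) p := by
  conv_lhs => rw [b.span p]
  rw [map_sum]
  refine Finset.sum_congr rfl fun j _ => ?_
  rw [tw_apply, AddMonoidHom.map_finsum ω (tw_supp (b.φ j) (b.fs j) (fun g => g • b.e j) p)]
  exact finsum_congr fun g => map_zsmul ω _ _

/-- Expansion of an invariant additive map in a dual basis. -/
theorem DB.expand_inv (b : DB G P) (ω : P →+ k) (hω : Inv G ω) (p : P) :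
    ω p = ∑ j, tw (b.φ j) (b.fs j) (fun _ => ω (b.e j)) p := by
  rw [b.expand ω p]
  refine Finset.sum_congr rfl fun j _ => ?_
  congr 2
  funext g
  exact hω g _

/-- The twisted lift determined by arbitrary values. -/
noncomputable def DB.lift (b : DB G P) (a : b.J → G → k) : P →+ k :=
  ∑ j, tw (b.φ j) (b.fs j) (a j)

theorem DB.lift_apply (b : DB G P) (a : b.J → G → k) (p : P) :
    b.lift a p = ∑ j, tw (b.φ j) (b.fs j) (a j) p := by
  simp [DB.lift]

theorem DB.lift_smul (b : DB G P) (a : b.J → G → k) (h : G) (p : P) :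
    b.lift a (h • p) = b.lift (fun j g => a j (h * g)) p := by
  simp only [DB.lift_apply, tw_smul]

theorem DB.lift_add (b : DB G P) (a a' : b.J → G → k) :
    b.lift (fun j g => a j g + a' j g) = b.lift a + b.lift a' := by
  simp only [DB.lift, tw_add, Finset.sum_add_distrib]

theorem DB.lift_eq (b : DB G P) (ω : P →+ k) : b.lift (fun j g => ω (g • b.e j)) = ω := by
  ext p
  rw [DB.lift_apply, ← b.expand]

/-- The lift of a map through a surjection onto its image: `f` is `θ`-semilinear with values in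
the image of the equivariant map `d`. -/
theorem DB.exists_lift {X Y : Type} [AddCommGroup X] [AddCommGroup Y] [DistribMulAction G X]
    [DistribMulAction G Y] (b : DB G P) (θ : G →* G) (d : X →+ Y)
    (hd : ∀ (g : G) (x : X), d (g • x) = g • d x) (f : P →+ Y)
    (hf : ∀ (g : G) (p : P), f (g • p) = θ g • f p) (him : ∀ p, ∃ x, d x = f p) :
    ∃ F : P →+ X, (∀ (g : G) (p : P), F (g • p) = θ g • F p) ∧ ∀ p, d (F p) = f p := by
  choose x hx using fun j => him (b.e j)
  refine ⟨b.lift (fun j g => θ g • x j), ?_, ?_⟩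
  · intro g p
    rw [DB.lift_smul, DB.lift_apply, DB.lift_apply]
    have : θ g • ∑ j, tw (b.φ j) (b.fs j) (fun g => θ g • x j) p
        = (DistribSMul.toAddMonoidHom X (θ g))
          (∑ j, tw (b.φ j) (b.fs j) (fun g => θ g • x j) p) := rfl
    rw [this, map_sum]
    refine Finset.sum_congr rfl fun j _ => ?_
    rw [map_tw]
    congr 2
    funext h
    simp [mul_smul]
  · intro p
    rw [DB.lift_apply, map_sum, b.expand f p]
    refine Finset.sum_congr rfl fun j _ => ?_
    rw [map_tw]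
    congr 2
    funext h
    rw [hd, hx, hf]

end API

end Pool.ACH
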