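import Pool.Agent.Helper20.ACH.Chi

/-! Project ACH (MP_9d9192_al): degrees zero and one. -/

set_option autoImplicit false

namespace Pool.ACH

variable {G : Type} [Group G] {P0 P1 P2 P3 : Type} [AddCommGroup P0] [AddCommGroup P1]
    [AddCommGroup P2] [AddCommGroup P3] [DistribMulAction G P0] [DistribMulAction G P1]
    [DistribMulAction G P2] [DistribMulAction G P3]

namespace PD3Data

variable (D : PD3Data G P0 P1 P2 P3) {A : Type*} [AddCommGroup A] {k : Type*} [AddCommGroup k]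

/-- Degree zero. -/
theorem h0 (ω : P0 →+ A) (h : ∀ p, ω (D.d0 p) = 0) (p : P0) :
    ω p = D.ε p • ω D.p0 := by
  have h1 : D.ε (p - D.ε p • D.p0) = 0 := by
    rw [map_sub, map_zsmul, D.ε_p0]; simp
  obtain ⟨q, hq⟩ := (D.exact0 _).1 h1
  have h2 := h q
  rw [hq, map_sub, map_zsmul, sub_eq_zero] at h2
  exact h2

/-- The lift to `P0` of a homomorphism `β : G → A`. -/
noncomputable def lift0 (β : G → A) : P0 →+ A :=
  D.b0.lift (fun j g => D.ε (D.b0.e j) • β g)

theorem lift0_smul (β : G → A) (hβ : ∀ g h, β (g * h) = β g + β h) (g : G) (p : P0) :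
    D.lift0 β (g • p) = D.lift0 β p + D.ε p • β g := by
  have h1 : D.ε p • β g = D.b0.lift (fun j (_ : G) => D.ε (D.b0.e j) • β g) p := by
    have h2 := D.b0.expand_inv D.ε (fun g p => D.ε_smul g p) p
    conv_lhs => rw [h2]
    rw [DB.lift_apply, Finset.sum_smul]
    refine Finset.sum_congr rfl fun j _ => ?_
    rw [tw_const (D.b0.φ j) (D.b0.fs j) (D.ε (D.b0.e j) • β g) p,
      tw_const (D.b0.φ j) (D.b0.fs j) (D.ε (D.b0.e j)) p, smul_eq_mul, mul_smul]
  rw [lift0, DB.lift_smul, h1, ← AddMonoidHom.add_apply, ← DB.lift_add]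
  congr 2
  funext j h
  rw [hβ, smul_add, add_comm]

/-- The cocycle in degree one of a homomorphism. -/
noncomputable def q (β : G → A) : P1 →+ A := (D.lift0 β).comp D.d0

theorem ε_d0 (p : P1) : D.ε (D.d0 p) = 0 := (D.exact0 _).2 ⟨p, rfl⟩

theorem d0_d1 (p : P2) : D.d0 (D.d1 p) = 0 := (D.exact1 _).2 ⟨p, rfl⟩

theorem d1_d2 (p : P3) : D.d1 (D.d2 p) = 0 := (D.exact2 _).2 ⟨p, rfl⟩

theorem q_inv (β : G → A) (hβ : ∀ g h, β (g * h) = β g + β h) : Inv G (D.q β) := by
  intro g p
  rw [q, AddMonoidHom.coe_comp, Function.comp_apply, Function.comp_apply, D.d0_smul,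
    D.lift0_smul β hβ, D.ε_d0, zero_smul, add_zero]

theorem q_d1 (β : G → A) (p : P2) : D.q β (D.d1 p) = 0 := by
  rw [q, AddMonoidHom.coe_comp, Function.comp_apply, D.d0_d1, map_zero]

theorem q_add (β β' : G → A) : D.q (fun g => β g + β' g) = D.q β + D.q β' := by
  rw [q, q, q, ← AddMonoidHom.add_comp, lift0, lift0, lift0, ← DB.lift_add]
  simp only [smul_add]

/-- Two lifts of the same homomorphism differ by an invariant map. -/
theorem lift_unique (β : G → A) (B B' : P0 →+ A)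
    (h : ∀ g p, B (g • p) = B p + D.ε p • β g) (h' : ∀ g p, B' (g • p) = B' p + D.ε p • β g) :
    Inv G (B - B') := by
  intro g p
  simp only [AddMonoidHom.sub_apply, h, h']
  abel

end PD3Data

end Pool.ACH
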