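import Pool.Agent.Helper20.ACH.HmBase

/-! Project ACH (MP_9d9192_al). -/

set_option autoImplicit false

namespace Pool.ACH

variable {G : Type} [Group G] {F : Type} [Field F]

private theorem HM_one (a : Hm G F) : a.1 1 = 0 := by
  have h := a.2 1 1
  rw [mul_one] at h
  exact left_eq_add.mp h

private theorem HM_inv (a : Hm G F) (g : G) : a.1 g⁻¹ = -a.1 g := by
  have h := a.2 g g⁻¹
  rw [mul_inv_cancel, HM_one] at h
  exact (neg_eq_of_add_eq_zero_right h.symm).symm

/-- PIECE ACH-HM (40 lines).  A homomorphism is determined by its values on a finite generating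
set; so `Hm G F` embeds linearly in `S → F`, `S` finite. -/
theorem finite_Hm (hfg : Group.FG G) (F : Type) [Field F] : FiniteDimensional F (Hm G F) := by
  obtain ⟨S, hS⟩ := hfg.1
  have hinj : Function.Injective
      ((LinearMap.funLeft F F (Subtype.val : {x // x ∈ S} → G)).comp (Hm G F).subtype) := by
    rw [injective_iff_map_eq_zero]
    intro a ha
    have h0 : ∀ g : G, a.1 g = 0 := by
      intro g
      have hg : g ∈ Subgroup.closure (S : Set G) := by rw [hS]; exact Subgroup.mem_top g
      induction hg using Subgroup.closure_induction with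
      | mem x hx => exact congrFun ha ⟨x, hx⟩
      | one => exact HM_one a
      | mul x y _ _ h1 h2 => rw [a.2 x y, h1, h2, add_zero]
      | inv x _ h1 => rw [HM_inv, h1, neg_zero]
    exact Subtype.ext (funext h0)
  exact FiniteDimensional.of_injective _ hinj

/-- PIECE ACH-HM (40 lines).  A homomorphism to a field of characteristic `p` vanishes on
`g ^ p` and on commutators; its image is finite if `G` is finitely generated, and the kernel
`{g | a g = 0}` has finite index. -/
theorem ker_index (hfg : Group.FG G) (p : ℕ) [Fact p.Prime] [CharP F p] (a : Hm G F) :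
    ∃ L : Subgroup G, L.Normal ∧ L.index ≠ 0 ∧ (∀ g, g ∈ L ↔ a.1 g = 0) := by
  let f : G →* Multiplicative F :=
    { toFun := fun g => Multiplicative.ofAdd (a.1 g)
      map_one' := by rw [HM_one]; rfl
      map_mul' := fun x y => by rw [a.2 x y]; rfl }
  refine ⟨f.ker, inferInstance, ?_, fun g => ?_⟩
  · obtain ⟨S, hS⟩ := hfg.1
    letI : Algebra (ZMod p) F := ZMod.algebra F p
    let N : Submodule (ZMod p) F := Submodule.span (ZMod p) (a.1 '' (S : Set G))
    have hfin : Module.Finite (ZMod p) N :=
      Module.Finite.span_of_finite (ZMod p) ((Finset.finite_toSet S).image a.1)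
    have hN : Finite N := Module.finite_of_finite (ZMod p)
    have hmem : ∀ g : G, a.1 g ∈ N := by
      intro g
      have hg : g ∈ Subgroup.closure (S : Set G) := by rw [hS]; exact Subgroup.mem_top g
      induction hg using Subgroup.closure_induction with
      | mem x hx => exact Submodule.subset_span ⟨x, hx, rfl⟩
      | one => rw [HM_one]; exact N.zero_mem
      | mul x y _ _ h1 h2 => rw [a.2 x y]; exact N.add_mem h1 h2
      | inv x _ h1 => rw [HM_inv]; exact N.neg_mem h1
    have hr : Finite f.range := by
      refine Finite.of_injective (fun x : f.range => (⟨Multiplicative.toAdd x.1, ?_⟩ : N)) ?_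
      · obtain ⟨g, hg⟩ := x.2
        rw [← hg]
        exact hmem g
      · intro x y h
        have h1 := congrArg Subtype.val h
        exact Subtype.ext (Multiplicative.toAdd.injective h1)
    rw [Subgroup.index_ker]
    exact Nat.card_pos.ne'
  · rw [MonoidHom.mem_ker]
    exact Iff.rfl

end Pool.ACH
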