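import Pool.Agent.Helper20.ACH.Ob

/-! Project ACH (MP_9d9192_al): homomorphisms to a field, pullback by automorphisms. -/

set_option autoImplicit false

namespace Pool.ACH

variable {G : Type} [Group G] {F : Type} [Field F]

theorem Hm.map_mul (a : Hm G F) (g h : G) : a.1 (g * h) = a.1 g + a.1 h := a.2 g h

theorem Hm.map_one (a : Hm G F) : a.1 1 = 0 := by
  have := a.2 1 1
  simpa using this

theorem Hm.map_inv (a : Hm G F) (g : G) : a.1 g⁻¹ = - a.1 g := by
  have := a.2 g g⁻¹
  rw [mul_inv_cancel, Hm.map_one] at this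
  exact (neg_eq_of_add_eq_zero_right this.symm).symm

theorem Hm.map_conj (a : Hm G F) (g x : G) : a.1 (g * x * g⁻¹) = a.1 x := by
  rw [a.2, a.2, Hm.map_inv]; ring

theorem Hm.map_pow (a : Hm G F) (g : G) (n : ℕ) : a.1 (g ^ n) = n * a.1 g := by
  induction n with
  | zero => simp [Hm.map_one]
  | succ n ih => rw [pow_succ, a.2, ih]; push_cast; ring

/-- Pullback of homomorphisms by an automorphism. -/
def pb (θ : G ≃* G) : Hm G F →ₗ[F] Hm G F where
  toFun a := ⟨fun g => a.1 (θ g), fun g h => by
    show a.1 (θ (g * h)) = a.1 (θ g) + a.1 (θ h)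
    rw [_root_.map_mul]; exact a.2 _ _⟩
  map_add' a b := by ext g; rfl
  map_smul' c a := by ext g; rfl

@[simp] theorem pb_apply (θ : G ≃* G) (a : Hm G F) (g : G) : (pb θ a).1 g = a.1 (θ g) := rfl

theorem pb_injective (θ : G ≃* G) : Function.Injective (pb (F := F) θ) := by
  intro a b h
  ext g
  have := congrArg (fun x : Hm G F => x.1 (θ.symm g)) h
  simpa using this

/-- Restriction of homomorphisms to a subgroup. -/
def resHm (H : Subgroup G) : Hm G F →ₗ[F] Hm H F where
  toFun a := ⟨fun g => a.1 g, fun g h => by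
    show a.1 ((g * h : H) : G) = a.1 g + a.1 h
    rw [Subgroup.coe_mul]; exact a.2 _ _⟩
  map_add' a b := by ext g; rfl
  map_smul' c a := by ext g; rfl

@[simp] theorem resHm_apply (H : Subgroup G) (a : Hm G F) (g : H) :
    (resHm H a).1 g = a.1 g := rfl

end Pool.ACH
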