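import Pool.Agent.Helper20.ACH.Link
import Pool.Agent.Helper20.ACH.HOM

/-! Project ACH (MP_9d9192_al). -/

set_option autoImplicit false

namespace Pool.ACH

variable {G : Type} [Group G] {P0 P1 P2 P3 : Type} [AddCommGroup P0] [AddCommGroup P1]
    [AddCommGroup P2] [AddCommGroup P3] [DistribMulAction G P0] [DistribMulAction G P1]
    [DistribMulAction G P2] [DistribMulAction G P3]

variable (D : PD3Data G P0 P1 P2 P3)

/-- PIECE ACH-L1 (60 lines).  `hQ`: no nonzero homomorphisms `G → ℚ`.  If `ω = v∘d1` with `v`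
integral invariant, then `(u - v)∘d1 = 0`, so by `exists_hom` and `hQ` we have `u - v = C∘d0` with
`C : P0 → ℚ` invariant; so `B∘d0 = (toQZ∘C)∘d0`, so `B - toQZ∘C` is `ε • c` (`h0`), invariant, and
`ε(p) • β g = B(g p) - B(p) = 0`; take `p = p0`. -/
theorem LinkC.eq_zero (hQ : ∀ y : G → ℚ, (∀ g h, y (g * h) = y g + y h) → ∀ g, y g = 0)
    {ω : P2 →+ ℤ} {β : G → QZ} (h : LinkC D ω β) (hω : D.Cob ω) (g : G) : β g = 0 := by
  obtain ⟨u, B, hu, huω, hB, huB⟩ := h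
  obtain ⟨v, hv, hvω⟩ := hω
  obtain ⟨w, hw⟩ : ∃ w : P1 →+ ℚ, w = u - (Int.castAddHom ℚ).comp v := ⟨_, rfl⟩
  have hwp : ∀ p, w p = u p - (v p : ℚ) := fun p => by
    rw [hw]
    rfl
  have hwi : Inv G w := fun g p => by
    rw [hwp, hwp, hu g p, hv g p]
  have hwd : ∀ p, w (D.d1 p) = 0 := fun p => by
    rw [hwp, ← huω, hvω, sub_self]
  obtain ⟨β', C, hβ', hC, hwC⟩ := D.exists_hom w hwi hwd
  have h0 := hQ β' hβ'
  have hCi : ∀ (g : G) (p : P0), C (g • p) = C p := fun g p => by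
    rw [hC, h0 g, smul_zero, add_zero]
  obtain ⟨E, hE⟩ : ∃ E : P0 →+ QZ, E = B - toQZ.comp C := ⟨_, rfl⟩
  have hEp : ∀ p, E p = B p - toQZ (C p) := fun p => by
    rw [hE]
    rfl
  have hEd : ∀ p, E (D.d0 p) = 0 := fun p => by
    rw [hEp, ← huB, ← hwC, hwp, map_sub, toQZ_int, sub_zero, sub_self]
  have e1 := D.h0 E hEd (g • D.p0)
  rw [D.ε_smul, D.ε_p0, one_smul, hEp, hEp, hCi, hB, D.ε_p0, one_smul] at e1
  have e2 : B D.p0 + β g = B D.p0 := sub_left_injective e1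
  exact add_eq_left.1 e2

end Pool.ACH
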