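import Pool.Agent.Helper20.ACH.Link
import Pool.Agent.Helper20.ACH.HOM

/-! Project ACH (MP_9d9192_al). -/

set_option autoImplicit false

namespace Pool.ACH

variable {G : Type} [Group G] {P0 P1 P2 P3 : Type} [AddCommGroup P0] [AddCommGroup P1]
    [AddCommGroup P2] [AddCommGroup P3] [DistribMulAction G P0] [DistribMulAction G P1]
    [DistribMulAction G P2] [DistribMulAction G P3]

variable (D : PD3Data G P0 P1 P2 P3)

/-- PIECE ACH-L2 (50 lines).  Existence of the character for `χ_x`: `D.chi x (1:ℚ) = u∘d1`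
(`chi_rat`); `toQZ∘u` is an invariant cocycle since `chi x (1:ℚ) p = (chi x (1:ℤ) p : ℚ)`
(`map_chi` for `Int.castAddHom ℚ`); use `exists_hom`. -/
theorem exists_linkC (hR : ∀ (g : G) (a : ℚ), D.Cob (D.chi g a)) (x : G) :
    ∃ β : G → QZ, LinkC D (D.chi x (1 : ℤ)) β := by
  obtain ⟨u, hu, hu1⟩ := hR x (1 : ℚ)
  have h1 : ∀ p, ((D.chi x (1 : ℤ) p : ℤ) : ℚ) = u (D.d1 p) := by
    intro p
    rw [← hu1 p]
    have h2 := D.map_chi (Int.castAddHom ℚ) x (1 : ℤ) p
    simpa using h2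
  obtain ⟨β, B, -, hB, hB'⟩ := D.exists_hom (toQZ.comp u)
    (fun g p => by
      rw [AddMonoidHom.comp_apply, AddMonoidHom.comp_apply, hu g p])
    (fun p => by
      rw [AddMonoidHom.comp_apply, ← h1, toQZ_int])
  exact ⟨β, u, B, hu, h1, hB, fun p => hB' p⟩

end Pool.ACH
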