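import Pool.Agent.Helper20.ACH.Chi

/-! Project ACH (MP_9d9192_al). -/

set_option autoImplicit false

namespace Pool.ACH

variable {G : Type} [Group G] {P0 P1 P2 P3 : Type} [AddCommGroup P0] [AddCommGroup P1]
    [AddCommGroup P2] [AddCommGroup P3] [DistribMulAction G P0] [DistribMulAction G P1]
    [DistribMulAction G P2] [DistribMulAction G P3]

variable (D : PD3Data G P0 P1 P2 P3)

variable {k : Type*} [AddCommGroup k]

namespace PD3Data

/-- PIECE ACH-P3 (50 lines).  `c_{gh} - rt h (c_g) - c_h` vanishes on `d2 P3`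
(`z(g h p) = z(h p) + c_g(d2 (h p)) = z p + c_h(d2 p) + c_g(h d2 p)`), so it is `ψ∘d1` by `D2`;
apply `tw _ (const a)` and use `tw_rt`. -/
theorem chi_mul (g h : G) (a : k) :
    D.Cob (D.chi (g * h) a - D.chi g a - D.chi h a) := by
  have hr : IsFs G (rt h (D.c g)) := (D.c_fs g).rt h
  have hf1 : IsFs G (D.c (g * h) - rt h (D.c g)) := (D.c_fs (g * h)).sub hr
  have hf : IsFs G (D.c (g * h) - rt h (D.c g) - D.c h) := hf1.sub (D.c_fs h)
  obtain ⟨ψ, hψ, e⟩ := D.D2 (D.c (g * h) - rt h (D.c g) - D.c h) hf (by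
    intro p
    have h1 := D.c_spec (g * h) p
    have h2 := D.c_spec g (h • p)
    have h3 := D.c_spec h p
    rw [D.d2_smul] at h2
    rw [mul_smul] at h1
    simp only [AddMonoidHom.sub_apply, rt_apply]
    omega)
  refine ⟨tw ψ hψ (fun _ => a), tw_inv _ _ _, fun p => ?_⟩
  have h1 : tw (D.c (g * h) - rt h (D.c g) - D.c h) hf (fun _ => a) =
      D.chi (g * h) a - D.chi g a - D.chi h a := by
    rw [tw_sub_left hf1 (D.c_fs h) hf, tw_sub_left (D.c_fs (g * h)) hr hf1,
      tw_rt (D.c g) (D.c_fs g) h hr]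
    rfl
  rw [← h1, tw_comp ψ hψ D.d1 D.d1_smul (hψ.comp _ D.d1_smul), tw_congr e hf
    (hψ.comp _ D.d1_smul)]

end PD3Data

end Pool.ACH
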