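import Pool.Agent.Helper20.ACH.Link
import Pool.Agent.Helper20.ACH.P3
import Pool.Agent.Helper20.ACH.P4

/-! Project ACH (MP_9d9192_al). -/

set_option autoImplicit false

namespace Pool.ACH

variable {G : Type} [Group G] {P0 P1 P2 P3 : Type} [AddCommGroup P0] [AddCommGroup P1]
    [AddCommGroup P2] [AddCommGroup P3] [DistribMulAction G P0] [DistribMulAction G P1]
    [DistribMulAction G P2] [DistribMulAction G P3]

variable (D : PD3Data G P0 P1 P2 P3)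

/-- auxiliary: the cocycles cohomologous to some `chi x 1` form a subgroup -/
private def L3K : AddSubgroup (P2 →+ ℤ) where
  carrier := {ω | ∃ x : G, D.Cob (ω - D.chi x (1 : ℤ))}
  zero_mem' := by
    refine ⟨1, ?_⟩
    have h := D.chi_mul (1 : G) 1 (1 : ℤ)
    rw [mul_one, sub_self] at h
    exact h
  add_mem' := by
    rintro ω ω' ⟨x, hx⟩ ⟨y, hy⟩
    refine ⟨x * y, ?_⟩
    have h := (hx.add D hy).sub D (D.chi_mul x y (1 : ℤ))
    have e : ω - D.chi x (1 : ℤ) + (ω' - D.chi y (1 : ℤ)) -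
        (D.chi (x * y) (1 : ℤ) - D.chi x (1 : ℤ) - D.chi y (1 : ℤ)) =
        ω + ω' - D.chi (x * y) (1 : ℤ) := by abel
    rw [e] at h
    exact h
  neg_mem' := by
    rintro ω ⟨x, hx⟩
    refine ⟨x⁻¹, ?_⟩
    have h1 := D.chi_mul (1 : G) 1 (1 : ℤ)
    have h2 := D.chi_mul x x⁻¹ (1 : ℤ)
    rw [mul_one] at h1
    rw [mul_inv_cancel] at h2
    have h := ((hx.neg D).add D h2).add D h1
    have e : -(ω - D.chi x (1 : ℤ)) + (D.chi (1 : G) (1 : ℤ) - D.chi x (1 : ℤ) - D.chi x⁻¹ (1 : ℤ)) +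
        (D.chi (1 : G) (1 : ℤ) - D.chi (1 : G) (1 : ℤ) - D.chi (1 : G) (1 : ℤ)) =
        -ω - D.chi x⁻¹ (1 : ℤ) := by abel
    rw [e] at h
    exact h

private theorem L3_chi (g : G) (s : ℤ) : D.chi g s ∈ L3K D := by
  have e : D.chi g s = s • D.chi g (1 : ℤ) := by
    ext p
    rw [AddMonoidHom.smul_apply, PD3Data.chi, PD3Data.chi, tw_const (D.c g) (D.c_fs g) s p,
      smul_eq_mul, smul_eq_mul, mul_comm]
  rw [e]
  refine (L3K D).zsmul_mem ?_ s
  refine ⟨g, ?_⟩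
  rw [sub_self]
  exact PD3Data.Cob.zero D

/-- PIECE ACH-L3 (80 lines).  Every homomorphism `μ : G → ℚ/ℤ` is the character of some `χ_x`
modulo `Cob`.  Let `q = D.q μ : P1 → ℚ/ℤ` (`H1.lean`), choose rational `r_j` with
`toQZ r_j = q(e_j)` and `u = Σ_j tw φ_j (const r_j)` (dual basis `b1`): an invariant rational map
with `toQZ ∘ u = q` (`expand_inv`).  `u∘d1` has integral values (`q_d1`), so it is the rational form
of an additive `ω : P2 → ℤ`, invariant, `ω∘d2 = 0`; this gives `LinkC D ω μ` with `B = D.lift0 μ`.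
By `chi_surj` for `k = ℤ`, `ω ~ Σ_i chi (g_i) (s_i) ~ chi (∏ g_i ^ s_i) 1` (`chi_mul`). -/
theorem exists_linkC' (μ : G → QZ) (hμ : ∀ g h, μ (g * h) = μ g + μ h) :
    ∃ (ω : P2 →+ ℤ) (x : G), LinkC D ω μ ∧ D.Cob (ω - D.chi x (1 : ℤ)) := by
  have hq := D.q_inv μ hμ
  have hs : ∀ x : QZ, ∃ r : ℚ, toQZ r = x := fun x => QuotientAddGroup.mk'_surjective _ x
  choose r hr using fun j => hs (D.q μ (D.b1.e j))
  obtain ⟨u, hu⟩ : ∃ u : P1 →+ ℚ, u = D.b1.lift (fun j _ => r j) := ⟨_, rfl⟩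
  have hui : Inv G u := by
    intro g p
    rw [hu, DB.lift_smul]
  have huq : ∀ p, toQZ (u p) = D.q μ p := by
    intro p
    rw [D.b1.expand_inv (D.q μ) hq p, hu, DB.lift_apply, map_sum]
    refine Finset.sum_congr rfl fun j _ => ?_
    rw [map_tw, hr]
  have hint : ∀ p : P2, ∃ n : ℤ, (n : ℚ) = u (D.d1 p) := by
    intro p
    rw [← toQZ_eq_zero, huq, D.q_d1]
  choose n hn using hint
  obtain ⟨ω, hω⟩ : ∃ ω : P2 →+ ℤ, ∀ p, ω p = n p := by
    refine ⟨AddMonoidHom.mk' n ?_, fun p => rfl⟩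
    intro p p'
    have h : ((n (p + p') : ℤ) : ℚ) = ((n p + n p' : ℤ) : ℚ) := by
      rw [Int.cast_add, hn, hn, hn, map_add, map_add]
    exact_mod_cast h
  have hωu : ∀ p, (ω p : ℚ) = u (D.d1 p) := fun p => by rw [hω, hn]
  have hωi : Inv G ω := by
    intro g p
    have h : ((ω (g • p) : ℤ) : ℚ) = (ω p : ℚ) := by
      rw [hωu, hωu, D.d1_smul, hui]
    exact_mod_cast h
  have hω2 : ∀ p, ω (D.d2 p) = 0 := by
    intro p
    have h : ((ω (D.d2 p) : ℤ) : ℚ) = 0 := by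
      rw [hωu, D.d1_d2, map_zero]
    exact_mod_cast h
  have hlink : LinkC D ω μ :=
    ⟨u, D.lift0 μ, hui, hωu, fun g p => D.lift0_smul μ hμ g p, fun p => huq p⟩
  obtain ⟨m, g, s, hc⟩ := D.chi_surj ω hωi hω2
  have hsum : (∑ i, D.chi (g i) (s i)) ∈ L3K D :=
    AddSubgroup.sum_mem _ fun i _ => L3_chi D (g i) (s i)
  obtain ⟨x, hx⟩ := hsum
  refine ⟨ω, x, hlink, ?_⟩
  have h := hc.add D hx
  rw [sub_add_sub_cancel] at h
  exact h

end Pool.ACH
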