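import Pool.Agent.Helper20.ACH.Chi

/-! Project ACH (MP_9d9192_al). -/

set_option autoImplicit false

namespace Pool.ACH

variable {G : Type} [Group G] {P0 P1 P2 P3 : Type} [AddCommGroup P0] [AddCommGroup P1]
    [AddCommGroup P2] [AddCommGroup P3] [DistribMulAction G P0] [DistribMulAction G P1]
    [DistribMulAction G P2] [DistribMulAction G P3]

variable (D : PD3Data G P0 P1 P2 P3)

variable {k : Type*} [AddCommGroup k]

namespace PD3Data

/-- PIECE ACH-P5 (60 lines).  Equivariance.  `c_g ∘ F2 ∘ d2 = (rt g z - z) ∘ F3` and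
`z∘F3 = -z + ψ∘d2`, `(rt g z)∘F3 = rt (θ⁻¹ g) (z∘F3)`, so on `d2 P3` the map `c_g∘F2` agrees with
`-c_{θ⁻¹g} + rt (θ⁻¹ g) ψ - ψ`; the difference is `ρ∘d1` by `D2`.  Apply `tw _ (const a)`
(`tw_comp_semi`, `tw_rt`). -/
theorem chi_F {θ : G ≃* G} (R : Rev D θ) (g : G) (a : k) :
    D.Cob ((D.chi g a).comp R.F2 + D.chi (θ.symm g) a) := by
  set g' : G := θ.symm g with hg'
  have hθ : θ g' = g := by simp [hg']
  have f1 : IsFs G ((D.c g).comp R.F2) := (D.c_fs g).comp_semi θ R.F2 R.F2_smul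
  have f2 : IsFs G (rt g' R.ψ) := R.ψ_fs.rt g'
  have f3 : IsFs G ((D.c g).comp R.F2 + D.c g') := f1.add (D.c_fs g')
  have f4 : IsFs G (R.ψ - rt g' R.ψ) := R.ψ_fs.sub f2
  have f5 : IsFs G (((D.c g).comp R.F2 + D.c g') + (R.ψ - rt g' R.ψ)) := f3.add f4
  have hz : ∀ p, (((D.c g).comp R.F2 + D.c g') + (R.ψ - rt g' R.ψ)) (D.d2 p) = 0 := by
    intro p
    have e1 := D.c_spec g (R.F3 p)
    have e2 := D.c_spec g' p
    have e3 := R.rev (g' • p)
    have e4 := R.rev p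
    rw [R.F3_smul, hθ] at e3
    have e5 : D.d2 (g' • p) = g' • D.d2 p := D.d2_smul g' p
    rw [e5] at e3
    simp only [AddMonoidHom.add_apply, AddMonoidHom.sub_apply, AddMonoidHom.coe_comp,
      Function.comp_apply, rt_apply, R.comm2]
    omega
  obtain ⟨ρ, hρ, e⟩ := D.D2 _ f5 hz
  refine ⟨tw ρ hρ (fun _ => a), tw_inv _ _ _, fun p => ?_⟩
  have hρ' : IsFs G (ρ.comp D.d1) := hρ.comp _ D.d1_smul
  rw [tw_comp ρ hρ D.d1 D.d1_smul hρ', ← tw_congr e f5 hρ', tw_add_left f3 f4,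
    tw_add_left f1 (D.c_fs g'), tw_sub_left R.ψ_fs f2, tw_rt _ R.ψ_fs, sub_self, add_zero]
  rw [AddMonoidHom.add_apply, AddMonoidHom.add_apply, AddMonoidHom.comp_apply, chi,
    tw_comp_semi (D.c g) (D.c_fs g) θ R.F2 R.F2_smul f1]
  rfl

end PD3Data

end Pool.ACH
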