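import Pool.Agent.Helper20.ACH.Link
import Pool.Agent.Helper20.ACH.P5

/-! Project ACH (MP_9d9192_al). -/

set_option autoImplicit false

namespace Pool.ACH

variable {G : Type} [Group G] {P0 P1 P2 P3 : Type} [AddCommGroup P0] [AddCommGroup P1]
    [AddCommGroup P2] [AddCommGroup P3] [DistribMulAction G P0] [DistribMulAction G P1]
    [DistribMulAction G P2] [DistribMulAction G P3]

variable (D : PD3Data G P0 P1 P2 P3)

/-- PIECE ACH-L4 (60 lines).  Equivariance: if `LinkC D (χ_x) β` by `u, B`, then by `chi_F`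
`χ_{θ⁻¹x} = -χ_x∘F2 + ρ∘d1`, `ρ` integral invariant, and `-u∘F1 + ρ`, `-B∘F0` give
`LinkC D (χ_{θ⁻¹ x}) (-β∘θ)`. -/
theorem LinkC.theta {θ : G ≃* G} (R : Rev D θ) (x : G) {β : G → QZ}
    (h : LinkC D (D.chi x (1 : ℤ)) β) :
    LinkC D (D.chi (θ.symm x) (1 : ℤ)) (fun g => - β (θ g)) := by
  obtain ⟨u, B, h1, h2, h3, h4⟩ := h
  obtain ⟨ρ, hρ, hρ'⟩ := D.chi_F R x (1 : ℤ)
  refine ⟨-(u.comp R.F1) + (Int.castAddHom ℚ).comp ρ, -(B.comp R.F0), fun g p => ?_,
    fun p => ?_, fun g p => ?_, fun p => ?_⟩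
  · simp only [AddMonoidHom.add_apply, AddMonoidHom.neg_apply, AddMonoidHom.coe_comp,
      Function.comp_apply, R.F1_smul, h1 (θ g) (R.F1 p), hρ g p]
  · have e1 := hρ' p
    simp only [AddMonoidHom.add_apply, AddMonoidHom.coe_comp, Function.comp_apply] at e1
    have e2 : ((D.chi x (1 : ℤ) (R.F2 p) : ℤ) : ℚ) = u (R.F1 (D.d1 p)) := by
      rw [h2, R.comm1]
    have e3 : ((D.chi (θ.symm x) (1 : ℤ) p : ℤ) : ℚ) =
        (ρ (D.d1 p) : ℚ) - ((D.chi x (1 : ℤ) (R.F2 p) : ℤ) : ℚ) := by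
      rw [← e1]
      push_cast
      ring
    rw [e3, e2]
    simp only [AddMonoidHom.add_apply, AddMonoidHom.neg_apply, AddMonoidHom.coe_comp,
      Function.comp_apply, Int.coe_castAddHom]
    ring
  · simp only [AddMonoidHom.neg_apply, AddMonoidHom.coe_comp, Function.comp_apply, R.F0_smul, h3,
      R.ε_F0, smul_neg, neg_add]
  · have e1 : toQZ (((Int.castAddHom ℚ).comp ρ) p) = 0 := toQZ_int (ρ p)
    rw [AddMonoidHom.add_apply, map_add, e1, add_zero]
    simp only [AddMonoidHom.neg_apply, AddMonoidHom.coe_comp, Function.comp_apply, map_neg, h4,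
      R.comm0]

end Pool.ACH
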