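import Pool.Agent.Helper20.ACH.L1
import Pool.Agent.Helper20.ACH.L2
import Pool.Agent.Helper20.ACH.L3
import Pool.Agent.Helper20.ACH.L4
import Pool.Agent.Helper20.ACH.A6
import Pool.Agent.Helper20.ACH.F1
import Pool.Agent.Helper20.ACH.F2
import Pool.Agent.Helper20.ACH.F3

/-! Project ACH (MP_9d9192_al). -/

set_option autoImplicit false

namespace Pool.ACH

variable {G : Type} [Group G]

/-- A form with all characters of `G` of the shape `ℓ x` is nondegenerate, if the abelianization is
finite. -/
private theorem nondeg (hfin : Finite (Abelianization G)) (ℓ : G → G → QZ)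
    (h1 : ∀ x y z, ℓ (x * y) z = ℓ x z + ℓ y z) (h2 : ∀ x y z, ℓ x (y * z) = ℓ x y + ℓ x z)
    (h3 : ∀ μ : G → QZ, (∀ x y, μ (x * y) = μ x + μ y) → ∃ x, ∀ y, ℓ x y = μ y)
    (x : G) (hx : ∀ y, ℓ x y = 0) : x ∈ commutator G := by
  have h10 : ∀ z, ℓ 1 z = 0 := by
    intro z
    have := h1 1 1 z
    rw [mul_one] at this
    exact left_eq_add.1 this
  have h20 : ∀ z, ℓ z 1 = 0 := by
    intro z
    have := h2 z 1 1
    rw [mul_one] at this
    exact left_eq_add.1 this
  let a : G → (Abelianization G →* Multiplicative QZ) := fun x =>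
    Abelianization.lift
      { toFun := fun g => Multiplicative.ofAdd (ℓ x g)
        map_one' := by rw [h20]; rfl
        map_mul' := fun g g' => by rw [h2]; rfl }
  have ha : ∀ x y, a x (Abelianization.of y) = Multiplicative.ofAdd (ℓ x y) := by
    intro x y
    simp [a]
  let Φ : Abelianization G →* (Abelianization G →* Multiplicative QZ) :=
    Abelianization.lift
      { toFun := a
        map_one' := by
          apply Abelianization.hom_ext
          ext y
          simp [ha, h10]
        map_mul' := fun g g' => by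
          apply Abelianization.hom_ext
          ext y
          simp [ha, h1] }
  have hΦ : ∀ x, Φ (Abelianization.of x) = a x := by
    intro x
    simp [Φ]
  have hsurj : Function.Surjective Φ := by
    intro χ
    obtain ⟨x, hx⟩ := h3 (fun g => Multiplicative.toAdd (χ (Abelianization.of g))) (fun x y => by
      rw [map_mul, map_mul]; rfl)
    refine ⟨Abelianization.of x, ?_⟩
    rw [hΦ]
    apply Abelianization.hom_ext
    ext y
    simp [ha, hx]
  have hinj : Function.Injective Φ.flip := by
    rw [injective_iff_map_eq_one]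
    intro t ht
    by_contra hne
    obtain ⟨c, hc⟩ := CharacterModule.exists_character_apply_ne_zero_of_ne_zero
      (A := Additive (Abelianization G)) (a := Additive.ofMul t) (by simpa using hne)
    let χ : Abelianization G →* Multiplicative QZ :=
      { toFun := fun t => Multiplicative.ofAdd (c (Additive.ofMul t))
        map_one' := by rw [ofMul_one, map_zero]; rfl
        map_mul' := fun s t => by rw [ofMul_mul, map_add]; rfl }
    obtain ⟨s, hs⟩ := hsurj χ
    have h4 : Φ.flip t s = 1 := by rw [ht]; rfl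
    rw [MonoidHom.flip_apply, hs] at h4
    exact hc (Multiplicative.ofAdd.injective h4)
  have hΦinj : Function.Injective Φ := by
    have hσ := Function.rightInverse_surjInv hsurj
    have hσi : Function.Injective (Function.surjInv hsurj) := hσ.injective
    have hb : Function.Injective (fun t => Function.surjInv hsurj (Φ.flip t)) :=
      hσi.comp hinj
    have hs2 := Finite.surjective_of_injective hb
    have hσs : Function.Surjective (Function.surjInv hsurj) := fun t => by
      obtain ⟨s, hs⟩ := hs2 t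
      exact ⟨_, hs⟩
    intro t t' htt
    obtain ⟨u, rfl⟩ := hσs t
    obtain ⟨u', rfl⟩ := hσs t'
    rw [hσ, hσ] at htt
    rw [htt]
  have h5 : Abelianization.of x = 1 := by
    apply hΦinj
    rw [hΦ, map_one]
    apply Abelianization.hom_ext
    ext y
    simp [ha, hx]
  rw [← Abelianization.ker_of, MonoidHom.mem_ker]
  exact h5

/-- PIECE ACH-L5 (100 lines).  Assembly.  `ℓ x y = β_x y` with `β_x` chosen by `exists_linkC`
(`chi_rat`, `finite_abelianization`, `hom_rat_eq_zero`, `Achiral.fg`).  Additivity in `x`: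
`chi_mul`, `LinkC.add`, `LinkC.neg`, `LinkC.eq_zero` applied to the difference.  Every character
`μ` is `ℓ x ·` (`exists_linkC'`).  `ℓ(θ⁻¹x, y) = -ℓ(x, θ y)` (`LinkC.theta` and uniqueness).
Nondegeneracy in `x`: with `T = Abelianization G` finite and `T' = Hom(T, ℚ/ℤ)`, the map
`T → T'` is surjective, and `T → T''` is injective
(`CharacterModule.exists_character_apply_ne_zero_of_ne_zero`), and `T'' → T'` (composition with
the surjection `T → T'`) is injective, so `|T| ≤ |T'| ≤ |T|` and `T → T'` is bijective. -/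
theorem factL {θ : G ≃* G} (hA : Achiral G θ) (hF : FAb G) :
    ∃ ℓ : G → G → QZ,
      (∀ x y z, ℓ (x * y) z = ℓ x z + ℓ y z) ∧ (∀ x y z, ℓ x (y * z) = ℓ x y + ℓ x z) ∧
      (∀ x, (∀ y, ℓ x y = 0) → x ∈ commutator G) ∧
      (∀ μ : G → QZ, (∀ x y, μ (x * y) = μ x + μ y) → ∃ x, ∀ y, ℓ x y = μ y) ∧
      (∀ x y, ℓ (θ x) (θ y) = - ℓ x y) := by
  have hfg := hA.fg
  have hno : ¬ ∃ f : G →* Multiplicative ℤ, Function.Surjective f := by
    rintro ⟨f, hf⟩
    exact hF ⊤ (by simp) ⟨f.comp (Subgroup.topEquiv (G := G)).toMonoidHom,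
      hf.comp (Subgroup.topEquiv (G := G)).surjective⟩
  have hfin := finite_abelianization hfg hno
  have hQ : ∀ y : G → ℚ, (∀ g h, y (g * h) = y g + y h) → ∀ g, y g = 0 :=
    fun y hy g => hom_rat_eq_zero hfg hno y hy g
  obtain ⟨P0, P1, P2, P3, _, _, _, _, _, _, _, _, D, ⟨R⟩⟩ := hA
  have hR : ∀ (g : G) (a : ℚ), D.Cob (D.chi g a) := fun g a => D.chi_rat hfin g a
  choose ℓ hℓ using fun x => exists_linkC D hR x
  have uniq : ∀ {ω ω' : P2 →+ ℤ} {β β' : G → QZ}, LinkC D ω β → LinkC D ω' β' →
      D.Cob (ω - ω') → ∀ g, β g = β' g := by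
    intro ω ω' β β' h h' hc g
    have h4 := h.add D (h'.neg D)
    rw [← sub_eq_add_neg] at h4
    have h5 := h4.eq_zero D hQ hc g
    rw [← sub_eq_add_neg, sub_eq_zero] at h5
    exact h5
  have hadd : ∀ x y z, ℓ (x * y) z = ℓ x z + ℓ y z := by
    intro x y z
    have h4 := (hℓ x).add D (hℓ y)
    refine uniq (hℓ (x * y)) h4 ?_ z
    rw [← sub_sub]
    exact D.chi_mul x y 1
  have hhom : ∀ x y z, ℓ x (y * z) = ℓ x y + ℓ x z := fun x y z => (hℓ x).hom D y z
  have hsur : ∀ μ : G → QZ, (∀ x y, μ (x * y) = μ x + μ y) → ∃ x, ∀ y, ℓ x y = μ y := by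
    intro μ hμ
    obtain ⟨ω, x, hω, hc⟩ := exists_linkC' D μ hμ
    exact ⟨x, fun y => (uniq hω (hℓ x) hc y).symm⟩
  refine ⟨ℓ, hadd, hhom, fun x hx => nondeg hfin ℓ hadd hhom hsur x hx, hsur, ?_⟩
  intro x y
  have h4 := LinkC.theta D R (θ x) (hℓ (θ x))
  rw [MulEquiv.symm_apply_apply] at h4
  have h5 := uniq h4 (hℓ x) ⟨0, fun g p => by simp, fun p => by simp⟩ y
  rw [← h5, neg_neg]

end Pool.ACH
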