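import Pool.Agent.Helper20.ACH.H1

/-! Project ACH (MP_9d9192_al): the linking form. -/

set_option autoImplicit false

namespace Pool.ACH

/-- `ℚ/ℤ`. -/
abbrev QZ : Type := AddCircle (1 : ℚ)

/-- The projection `ℚ → ℚ/ℤ`. -/
def toQZ : ℚ →+ QZ := QuotientAddGroup.mk' _

theorem toQZ_eq_zero (x : ℚ) : toQZ x = 0 ↔ ∃ n : ℤ, (n : ℚ) = x := by
  have h : toQZ x = 0 ↔ x ∈ AddSubgroup.zmultiples (1 : ℚ) :=
    QuotientAddGroup.eq_zero_iff x
  rw [h, AddSubgroup.mem_zmultiples_iff]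
  constructor
  · rintro ⟨n, hn⟩; exact ⟨n, by simpa using hn⟩
  · rintro ⟨n, hn⟩; exact ⟨n, by simpa using hn⟩

theorem toQZ_int (n : ℤ) : toQZ (n : ℚ) = 0 := (toQZ_eq_zero _).2 ⟨n, rfl⟩

variable {G : Type} [Group G] {P0 P1 P2 P3 : Type} [AddCommGroup P0] [AddCommGroup P1]
    [AddCommGroup P2] [AddCommGroup P3] [DistribMulAction G P0] [DistribMulAction G P1]
    [DistribMulAction G P2] [DistribMulAction G P3]

/-- The integral 2-cocycle `ω` and the character `β : G → ℚ/ℤ` correspond to each other under the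
Bockstein map: `ω = u∘d1` with `u` rational invariant and `u mod ℤ` the cocycle of `β`. -/
def LinkC (D : PD3Data G P0 P1 P2 P3) (ω : P2 →+ ℤ) (β : G → QZ) : Prop :=
  ∃ (u : P1 →+ ℚ) (B : P0 →+ QZ), Inv G u ∧ (∀ p, (ω p : ℚ) = u (D.d1 p)) ∧
    (∀ g p, B (g • p) = B p + D.ε p • β g) ∧ (∀ p, toQZ (u p) = B (D.d0 p))

variable (D : PD3Data G P0 P1 P2 P3)

/-- `β` is automatically a homomorphism: `B(g h p0) = B(h p0) + β g`, `D.ε_p0`. -/
theorem LinkC.hom {ω : P2 →+ ℤ} {β : G → QZ} (h : LinkC D ω β) (g g' : G) :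
    β (g * g') = β g + β g' := by
  obtain ⟨u, B, _, _, h3, _⟩ := h
  have e1 := h3 (g * g') D.p0
  have e2 := h3 g' D.p0
  have e3 := h3 g (g' • D.p0)
  rw [D.ε_smul, D.ε_p0, one_smul] at e3
  rw [D.ε_p0, one_smul] at e1 e2
  rw [mul_smul, e3, e2] at e1
  have := e1
  rw [add_assoc] at this
  have := add_left_cancel this
  rw [← this, add_comm]

theorem LinkC.add {ω ω' : P2 →+ ℤ} {β β' : G → QZ} (h : LinkC D ω β) (h' : LinkC D ω' β') :
    LinkC D (ω + ω') (fun g => β g + β' g) := by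
  obtain ⟨u, B, h1, h2, h3, h4⟩ := h
  obtain ⟨u', B', h1', h2', h3', h4'⟩ := h'
  refine ⟨u + u', B + B', fun g p => by simp [h1 g p, h1' g p], fun p => by
    simp [← h2, ← h2'], fun g p => ?_, fun p => by simp [h4, h4']⟩
  simp only [AddMonoidHom.add_apply, h3, h3', smul_add]
  abel

theorem LinkC.neg {ω : P2 →+ ℤ} {β : G → QZ} (h : LinkC D ω β) :
    LinkC D (-ω) (fun g => - β g) := by
  obtain ⟨u, B, h1, h2, h3, h4⟩ := h
  refine ⟨-u, -B, fun g p => by simp [h1 g p], fun p => by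
    simp [← h2], fun g p => ?_, fun p => by simp [h4]⟩
  simp only [AddMonoidHom.neg_apply, h3, smul_neg]
  abel

end Pool.ACH
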