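import Mathlib

/-! Project ACH (MP_9d9192_al): group theory of finite quotients. -/

set_option autoImplicit false

namespace Pool.ACH

variable {G : Type} [Group G]

/-- PIECE ACH-SF1 (60 lines).  A finitely generated group has, inside every subgroup `N` of finite
index `n`, a normal subgroup of finite index which is invariant under all automorphisms: the
intersection of the kernels of all homomorphisms `G → Equiv.Perm (Fin n)` (finitely many). -/
theorem exists_char_le (hfg : Group.FG G) (N : Subgroup G) (hN : N.index ≠ 0) :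
    ∃ L : Subgroup G, L.Normal ∧ L.index ≠ 0 ∧ L ≤ N ∧
      ∀ (θ : G ≃* G) (g : G), θ g ∈ L ↔ g ∈ L := by
  classical
  have : N.FiniteIndex := ⟨hN⟩
  have : Finite (G ⧸ N) := inferInstance
  have : Finite (G →* Equiv.Perm (G ⧸ N)) := by
    obtain ⟨S, hS⟩ := hfg.out
    refine Finite.of_injective
      (fun (f : G →* Equiv.Perm (G ⧸ N)) => fun (s : S) => f (s : G)) ?_
    intro f g hfg
    refine MonoidHom.eq_of_eqOn_dense hS ?_
    intro x hx
    exact congrFun hfg ⟨x, hx⟩
  refine ⟨⨅ f : G →* Equiv.Perm (G ⧸ N), f.ker, ?_, ?_, ?_, ?_⟩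
  · exact Subgroup.normal_iInf_normal fun f => inferInstance
  · exact (Subgroup.finiteIndex_iInf
      fun f : G →* Equiv.Perm (G ⧸ N) => Subgroup.finiteIndex_ker f).index_ne_zero
  · refine (iInf_le _ (MulAction.toPermHom G (G ⧸ N))).trans ?_
    rw [← Subgroup.normalCore_eq_ker]
    exact Subgroup.normalCore_le N
  · intro θ g
    simp only [Subgroup.mem_iInf, MonoidHom.mem_ker]
    constructor
    · intro h f
      have := h (f.comp θ.symm.toMonoidHom)
      simpa using this
    · intro h f
      exact h (f.comp θ.toMonoidHom)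

/-- PIECE ACH-SF2 (50 lines).  A finite Z-group has derived length at most two
(`IsZGroup.isCyclic_commutator`): if `G ⧸ N` is a Z-group, then
`G'' = derivedSeries G 2 ≤ N`. -/
theorem derived_le (N : Subgroup G) [N.Normal] (hN : N.index ≠ 0) (hZ : IsZGroup (G ⧸ N)) :
    derivedSeries G 2 ≤ N := by
  have : N.FiniteIndex := ⟨hN⟩
  have : Finite (G ⧸ N) := inferInstance
  have hc : IsCyclic (commutator (G ⧸ N)) := IsZGroup.isCyclic_commutator _
  have h2 : derivedSeries (G ⧸ N) 2 = ⊥ := by
    have h1 : derivedSeries (G ⧸ N) 1 = commutator (G ⧸ N) := derivedSeries_one _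
    rw [show (2 : ℕ) = 1 + 1 from rfl, derivedSeries_succ, h1,
      Subgroup.commutator_eq_bot_iff_le_centralizer]
    let _ := hc.commGroup
    intro x hx
    rw [Subgroup.mem_centralizer_iff]
    intro y hy
    have := mul_comm (⟨y, hy⟩ : commutator (G ⧸ N)) ⟨x, hx⟩
    exact congrArg Subtype.val this
  have h3 := map_derivedSeries_eq (QuotientGroup.mk'_surjective N) 2
  rw [h2, Subgroup.map_eq_bot_iff, QuotientGroup.ker_mk'] at h3
  exact h3

end Pool.ACH
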