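import Pool.Agent.Helper20.ACH.F3
import Pool.Agent.Helper20.ACH.R5

/-! Project ACH (MP_9d9192_al): group theory of finite quotients. -/

set_option autoImplicit false

namespace Pool.ACH

variable {G : Type} [Group G]

private theorem SG_comm_index (hfg : Group.FG G) (hF : FAb G) : (commutator G).index ≠ 0 := by
  have h : ¬ ∃ f : G →* Multiplicative ℤ, Function.Surjective f := by
    rintro ⟨f, hf⟩
    refine hF ⊤ (by rw [Subgroup.index_top]; exact one_ne_zero) ⟨f.comp (⊤ : Subgroup G).subtype, ?_⟩
    intro y
    obtain ⟨x, hx⟩ := hf y
    exact ⟨⟨x, Subgroup.mem_top x⟩, hx⟩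
  have h1 : Finite (Abelianization G) := finite_abelianization hfg h
  have h2 : Finite (G ⧸ commutator G) := h1
  exact Nat.card_pos.ne'

/-- PIECE ACH-SG (70 lines).  `G' = commutator G` has finite index (`finite_abelianization`), so it
is finitely generated and `FAb` (`FAb.restrict`), so its commutator subgroup has finite
index in it, hence `G'' = derivedSeries G 2` has finite index in `G`. -/
theorem derived_index (hfg : Group.FG G) (hF : FAb G) : (derivedSeries G 2).index ≠ 0 := by
  have h1 : (commutator G).index ≠ 0 := SG_comm_index hfg hF
  have h2 : (commutator G).FiniteIndex := ⟨h1⟩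
  have h3 : Group.FG (commutator G) := by
    have := hfg
    exact Subgroup.fg_of_index_ne_zero _
  have h4 : FAb (commutator G) := hF.restrict _ h1
  have h5 : (commutator (commutator G)).index ≠ 0 := SG_comm_index h3 h4
  have h6 : derivedSeries G 2 = (commutator (commutator G)).map (commutator G).subtype := by
    rw [Subgroup.map_subtype_commutator]
    show ⁅derivedSeries G 1, derivedSeries G 1⁆ = _
    rw [derivedSeries_one]
  rw [h6, Subgroup.index_map_subtype]
  exact mul_ne_zero h5 h1

end Pool.ACH
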