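import Pool.Agent.Helper20.ACH.Restr
import Pool.Agent.Helper20.ACH.P2

/-! Project ACH (MP_9d9192_al): infiniteness. -/

set_option autoImplicit false

namespace Pool.ACH

/-- PIECE ACH-SH (60 lines).  `G` is infinite.  Otherwise the trivial subgroup `⊥` has finite index;
consider `D.restrict ⊥`.  As `ℚ` is divisible, the rational map `z` extends along the injective
`d2 : P3 → P2` to `ω : P2 → ℚ` (`Module.Baer.of_divisible`,
`Module.Baer.extension_property_addMonoidHom`), invariant under `⊥`, and
`tw z (const 1) = z = ω∘d2`, so `1 = 0` by `top_zero`. -/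
theorem PD3Data.infinite {G P0 P1 P2 P3 : Type} [Group G] [AddCommGroup P0] [AddCommGroup P1]
    [AddCommGroup P2] [AddCommGroup P3] [DistribMulAction G P0] [DistribMulAction G P1]
    [DistribMulAction G P2] [DistribMulAction G P3] (D : PD3Data G P0 P1 P2 P3) :
    Infinite G := by
  by_contra hG
  rw [not_infinite_iff_finite] at hG
  have hH : (⊥ : Subgroup G).index ≠ 0 := by
    rw [Subgroup.index_bot]
    exact Nat.card_pos.ne'
  let D' := D.restrict ⊥ hH
  let z' : P3 →+ ℚ := (Int.castAddHom ℚ).comp D.z
  obtain ⟨ω, hω⟩ := (Module.Baer.of_divisible ℚ).extension_property_addMonoidHom D.d2 D.d2_inj z'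
  have h1 : (1 : ℚ) = 0 := by
    refine PD3Data.top_zero D' (1 : ℚ) ω ?_ ?_
    · intro g p
      have hg : (g : G) = 1 := by
        have := g.2
        rwa [Subgroup.mem_bot] at this
      have : g • p = p := by
        rw [Subgroup.smul_def, hg, one_smul]
      rw [this]
    · intro p
      have h2 : ω (D'.d2 p) = z' p := DFunLike.congr_fun hω p
      rw [h2, tw_apply, finsum_unique]
      have hd : (default : (⊥ : Subgroup G)) = 1 := Subsingleton.elim _ _
      rw [hd, inv_one, one_smul]
      simp [z', D', PD3Data.restrict]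
  exact one_ne_zero h1

theorem Achiral.infinite {G : Type} [Group G] {θ : G ≃* G} (hA : Achiral G θ) : Infinite G := by
  obtain ⟨P0, P1, P2, P3, _, _, _, _, _, _, _, _, D, _⟩ := hA
  exact D.infinite

end Pool.ACH
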