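import Pool.Agent.Helper20.ACH.SE
import Pool.Agent.Helper20.ACH.SF
import Pool.Agent.Helper20.ACH.SG
import Pool.Agent.Helper20.ACH.SH

/-! Project ACH (MP_9d9192_al): the main theorem for achiral groups. -/

set_option autoImplicit false

namespace Pool.ACH

variable {G : Type} [Group G]

/-- Some subgroup of finite index maps onto `ℤ`. -/
def VZ (G : Type) [Group G] : Prop :=
  ∃ H : Subgroup G, H.index ≠ 0 ∧ ∃ f : H →* Multiplicative ℤ, Function.Surjective f

theorem fab_of_not_vz (h : ¬ VZ G) : FAb G := by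
  intro H hH hf
  exact h ⟨H, hH, hf⟩

instance derived_normal : (derivedSeries G 2).Normal := derivedSeries_normal G 2

theorem achiral_main {θ : MulAut G} (hA : Achiral G θ) (h : ¬ VZ G) :
    (derivedSeries G 2).index ≠ 0 ∧
    (∀ K : Subgroup G, K.index ≠ 0 → derivedSeries G 2 ≤ K) ∧
    IsZGroup (G ⧸ derivedSeries G 2) ∧
    (∀ p : ℕ, p.Prime → p ∣ (derivedSeries G 2).index → p = 2 ∨ p % 4 = 1) ∧
    ¬ 4 ∣ (derivedSeries G 2).index := by
  have hF := fab_of_not_vz h
  have hfg := hA.fg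
  have h1 := derived_index hfg hF
  have hθ : ∀ g, θ g ∈ derivedSeries G 2 ↔ g ∈ derivedSeries G 2 := by
    intro g
    have e : (derivedSeries G 2).map (θ : G →* G) = derivedSeries G 2 :=
      map_derivedSeries_eq θ.surjective 2
    constructor
    · intro hg
      rw [← e] at hg
      obtain ⟨x, hx, hxg⟩ := hg
      have : x = g := θ.injective hxg
      rwa [← this]
    · intro hg
      rw [← e]
      exact ⟨g, hg, rfl⟩
  refine ⟨h1, ?_, isZGroup_quotient hA hF _ h1 hθ, ?_, ?_⟩
  · intro K hK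
    obtain ⟨L, hLn, hLi, hLK, hLθ⟩ := exists_char_le hfg K hK
    haveI := hLn
    exact (derived_le L hLi (isZGroup_quotient hA hF L hLi (hLθ θ))).trans hLK
  · intro p hp hpd
    haveI : Fact p.Prime := ⟨hp⟩
    obtain ⟨u, hu⟩ := sq_eq_neg_one_quotient hA hF _ h1 hθ p 1 (by simpa using hpd)
    rw [pow_one] at hu
    have h2 : IsSquare (-1 : ZMod p) := by
      refine ⟨(u : ZMod p), ?_⟩
      have h3 : ((u ^ 2 + 1 : ℤ) : ZMod p) = 0 := by
        rw [ZMod.intCast_zmod_eq_zero_iff_dvd]; exact hu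
      push_cast at h3
      linear_combination -h3
    rw [ZMod.exists_sq_eq_neg_one_iff] at h2
    rcases hp.eq_two_or_odd with h4 | h4
    · exact Or.inl h4
    · right; omega
  · intro h4
    haveI : Fact (Nat.Prime 2) := ⟨Nat.prime_two⟩
    obtain ⟨u, hu⟩ := sq_eq_neg_one_quotient hA hF _ h1 hθ 2 2 (by simpa using h4)
    have h5 : ((u ^ 2 + 1 : ℤ) : ZMod 4) = 0 := by
      rw [ZMod.intCast_zmod_eq_zero_iff_dvd]; simpa using hu
    push_cast at h5
    generalize ((u : ℤ) : ZMod 4) = v at h5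
    revert v
    decide

end Pool.ACH
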