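import Pool.Agent.Helper20.ACH.Ob

/-! Project ACH (MP_9d9192_al). -/

set_option autoImplicit false

namespace Pool.ACH

variable {G : Type} [Group G] {P0 P1 P2 P3 : Type} [AddCommGroup P0] [AddCommGroup P1]
    [AddCommGroup P2] [AddCommGroup P3] [DistribMulAction G P0] [DistribMulAction G P1]
    [DistribMulAction G P2] [DistribMulAction G P3]

variable (D : PD3Data G P0 P1 P2 P3)

variable {F : Type} [Field F]

private theorem O1_lift_mul {P : Type} [AddCommGroup P] [DistribMulAction G P] (b : DB G P)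
    (c : F) (a : b.J → G → F) (p : P) :
    b.lift (fun j g => c * a j g) p = c * b.lift a p := by
  rw [DB.lift_apply, DB.lift_apply, Finset.mul_sum]
  refine Finset.sum_congr rfl fun j _ => ?_
  exact (map_tw (AddMonoidHom.mulLeft c) (b.φ j) (b.fs j) (a j) p).symm

namespace PD3Data

/-- PIECE ACH-O1 (40 lines). `DB.lift_smul`, `B (h * g) = B h + B g`, `q_add`, and
`Σ_j tw φ_j (const (q (B h) (e_j))) = q (B h)` (`expand_inv`, `q_inv`). -/
theorem lift1_smul (B : Bl G F) (h : G) (p : P1) :
    D.lift1 B.1 (h • p) = D.lift1 B.1 p + D.q (B.1 h) p := by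
  have h1 : D.q (B.1 h) p = D.b1.lift (fun j (_ : G) => D.q (B.1 h) (D.b1.e j)) p := by
    rw [DB.lift_apply]
    exact D.b1.expand_inv (D.q (B.1 h)) (D.q_inv _ (B.2.2 h)) p
  have h2 : ∀ g : G, B.1 (h * g) = fun k => B.1 g k + B.1 h k := by
    intro g
    funext k
    rw [B.2.1, add_comm]
  rw [h1, lift1, DB.lift_smul, ← AddMonoidHom.add_apply, ← DB.lift_add]
  congr 2
  funext j g
  rw [h2, q_add, AddMonoidHom.add_apply]

/-- PIECE ACH-O1. By `lift1_smul` and `q_d1`. -/
theorem ob_inv (B : Bl G F) : Inv G (D.ob B.1) := by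
  intro g p
  rw [ob, AddMonoidHom.coe_comp, Function.comp_apply, Function.comp_apply, D.d1_smul,
    D.lift1_smul, D.q_d1, add_zero]

/-- PIECE ACH-O1 (20 lines). Linearity of `ob`. -/
theorem ob_add (B B' : G → G → F) : D.ob (B + B') = D.ob B + D.ob B' := by
  have h1 : D.lift1 (B + B') = D.lift1 B + D.lift1 B' := by
    rw [lift1, lift1, lift1, ← DB.lift_add]
    congr 1
    funext j g
    have h2 : (B + B') g = fun k => B g k + B' g k := rfl
    rw [h2, q_add, AddMonoidHom.add_apply]
  rw [ob, ob, ob, h1, AddMonoidHom.add_comp]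

/-- PIECE ACH-O1 (20 lines). Linearity of `ob`. -/
theorem ob_smul (c : F) (B : G → G → F) (p : P2) : D.ob (c • B) p = c * D.ob B p := by
  have h0 : ∀ (β : G → F) (x : P0), D.lift0 (c • β) x = c * D.lift0 β x := by
    intro β x
    rw [lift0, lift0, ← O1_lift_mul]
    congr 2
    funext j g
    rw [Pi.smul_apply, smul_eq_mul, mul_smul_comm]
  have h1 : ∀ (β : G → F) (x : P1), D.q (c • β) x = c * D.q β x := fun β x => h0 β _
  have h2 : ∀ x : P1, D.lift1 (c • B) x = c * D.lift1 B x := by
    intro x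
    rw [lift1, lift1, ← O1_lift_mul]
    congr 2
    funext j g
    exact h1 (B g) _
  exact h2 _

end PD3Data

end Pool.ACH
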