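import Pool.Agent.Helper20.ACH.O1

/-! Project ACH (MP_9d9192_al). -/

set_option autoImplicit false

namespace Pool.ACH

variable {G : Type} [Group G] {P0 P1 P2 P3 : Type} [AddCommGroup P0] [AddCommGroup P1]
    [AddCommGroup P2] [AddCommGroup P3] [DistribMulAction G P0] [DistribMulAction G P1]
    [DistribMulAction G P2] [DistribMulAction G P3]

variable (D : PD3Data G P0 P1 P2 P3)

variable {F : Type} [Field F]

namespace PD3Data

/-- PIECE ACH-O2 (80 lines).  If `ob B = u∘d1`, `u` invariant, put `w = lift1 B - u`, `w∘d1 = 0`,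
`w(g p) = w(p) + q(B g)(p)`; so `w` factors through `d0`: there is an additive `w' : ker ε → F` with
`w'(d0 p) = w p` and `w'(g x) = w'(x) + lift0 (B g) x`.  Then `κ g = w'(g p0 - p0)` satisfies
`κ(g h) = w'(g (h p0 - p0)) + w'(g p0 - p0) = κ h + lift0(B g)(h p0 - p0) + κ g` and
`lift0 (B g) (h p0 - p0) = B g h` (`lift0_smul`). -/
theorem exists_kappa (B : Bl G F) (h : D.Cob (D.ob B.1)) :
    ∃ κ : G → F, ∀ g h, κ (g * h) = κ g + κ h + B.1 g h := by
  obtain ⟨u, hu, he⟩ := h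
  obtain ⟨w, hw⟩ : ∃ w : P1 →+ F, w = D.lift1 B.1 - u := ⟨_, rfl⟩
  have hw1 : ∀ p : P2, w (D.d1 p) = 0 := by
    intro p
    have h1 : D.ob B.1 p = D.lift1 B.1 (D.d1 p) := rfl
    rw [hw, AddMonoidHom.sub_apply, ← h1, he p, sub_self]
  have hw2 : ∀ (g : G) (p : P1), w (g • p) = w p + D.q (B.1 g) p := by
    intro g p
    rw [hw, AddMonoidHom.sub_apply, AddMonoidHom.sub_apply, D.lift1_smul B g p, hu g p]
    abel
  have hw3 : ∀ a b : P1, D.d0 a = D.d0 b → w a = w b := by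
    intro a b hab
    have h1 : D.d0 (a - b) = 0 := by rw [map_sub, hab, sub_self]
    obtain ⟨c, hc⟩ := (D.exact1 _).1 h1
    have h2 := hw1 c
    rw [hc, map_sub] at h2
    exact sub_eq_zero.1 h2
  have hy : ∀ g : G, ∃ y : P1, D.d0 y = g • D.p0 - D.p0 := by
    intro g
    apply (D.exact0 _).1
    rw [map_sub, D.ε_smul, sub_self]
  choose y hy using hy
  refine ⟨fun g => w (y g), fun g h => ?_⟩
  have h1 : D.d0 (y (g * h)) = D.d0 (g • y h + y g) := by
    rw [map_add, D.d0_smul, hy, hy, hy, smul_sub, mul_smul]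
    abel
  have h2 : D.q (B.1 g) (y h) = B.1 g h := by
    have h3 : D.q (B.1 g) (y h) = D.lift0 (B.1 g) (D.d0 (y h)) := rfl
    rw [h3, hy, map_sub, D.lift0_smul (B.1 g) (fun a b => B.2.2 g a b), D.ε_p0, one_smul]
    abel
  change w (y (g * h)) = w (y g) + w (y h) + B.1 g h
  rw [hw3 _ _ h1, map_add, hw2, h2]
  abel

end PD3Data

end Pool.ACH
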