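import Pool.Agent.Helper20.ACH.O1

/-! Project ACH (MP_9d9192_al). -/

set_option autoImplicit false

namespace Pool.ACH

variable {G : Type} [Group G] {P0 P1 P2 P3 : Type} [AddCommGroup P0] [AddCommGroup P1]
    [AddCommGroup P2] [AddCommGroup P3] [DistribMulAction G P0] [DistribMulAction G P1]
    [DistribMulAction G P2] [DistribMulAction G P3]

variable (D : PD3Data G P0 P1 P2 P3)

variable {F : Type} [Field F]

namespace PD3Data

/-- PIECE ACH-O3 (80 lines).  Converse.  Let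
`W = D.b0.lift (fun j g => D.lift0 (B g) (e_j) + D.ε (e_j) • κ g)`.  It satisfies
`W(h p) = W(p) + lift0 (B h) p + ε(p) κ(h)`, since `κ(h g) = κ h + κ g + B h g` and
`Σ_j tw φ_j (g ↦ lift0 (B h) (e_j) + ε(e_j) • B h g) = lift0 (B h)` (`DB.expand`, `lift0_smul`).
So `W∘d0` and `lift1 B` have the same twist, and differ by an invariant map `u : P1 → F`; as
`W∘d0∘d1 = 0`, `ob B = u∘d1`. -/
theorem cob_of_kappa (B : Bl G F) (κ : G → F)
    (hκ : ∀ g h, κ (g * h) = κ g + κ h + B.1 g h) : D.Cob (D.ob B.1) := by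
  obtain ⟨W, hW⟩ : ∃ W : P0 →+ F, W = D.b0.lift
      (fun j g => D.lift0 (B.1 g) (D.b0.e j) + D.ε (D.b0.e j) • κ g) := ⟨_, rfl⟩
  have hB1 : ∀ g h : G, D.lift0 (B.1 (g * h)) = D.lift0 (B.1 g) + D.lift0 (B.1 h) := by
    intro g h
    have h1 : B.1 (g * h) = fun x => B.1 g x + B.1 h x := funext fun x => B.2.1 g h x
    rw [h1, lift0, lift0, lift0, ← DB.lift_add]
    simp only [smul_add]
  have hc : ∀ (a : F) (p : P0),
      D.b0.lift (fun j (_ : G) => D.ε (D.b0.e j) • a) p = D.ε p • a := by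
    intro a p
    have h2 := D.b0.expand_inv D.ε (fun g p => D.ε_smul g p) p
    conv_rhs => rw [h2]
    rw [DB.lift_apply, Finset.sum_smul]
    refine Finset.sum_congr rfl fun j _ => ?_
    rw [tw_const (D.b0.φ j) (D.b0.fs j) (D.ε (D.b0.e j) • a) p,
      tw_const (D.b0.φ j) (D.b0.fs j) (D.ε (D.b0.e j)) p, smul_eq_mul, mul_smul]
  have hWs : ∀ (h : G) (p : P0), W (h • p) = W p + (D.lift0 (B.1 h) p + D.ε p • κ h) := by
    intro h p
    have e1 : (fun (j : D.b0.J) (g : G) => D.lift0 (B.1 (h * g)) (D.b0.e j) +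
        D.ε (D.b0.e j) • κ (h * g)) = fun (j : D.b0.J) (g : G) =>
          (D.lift0 (B.1 g) (D.b0.e j) + D.ε (D.b0.e j) • κ g) +
            (D.lift0 (B.1 h) (g • D.b0.e j) + D.ε (D.b0.e j) • κ h) := by
      funext j g
      rw [hB1, AddMonoidHom.add_apply, hκ, D.lift0_smul (B.1 h) (fun a b => B.2.2 h a b),
        smul_add, smul_add]
      abel
    have e3 := D.b0.lift_add (fun (j : D.b0.J) (g : G) => D.lift0 (B.1 h) (g • D.b0.e j))
      (fun (j : D.b0.J) (_ : G) => D.ε (D.b0.e j) • κ h)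
    rw [hW, DB.lift_smul, e1, DB.lift_add, e3, AddMonoidHom.add_apply,
      AddMonoidHom.add_apply, DB.lift_eq, hc]
  refine ⟨D.lift1 B.1 - W.comp D.d0, ?_, ?_⟩
  · intro h p
    rw [AddMonoidHom.sub_apply, AddMonoidHom.sub_apply, AddMonoidHom.comp_apply,
      AddMonoidHom.comp_apply, D.lift1_smul B h p, D.d0_smul, hWs, D.ε_d0, zero_smul, add_zero]
    have e2 : D.q (B.1 h) p = D.lift0 (B.1 h) (D.d0 p) := rfl
    rw [e2]
    abel
  · intro p
    rw [AddMonoidHom.sub_apply, AddMonoidHom.comp_apply, D.d0_d1, map_zero, sub_zero]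
    rfl

end PD3Data

end Pool.ACH
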