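import Pool.Agent.Helper20.ACH.O1

/-! Project ACH (MP_9d9192_al). -/

set_option autoImplicit false

namespace Pool.ACH

variable {G : Type} [Group G] {P0 P1 P2 P3 : Type} [AddCommGroup P0] [AddCommGroup P1]
    [AddCommGroup P2] [AddCommGroup P3] [DistribMulAction G P0] [DistribMulAction G P1]
    [DistribMulAction G P2] [DistribMulAction G P3]

variable (D : PD3Data G P0 P1 P2 P3)

variable {F : Type} [Field F]

namespace PD3Data

private theorem O4_lift0_add (β β' : G → F) :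
    D.lift0 (fun g => β g + β' g) = D.lift0 β + D.lift0 β' := by
  rw [lift0, lift0, lift0, ← DB.lift_add]
  simp only [smul_add]

/-- PIECE ACH-O4 (90 lines).  Equivariance.  `w = (lift1 B)∘F1` satisfies
`w(g p) = w(p) + lift0 (B (θ g)) (F0 (d0 p))`.  For a homomorphism `β`, `(lift0 β)∘F0` is a lift of
`β∘θ`, so `u_β = (lift0 β)∘F0 - lift0 (β∘θ)` is invariant (`lift_unique`).  Let
`U = D.b0.lift (fun j g => u_{B (θ g)} (e_j))`, `U(g p) = U(p) + u_{B(θ g)}(p)`.  Then
`w - U∘d0` and `lift1 B'` have the same twist and differ by an invariant map `v`, and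
`(ob B)∘F2 = w∘d1 = (w - U∘d0)∘d1 = ob B' + v∘d1`. -/
theorem ob_F {θ : G ≃* G} (R : Rev D θ) (B B' : Bl G F)
    (h : ∀ g h, B'.1 g h = B.1 (θ g) (θ h)) : D.Cob (D.ob B'.1 - (D.ob B.1).comp R.F2) := by
  -- the invariant maps `u g`
  obtain ⟨u, hu⟩ : ∃ u : G → (P0 →+ F),
      ∀ g, u g = (D.lift0 (B.1 (θ g))).comp R.F0 - D.lift0 (B'.1 g) := ⟨_, fun _ => rfl⟩
  have hu1 : ∀ g, Inv G (u g) := by
    intro g
    rw [hu]
    refine D.lift_unique (B'.1 g) _ _ ?_ ?_
    · intro k p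
      rw [AddMonoidHom.coe_comp, Function.comp_apply, Function.comp_apply, R.F0_smul,
        D.lift0_smul (B.1 (θ g)) (fun a b => B.2.2 (θ g) a b), R.ε_F0, h]
    · intro k p
      exact D.lift0_smul (B'.1 g) (fun a b => B'.2.2 g a b) k p
  have hu2 : ∀ g k, u (g * k) = u g + u k := by
    intro g k
    have e1 : B.1 (θ (g * k)) = fun x => B.1 (θ g) x + B.1 (θ k) x := by
      funext x
      rw [map_mul]
      exact B.2.1 (θ g) (θ k) x
    have e2 : B'.1 (g * k) = fun x => B'.1 g x + B'.1 k x := by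
      funext x
      exact B'.2.1 g k x
    rw [hu, hu, hu, e1, e2, O4_lift0_add, O4_lift0_add, AddMonoidHom.add_comp]
    abel
  -- the map `U`
  obtain ⟨U, hU⟩ : ∃ U : P0 →+ F, U = D.b0.lift (fun j g => u g (D.b0.e j)) := ⟨_, rfl⟩
  have hU1 : ∀ (g : G) (p : P0), U (g • p) = U p + u g p := by
    intro g p
    have e1 : u g p = D.b0.lift (fun j (_ : G) => u g (D.b0.e j)) p := by
      rw [DB.lift_apply]
      exact D.b0.expand_inv (u g) (hu1 g) p
    rw [e1, hU, DB.lift_smul, ← AddMonoidHom.add_apply, ← DB.lift_add]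
    congr 2
    funext j k
    rw [hu2, AddMonoidHom.add_apply, add_comm]
  -- the map `w`
  have hw : ∀ (g : G) (p : P1), D.lift1 B.1 (R.F1 (g • p)) =
      D.lift1 B.1 (R.F1 p) + D.lift0 (B.1 (θ g)) (R.F0 (D.d0 p)) := by
    intro g p
    rw [R.F1_smul, D.lift1_smul B (θ g) (R.F1 p), R.comm0]
    rfl
  refine ⟨D.lift1 B'.1 - ((D.lift1 B.1).comp R.F1 - U.comp D.d0), ?_, ?_⟩
  · intro g p
    have e1 : D.lift1 B'.1 (g • p) = D.lift1 B'.1 p + D.lift0 (B'.1 g) (D.d0 p) :=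
      D.lift1_smul B' g p
    have e2 : u g (D.d0 p) = D.lift0 (B.1 (θ g)) (R.F0 (D.d0 p)) - D.lift0 (B'.1 g) (D.d0 p) := by
      rw [hu]
      rfl
    simp only [AddMonoidHom.sub_apply, AddMonoidHom.coe_comp, Function.comp_apply]
    rw [e1, hw, D.d0_smul, hU1, e2]
    abel
  · intro p
    have e1 : D.ob B'.1 p = D.lift1 B'.1 (D.d1 p) := rfl
    have e2 : D.ob B.1 (R.F2 p) = D.lift1 B.1 (R.F1 (D.d1 p)) := by
      rw [R.comm1]
      rfl
    simp only [AddMonoidHom.sub_apply, AddMonoidHom.coe_comp, Function.comp_apply]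
    rw [e1, e2, D.d0_d1, map_zero, sub_zero]

end PD3Data

end Pool.ACH
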