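import Pool.Agent.Helper20.ACH.Chi
import Pool.Agent.Helper20.ACH.P2

/-! Project ACH (MP_9d9192_al). -/

set_option autoImplicit false

namespace Pool.ACH

variable {G : Type} [Group G] {P0 P1 P2 P3 : Type} [AddCommGroup P0] [AddCommGroup P1]
    [AddCommGroup P2] [AddCommGroup P3] [DistribMulAction G P0] [DistribMulAction G P1]
    [DistribMulAction G P2] [DistribMulAction G P3]

variable (D : PD3Data G P0 P1 P2 P3)

namespace PD3Data

/-- PIECE ACH-P6 (60 lines).  The pairing.  Let `y : G → F` be a homomorphism, `w2 : P2 → F` with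
`w2(h p) = w2(p) + y(h) ω(p)` and `w2∘d2 = 0`, where `ω` is cohomologous to `χ_v`.  Then
`y(v) = 0`.  Proof: `w' = tw (c_v) y` has `w'(h p) = w'(p) + y(h) χ_v(p)` (`tw_smul`) and
`w'(d2 p) = y(v) N z (p)` (`tw_c_d2`).  If `ω = χ_v + u∘d1`, let `w1 = D.b1.lift (fun j g =>
y g * u (e_j))`, so `w1(h p) = w1(p) + y(h) u(p)`.  Then `w' + w1∘d1 - w2` is invariant and its
composition with `d2` is `y(v) N z`; use `top_zero`. -/
theorem pairing {F : Type} [Field F] (y : G → F) (hy : ∀ g h, y (g * h) = y g + y h)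
    (v : G) (ω : P2 →+ F) (hω : D.Cob (ω - D.chi v 1)) (w2 : P2 →+ F)
    (hw : ∀ h p, w2 (h • p) = w2 p + y h * ω p) (hw2 : ∀ p, w2 (D.d2 p) = 0) : y v = 0 := by
  obtain ⟨u, hu, hu2⟩ := hω
  -- the first piece
  set w' : P2 →+ F := tw (D.c v) (D.c_fs v) y with hw'
  have e1 : ∀ h p, w' (h • p) = w' p + y h * D.chi v 1 p := by
    intro h p
    have h1 : (fun g => y (h * g)) = fun g => y h + y g := funext fun g => hy h g
    rw [hw', tw_smul, h1, tw_add, AddMonoidHom.add_apply, add_comm]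
    congr 1
    have h2 := map_tw (AddMonoidHom.mulLeft (y h)) (D.c v) (D.c_fs v) (fun _ => (1 : F)) p
    simp only [AddMonoidHom.coe_mulLeft, mul_one] at h2
    rw [chi, h2]
  have e2 : ∀ p, w' (D.d2 p) = tw D.z D.z_fs (fun _ => y v) p := by
    intro p
    have h1 : (fun h => y (h * v)) = fun h => y h + y v := funext fun h => hy h v
    rw [hw', D.tw_c_d2, h1, tw_add, AddMonoidHom.add_apply]
    abel
  -- the second piece
  set w1 : P1 →+ F := D.b1.lift (fun j g => y g * u (D.b1.e j)) with hw1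
  have e3 : ∀ h p, w1 (h • p) = w1 p + y h * u p := by
    intro h p
    have h1 : (fun (j : D.b1.J) (g : G) => y (h * g) * u (D.b1.e j))
        = fun j g => y g * u (D.b1.e j) + y h * u (D.b1.e j) := by
      funext j g
      rw [hy]; ring
    rw [hw1, DB.lift_smul, h1, DB.lift_add, AddMonoidHom.add_apply]
    congr 1
    rw [DB.lift_apply, D.b1.expand_inv u hu p, Finset.mul_sum]
    refine Finset.sum_congr rfl fun j _ => ?_
    have h2 := map_tw (AddMonoidHom.mulLeft (y h)) (D.b1.φ j) (D.b1.fs j)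
      (fun _ => u (D.b1.e j)) p
    simp only [AddMonoidHom.coe_mulLeft] at h2
    exact h2.symm
  refine D.top_zero (y v) (w' + w1.comp D.d1 - w2) ?_ ?_
  · intro h p
    have h3 := hu2 p
    simp only [AddMonoidHom.sub_apply] at h3
    simp only [AddMonoidHom.sub_apply, AddMonoidHom.add_apply, AddMonoidHom.coe_comp,
      Function.comp_apply, D.d1_smul]
    rw [e1, e3, hw, ← h3]
    ring
  · intro p
    have h4 : D.d1 (D.d2 p) = 0 := (D.exact2 (D.d2 p)).2 ⟨p, rfl⟩
    simp only [AddMonoidHom.sub_apply, AddMonoidHom.add_apply, AddMonoidHom.coe_comp,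
      Function.comp_apply, h4, map_zero, hw2, e2, add_zero, sub_zero]

end PD3Data

end Pool.ACH
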