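import Pool.Agent.Helper20.ACH.O1
import Pool.Agent.Helper20.ACH.P6

/-! Project ACH (MP_9d9192_al). -/

set_option autoImplicit false

namespace Pool.ACH

variable {G : Type} [Group G] {P0 P1 P2 P3 : Type} [AddCommGroup P0] [AddCommGroup P1]
    [AddCommGroup P2] [AddCommGroup P3] [DistribMulAction G P0] [DistribMulAction G P1]
    [DistribMulAction G P2] [DistribMulAction G P3]

variable (D : PD3Data G P0 P1 P2 P3)

variable {F : Type} [Field F]

namespace PD3Data

private theorem o5_q_mul (c : F) (β : G → F) (p : P1) :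
    D.q (fun g => c * β g) p = c * D.q β p := by
  have h1 : ∀ x, D.lift0 (fun g => c * β g) x = c * D.lift0 β x := by
    intro x
    have h2 : c * D.lift0 β x = (AddMonoidHom.mulLeft c) (D.lift0 β x) := rfl
    rw [h2, lift0, lift0, DB.lift_apply, DB.lift_apply, map_sum]
    refine Finset.sum_congr rfl fun j _ => ?_
    rw [map_tw]
    congr 2
    funext g
    rw [map_zsmul]
    rfl
  exact h1 _

/-- PIECE ACH-O5 (80 lines, uses `pairing`).  Let `w1 = lift1 (α ⊗ β)`, so
`w1(h p) = w1(p) + α(h) q(β)(p)` (note `D.q (c • β) = c • D.q β`), and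
`W = D.b1.lift (fun j g => α g * w1 (e_j) + κ g * D.q β (e_j))`; then
`W(h p) = W(p) + α(h) w1(p) + κ(h) q(β)(p)` (use `κ(h g) = κ h + κ g + α h α g` and
`w1(g e_j) = w1(e_j) + α g q(β)(e_j)`, `DB.expand`).  So `w2 = W∘d1` has
`w2(h p) = w2(p) + α(h) ob(α ⊗ β)(p)` and `w2∘d2 = 0`; apply `pairing`. -/
theorem alpha_eq_zero (α β : Hm G F) (κ : G → F)
    (hκ : ∀ g h, κ (g * h) = κ g + κ h + α.1 g * α.1 h) (v : G)
    (h : D.Cob (D.ob (tens α β).1 - D.chi v 1)) : α.1 v = 0 := by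
  have hα : ∀ g h, α.1 (g * h) = α.1 g + α.1 h := α.2
  have hβ : ∀ g h, β.1 (g * h) = β.1 g + β.1 h := β.2
  have hw1 : ∀ (g : G) (p : P1), D.lift1 (tens α β).1 (g • p) =
      D.lift1 (tens α β).1 p + α.1 g * D.q β.1 p := by
    intro g p
    rw [D.lift1_smul (tens α β) g p]
    congr 1
    exact o5_q_mul D (α.1 g) β.1 p
  have hq := D.q_inv β.1 hβ
  set w1 := D.lift1 (tens α β).1 with hw1d
  set qb := D.q β.1 with hqb
  set W : P1 →+ F := D.b1.lift (fun j g => α.1 g * w1 (D.b1.e j) + κ g * qb (D.b1.e j)) with hWd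
  have hW : ∀ (g : G) (p : P1), W (g • p) = W p + α.1 g * w1 p + κ g * qb p := by
    intro g p
    have e1 : (fun (j : D.b1.J) (x : G) => α.1 (g * x) * w1 (D.b1.e j) + κ (g * x) * qb (D.b1.e j)) =
        fun j x => ((α.1 x * w1 (D.b1.e j) + κ x * qb (D.b1.e j)) +
          ((AddMonoidHom.mulLeft (α.1 g)).comp w1) (x • D.b1.e j)) +
          ((AddMonoidHom.mulLeft (κ g)).comp qb) (x • D.b1.e j) := by
      funext j x
      simp only [AddMonoidHom.comp_apply, AddMonoidHom.coe_mulLeft, hw1, hq x, hα, hκ]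
      ring
    rw [hWd, DB.lift_smul, e1, DB.lift_add, DB.lift_add, DB.lift_eq, DB.lift_eq]
    rfl
  refine D.pairing α.1 hα v (D.ob (tens α β).1) h (W.comp D.d1) ?_ ?_
  · intro g p
    rw [AddMonoidHom.comp_apply, AddMonoidHom.comp_apply, D.d1_smul, hW, hqb, D.q_d1, mul_zero,
      add_zero]
    rfl
  · intro p
    rw [AddMonoidHom.comp_apply, D.d1_d2, map_zero]

end PD3Data

end Pool.ACH
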