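import Pool.Agent.Helper20.ACH.O2
import Pool.Agent.Helper20.ACH.O3
import Pool.Agent.Helper20.ACH.O4
import Pool.Agent.Helper20.ACH.O5
import Pool.Agent.Helper20.ACH.P3
import Pool.Agent.Helper20.ACH.P4
import Pool.Agent.Helper20.ACH.P5

/-! Project ACH (MP_9d9192_al). -/

set_option autoImplicit false

namespace Pool.ACH

section O6

variable {G : Type} [Group G] {P0 P1 P2 P3 : Type} [AddCommGroup P0] [AddCommGroup P1]
    [AddCommGroup P2] [AddCommGroup P3] [DistribMulAction G P0] [DistribMulAction G P1]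
    [DistribMulAction G P2] [DistribMulAction G P3]

variable (D : PD3Data G P0 P1 P2 P3)

variable {F : Type} [Field F]

/-- The coboundaries as a subspace. -/
private def O6_W (F : Type) [Field F] : Submodule F (P2 →+ F) where
  carrier := {ω | D.Cob ω}
  zero_mem' := PD3Data.Cob.zero D
  add_mem' := fun ha hb => PD3Data.Cob.add D ha hb
  smul_mem' := by
    rintro c ω ⟨u, hu, e⟩
    exact ⟨c • u, fun g p => by simp [hu g p], fun p => by simp [e p]⟩

private theorem O6_mem (ω : P2 →+ F) : ω ∈ O6_W D F ↔ D.Cob ω := Iff.rfl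

/-- Composition with `F2`. -/
private def O6_comp {θ : G ≃* G} (R : Rev D θ) : (P2 →+ F) →ₗ[F] (P2 →+ F) where
  toFun ω := ω.comp R.F2
  map_add' := fun _ _ => rfl
  map_smul' := fun _ _ => rfl

private theorem O6_comp_apply {θ : G ≃* G} (R : Rev D θ) (ω : P2 →+ F) :
    O6_comp D R ω = ω.comp R.F2 := rfl

private theorem O6_stable {θ : G ≃* G} (R : Rev D θ) :
    O6_W D F ≤ (O6_W D F).comap (O6_comp D R) := by
  rintro ω ⟨u, hu, e⟩
  refine ⟨u.comp R.F1, fun g p => ?_, fun p => ?_⟩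
  · rw [AddMonoidHom.comp_apply, AddMonoidHom.comp_apply, R.F1_smul, hu]
  · rw [O6_comp_apply, AddMonoidHom.comp_apply, AddMonoidHom.comp_apply, e, R.comm1]

/-- The obstruction cocycle as a linear map. -/
private noncomputable def O6_ob (F : Type) [Field F] : Bl G F →ₗ[F] (P2 →+ F) where
  toFun B := D.ob B.1
  map_add' := fun B B' => D.ob_add B.1 B'.1
  map_smul' := fun c B => by
    ext p
    exact D.ob_smul c B.1 p

private theorem O6_ob_apply (B : Bl G F) : O6_ob D F B = D.ob B.1 := rfl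

private theorem O6_chi (g : G) (s : F) : D.chi g s = s • D.chi g (1 : F) := by
  ext p
  have h1 := D.map_chi (AddMonoidHom.mulLeft s) g (1 : F) p
  rw [AddMonoidHom.coe_mulLeft, mul_one] at h1
  rw [← h1]
  rfl

/-- The span of the classes `χ_g`. -/
private noncomputable def O6_S (F : Type) [Field F] : Submodule F ((P2 →+ F) ⧸ O6_W D F) :=
  Submodule.span F (Set.range fun g : G => (O6_W D F).mkQ (D.chi g (1 : F)))

private theorem O6_chi_mem (g : G) : (O6_W D F).mkQ (D.chi g (1 : F)) ∈ O6_S D F :=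
  Submodule.subset_span ⟨g, rfl⟩

private theorem O6_ob_mem (B : Bl G F) :
    ((O6_W D F).mkQ ∘ₗ O6_ob D F) B ∈ O6_S D F := by
  obtain ⟨n, g, s, hc⟩ := D.chi_surj (D.ob B.1) (D.ob_inv B) (D.ob_d2 B.1)
  have h1 : (O6_W D F).mkQ (D.ob B.1) = (O6_W D F).mkQ (∑ i, D.chi (g i) (s i)) := by
    rw [← sub_eq_zero, ← map_sub, Submodule.mkQ_apply, Submodule.Quotient.mk_eq_zero]
    exact hc
  rw [LinearMap.comp_apply, O6_ob_apply, h1, map_sum]
  refine Submodule.sum_mem _ fun i _ => ?_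
  rw [O6_chi, map_smul]
  exact Submodule.smul_mem _ _ (O6_chi_mem D (g i))

private theorem O6_Phi_chi {θ : G ≃* G} (R : Rev D θ) (g : G) :
    Submodule.mapQ (O6_W D F) (O6_W D F) (O6_comp D R) (O6_stable D R)
      ((O6_W D F).mkQ (D.chi g (1 : F))) = - (O6_W D F).mkQ (D.chi (θ.symm g) (1 : F)) := by
  rw [← sub_eq_zero, sub_neg_eq_add, Submodule.mkQ_apply, Submodule.mapQ_apply, O6_comp_apply,
    ← Submodule.mkQ_apply, ← map_add, Submodule.mkQ_apply, Submodule.Quotient.mk_eq_zero]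
  exact D.chi_F R g (1 : F)

private theorem O6_Phi_mem {θ : G ≃* G} (R : Rev D θ) :
    ∀ x ∈ O6_S D F, Submodule.mapQ (O6_W D F) (O6_W D F) (O6_comp D R) (O6_stable D R) x ∈
      O6_S D F := by
  intro x hx
  induction hx using Submodule.span_induction with
  | mem x h =>
    obtain ⟨g, rfl⟩ := h
    rw [O6_Phi_chi]
    exact Submodule.neg_mem _ (O6_chi_mem D _)
  | zero => rw [map_zero]; exact Submodule.zero_mem _
  | add x y _ _ hx hy => rw [map_add]; exact Submodule.add_mem _ hx hy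
  | smul c x _ hx => rw [map_smul]; exact Submodule.smul_mem _ c hx

end O6

/-- PIECE ACH-O6 (120 lines).  Assembly.  `V` is the image in `(P2 → F) ⧸ {ω | D.Cob ω}` of the
span of the `χ_g = D.chi g 1`; `Φ` is induced by `∘ R.F2` (`chi_F`, and `Cob` is stable: `u∘d1∘F2
= u∘F1∘d1`); `ob B` lies in the span by `chi_surj` (`D.chi g s = s • D.chi g 1`). -/
theorem factO {G : Type} [Group G] {θ : G ≃* G} (hA : Achiral G θ) (F : Type) [Field F] :
    ∃ (V : Type) (_ : AddCommGroup V) (_ : Module F V) (Φ : V →ₗ[F] V) (χ : G → V)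
      (ob : Bl G F →ₗ[F] V),
      (∀ g h, χ (g * h) = χ g + χ h) ∧ (Submodule.span F (Set.range χ) = ⊤) ∧
      (∀ g, Φ (χ g) = - χ (θ.symm g)) ∧
      (∀ B : Bl G F, ob B = 0 ↔ ∃ κ : G → F, ∀ g h, κ (g * h) = κ g + κ h + B.1 g h) ∧
      (∀ B B' : Bl G F, (∀ g h, B'.1 g h = B.1 (θ g) (θ h)) → ob B' = Φ (ob B)) ∧
      (∀ α β : Hm G F, (∃ κ : G → F, ∀ g h, κ (g * h) = κ g + κ h + α.1 g * α.1 h) →
        ∀ v, ob (tens α β) = χ v → α.1 v = 0) := by
  obtain ⟨P0, P1, P2, P3, _, _, _, _, _, _, _, _, D, ⟨R⟩⟩ := hA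
  have hmk : ∀ ω ω' : P2 →+ F, (O6_W D F).mkQ ω = (O6_W D F).mkQ ω' ↔ D.Cob (ω - ω') := by
    intro ω ω'
    rw [← sub_eq_zero, ← map_sub, Submodule.mkQ_apply, Submodule.Quotient.mk_eq_zero]
    exact Iff.rfl
  refine ⟨O6_S D F, inferInstance, inferInstance,
    (Submodule.mapQ (O6_W D F) (O6_W D F) (O6_comp D R) (O6_stable D R)).restrict
      (O6_Phi_mem D R),
    fun g => ⟨(O6_W D F).mkQ (D.chi g (1 : F)), O6_chi_mem D g⟩,
    LinearMap.codRestrict (O6_S D F) ((O6_W D F).mkQ ∘ₗ O6_ob D F) (O6_ob_mem D),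
    ?_, ?_, ?_, ?_, ?_, ?_⟩
  · intro g h
    apply Subtype.ext
    rw [Submodule.coe_add]
    change (O6_W D F).mkQ _ = (O6_W D F).mkQ _ + (O6_W D F).mkQ _
    rw [← map_add, hmk, ← sub_sub]
    exact D.chi_mul g h (1 : F)
  · apply Submodule.map_injective_of_injective (O6_S D F).injective_subtype
    rw [Submodule.map_span, Submodule.map_top, Submodule.range_subtype, ← Set.range_comp]
    rfl
  · intro g
    apply Subtype.ext
    exact O6_Phi_chi D R g
  · intro B
    rw [← Subtype.coe_inj]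
    change (O6_W D F).mkQ (D.ob B.1) = 0 ↔ _
    rw [Submodule.mkQ_apply, Submodule.Quotient.mk_eq_zero, O6_mem]
    exact ⟨fun h => D.exists_kappa B h, fun ⟨κ, hκ⟩ => D.cob_of_kappa B κ hκ⟩
  · intro B B' h
    apply Subtype.ext
    change (O6_W D F).mkQ (D.ob B'.1) = (O6_W D F).mkQ ((D.ob B.1).comp R.F2)
    rw [hmk]
    exact D.ob_F R B B' h
  · rintro α β ⟨κ, hκ⟩ v hv
    have h1 : (O6_W D F).mkQ (D.ob (tens α β).1) = (O6_W D F).mkQ (D.chi v (1 : F)) :=
      congrArg Subtype.val hv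
    rw [hmk] at h1
    exact D.alpha_eq_zero α β κ hκ v h1

end Pool.ACH
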