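import Pool.Agent.Helper20.ACH.HM
import Pool.Agent.Helper20.ACH.A8

/-! Project ACH (MP_9d9192_al). -/

set_option autoImplicit false

namespace Pool.ACH

variable {G : Type} [Group G] {F : Type} [Field F]

/-- PIECE ACH-OD1 (70 lines).  `p` odd.  An invariant homomorphism `a : G → F`, `char F = p`, is
zero.  Let `L = {g | a g = 0}` (`ker_index`); `g⁻¹ θ(g) ∈ L`, so `L.index ∣ 2`
(`index_dvd_two`).  If `a g0 ≠ 0`, the class of `g0` in `G ⧸ L` has order `p`
(`a (g0 ^ n) = n a(g0)`), so `p ∣ L.index ∣ 2`, a contradiction. -/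
theorem no_fixed {θ : G ≃* G} (hA : Achiral G θ) (hF : FAb G) (p : ℕ) [Fact p.Prime]
    (hp : p ≠ 2) [CharP F p] (a : Hm G F) (ha : ∀ g, a.1 (θ g) = a.1 g) : a = 0 := by
  obtain ⟨L, hn, hi, hL⟩ := ker_index hA.fg p a
  have h2 : L.index ∣ 2 := by
    refine index_dvd_two hA hF L hi (fun g => ?_)
    rw [hL, Hm.map_mul, Hm.map_inv, ha]
    ring
  by_contra hne
  have h3 : ∃ g0, a.1 g0 ≠ 0 := by
    by_contra h
    push Not at h
    apply hne
    ext g
    exact h g
  obtain ⟨g0, hg0⟩ := h3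
  have hord : orderOf ((g0 : G) : G ⧸ L) = p := by
    apply orderOf_eq_prime
    · rw [← QuotientGroup.mk_pow, QuotientGroup.eq_one_iff, hL, Hm.map_pow, CharP.cast_eq_zero,
        zero_mul]
    · intro h
      rw [QuotientGroup.eq_one_iff, hL] at h
      exact hg0 h
  have hdvd : p ∣ L.index := by
    rw [← hord]
    exact orderOf_dvd_natCard _
  exact hp ((Nat.prime_dvd_prime_iff_eq Fact.out Nat.prime_two).1 (hdvd.trans h2))

end Pool.ACH
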