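import Pool.Agent.Helper20.ACH.HM
import Pool.Agent.Helper20.ACH.A8
import Pool.Agent.Helper20.ACH.L5

/-! Project ACH (MP_9d9192_al). -/

set_option autoImplicit false

namespace Pool.ACH

variable {G : Type} [Group G] {F : Type} [Field F]

/-- PIECE ACH-OD2 (90 lines).  `p` odd.  A homomorphism `a : G → F`, `char F = p`, with
`a ∘ θ = -a` is zero.  Suppose `a g0 ≠ 0`.  Choose an additive character `c : F → ℚ/ℤ` with
`c (a g0) ≠ 0` (characters separate points of an abelian group): a homomorphism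
`μ = c ∘ a : G → ℚ/ℤ` with `μ∘θ = -μ`, `p μ = 0`, `μ g0 ≠ 0`.  By `factL` there is `x` with
`ℓ x y = μ y` for all `y`.  `ℓ(θ x, θ y) = -ℓ(x,y) = -μ(y) = μ(θ y) = ℓ(x, θ y)` for all `y`, so
`x⁻¹ θ(x) ∈ commutator G`; by `sq_mem_commutator` `x² ∈ commutator G`, so `2 μ = 0`, and
`p μ = 0` gives `μ = 0`, a contradiction. -/
theorem no_antifixed {θ : G ≃* G} (hA : Achiral G θ) (hF : FAb G) (p : ℕ) [Fact p.Prime]
    (hp : p ≠ 2) [CharP F p] (a : Hm G F) (ha : ∀ g, a.1 (θ g) = - a.1 g) : a = 0 := by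
  by_contra hne
  have hex : ∃ g0, a.1 g0 ≠ 0 := by
    by_contra hall
    push Not at hall
    apply hne
    ext g
    exact hall g
  obtain ⟨g0, hg0⟩ := hex
  obtain ⟨c, hc⟩ := CharacterModule.exists_character_apply_ne_zero_of_ne_zero
    (A := F) (a := a.1 g0) hg0
  obtain ⟨ℓ, h1, h2, h3, h4, h5⟩ := factL hA hF
  obtain ⟨x, hx⟩ := h4 (fun g => c (a.1 g)) (fun x y => by
    change c (a.1 (x * y)) = c (a.1 x) + c (a.1 y)
    rw [a.2, map_add])
  have hanti : ∀ y, c (a.1 (θ y)) = - c (a.1 y) := by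
    intro y
    rw [ha, map_neg]
  have e1 : ∀ y, ℓ (θ x) y = ℓ x y := by
    intro y
    obtain ⟨z, rfl⟩ := θ.surjective y
    rw [h5, hx, hx]
    exact (hanti z).symm
  -- the homomorphism `ℓ · y`
  let f : G → (G →* Multiplicative QZ) := fun y =>
    { toFun := fun g => Multiplicative.ofAdd (ℓ g y)
      map_one' := by
        have := h1 1 1 y
        rw [mul_one] at this
        rw [left_eq_add.1 this]
        rfl
      map_mul' := fun g g' => by rw [h1]; rfl }
  have hf : ∀ y g, f y g = Multiplicative.ofAdd (ℓ g y) := fun _ _ => rfl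
  have e2 : x⁻¹ * θ x ∈ commutator G := by
    apply h3
    intro y
    have e3 : f y (x⁻¹ * θ x) = 1 := by
      rw [map_mul, map_inv, hf, hf, e1]
      simp
    exact Multiplicative.ofAdd.injective e3
  have e4 := sq_mem_commutator hA hF x e2
  have e5 : ∀ y, f y (x ^ 2) = 1 := by
    intro y
    have e6 : commutator G ≤ (f y).ker := Abelianization.commutator_subset_ker (f y)
    exact e6 e4
  have e7 : (2 : ℕ) • c (a.1 g0) = 0 := by
    have e8 := e5 g0
    rw [map_pow, hf, hx] at e8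
    exact Multiplicative.ofAdd.injective e8
  have e9 : p • c (a.1 g0) = 0 := by
    rw [← map_nsmul, nsmul_eq_mul, CharP.cast_eq_zero, zero_mul, map_zero]
  have hcop : Nat.Coprime 2 p := by
    rw [Nat.coprime_comm]
    exact (Nat.coprime_primes (Fact.out : p.Prime) Nat.prime_two).2 hp
  have e10 : addOrderOf (c (a.1 g0)) ∣ 1 := by
    rw [← hcop]
    exact Nat.dvd_gcd (addOrderOf_dvd_of_nsmul_eq_zero e7) (addOrderOf_dvd_of_nsmul_eq_zero e9)
  rw [Nat.dvd_one, AddMonoid.addOrderOf_eq_one_iff] at e10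
  exact hc e10

end Pool.ACH
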