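import Pool.Agent.Helper20.ACH.OD1
import Pool.Agent.Helper20.ACH.OD2
import Pool.Agent.Helper20.ACH.O6

/-! Project ACH (MP_9d9192_al). -/

set_option autoImplicit false

namespace Pool.ACH

variable {G : Type} [Group G] {F : Type} [Field F]

/-- PIECE ACH-OD3 (100 lines).  `p` odd, `s = ±1`, `B∘(θ × θ) = s B`: then `B` is the defect of some
`κ`.  By `factO`: `Φ(ob B) = ob (s B) = s ob B`.  Suppose `ob B ≠ 0`.  `V` is finite-dimensional (it
is spanned by the image of the homomorphism `χ`, and `G` is finitely generated), so `Φ - s` is not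
injective, so not surjective, and there is a nonzero functional `f : V → F` with
`f ∘ Φ = s f`.  `y g = f (χ g)` is a homomorphism with `-y(θ⁻¹ g) = s y(g)`, so `y∘θ = -s y`
(`s² = 1`), so `y = 0` by `no_fixed` or `no_antifixed`, so `f = 0` as `χ` spans, a
contradiction. -/
theorem kappa_of_eig {θ : G ≃* G} (hA : Achiral G θ) (hF : FAb G) (p : ℕ) [Fact p.Prime]
    (hp : p ≠ 2) [CharP F p] (s : F) (hs : s = 1 ∨ s = -1) (B : Bl G F)
    (hB : ∀ g h, B.1 (θ g) (θ h) = s * B.1 g h) :
    ∃ κ : G → F, ∀ g h, κ (g * h) = κ g + κ h + B.1 g h := by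
  obtain ⟨V, _, _, Φ, χ, ob, hχ, hspan, hΦ, hob, hobF, -⟩ := factO hA F
  rw [← hob]
  by_contra hne
  have h1 : Φ (ob B) = s • ob B := by
    rw [← map_smul]
    exact (hobF B (s • B) (fun g h => by rw [hB]; rfl)).symm
  -- finite dimension
  have hχ1 : χ 1 = 0 := by
    have h := hχ 1 1
    rw [mul_one] at h
    exact left_eq_add.1 h
  have hfd : FiniteDimensional F V := by
    obtain ⟨S, hS, hSf⟩ := Group.fg_iff.1 hA.fg
    have hmem : ∀ g : G, χ g ∈ Submodule.span F (χ '' S) := by
      intro g
      have hg : g ∈ Subgroup.closure S := by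
        rw [hS]
        exact Subgroup.mem_top g
      induction hg using Subgroup.closure_induction with
      | mem x hx => exact Submodule.subset_span ⟨x, hx, rfl⟩
      | one =>
        rw [hχ1]
        exact Submodule.zero_mem _
      | mul x y _ _ hx hy =>
        rw [hχ]
        exact Submodule.add_mem _ hx hy
      | inv x _ hx =>
        have h2 : χ x⁻¹ = - χ x := by
          have h := hχ x⁻¹ x
          rw [inv_mul_cancel, hχ1] at h
          exact eq_neg_of_add_eq_zero_left h.symm
        rw [h2]
        exact Submodule.neg_mem _ hx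
    have htop : (⊤ : Submodule F V) = Submodule.span F (χ '' S) := by
      refine le_antisymm ?_ le_top
      rw [← hspan, Submodule.span_le]
      rintro _ ⟨g, rfl⟩
      exact hmem g
    refine Module.finite_def.2 ?_
    rw [htop]
    exact Submodule.fg_span (hSf.image χ)
  -- a functional
  set Ψ : V →ₗ[F] V := Φ - s • LinearMap.id with hΨ
  have hninj : ¬ Function.Injective Ψ := by
    intro h
    apply hne
    apply h
    rw [map_zero, hΨ, LinearMap.sub_apply, LinearMap.smul_apply, LinearMap.id_apply, h1,
      sub_self]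
  have hnsurj : ¬ Function.Surjective Ψ := fun h =>
    hninj (LinearMap.injective_iff_surjective.2 h)
  obtain ⟨f, hf0, hf⟩ := Submodule.exists_le_ker_of_lt_top (LinearMap.range Ψ)
    (lt_top_iff_ne_top.2 fun h => hnsurj (LinearMap.range_eq_top.1 h))
  have hf1 : ∀ v, f (Φ v) = s * f v := by
    intro v
    have h := hf ⟨v, rfl⟩
    rw [LinearMap.mem_ker, hΨ, LinearMap.sub_apply, LinearMap.smul_apply, LinearMap.id_apply,
      map_sub, map_smul, smul_eq_mul, sub_eq_zero] at h
    exact h
  let y : Hm G F := ⟨fun g => f (χ g), fun g h => by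
    change f (χ (g * h)) = f (χ g) + f (χ h)
    rw [hχ, map_add]⟩
  have hy : ∀ g, s * f (χ (θ g)) = - f (χ g) := by
    intro g
    rw [← hf1, hΦ, map_neg, MulEquiv.symm_apply_apply]
  have hy0 : y = 0 := by
    rcases hs with rfl | rfl
    · refine no_antifixed hA hF p hp y fun g => ?_
      have h := hy g
      rw [one_mul] at h
      exact h
    · refine no_fixed hA hF p hp y fun g => ?_
      have h := hy g
      rw [neg_one_mul, neg_inj] at h
      exact h
  apply hf0
  have h3 : ∀ v ∈ Submodule.span F (Set.range χ), f v = 0 := by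
    intro v hv
    induction hv using Submodule.span_induction with
    | mem x hx =>
      obtain ⟨g, rfl⟩ := hx
      exact congrFun (congrArg Subtype.val hy0) g
    | zero => exact map_zero f
    | add a b _ _ ha hb => rw [map_add, ha, hb, add_zero]
    | smul c a _ ha => rw [map_smul, ha, smul_zero]
  ext v
  exact h3 v (by rw [hspan]; exact Submodule.mem_top)

end Pool.ACH
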