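import Pool.Agent.Helper20.ACH.OD3
import Pool.Agent.Helper20.ACH.Restr
import Pool.Agent.Helper20.ACH.R5

/-! Project ACH (MP_9d9192_al). -/

set_option autoImplicit false

namespace Pool.ACH

variable {G : Type} [Group G] {F : Type} [Field F]

/-- PIECE ACH-OD4 (50 lines).  `κ` of `kappa_of_eig` can be chosen with `κ∘θ = s κ`: for
any `κ`, `y0 = κ∘θ - s κ` is a homomorphism; the linear map `a ↦ a∘θ - s a` on `Hm G F`
(finite-dimensional) is injective (`no_fixed`, `no_antifixed`), so surjective; add to `κ` the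
homomorphism `a` with `a∘θ - s a = -y0`. -/
theorem kappa_eig {θ : G ≃* G} (hA : Achiral G θ) (hF : FAb G) (p : ℕ) [Fact p.Prime]
    (hp : p ≠ 2) [CharP F p] (s : F) (hs : s = 1 ∨ s = -1) (B : Bl G F)
    (hB : ∀ g h, B.1 (θ g) (θ h) = s * B.1 g h) :
    ∃ κ : G → F, (∀ g h, κ (g * h) = κ g + κ h + B.1 g h) ∧ ∀ g, κ (θ g) = s * κ g := by
  have hfd : FiniteDimensional F (Hm G F) := finite_Hm hA.fg F
  obtain ⟨κ0, hκ0⟩ := kappa_of_eig hA hF p hp s hs B hB
  let L : Hm G F →ₗ[F] Hm G F :=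
    { toFun := fun a => ⟨fun g => a.1 (θ g) - s * a.1 g, fun g h => by
        have h1 := a.2 (θ g) (θ h)
        have h2 := a.2 g h
        simp only [map_mul, h1, h2]
        ring⟩
      map_add' := fun a b => by
        ext g
        simp only [Submodule.coe_add, Pi.add_apply]
        ring
      map_smul' := fun c a => by
        ext g
        simp only [Submodule.coe_smul, Pi.smul_apply, smul_eq_mul, RingHom.id_apply]
        ring }
  have hL : ∀ (a : Hm G F) (g : G), (L a).1 g = a.1 (θ g) - s * a.1 g := fun _ _ => rfl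
  have hinj : Function.Injective L := by
    rw [injective_iff_map_eq_zero]
    intro a ha
    have h1 : ∀ g, a.1 (θ g) = s * a.1 g := by
      intro g
      have h2 := hL a g
      rw [ha] at h2
      exact (sub_eq_zero.mp h2.symm)
    rcases hs with rfl | rfl
    · exact no_fixed hA hF p hp a (fun g => by rw [h1, one_mul])
    · exact no_antifixed hA hF p hp a (fun g => by rw [h1, neg_one_mul])
  have hsurj : Function.Surjective L := LinearMap.injective_iff_surjective.mp hinj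
  obtain ⟨a, ha⟩ := hsurj ⟨fun g => -(κ0 (θ g) - s * κ0 g), fun g h => by
    simp only [map_mul, hκ0, hB]
    ring⟩
  have ha' : ∀ g, a.1 (θ g) - s * a.1 g = -(κ0 (θ g) - s * κ0 g) := by
    intro g
    rw [← hL, ha]
  refine ⟨fun g => κ0 g + a.1 g, fun g h => ?_, fun g => ?_⟩
  · have h1 := hκ0 g h
    have h2 := a.2 g h
    simp only at h2 ⊢
    rw [h1, h2]
    ring
  · have h1 := ha' g
    simp only
    linear_combination h1

/-- PIECE ACH-OD4 (90 lines).  Eigenvectors `α, β` of `θ` with product of eigenvalues `±1` are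
dependent.  Take `κ` of `kappa_eig` for `B = tens α β`, `s = a b`.  `K` = common kernel of
`α` and `β`, of finite index (`ker_index` twice), normal, `θ`-invariant (`a, b ≠ 0` as `a b = ±1`).
`κ` restricted to `K` is a homomorphism with `κ∘θ = s κ`, so zero by `no_fixed`, `no_antifixed`
for `K` (`Achiral.restrict`, `FAb.restrict`).  For the commutator `c = g h g⁻¹ h⁻¹ ∈ K`:
`g h = c h g`, `κ(g h) = κ g + κ h + α g β h` and `κ(c (h g)) = κ c + κ(h g) + α(c) β(h g)
= κ c + κ h + κ g + α h β g`; as `κ c = 0`, `α g β h = α h β g`. -/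
theorem lemmaK {θ : G ≃* G} (hA : Achiral G θ) (hF : FAb G) (p : ℕ) [Fact p.Prime]
    (hp : p ≠ 2) [CharP F p] (α β : Hm G F) (a b : F) (hα : ∀ g, α.1 (θ g) = a * α.1 g)
    (hβ : ∀ g, β.1 (θ g) = b * β.1 g) (hab : a * b = 1 ∨ a * b = -1) (g h : G) :
    α.1 g * β.1 h = α.1 h * β.1 g := by
  obtain ⟨κ, hκ, hκθ⟩ := kappa_eig hA hF p hp (a * b) hab (tens α β) (fun g h => by
    rw [tens_apply, tens_apply, hα, hβ]
    ring)
  have ha : a ≠ 0 := by
    rintro rfl
    rcases hab with h1 | h1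
    · exact zero_ne_one ((zero_mul b).symm.trans h1)
    · exact neg_ne_zero.2 one_ne_zero (h1.symm.trans (zero_mul b))
  have hb : b ≠ 0 := by
    rintro rfl
    rcases hab with h1 | h1
    · exact zero_ne_one ((mul_zero a).symm.trans h1)
    · exact neg_ne_zero.2 one_ne_zero (h1.symm.trans (mul_zero a))
  obtain ⟨L1, hN1, hI1, hL1⟩ := ker_index hA.fg p α
  obtain ⟨L2, hN2, hI2, hL2⟩ := ker_index hA.fg p β
  obtain ⟨K, hK⟩ : ∃ K : Subgroup G, K = L1 ⊓ L2 := ⟨_, rfl⟩
  have hKm : ∀ x, x ∈ K ↔ α.1 x = 0 ∧ β.1 x = 0 := fun x => by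
    rw [hK, Subgroup.mem_inf, hL1, hL2]
  have hKI : K.index ≠ 0 := by
    rw [hK]
    exact Subgroup.index_inf_ne_zero hI1 hI2
  have hinv : ∀ x, θ x ∈ K ↔ x ∈ K := fun x => by
    rw [hKm, hKm, hα, hβ, mul_eq_zero_iff_left ha, mul_eq_zero_iff_left hb]
  have hAK := hA.restrict K hKI hinv
  have hFK := hF.restrict K hKI
  obtain ⟨κK, hκK⟩ : ∃ κK : Hm K F, ∀ x : K, κK.1 x = κ x := ⟨⟨fun x => κ x, fun x y => by
    show κ ((x * y : K) : G) = κ x + κ y
    rw [Subgroup.coe_mul, hκ, tens_apply, ((hKm x).1 x.2).1]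
    ring⟩, fun x => rfl⟩
  have h0 : κK = 0 := by
    rcases hab with h1 | h1
    · refine no_fixed hAK hFK p hp κK fun x => ?_
      rw [hκK, hκK, coe_resAut, hκθ, h1, one_mul]
    · refine no_antifixed hAK hFK p hp κK fun x => ?_
      rw [hκK, hκK, coe_resAut, hκθ, h1, neg_one_mul]
  have hκ0 : ∀ x ∈ K, κ x = 0 := fun x hx => by
    have h1 := hκK ⟨x, hx⟩
    rw [h0] at h1
    exact h1.symm
  have hc : g * h * g⁻¹ * h⁻¹ ∈ K := by
    rw [hKm]
    constructor
    · rw [α.2, α.2, α.2, Hm.map_inv, Hm.map_inv]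
      ring
    · rw [β.2, β.2, β.2, Hm.map_inv, Hm.map_inv]
      ring
  have e : g * h = g * h * g⁻¹ * h⁻¹ * (h * g) := by group
  have e1 : κ (g * h) = κ (h * g) := by
    rw [e, hκ, hκ0 _ hc, tens_apply, ((hKm _).1 hc).1]
    ring
  rw [hκ, hκ, tens_apply, tens_apply] at e1
  have e2 : κ g + κ h + α.1 g * β.1 h = κ g + κ h + α.1 h * β.1 g := by
    rw [e1]
    ring
  exact add_left_cancel e2

end Pool.ACH
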