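import Pool.Agent.Helper20.ACH.HM
import Pool.Agent.Helper20.ACH.L5
import Pool.Agent.Helper20.ACH.F1
import Pool.Agent.Helper20.ACH.F3

/-! Project ACH (MP_9d9192_al). -/

set_option autoImplicit false

namespace Pool.ACH

/-- PIECE ACH-OD5a (30 lines).  `S` injective on the `p`-torsion of the finite abelian group `T`:
then `p` does not divide `|ker S| = |T ⧸ S T|` (Cauchy), so multiplication by `p` is surjective on
`T ⧸ S T`. -/
theorem surj_mod_p (T : Type) [AddCommGroup T] [Finite T] (p : ℕ) [Fact p.Prime] (S : T →+ T)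
    (hS : ∀ x, p • x = 0 → S x = 0 → x = 0) (y : T) : ∃ y' y'' : T, y = S y' + p • y'' := by
  have hK : ¬ p ∣ Nat.card S.ker := by
    intro hdvd
    obtain ⟨x, hx⟩ := exists_prime_addOrderOf_dvd_card' p hdvd
    have h1 : p • x = 0 := by
      rw [← hx]
      exact addOrderOf_nsmul_eq_zero x
    have h2 : (x : T) = 0 := by
      apply hS
      · have := congrArg (fun t : S.ker => (t : T)) h1
        simpa using this
      · exact x.2
    have h3 : x = 0 := Subtype.ext h2
    rw [h3, addOrderOf_zero] at hx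
    exact (Fact.out : p.Prime).one_lt.ne hx
  have hcard : Nat.card (T ⧸ S.range) = Nat.card S.ker := by
    have e1 := AddSubgroup.card_eq_card_quotient_mul_card_addSubgroup S.ker
    have e2 := AddSubgroup.card_eq_card_quotient_mul_card_addSubgroup S.range
    have e3 : Nat.card (T ⧸ S.ker) = Nat.card S.range :=
      Nat.card_congr (QuotientAddGroup.quotientKerEquivRange S).toEquiv
    rw [e3] at e1
    have e4 : 0 < Nat.card S.range := Nat.card_pos
    have e5 : Nat.card (T ⧸ S.range) * Nat.card S.range =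
        Nat.card S.ker * Nat.card S.range := by
      rw [← e2, e1, mul_comm]
    exact Nat.eq_of_mul_eq_mul_right e4 e5
  have hcop : (Nat.card (T ⧸ S.range)).Coprime p := by
    rw [hcard]
    exact ((Nat.Prime.coprime_iff_not_dvd Fact.out).2 hK).symm
  obtain ⟨q, hq⟩ := (nsmulCoprime hcop).surjective (QuotientAddGroup.mk y : T ⧸ S.range)
  obtain ⟨y'', rfl⟩ := QuotientAddGroup.mk_surjective q
  rw [nsmulCoprime_apply, ← QuotientAddGroup.mk_nsmul, QuotientAddGroup.eq] at hq
  obtain ⟨y', hy'⟩ := hq
  refine ⟨y', y'', ?_⟩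
  rw [hy']
  abel

end Pool.ACH
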