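import Pool.Agent.Helper20.ACH.OD5

/-! Project ACH (MP_9d9192_al). -/

set_option autoImplicit false

namespace Pool.ACH

variable {G : Type} [Group G] {F : Type} [Field F]

/-! The embedding of `𝔽_p` into `ℚ/ℤ`. -/

private noncomputable def io (p : ℕ) [Fact p.Prime] : ZMod p →+ QZ :=
  ZMod.lift p ⟨zmultiplesHom QZ (toQZ (1 / (p : ℚ))), by
    have hp0 : (p : ℚ) ≠ 0 := by exact_mod_cast (Fact.out : p.Prime).ne_zero
    rw [zmultiplesHom_apply, natCast_zsmul, ← map_nsmul, nsmul_eq_mul,
      mul_one_div_cancel hp0]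
    exact_mod_cast toQZ_int 1⟩

private theorem io_int (p : ℕ) [Fact p.Prime] (m : ℤ) :
    io p (m : ZMod p) = toQZ ((m : ℚ) / p) := by
  rw [io, ZMod.lift_coe]
  simp only [zmultiplesHom_apply]
  rw [← map_zsmul]
  congr 1
  rw [zsmul_eq_mul]
  ring

private theorem io_injective (p : ℕ) [Fact p.Prime] : Function.Injective (io p) := by
  rw [injective_iff_map_eq_zero]
  intro n hn
  obtain ⟨m, rfl⟩ := ZMod.intCast_surjective n
  have hp0 : (p : ℚ) ≠ 0 := by exact_mod_cast (Fact.out : p.Prime).ne_zero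
  rw [io_int, toQZ_eq_zero] at hn
  obtain ⟨k, hk⟩ := hn
  rw [eq_div_iff hp0] at hk
  have h1 : k * p = m := by exact_mod_cast hk
  rw [← h1]
  simp

private theorem exists_io (p : ℕ) [Fact p.Prime] (z : QZ) (hz : p • z = 0) :
    ∃ n : ZMod p, io p n = z := by
  obtain ⟨q, rfl⟩ : ∃ q, toQZ q = z := QuotientAddGroup.mk_surjective z
  have hp0 : (p : ℚ) ≠ 0 := by exact_mod_cast (Fact.out : p.Prime).ne_zero
  rw [← map_nsmul, toQZ_eq_zero] at hz
  obtain ⟨m, hm⟩ := hz
  refine ⟨(m : ZMod p), ?_⟩
  rw [io_int, hm, nsmul_eq_mul, mul_div_cancel_left₀ _ hp0]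

/-! Lifting homomorphisms to the abelianization. -/

private def li {A : Type} [AddCommGroup A] (a : G → A) (ha : ∀ g h, a (g * h) = a g + a h) :
    Additive (Abelianization G) →+ A :=
  MonoidHom.toAdditiveLeft (Abelianization.lift (MonoidHom.mk' (M := G)
    (G := Multiplicative A) (fun g => Multiplicative.ofAdd (a g)) (fun g h => by
      rw [ha]; rfl)))

private theorem li_apply {A : Type} [AddCommGroup A] (a : G → A)
    (ha : ∀ g h, a (g * h) = a g + a h) (g : G) :
    li a ha (Additive.ofMul (Abelianization.of g)) = a g := by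
  rfl

private theorem pi_surj (x : Additive (Abelianization G)) :
    ∃ g : G, Additive.ofMul (Abelianization.of g) = x := by
  obtain ⟨g, hg⟩ := QuotientGroup.mk_surjective (s := commutator G) (Additive.toMul x)
  exact ⟨g, hg⟩

private theorem pi_mul (g h : G) : Additive.ofMul (Abelianization.of (g * h)) =
    Additive.ofMul (Abelianization.of g) + Additive.ofMul (Abelianization.of h) := rfl

/-- The automorphism of the abelianization. -/
private def thT (θ : G ≃* G) : AddMonoid.End (Additive (Abelianization G)) :=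
  MonoidHom.toAdditive (Abelianization.map θ.toMonoidHom)

private theorem thT_apply (θ : G ≃* G) (g : G) :
    thT θ (Additive.ofMul (Abelianization.of g)) =
      Additive.ofMul (Abelianization.of (θ g)) := rfl

open Polynomial in
/-- An eigenvector turns polynomials in `θ` into scalars. -/
private theorem eig_poly (θ : G ≃* G) (lam : F) (al : Additive (Abelianization G) →+ F)
    (hal : ∀ x, al (thT θ x) = lam * al x) (q : ℤ[X]) (x : Additive (Abelianization G)) :
    al ((aeval (thT θ) q) x) = aeval lam q * al x := by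
  induction q using Polynomial.induction_on with
  | C n =>
    rw [aeval_C, aeval_C]
    rw [Algebra.algebraMap_eq_smul_one, Algebra.algebraMap_eq_smul_one]
    change al (n • x) = _
    rw [map_zsmul, smul_mul_assoc, one_mul]
  | add f g hf hg =>
    rw [map_add, map_add]
    change al ((aeval (thT θ) f) x + (aeval (thT θ) g) x) = _
    rw [map_add, hf, hg, add_mul]
  | monomial n a h =>
    have e : (C a * X ^ (n + 1) : ℤ[X]) = X * (C a * X ^ n) := by ring
    rw [e, map_mul (aeval (thT θ)) X, map_mul (aeval lam) X, aeval_X, aeval_X]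
    change al (thT θ ((aeval (thT θ) (C a * X ^ n)) x)) = _
    rw [hal, h, mul_assoc]

/-- Minus the pullback by the inverse. -/
private noncomputable def Nop (K : Type) [Field K] (θ : G ≃* G) : Module.End K (Hm G K) :=
  -(pb θ.symm)

private theorem Nop_apply (K : Type) [Field K] (θ : G ≃* G) (a : Hm G K) (g : G) :
    (Nop K θ a).1 g = - a.1 (θ.symm g) := rfl

open Polynomial in
private theorem step_link (p : ℕ) [Fact p.Prime] (θ : G ≃* G)
    (L : Additive (Abelianization G) → G → QZ)
    (hL0 : ∀ g, L 0 g = 0)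
    (hLa : ∀ x y g, L (x + y) g = L x g + L y g)
    (hLth : ∀ x g, L (thT θ x) g = - L x (θ.symm g))
    (x : Additive (Abelianization G)) (a : Hm G (ZMod p))
    (ha : ∀ g, io p (a.1 g) = L x g) (q : ℤ[X]) (g : G) :
    io p ((aeval (Nop (ZMod p) θ) (q.map (Int.castRingHom (ZMod p))) a).1 g) =
      L ((aeval (thT θ) q) x) g := by
  have hLn : ∀ g, ∃ Lg : Additive (Abelianization G) →+ QZ, ∀ x, Lg x = L x g := fun g =>
    ⟨{ toFun := fun x => L x g, map_zero' := hL0 g, map_add' := fun x y => hLa x y g },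
      fun x => rfl⟩
  induction q using Polynomial.induction_on generalizing g with
  | C n =>
    rw [map_C, aeval_C, aeval_C]
    rw [Algebra.algebraMap_eq_smul_one, Algebra.algebraMap_eq_smul_one]
    change io p ((Int.castRingHom (ZMod p) n) * a.1 g) = L (n • x) g
    obtain ⟨Lg, hLg⟩ := hLn g
    rw [← hLg, map_zsmul, hLg, ← ha]
    rw [← map_zsmul, zsmul_eq_mul]
    rfl
  | add f h hf hh =>
    rw [Polynomial.map_add, map_add, map_add]
    change io p ((aeval (Nop (ZMod p) θ) (f.map (Int.castRingHom (ZMod p))) a).1 g +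
      (aeval (Nop (ZMod p) θ) (h.map (Int.castRingHom (ZMod p))) a).1 g) = L (_ + _) g
    rw [map_add, hf, hh, hLa]
    rfl
  | monomial n b h =>
    have e : (C b * X ^ (n + 1) : ℤ[X]) = X * (C b * X ^ n) := by ring
    rw [e, Polynomial.map_mul, map_X, map_mul (aeval (Nop (ZMod p) θ)) X,
      map_mul (aeval (thT θ)) X, aeval_X, aeval_X]
    change io p (-(aeval (Nop (ZMod p) θ) ((C b * X ^ n).map (Int.castRingHom (ZMod p))) a).1
      (θ.symm g)) = L (thT θ ((aeval (thT θ) (C b * X ^ n)) x)) g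
    rw [map_neg, h, hLth]

/-- Extension of the coefficients. -/
private noncomputable def bc (p : ℕ) [Fact p.Prime] [Algebra (ZMod p) F] (a : Hm G (ZMod p)) :
    Hm G F :=
  ⟨fun g => algebraMap (ZMod p) F (a.1 g), fun g h => by
    change algebraMap (ZMod p) F (a.1 (g * h)) = _
    rw [a.2, map_add]⟩

private theorem bc_apply (p : ℕ) [Fact p.Prime] [Algebra (ZMod p) F] (a : Hm G (ZMod p)) (g : G) :
    (bc (F := F) p a).1 g = algebraMap (ZMod p) F (a.1 g) := rfl

private theorem bc_pow (p : ℕ) [Fact p.Prime] [Algebra (ZMod p) F] (θ : G ≃* G)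
    (a : Hm G (ZMod p)) (i : ℕ) :
    (Nop F θ ^ i) (bc p a) = bc p ((Nop (ZMod p) θ ^ i) a) := by
  induction i with
  | zero => rfl
  | succ i ih =>
    rw [pow_succ', pow_succ']
    change Nop F θ ((Nop F θ ^ i) (bc p a)) = bc p (Nop (ZMod p) θ ((Nop (ZMod p) θ ^ i) a))
    rw [ih]
    ext g
    rw [Nop_apply, bc_apply, bc_apply, Nop_apply, map_neg]

open Polynomial in
private theorem bc_poly (p : ℕ) [Fact p.Prime] [Algebra (ZMod p) F] (θ : G ≃* G)
    (a : Hm G (ZMod p)) (q : (ZMod p)[X]) (f : F →ₗ[ZMod p] ZMod p) (s : F[X]) (n : ℕ)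
    (hs : s.natDegree < n) (hq : q = ∑ i ∈ Finset.range n, monomial i (f (s.coeff i))) (g : G) :
    (aeval (Nop (ZMod p) θ) q a).1 g = f ((aeval (Nop F θ) s (bc p a)).1 g) := by
  have h1 : (aeval (Nop F θ) s (bc p a)).1 g =
      ∑ i ∈ Finset.range n, ((Nop (ZMod p) θ ^ i) a).1 g • s.coeff i := by
    rw [aeval_eq_sum_range' hs, LinearMap.sum_apply]
    rw [Submodule.coe_sum, Finset.sum_apply]
    refine Finset.sum_congr rfl fun i _ => ?_
    rw [LinearMap.smul_apply, bc_pow]
    change s.coeff i * (bc p ((Nop (ZMod p) θ ^ i) a)).1 g = _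
    rw [bc_apply, Algebra.smul_def, mul_comm]
  have h2 : (aeval (Nop (ZMod p) θ) q a).1 g =
      ∑ i ∈ Finset.range n, f (s.coeff i) * ((Nop (ZMod p) θ ^ i) a).1 g := by
    rw [hq, map_sum, LinearMap.sum_apply]
    rw [Submodule.coe_sum, Finset.sum_apply]
    refine Finset.sum_congr rfl fun i _ => ?_
    rw [aeval_monomial]
    rfl
  rw [h1, h2, map_sum]
  refine Finset.sum_congr rfl fun i _ => ?_
  rw [map_smul, smul_eq_mul, mul_comm]

open Polynomial in
private theorem bc_map (p : ℕ) [Fact p.Prime] [Algebra (ZMod p) F] (θ : G ≃* G)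
    (a : Hm G (ZMod p)) (q : (ZMod p)[X]) :
    aeval (Nop F θ) (q.map (algebraMap (ZMod p) F)) (bc p a) =
      bc p (aeval (Nop (ZMod p) θ) q a) := by
  have hn : (q.map (algebraMap (ZMod p) F)).natDegree < q.natDegree + 1 :=
    Nat.lt_succ_of_le natDegree_map_le
  ext g
  rw [aeval_eq_sum_range' hn, aeval_eq_sum_range, LinearMap.sum_apply, bc_apply,
    LinearMap.sum_apply]
  rw [Submodule.coe_sum, Submodule.coe_sum, Finset.sum_apply, Finset.sum_apply, map_sum]
  refine Finset.sum_congr rfl fun i _ => ?_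
  rw [LinearMap.smul_apply, bc_pow, coeff_map, LinearMap.smul_apply]
  change algebraMap (ZMod p) F (q.coeff i) * (bc p ((Nop (ZMod p) θ ^ i) a)).1 g =
    algebraMap (ZMod p) F (q.coeff i * ((Nop (ZMod p) θ ^ i) a).1 g)
  rw [map_mul, bc_apply]

open Polynomial in
private theorem step_ext (p : ℕ) [Fact p.Prime] [Algebra (ZMod p) F] (θ : G ≃* G)
    (a : Hm G (ZMod p)) (ha0 : a ≠ 0) (lam : F) (hlam : lam ≠ 0) (hint : IsIntegral (ZMod p) lam)
    (ha : aeval (Nop (ZMod p) θ) (minpoly (ZMod p) lam) a = 0) :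
    ∃ β : Hm G F, β ≠ 0 ∧ ∀ g, β.1 (θ g) = -lam⁻¹ * β.1 g := by
  set r := minpoly (ZMod p) lam with hr
  have hirr : Irreducible r := minpoly.irreducible hint
  have hroot : (r.map (algebraMap (ZMod p) F)).IsRoot lam := by
    rw [IsRoot.def, eval_map_algebraMap]
    exact minpoly.aeval _ _
  obtain ⟨s, hs⟩ := dvd_iff_isRoot.2 hroot
  have hr0 : r ≠ 0 := hirr.ne_zero
  have hrF0 : r.map (algebraMap (ZMod p) F) ≠ 0 := by
    rwa [Ne, Polynomial.map_eq_zero]
  have hs0 : s ≠ 0 := by
    rintro rfl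
    exact hrF0 (by rw [hs, mul_zero])
  have hdeg : r.natDegree = 1 + s.natDegree := by
    rw [← natDegree_map (algebraMap (ZMod p) F), hs, natDegree_mul (X_sub_C_ne_zero _) hs0,
      natDegree_X_sub_C]
  have hlt : s.natDegree < r.natDegree := by omega
  refine ⟨aeval (Nop F θ) s (bc p a), ?_, ?_⟩
  · intro hβ
    apply ha0
    obtain ⟨i, hi⟩ : ∃ i, s.coeff i ≠ 0 := by
      by_contra hcon
      push Not at hcon
      exact hs0 (Polynomial.ext fun i => by rw [hcon, coeff_zero])
    obtain ⟨f, hf⟩ : ∃ f : F →ₗ[ZMod p] ZMod p, f (s.coeff i) ≠ 0 := by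
      by_contra hcon
      push Not at hcon
      exact hi ((Module.forall_dual_apply_eq_zero_iff (ZMod p) (s.coeff i)).1 hcon)
    set q : (ZMod p)[X] := ∑ j ∈ Finset.range r.natDegree, monomial j (f (s.coeff j)) with hq
    have hqc : ∀ j, q.coeff j = if j < r.natDegree then f (s.coeff j) else 0 := by
      intro j
      rw [hq, finsetSum_coeff]
      simp only [coeff_monomial]
      rw [Finset.sum_ite_eq' (Finset.range r.natDegree) j (fun j => f (s.coeff j))]
      simp only [Finset.mem_range]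
    have hq0 : q ≠ 0 := by
      intro h0
      have h1 := hqc i
      have h2 : i < r.natDegree := by
        have := le_natDegree_of_ne_zero hi
        omega
      rw [h0, coeff_zero, if_pos h2] at h1
      exact hf h1.symm
    have hqdeg : q.natDegree < r.natDegree := by
      rw [Polynomial.natDegree_lt_iff_degree_lt hq0, Polynomial.degree_lt_iff_coeff_zero]
      intro m hm
      rw [hqc, if_neg (by omega)]
    have hndvd : ¬ r ∣ q := fun hd => hq0 (Polynomial.eq_zero_of_dvd_of_natDegree_lt hd hqdeg)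
    obtain ⟨u, v, huv⟩ := (Irreducible.coprime_iff_not_dvd hirr).2 hndvd
    have hqa : aeval (Nop (ZMod p) θ) q a = 0 := by
      ext g
      rw [bc_poly p θ a q f s r.natDegree hlt hq g, hβ]
      exact map_zero f
    have h1 : aeval (Nop (ZMod p) θ) (u * r + v * q) a = a := by
      rw [huv, map_one]; rfl
    rw [map_add, map_mul, map_mul] at h1
    change aeval (Nop (ZMod p) θ) u (aeval (Nop (ZMod p) θ) r a) +
      aeval (Nop (ZMod p) θ) v (aeval (Nop (ZMod p) θ) q a) = a at h1
    rw [ha, hqa, map_zero, map_zero, add_zero] at h1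
    exact h1.symm
  · intro g
    have h1 := bc_map (F := F) p θ a r
    rw [ha, hs, map_mul] at h1
    have h2 : (bc (F := F) p (0 : Hm G (ZMod p))) = 0 := by
      ext g
      exact map_zero _
    rw [h2, map_sub, aeval_X, aeval_C] at h1
    have h3 := congrArg (fun z : Hm G F => z.1 (θ g)) h1
    have h4 : -(aeval (Nop F θ) s (bc p a)).1 (θ.symm (θ g)) -
        lam * (aeval (Nop F θ) s (bc p a)).1 (θ g) = 0 := h3
    rw [MulEquiv.symm_apply_apply] at h4
    field_simp
    linear_combination -h4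

open Polynomial in
/-- PIECE ACH-OD6 (200 lines).  If `lam` is an eigenvalue of `θ` on `Hom(G, F)`, then so is
`-lam⁻¹`.  Let `T = Additive (Abelianization G)`, finite, `θ` acts on it.  `lam` is algebraic over
`𝔽_p` (`θ` acts on the finite-dimensional `Hm G (ZMod p)`, whose scalar extension is `Hm G F`; or:
a power of `θ` is trivial on the finite group `Hm G (ZMod p)`, so `lam ^ N = 1`).  Let
`r ∈ 𝔽_p[X]` be its minimal polynomial, `R ∈ ℤ[X]` a lift.  `S = R(θ) : T → T`.
If `α : G → F` is nonzero with `α∘θ = lam α`, then `α∘S = R(lam) α = 0`, so `T ≠ S T + p T`, so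
by `surj_mod_p` there is `x ≠ 0` in `T`, `p x = 0`, `S x = 0`.  The character `ℓ x ·`
(`factL`) has values in `(1/p)ℤ/ℤ = 𝔽_p`: a nonzero `a ∈ Hm G (ZMod p)`.
As `ℓ(θ x, y) = -ℓ(x, θ⁻¹ y)`, the operator `N a = -a∘θ⁻¹` on `Hm G (ZMod p)` satisfies
`r(N) a = 0`.  In `F[X]` write `r = (X - lam) s`, `s ≠ 0`, `deg s < deg r`, and put `β = s(N) a`
(computed in `Hm G F`).  `N β = lam β`, i.e. `β∘θ = -lam⁻¹ β`.  `β ≠ 0`, since
`a, N a, …, N^(deg r - 1) a` are linearly independent over `𝔽_p` (`r` is irreducible and `a ≠ 0`),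
so over `F` (functions with values in `𝔽_p`). -/
theorem eig_closure {θ : G ≃* G} (hA : Achiral G θ) (hF : FAb G) (p : ℕ) [Fact p.Prime]
    (hp : p ≠ 2) [CharP F p] [IsAlgClosed F] (lam : F) (α : Hm G F) (hα0 : α ≠ 0)
    (hα : ∀ g, α.1 (θ g) = lam * α.1 g) :
    ∃ β : Hm G F, β ≠ 0 ∧ ∀ g, β.1 (θ g) = -lam⁻¹ * β.1 g := by
  classical
  let _ : Algebra (ZMod p) F := ZMod.algebra F p
  have hfg := hA.fg
  have hno : ¬ ∃ f : G →* Multiplicative ℤ, Function.Surjective f := by
    rintro ⟨f, hf⟩
    exact hF ⊤ (by simp) ⟨f.comp (Subgroup.topEquiv (G := G)).toMonoidHom,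
      hf.comp (Subgroup.topEquiv (G := G)).surjective⟩
  have hfin : Finite (Abelianization G) := finite_abelianization hfg hno
  have hfinT : Finite (Additive (Abelianization G)) := hfin
  obtain ⟨g0, hg0⟩ : ∃ g0, α.1 g0 ≠ 0 := by
    by_contra hcon
    push Not at hcon
    exact hα0 (by ext g; exact hcon g)
  have hlam : lam ≠ 0 := by
    rintro rfl
    have := hα (θ.symm g0)
    rw [MulEquiv.apply_symm_apply, zero_mul] at this
    exact hg0 this
  set al : Additive (Abelianization G) →+ F := li α.1 α.2 with hal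
  have hal1 : ∀ g : G, al (Additive.ofMul (Abelianization.of g)) = α.1 g := fun g => rfl
  have hal2 : ∀ x, al (thT θ x) = lam * al x := by
    intro x
    obtain ⟨g, rfl⟩ := pi_surj x
    rw [thT_apply, hal1, hal1, hα]
  -- `lam` is integral
  have hpow : ∀ n : ℕ, α.1 (((θ : G → G)^[n]) g0) = lam ^ n * α.1 g0 := by
    intro n
    induction n with
    | zero => simp
    | succ n ih =>
      rw [Function.iterate_succ_apply', hα, ih, pow_succ']
      ring
  have hint : IsIntegral (ZMod p) lam := by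
    have hfr : (Set.range al).Finite := Set.finite_range al
    have hni : ¬ Function.Injective (fun n : ℕ => lam ^ n * α.1 g0) := by
      intro hinj
      have h1 : (Set.range (fun n : ℕ => lam ^ n * α.1 g0)).Infinite :=
        Set.infinite_range_of_injective hinj
      apply h1
      refine hfr.subset ?_
      rintro _ ⟨n, rfl⟩
      exact ⟨Additive.ofMul (Abelianization.of (((θ : G → G)^[n]) g0)), by
        rw [hal1, hpow]⟩
    have h2 : ∃ m n : ℕ, m < n ∧ lam ^ m = lam ^ n := by
      by_contra hcon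
      push Not at hcon
      apply hni
      intro m n hmn
      have h3 : lam ^ m = lam ^ n := mul_right_cancel₀ hg0 hmn
      rcases lt_trichotomy m n with h | h | h
      · exact absurd h3 (hcon m n h)
      · exact h
      · exact absurd h3.symm (hcon n m h)
    obtain ⟨m, n, hmn, he⟩ := h2
    refine ⟨X ^ n - X ^ m, ?_, ?_⟩
    · apply monic_X_pow_sub
      rw [degree_X_pow]
      exact_mod_cast hmn
    · rw [eval₂_sub, eval₂_X_pow, eval₂_X_pow, he, sub_self]
  obtain ⟨R, hR⟩ := Polynomial.map_surjective (Int.castRingHom (ZMod p))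
    (ZMod.intCast_surjective) (minpoly (ZMod p) lam)
  have hRlam : aeval lam R = 0 := by
    have h1 : aeval lam (R.map (Int.castRingHom (ZMod p))) = 0 := by
      rw [hR]; exact minpoly.aeval _ _
    rw [aeval_def, eval₂_map] at h1
    rw [aeval_def]
    have h2 : (algebraMap (ZMod p) F).comp (Int.castRingHom (ZMod p)) = algebraMap ℤ F :=
      Subsingleton.elim _ _
    rw [h2] at h1
    exact h1
  -- the element `x`
  obtain ⟨x, hx1, hx2, hx3⟩ : ∃ x : Additive (Abelianization G), p • x = 0 ∧
      (aeval (thT θ) R) x = 0 ∧ x ≠ 0 := by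
    by_contra hcon
    push Not at hcon
    have hS : ∀ x : Additive (Abelianization G), p • x = 0 → (aeval (thT θ) R) x = 0 → x = 0 :=
      hcon
    obtain ⟨y', y'', hy⟩ := surj_mod_p (Additive (Abelianization G)) p (aeval (thT θ) R) hS
      (Additive.ofMul (Abelianization.of g0))
    have h1 := congrArg al hy
    rw [hal1, map_add] at h1
    have hu : al ((aeval (thT θ) R) y') = 0 := by
      rw [eig_poly θ lam al hal2 R y', hRlam, zero_mul]
    have hv : al (p • y'') = 0 := by
      rw [map_nsmul, nsmul_eq_mul, CharP.cast_eq_zero, zero_mul]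
    exact hg0 (h1.trans ((congrArg₂ (fun a b => a + b) hu hv).trans (add_zero 0)))
  obtain ⟨ℓ, hl1, hl2, hl3, -, hl5⟩ := factL hA hF
  obtain ⟨x0, hx0⟩ := pi_surj x
  -- the form on the abelianization in the first variable
  let L : Additive (Abelianization G) → G → QZ := fun x g =>
    li (fun y => ℓ y g) (fun y z => hl1 y z g) x
  have hL1 : ∀ y g, L (Additive.ofMul (Abelianization.of y)) g = ℓ y g := fun y g => rfl
  have hL0 : ∀ g, L 0 g = 0 := fun g => map_zero _
  have hLa : ∀ x y g, L (x + y) g = L x g + L y g := fun x y g => map_add _ _ _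
  have hLth : ∀ x g, L (thT θ x) g = - L x (θ.symm g) := by
    intro x g
    obtain ⟨y, rfl⟩ := pi_surj x
    rw [thT_apply, hL1, hL1, ← hl5, MulEquiv.apply_symm_apply]
  have hLp : ∀ g, p • L x g = 0 := by
    intro g
    have h1 : p • L x g = L (p • x) g := (map_nsmul (li (fun y => ℓ y g)
      (fun y z => hl1 y z g)) p x).symm
    rw [h1, hx1, hL0]
  choose a ha using fun g => exists_io p (L x g) (hLp g)
  have haa : ∀ g h, a (g * h) = a g + a h := by
    intro g h
    apply io_injective p
    rw [ha, map_add, ha, ha, ← hx0, hL1, hL1, hL1, hl2]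
  let A : Hm G (ZMod p) := ⟨a, haa⟩
  have hA0 : A ≠ 0 := by
    intro h0
    apply hx3
    have h1 : ∀ y, ℓ x0 y = 0 := by
      intro y
      rw [← hL1, hx0, ← ha]
      have h2 : a y = 0 := congrArg (fun z : Hm G (ZMod p) => z.1 y) h0
      rw [h2, map_zero]
    have h2 := hl3 x0 h1
    rw [← hx0]
    have h3 : Abelianization.of x0 = 1 := by
      rw [← MonoidHom.mem_ker, Abelianization.ker_of]
      exact h2
    rw [h3]
    rfl
  have hAr : aeval (Nop (ZMod p) θ) (minpoly (ZMod p) lam) A = 0 := by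
    rw [← hR]
    ext g
    apply io_injective p
    rw [step_link p θ L hL0 hLa hLth x A ha R g, hx2, hL0]
    exact (map_zero _).symm
  exact step_ext p θ A hA0 lam hlam hint hAr

end Pool.ACH
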