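import Mathlib

/-! Project ACH (MP_9d9192_al). -/

set_option autoImplicit false

namespace Pool.ACH

/-- PIECE ACH-OD7 (50 lines).  An endomorphism of a finite-dimensional space over an algebraically
closed field with the only eigenvalue `lam`: `u - lam` is nilpotent (its minimal polynomial is a
power of `X - lam`), and in characteristic `p`, `(u - lam)^(p^s) = u^(p^s) - lam^(p^s)`. -/
theorem pow_scalar {F : Type} [Field F] [IsAlgClosed F] (p : ℕ) [Fact p.Prime] [CharP F p]
    {W : Type} [AddCommGroup W] [Module F W] [FiniteDimensional F W] (u : W →ₗ[F] W) (lam : F)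
    (h : ∀ (mu : F) (w : W), w ≠ 0 → u w = mu • w → mu = lam) :
    ∃ s : ℕ, ∀ w, (u ^ (p ^ s) : Module.End F W) w = (lam ^ (p ^ s)) • w := by
  classical
  set q : Polynomial F := minpoly F (u : Module.End F W) with hq
  have hmonic : q.Monic := minpoly.monic (Algebra.IsIntegral.isIntegral _)
  have hsplit : q.Splits := IsAlgClosed.splits q
  have hroots : ∀ mu ∈ q.roots, mu = lam := by
    intro mu hmu
    have hr : q.IsRoot mu := Polynomial.isRoot_of_mem_roots hmu
    have he := Module.End.hasEigenvalue_of_isRoot (f := (u : Module.End F W)) hr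
    obtain ⟨w, hw⟩ := he.exists_hasEigenvector
    exact h mu w hw.2 hw.apply_eq_smul
  have hqe : q = (Polynomial.X - Polynomial.C lam) ^ q.roots.card := by
    have h1 := hsplit.eq_prod_roots_of_monic hmonic
    have h2 : q.roots = Multiset.replicate q.roots.card lam :=
      Multiset.eq_replicate.mpr ⟨rfl, hroots⟩
    have h3 : (q.roots.map fun a => Polynomial.X - Polynomial.C a).prod =
        (Polynomial.X - Polynomial.C lam) ^ q.roots.card := by
      conv_lhs => rw [h2]
      rw [Multiset.map_replicate, Multiset.prod_replicate]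
    exact h1.trans h3
  have hp : 1 < p := (Fact.out : p.Prime).one_lt
  obtain ⟨s, hs⟩ : ∃ s : ℕ, q.roots.card ≤ p ^ s :=
    ⟨q.roots.card, (Nat.lt_pow_self hp).le⟩
  refine ⟨s, fun w => ?_⟩
  have hdvd : q ∣ (Polynomial.X - Polynomial.C lam) ^ (p ^ s) := by
    rw [hqe]
    exact pow_dvd_pow _ hs
  have hpoly : (Polynomial.X - Polynomial.C lam : Polynomial F) ^ (p ^ s) =
      Polynomial.X ^ (p ^ s) - Polynomial.C lam ^ (p ^ s) := sub_pow_char_pow _ _ _
  have h0 : Polynomial.aeval (u : Module.End F W)
      ((Polynomial.X - Polynomial.C lam : Polynomial F) ^ (p ^ s)) = 0 := by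
    obtain ⟨r, hr⟩ := hdvd
    rw [hr, map_mul, hq, minpoly.aeval, zero_mul]
  rw [hpoly, ← Polynomial.C_pow, map_sub, map_pow, Polynomial.aeval_X, Polynomial.aeval_C,
    sub_eq_zero] at h0
  rw [h0]
  rfl

end Pool.ACH
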