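import Pool.Agent.Helper20.ACH.Defs

/-! Project ACH (MP_9d9192_al). -/

set_option autoImplicit false

namespace Pool.ACH

variable {G : Type} [Group G] {P0 P1 P2 P3 : Type} [AddCommGroup P0] [AddCommGroup P1]
    [AddCommGroup P2] [AddCommGroup P3] [DistribMulAction G P0] [DistribMulAction G P1]
    [DistribMulAction G P2] [DistribMulAction G P3]

private theorem R4_comp {D : PD3Data G P0 P1 P2 P3} {θ σ : MulAut G} (R : Rev D θ)
    (S : Rev D σ) : Nonempty (Rev D (θ * θ * σ : MulAut G)) := by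
  refine ⟨{
    F0 := R.F0.comp (R.F0.comp S.F0)
    F1 := R.F1.comp (R.F1.comp S.F1)
    F2 := R.F2.comp (R.F2.comp S.F2)
    F3 := R.F3.comp (R.F3.comp S.F3)
    F0_smul := fun g p => ?_
    F1_smul := fun g p => ?_
    F2_smul := fun g p => ?_
    F3_smul := fun g p => ?_
    ε_F0 := fun p => ?_
    comm0 := fun p => ?_
    comm1 := fun p => ?_
    comm2 := fun p => ?_
    ψ := S.ψ - R.ψ.comp S.F2 + R.ψ.comp (R.F2.comp S.F2)
    ψ_fs := ?_
    rev := fun p => ?_ }⟩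
  · simp only [AddMonoidHom.comp_apply, S.F0_smul, R.F0_smul]
    rfl
  · simp only [AddMonoidHom.comp_apply, S.F1_smul, R.F1_smul]
    rfl
  · simp only [AddMonoidHom.comp_apply, S.F2_smul, R.F2_smul]
    rfl
  · simp only [AddMonoidHom.comp_apply, S.F3_smul, R.F3_smul]
    rfl
  · simp only [AddMonoidHom.comp_apply, R.ε_F0, S.ε_F0]
  · simp only [AddMonoidHom.comp_apply, R.comm0, S.comm0]
  · simp only [AddMonoidHom.comp_apply, R.comm1, S.comm1]
  · simp only [AddMonoidHom.comp_apply, R.comm2, S.comm2]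
  · refine (S.ψ_fs.sub (R.ψ_fs.comp_semi σ S.F2 S.F2_smul)).add
      (R.ψ_fs.comp_semi (θ * σ : MulAut G) (R.F2.comp S.F2) fun g p => ?_)
    simp only [AddMonoidHom.comp_apply, S.F2_smul, R.F2_smul]
    rfl
  · simp only [AddMonoidHom.comp_apply, AddMonoidHom.add_apply, AddMonoidHom.sub_apply, R.rev,
      S.rev, S.comm2, R.comm2]
    ring

/-- PIECE ACH-R4 (60 lines).  Odd powers.  First: if `R : Rev D θ` and `S : Rev D σ` then
`Nonempty (Rev D ((θ * θ * σ : MulAut G)))` with `F_i = R.F_i ∘ R.F_i ∘ S.F_i`, since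
`z(RRS p) = -z(R S p) + ψ_R(d2 R S p) = z(S p) - ψ_R(d2 S p) + ψ_R(d2 R S p) = -z p + ψ_S(d2 p)
- ψ_R(S d2 p) + ψ_R(R S d2 p)`.  Then induct. -/
theorem Achiral.pow {θ : MulAut G} (hA : Achiral G θ) {m : ℕ} (hm : Odd m) :
    Achiral G (θ ^ m : MulAut G) := by
  obtain ⟨P0, P1, P2, P3, _, _, _, _, _, _, _, _, D, ⟨R⟩⟩ := hA
  refine ⟨P0, P1, P2, P3, inferInstance, inferInstance, inferInstance, inferInstance,
    inferInstance, inferInstance, inferInstance, inferInstance, D, ?_⟩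
  obtain ⟨k, rfl⟩ := hm
  induction k with
  | zero =>
    rw [mul_zero, zero_add, pow_one]
    exact ⟨R⟩
  | succ k ih =>
    obtain ⟨S⟩ := ih
    have h : (θ ^ (2 * (k + 1) + 1) : MulAut G) = θ * θ * θ ^ (2 * k + 1) := by
      rw [show 2 * (k + 1) + 1 = 2 + (2 * k + 1) by ring, pow_add, sq]
    rw [h]
    exact R4_comp R S

end Pool.ACH
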