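import Pool.Agent.Helper20.ACH.OD4
import Pool.Agent.Helper20.ACH.OD6
import Pool.Agent.Helper20.ACH.OD7
import Pool.Agent.Helper20.ACH.R4

/-! Project ACH (MP_9d9192_al). -/

set_option autoImplicit false

namespace Pool.ACH

variable {G : Type} [Group G]

/-- Scalar extension of a homomorphism to the prime field. -/
private noncomputable def OD8_ext (p : ℕ) [Fact p.Prime] (F : Type) [Field F]
    [Algebra (ZMod p) F] (a : Hm G (ZMod p)) : Hm G F :=
  ⟨fun g => algebraMap (ZMod p) F (a.1 g), fun g h => by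
    show algebraMap (ZMod p) F (a.1 (g * h)) = _
    rw [a.2 g h, map_add]⟩

private theorem OD8_exists_ne {F : Type} [Field F] (a : Hm G F) (ha : a ≠ 0) :
    ∃ g, a.1 g ≠ 0 := by
  by_contra h
  push Not at h
  exact ha (by ext g; exact h g)

/-- Proportional eigenvectors have the same eigenvalue. -/
private theorem OD8_eq {F : Type} [Field F] {θ : G ≃* G} (α β : Hm G F) (hα0 : α ≠ 0)
    (hβ0 : β ≠ 0) (h : ∀ g h, α.1 g * β.1 h = α.1 h * β.1 g) (a b : F)
    (hα : ∀ g, α.1 (θ g) = a * α.1 g) (hβ : ∀ g, β.1 (θ g) = b * β.1 g) : a = b := by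
  obtain ⟨g0, hg0⟩ := OD8_exists_ne α hα0
  obtain ⟨h0, hh0⟩ := OD8_exists_ne β hβ0
  have h1 : α.1 h0 ≠ 0 := by
    intro h2
    have h3 := h g0 h0
    rw [h2, zero_mul] at h3
    exact mul_ne_zero hg0 hh0 h3
  have h4 := h (θ h0) h0
  rw [hα, hβ] at h4
  have h5 : (a - b) * (α.1 h0 * β.1 h0) = 0 := by linear_combination h4
  rcases mul_eq_zero.1 h5 with h6 | h6
  · exact sub_eq_zero.1 h6
  · exact absurd h6 (mul_ne_zero h1 hh0)

private theorem OD8_pow {F : Type} [Field F] (θ : MulAut G) (n : ℕ) (w : Hm G F) (g : G) :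
    ((pb (F := F) θ ^ n : Module.End F (Hm G F)) w).1 g = w.1 ((θ ^ n : MulAut G) g) := by
  induction n generalizing w with
  | zero => simp
  | succ n ih =>
    rw [pow_succ, Module.End.mul_apply, ih, pb_apply, pow_succ', MulAut.mul_apply]

/-- An eigenvalue has square `-1`. -/
private theorem OD8_sq {θ : G ≃* G} (hA : Achiral G θ) (hF : FAb G) (p : ℕ) [Fact p.Prime]
    (hp : p ≠ 2) {F : Type} [Field F] [CharP F p] [IsAlgClosed F] (mu : F) (w : Hm G F)
    (hw0 : w ≠ 0) (hw : ∀ g, w.1 (θ g) = mu * w.1 g) : mu * mu = -1 := by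
  have hmu : mu ≠ 0 := by
    rintro rfl
    apply hw0
    apply pb_injective θ
    ext g
    rw [pb_apply, hw, zero_mul, map_zero]
    rfl
  obtain ⟨β, hβ0, hβ⟩ := eig_closure hA hF p hp mu w hw0 hw
  have h1 : mu * -mu⁻¹ = -1 := by field_simp
  have h2 := OD8_eq w β hw0 hβ0 (lemmaK hA hF p hp w β mu (-mu⁻¹) hw hβ (Or.inr h1)) mu (-mu⁻¹)
    hw hβ
  rw [← h2] at h1
  exact h1

/-- Some odd power of `θ` acts by a scalar of square `-1`. -/
private theorem OD8_scalar {θ : MulAut G} (hA : Achiral G θ) (hF : FAb G) (p : ℕ) [Fact p.Prime]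
    (hp : p ≠ 2) {F : Type} [Field F] [CharP F p] [IsAlgClosed F] (v : Hm G F) (hv : v ≠ 0) :
    ∃ (n : ℕ) (mu : F), Odd n ∧ mu * mu = -1 ∧
      ∀ (w : Hm G F) (g : G), w.1 ((θ ^ n : MulAut G) g) = mu * w.1 g := by
  have hfd : FiniteDimensional F (Hm G F) := finite_Hm hA.fg F
  have hnt : Nontrivial (Hm G F) := ⟨v, 0, hv⟩
  obtain ⟨lam, hlam⟩ := Module.End.exists_eigenvalue (pb (F := F) θ : Module.End F (Hm G F))
  obtain ⟨α, hα⟩ := hlam.exists_hasEigenvector
  have hα0 : α ≠ 0 := hα.2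
  have hα1 : ∀ g, α.1 (θ g) = lam * α.1 g := by
    intro g
    have h1 := congrArg (fun x : Hm G F => x.1 g) hα.apply_eq_smul
    exact h1
  have hl2 : lam * lam = -1 := OD8_sq hA hF p hp lam α hα0 hα1
  have huniq : ∀ (mu : F) (w : Hm G F), w ≠ 0 → pb θ w = mu • w → mu = lam := by
    intro mu w hw0 hw
    have hw1 : ∀ g, w.1 (θ g) = mu * w.1 g := by
      intro g
      have h1 := congrArg (fun x : Hm G F => x.1 g) hw
      exact h1
    have hm2 : mu * mu = -1 := OD8_sq hA hF p hp mu w hw0 hw1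
    have h2 : mu = lam ∨ mu = -lam := mul_self_eq_mul_self_iff.1 (hm2.trans hl2.symm)
    rcases h2 with h2 | h2
    · exact h2
    · have h3 : lam * mu = 1 := by
        rw [h2, mul_neg, hl2, neg_neg]
      exact (OD8_eq α w hα0 hw0 (lemmaK hA hF p hp α w lam mu hα1 hw1 (Or.inl h3)) lam mu
        hα1 hw1).symm
  obtain ⟨s, hs⟩ := pow_scalar p (pb (F := F) θ) lam huniq
  have hodd : Odd (p ^ s) := ((Fact.out : p.Prime).odd_of_ne_two hp).pow
  refine ⟨p ^ s, lam ^ (p ^ s), hodd, ?_, ?_⟩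
  · rw [← mul_pow, hl2, hodd.neg_one_pow]
  · intro w g
    rw [← OD8_pow, hs w]
    rfl

/-- PIECE ACH-OD8 (120 lines).  Main theorem for odd `p`.  Suppose the dimension is at least two;
let `F = AlgebraicClosure (ZMod p)`; `Hm G F` has dimension at least two (two independent
homomorphisms to `𝔽_p` stay independent over `F`), and is finite-dimensional; so `u = pb θ` has an
eigenvalue `lam`.  Let `lam` be any eigenvalue with eigenvector `α`, and `β` that of `-lam⁻¹`
(`eig_closure`).  By `lemmaK` (product `-1`) `α, β` are proportional, so `lam = -lam⁻¹`,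
`lam² = -1`.  Two eigenvalues `lam ≠ lam'` would satisfy `lam' = -lam`, product `-lam² = 1`, and
by `lemmaK` their eigenvectors are proportional, a contradiction.  So `lam` is the only
eigenvalue, and by `pow_scalar` `θ^(p^s)` acts on `Hm G F` by the scalar `lam^(p^s)`, whose square
is `(-1)^(p^s) = -1`.  `θ^(p^s)` is reversing (`Achiral.pow`).  Apply `lemmaK` to it and
to two independent elements of `Hm G F`, a contradiction. -/
theorem odd_main {θ : MulAut G} (hA : Achiral G θ) (hF : FAb G) (p : ℕ) [Fact p.Prime]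
    (hp : p ≠ 2) : Module.finrank (ZMod p) (Hm G (ZMod p)) ≤ 1 := by
  classical
  let F := AlgebraicClosure (ZMod p)
  have hchar : CharP F p := inferInstance
  have hinj : Function.Injective (algebraMap (ZMod p) F) := (algebraMap (ZMod p) F).injective
  by_cases h0 : ∀ a : Hm G (ZMod p), a = 0
  · exact finrank_le_one 0 fun w => ⟨0, by rw [h0 w, smul_zero]⟩
  push Not at h0
  obtain ⟨v, hv⟩ := h0
  obtain ⟨g0, hg0⟩ := OD8_exists_ne v hv
  have hv' : OD8_ext p F v ≠ 0 := by
    intro h1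
    have h2 := congrArg (fun x : Hm G F => x.1 g0) h1
    have h3 : algebraMap (ZMod p) F (v.1 g0) = 0 := h2
    rw [map_eq_zero_iff _ hinj] at h3
    exact hg0 h3
  obtain ⟨n, mu, hn, hmu, hsc⟩ := OD8_scalar hA hF p hp (OD8_ext p F v) hv'
  refine finrank_le_one v fun w => ⟨w.1 g0 / v.1 g0, ?_⟩
  ext h
  have h1 := lemmaK (hA.pow hn) hF p hp (OD8_ext p F v) (OD8_ext p F w) mu mu
    (hsc _) (hsc _) (Or.inr hmu) g0 h
  have h2 : algebraMap (ZMod p) F (v.1 g0 * w.1 h) = algebraMap (ZMod p) F (v.1 h * w.1 g0) := by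
    rw [map_mul, map_mul]
    exact h1
  have h3 := hinj h2
  show w.1 g0 / v.1 g0 * v.1 h = w.1 h
  field_simp
  linear_combination -h3

end Pool.ACH
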