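import Pool.Agent.Helper20.ACH.H1

/-! Project ACH (MP_9d9192_al): obstruction classes of bilinear functions (cup products). -/

set_option autoImplicit false

namespace Pool.ACH

/-- Homomorphisms `G → F`, as a subspace of the functions. -/
def Hm (G F : Type) [Group G] [Field F] : Submodule F (G → F) where
  carrier := {α | ∀ g h, α (g * h) = α g + α h}
  zero_mem' := fun _ _ => by simp
  add_mem' := fun {a b} ha hb g h => by
    simp only [Pi.add_apply, ha g h, hb g h]; ring
  smul_mem' := fun c a ha g h => by
    simp only [Pi.smul_apply, smul_eq_mul, ha g h]; ring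

/-- Biadditive functions `G × G → F`. -/
def Bl (G F : Type) [Group G] [Field F] : Submodule F (G → G → F) where
  carrier := {B | (∀ g h k, B (g * h) k = B g k + B h k) ∧
    (∀ g h k, B g (h * k) = B g h + B g k)}
  zero_mem' := ⟨fun _ _ _ => by simp, fun _ _ _ => by simp⟩
  add_mem' := fun {a b} ha hb => ⟨fun g h k => by
    simp only [Pi.add_apply, ha.1 g h k, hb.1 g h k]; ring, fun g h k => by
    simp only [Pi.add_apply, ha.2 g h k, hb.2 g h k]; ring⟩
  smul_mem' := fun c a ha => ⟨fun g h k => by
    simp only [Pi.smul_apply, smul_eq_mul, ha.1 g h k]; ring, fun g h k => by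
    simp only [Pi.smul_apply, smul_eq_mul, ha.2 g h k]; ring⟩

/-- `α ⊗ β`. -/
def tens {G F : Type} [Group G] [Field F] (α β : Hm G F) : Bl G F :=
  ⟨fun g h => α.1 g * β.1 h, fun g h k => by simp only [α.2 g h]; ring,
    fun g h k => by simp only [β.2 h k]; ring⟩

@[simp] theorem tens_apply {G F : Type} [Group G] [Field F] (α β : Hm G F) (g h : G) :
    (tens α β).1 g h = α.1 g * β.1 h := rfl

variable {G : Type} [Group G] {P0 P1 P2 P3 : Type} [AddCommGroup P0] [AddCommGroup P1]
    [AddCommGroup P2] [AddCommGroup P3] [DistribMulAction G P0] [DistribMulAction G P1]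
    [DistribMulAction G P2] [DistribMulAction G P3] {F : Type} [Field F]

namespace PD3Data

variable (D : PD3Data G P0 P1 P2 P3)

/-- The twisted lift: `w(h p) = w(p) + q(B h)(p)`. -/
noncomputable def lift1 (B : G → G → F) : P1 →+ F :=
  D.b1.lift (fun j g => D.q (B g) (D.b1.e j))

/-- The cocycle representing the obstruction class. -/
noncomputable def ob (B : G → G → F) : P2 →+ F := (D.lift1 B).comp D.d1

theorem ob_d2 (B : G → G → F) (p : P3) : D.ob B (D.d2 p) = 0 := by
  rw [ob, AddMonoidHom.coe_comp, Function.comp_apply, D.d1_d2, map_zero]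

end PD3Data

end Pool.ACH
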