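import Pool.Agent.Helper20.ACH.Defs

/-! Project ACH (MP_9d9192_al): the third cohomology in terms of the resolution. -/

set_option autoImplicit false

namespace Pool.ACH

variable {G : Type} [Group G] {P0 P1 P2 P3 : Type} [AddCommGroup P0] [AddCommGroup P1]
    [AddCommGroup P2] [AddCommGroup P3] [DistribMulAction G P0] [DistribMulAction G P1]
    [DistribMulAction G P2] [DistribMulAction G P3]

namespace PD3Data

variable (D : PD3Data G P0 P1 P2 P3)

/-- The degree of `φ : P3 → ℤ` of finite support: `φ = deg φ • z + ψ ∘ d2`. -/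
noncomputable def deg (φ : P3 →+ ℤ) (h : IsFs G φ) : ℤ := (D.D3 φ h).choose

theorem deg_spec (φ : P3 →+ ℤ) (h : IsFs G φ) :
    ∃ ψ : P2 →+ ℤ, IsFs G ψ ∧ φ = D.deg φ h • D.z + ψ.comp D.d2 :=
  (D.D3 φ h).choose_spec

theorem deg_unique (φ : P3 →+ ℤ) (h : IsFs G φ) (n : ℤ) (ψ : P2 →+ ℤ) (hψ : IsFs G ψ)
    (e : φ = n • D.z + ψ.comp D.d2) : D.deg φ h = n := by
  obtain ⟨ψ', hψ', e'⟩ := D.deg_spec φ h
  have : (D.deg φ h - n) • D.z = (ψ - ψ').comp D.d2 := by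
    rw [sub_smul, AddMonoidHom.sub_comp, sub_eq_sub_iff_add_eq_add, ← e', e, add_comm]
  have := D.D3' _ _ (hψ.sub hψ') this
  omega

theorem deg_z : D.deg D.z D.z_fs = 1 :=
  D.deg_unique _ _ 1 0 IsFs.zero (by simp)

theorem deg_comp (ψ : P2 →+ ℤ) (hψ : IsFs G ψ) (h : IsFs G (ψ.comp D.d2)) :
    D.deg (ψ.comp D.d2) h = 0 :=
  D.deg_unique _ _ 0 ψ hψ (by simp)

end PD3Data

end Pool.ACH
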