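import Pool.Agent.Helper20.ACH.HmBase

/-! Project ACH (MP_9d9192_al): the subgroup generated by the squares. -/

set_option autoImplicit false

namespace Pool.ACH

/-- The common kernel of all homomorphisms to `𝔽₂`. -/
def Ph (G : Type) [Group G] : Subgroup G where
  carrier := {g | ∀ a : Hm G (ZMod 2), a.1 g = 0}
  one_mem' := fun a => Hm.map_one a
  mul_mem' := fun {x y} hx hy a => by rw [Hm.map_mul, hx a, hy a, add_zero]
  inv_mem' := fun {x} hx a => by rw [Hm.map_inv, hx a, neg_zero]

variable {G : Type} [Group G]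

theorem mem_Ph {g : G} : g ∈ Ph G ↔ ∀ a : Hm G (ZMod 2), a.1 g = 0 := Iff.rfl

instance : (Ph G).Normal where
  conj_mem x hx g a := by rw [Hm.map_conj]; exact hx a

theorem Ph_theta (θ : G ≃* G) (g : G) : θ g ∈ Ph G ↔ g ∈ Ph G := by
  constructor
  · intro h a
    have := h (pb θ.symm a)
    simpa using this
  · intro h a
    exact h (pb θ a)

theorem sq_mem_Ph (g : G) : g ^ 2 ∈ Ph G := by
  intro a
  rw [Hm.map_pow]
  have : ((2 : ℕ) : ZMod 2) = 0 := by decide
  rw [this, zero_mul]

theorem comm_mem_Ph (g h : G) : g * h * g⁻¹ * h⁻¹ ∈ Ph G := by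
  intro a
  rw [Hm.map_mul, Hm.map_conj, Hm.map_inv, add_neg_cancel]

/-- The subgroup of `G` generated by the squares of the elements of `H`. -/
def sq (H : Subgroup G) : Subgroup G := Subgroup.closure {x | ∃ h ∈ H, h ^ 2 = x}

theorem sq_mem_sq {H : Subgroup G} {x : G} (hx : x ∈ H) : x ^ 2 ∈ sq H :=
  Subgroup.subset_closure ⟨x, hx, rfl⟩

/-- Functions with biadditive defect. -/
def Kap (G : Type) [Group G] : Submodule (ZMod 2) (G → ZMod 2) where
  carrier := {κ | (fun g h => κ (g * h) - κ g - κ h) ∈ Bl G (ZMod 2)}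
  zero_mem' := by
    show (fun g h : G => (0 : G → ZMod 2) (g * h) - (0 : G → ZMod 2) g - (0 : G → ZMod 2) h)
      ∈ Bl G (ZMod 2)
    have : (fun g h : G => (0 : G → ZMod 2) (g * h) - (0 : G → ZMod 2) g - (0 : G → ZMod 2) h)
      = 0 := by
      funext g h; simp
    rw [this]; exact Submodule.zero_mem _
  add_mem' := fun {a b} ha hb => by
    show (fun g h : G => (a + b) (g * h) - (a + b) g - (a + b) h) ∈ Bl G (ZMod 2)
    have : (fun g h : G => (a + b) (g * h) - (a + b) g - (a + b) h)
      = (fun g h => a (g * h) - a g - a h) + (fun g h => b (g * h) - b g - b h) := by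
      funext g h; simp only [Pi.add_apply]; ring
    rw [this]; exact Submodule.add_mem _ ha hb
  smul_mem' := fun c a ha => by
    show (fun g h : G => (c • a) (g * h) - (c • a) g - (c • a) h) ∈ Bl G (ZMod 2)
    have : (fun g h : G => (c • a) (g * h) - (c • a) g - (c • a) h)
      = c • (fun g h => a (g * h) - a g - a h) := by
      funext g h; simp only [Pi.smul_apply, smul_eq_mul]; ring
    rw [this]; exact Submodule.smul_mem _ _ ha

/-- The homomorphisms `Ph G → 𝔽₂` which are restrictions of functions with biadditive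
defect. -/
def KI (G : Type) [Group G] : Submodule (ZMod 2) (Hm (Ph G) (ZMod 2)) where
  carrier := {r | ∃ κ ∈ Kap G, ∀ x : Ph G, r.1 x = κ x}
  zero_mem' := ⟨0, Submodule.zero_mem _, fun x => rfl⟩
  add_mem' := fun {a b} ha hb => by
    obtain ⟨κ, h1, h2⟩ := ha
    obtain ⟨κ', h1', h2'⟩ := hb
    exact ⟨κ + κ', Submodule.add_mem _ h1 h1', fun x => by
      show a.1 x + b.1 x = κ x + κ' x
      rw [h2, h2']⟩
  smul_mem' := fun c a ha => by
    obtain ⟨κ, h1, h2⟩ := ha
    exact ⟨c • κ, Submodule.smul_mem _ _ h1, fun x => by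
      show c * a.1 x = c * κ x
      rw [h2]⟩

end Pool.ACH
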