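import Pool.Agent.Helper20.ACH.Defs

/-! Project ACH (MP_9d9192_al). -/

set_option autoImplicit false

namespace Pool.ACH

variable {G : Type} [Group G] {P : Type} [AddCommGroup P] [DistribMulAction G P]

/-- PIECE ACH-R1 (25 lines).  `{h ∈ H | φ(h⁻¹p) ≠ 0}` is the preimage of a finite set under the
injective map `H → G`. -/
theorem IsFs.restrict {φ : P →+ ℤ} (hφ : IsFs G φ) (H : Subgroup G) : IsFs H φ := by
  intro p
  have h1 : ((fun h : H => (h : G)) ⁻¹' {g : G | φ (g⁻¹ • p) ≠ 0}).Finite :=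
    (hφ p).preimage Subtype.val_injective.injOn
  refine h1.subset fun h hh => ?_
  exact hh

/-- PIECE ACH-R1.  Write `G = ⋃ t H`, `t = q.out`, `g = t h`, `g⁻¹ p = h⁻¹ (t⁻¹ p)`, so
`{g | φ(g⁻¹ p) ≠ 0} = ⋃_t t • {h ∈ H | φ(h⁻¹ (t⁻¹ p)) ≠ 0}`, a finite union of finite sets. -/
theorem IsFs.of_restrict {φ : P →+ ℤ} (H : Subgroup G) (hH : H.index ≠ 0) (hφ : IsFs H φ) :
    IsFs G φ := by
  intro p
  have : H.FiniteIndex := ⟨hH⟩
  have : Finite (G ⧸ H) := Subgroup.finite_quotient_of_finiteIndex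
  have h1 : (⋃ q : G ⧸ H, (fun h : H => q.out * (h : G)) ''
      {h : H | φ (h⁻¹ • (q.out⁻¹ • p)) ≠ 0}).Finite :=
    Set.finite_iUnion fun q => (hφ _).image _
  refine h1.subset fun g hg => ?_
  have hm : (g : G ⧸ H).out⁻¹ * g ∈ H := QuotientGroup.eq.1 (Quotient.out_eq' _)
  refine Set.mem_iUnion.2 ⟨(g : G ⧸ H), ⟨⟨(g : G ⧸ H).out⁻¹ * g, hm⟩, ?_, ?_⟩⟩
  · have e : (⟨(g : G ⧸ H).out⁻¹ * g, hm⟩ : H)⁻¹ • ((g : G ⧸ H).out⁻¹ • p) = g⁻¹ • p := by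
      rw [Subgroup.smul_def, smul_smul]
      congr 1
      simp
    have hg' : φ (g⁻¹ • p) ≠ 0 := hg
    show φ ((⟨(g : G ⧸ H).out⁻¹ * g, hm⟩ : H)⁻¹ • ((g : G ⧸ H).out⁻¹ • p)) ≠ 0
    rw [e]
    exact hg'
  · show (g : G ⧸ H).out * ((g : G ⧸ H).out⁻¹ * g) = g
    simp

end Pool.ACH
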