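import Pool.Agent.Helper20.ACH.R1

/-! Project ACH (MP_9d9192_al). -/

set_option autoImplicit false

namespace Pool.ACH

variable {G : Type} [Group G] {P : Type} [AddCommGroup P] [DistribMulAction G P]

private noncomputable def R2_equiv (H : Subgroup G) : (G ⧸ H) × H ≃ G where
  toFun x := (x.2 : G) * (x.1.out)⁻¹
  invFun g := (((g⁻¹ : G) : G ⧸ H), ⟨g * ((g⁻¹ : G) : G ⧸ H).out, by
    have h1 : (((g⁻¹ : G) : G ⧸ H).out : G ⧸ H) = ((g⁻¹ : G) : G ⧸ H) := QuotientGroup.out_eq' _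
    have h2 := QuotientGroup.eq.mp h1.symm
    simpa using h2⟩)
  left_inv x := by
    obtain ⟨q, h⟩ := x
    have h1 : ((((h : G) * (q.out)⁻¹)⁻¹ : G) : G ⧸ H) = q := by
      rw [mul_inv_rev, inv_inv]
      conv_rhs => rw [← QuotientGroup.out_eq' q]
      rw [QuotientGroup.eq]
      simp
    ext
    · simp only
      exact h1
    · simp only
      rw [h1]
      simp
  right_inv g := by simp

private lemma R2_fs (φ : P →+ ℤ) (hφ : IsFs G φ) (H : Subgroup G) (t : G) :
    IsFs H (rt t φ) := by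
  intro p
  have h1 := (hφ p).preimage (f := fun h : H => (h : G) * t⁻¹) (by
    intro a _ b _ hab
    simpa using hab)
  refine h1.subset fun h hh => ?_
  simp only [Set.mem_preimage, Set.mem_ofPred_eq, mul_inv_rev, inv_inv]
  simp only [Set.mem_ofPred_eq, rt_apply, Subgroup.smul_def, smul_smul, Subgroup.coe_inv] at hh
  exact hh

/-- PIECE ACH-R2 (60 lines).  Restriction of a dual basis to a subgroup of finite index.
`G` is the disjoint union of the right cosets `H t`, `t = q.out⁻¹`, `q ∈ G ⧸ H`.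
Take `J' = b.J × (G ⧸ H)`, `φ'(j,q)(p) = φ_j (q.out • p)`, `e'(j,q) = q.out⁻¹ • e_j`.
In `p = Σ_j Σ_g φ_j(g⁻¹p) g e_j` write `g = h t`: `φ_j(t⁻¹ h⁻¹ p) (h t e_j)`. -/
theorem DB.restrict (b : DB G P) (H : Subgroup G) (hH : H.index ≠ 0) : Nonempty (DB H P) := by
  classical
  have : H.FiniteIndex := ⟨hH⟩
  have : Finite (G ⧸ H) := inferInstance
  have : Fintype (G ⧸ H) := Fintype.ofFinite _
  refine ⟨⟨b.J × (G ⧸ H), inferInstance, fun x => rt (x.2.out) (b.φ x.1),
    fun x => (x.2.out)⁻¹ • b.e x.1, fun x => R2_fs _ (b.fs x.1) H _, ?_⟩⟩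
  intro p
  conv_lhs => rw [b.span p]
  rw [Fintype.sum_prod_type]
  refine Finset.sum_congr rfl fun j _ => ?_
  rw [← finsum_comp_equiv (R2_equiv H), finsum_curry, finsum_eq_sum_of_fintype]
  · refine Finset.sum_congr rfl fun q _ => finsum_congr fun h => ?_
    change (b.φ j) (((h : G) * (q.out)⁻¹)⁻¹ • p) • (((h : G) * (q.out)⁻¹) • b.e j) = _
    rw [mul_inv_rev, inv_inv, rt_apply, Subgroup.smul_def, Subgroup.smul_def, smul_smul, smul_smul,
      Subgroup.coe_inv]
  · exact (tw_supp (b.φ j) (b.fs j) (fun g => g • b.e j) p).preimage (R2_equiv H).injective.injOn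

end Pool.ACH
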