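import Pool.Agent.Helper20.ACH.Defs

/-! Project ACH (MP_9d9192_al). -/

set_option autoImplicit false

namespace Pool.ACH

variable {G : Type} [Group G]

private theorem R3_smul {P : Type} [AddCommGroup P] [DistribMulAction G P] (θ : G ≃* G) (c : G)
    (F : P →+ P) (hF : ∀ (g : G) (p : P), F (g • p) = θ g • F p) (g : G) (p : P) :
    ((DistribSMul.toAddMonoidHom P c).comp F) (g • p) =
      conjAut c θ g • ((DistribSMul.toAddMonoidHom P c).comp F) p := by
  show c • F (g • p) = conjAut c θ g • c • F p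
  rw [hF, smul_smul, smul_smul, conjAut_apply, inv_mul_cancel_right]

/-- PIECE ACH-R3 (40 lines).  Inner twists: take `F'_i(p) = c • F_i(p)`; then
`z(c F_3 p) = z(F_3 p) + γ(d2 F_3 p) = -z p + ψ(d2 p) + γ(F_2 d2 p)` where `γ` is the map given by
`D.ori c`; so `ψ' = ψ + γ ∘ F_2`, of finite support by `IsFs.comp_semi`. -/
theorem Achiral.conj {θ : G ≃* G} (hA : Achiral G θ) (c : G) : Achiral G (conjAut c θ) := by
  obtain ⟨P0, P1, P2, P3, i1, i2, i3, i4, i5, i6, i7, i8, D, ⟨R⟩⟩ := hA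
  obtain ⟨γ, hγ, hγz⟩ := D.ori c
  refine ⟨P0, P1, P2, P3, i1, i2, i3, i4, i5, i6, i7, i8, D, ⟨?_⟩⟩
  refine
    { F0 := (DistribSMul.toAddMonoidHom P0 c).comp R.F0
      F1 := (DistribSMul.toAddMonoidHom P1 c).comp R.F1
      F2 := (DistribSMul.toAddMonoidHom P2 c).comp R.F2
      F3 := (DistribSMul.toAddMonoidHom P3 c).comp R.F3
      F0_smul := R3_smul θ c R.F0 R.F0_smul
      F1_smul := R3_smul θ c R.F1 R.F1_smul
      F2_smul := R3_smul θ c R.F2 R.F2_smul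
      F3_smul := R3_smul θ c R.F3 R.F3_smul
      ε_F0 := fun p => ?_
      comm0 := fun p => ?_
      comm1 := fun p => ?_
      comm2 := fun p => ?_
      ψ := R.ψ + γ.comp R.F2
      ψ_fs := R.ψ_fs.add (hγ.comp_semi θ R.F2 R.F2_smul)
      rev := fun p => ?_ }
  · show D.ε (c • R.F0 p) = D.ε p
    rw [D.ε_smul, R.ε_F0]
  · show c • R.F0 (D.d0 p) = D.d0 (c • R.F1 p)
    rw [D.d0_smul, R.comm0]
  · show c • R.F1 (D.d1 p) = D.d1 (c • R.F2 p)
    rw [D.d1_smul, R.comm1]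
  · show c • R.F2 (D.d2 p) = D.d2 (c • R.F3 p)
    rw [D.d2_smul, R.comm2]
  · show D.z (c • R.F3 p) = - D.z p + (R.ψ (D.d2 p) + γ (R.F2 (D.d2 p)))
    rw [hγz, R.rev, ← R.comm2]
    ring

end Pool.ACH
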