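import Pool.Agent.Helper20.ACH.HmBase

/-! Project ACH (MP_9d9192_al): cyclic `p`-groups. -/

set_option autoImplicit false

namespace Pool.ACH

private theorem SA_hom (P : Type) [Group P] [Finite P] (p : ℕ) [Fact p.Prime]
    (hP : IsPGroup p P) (M : Subgroup P) (hM : IsCoatom M) :
    ∃ a : Hm P (ZMod p), ∀ g, a.1 g = 0 ↔ g ∈ M := by
  haveI : Group.IsNilpotent P := hP.isNilpotent
  haveI hN : M.Normal :=
    Subgroup.NormalizerCondition.normal_of_coatom M Group.normalizerCondition_of_isNilpotent hM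
  have hQ : IsPGroup p (P ⧸ M) := hP.to_quotient M
  have hsimple : ∀ H : Subgroup (P ⧸ M), H = ⊥ ∨ H = ⊤ := by
    intro H
    have h1 : M ≤ H.comap (QuotientGroup.mk' M) := by
      intro x hx
      rw [Subgroup.mem_comap, QuotientGroup.mk'_apply, (QuotientGroup.eq_one_iff x).2 hx]
      exact H.one_mem
    rcases hM.le_iff.1 h1 with h2 | h2
    · right
      rw [eq_top_iff]
      intro x _
      obtain ⟨g, rfl⟩ := QuotientGroup.mk_surjective x
      have h3 : g ∈ H.comap (QuotientGroup.mk' M) := by rw [h2]; trivial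
      exact h3
    · left
      rw [eq_bot_iff]
      intro x hx
      obtain ⟨g, rfl⟩ := QuotientGroup.mk_surjective x
      have h3 : g ∈ H.comap (QuotientGroup.mk' M) := hx
      rw [h2] at h3
      exact (QuotientGroup.eq_one_iff g).2 h3
  have hcard : Nat.card (P ⧸ M) = p := by
    obtain ⟨k, hk⟩ := IsPGroup.iff_card.1 hQ
    have hk0 : k ≠ 0 := by
      rintro rfl
      rw [pow_zero] at hk
      apply hM.1
      rw [← Subgroup.index_eq_one]
      exact hk
    have hdvd : p ^ 1 ∣ Nat.card (P ⧸ M) := by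
      rw [hk]
      exact pow_dvd_pow p (Nat.one_le_iff_ne_zero.2 hk0)
    obtain ⟨H, hH⟩ := Sylow.exists_subgroup_card_pow_prime p hdvd
    rw [pow_one] at hH
    rcases hsimple H with h | h
    · rw [h, Subgroup.card_bot] at hH
      exact absurd hH.symm (Fact.out : p.Prime).one_lt.ne'
    · rw [h, Subgroup.card_top] at hH
      exact hH
  have hcard' : Nat.card (Multiplicative (ZMod p)) = p := by
    rw [Nat.card_congr Multiplicative.toAdd, Nat.card_zmod]
  let e : P ⧸ M ≃* Multiplicative (ZMod p) := mulEquivOfPrimeCardEq hcard hcard'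
  refine ⟨⟨fun g => Multiplicative.toAdd (e (g : P ⧸ M)), fun g h => ?_⟩, fun g => ?_⟩
  · change Multiplicative.toAdd (e ((g * h : P) : P ⧸ M)) = _
    rw [QuotientGroup.mk_mul, map_mul]
    rfl
  · change Multiplicative.toAdd (e (g : P ⧸ M)) = 0 ↔ _
    rw [toAdd_eq_zero, EmbeddingLike.map_eq_one_iff, QuotientGroup.eq_one_iff]

/-- PIECE ACH-SA (90 lines).  A finite `p`-group `P` with `dim Hom(P, 𝔽_p) ≤ 1` is cyclic.
If `P` is trivial this is clear.  Otherwise let `M` be a maximal subgroup (coatom); it is normal of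
index `p` (`P` nilpotent), the kernel of a nonzero homomorphism to `ℤ/p`.  Any two nonzero
homomorphisms `P → 𝔽_p` are proportional, so `M` is the only maximal subgroup.  For `x ∉ M` the
subgroup generated by `x` is not contained in a maximal subgroup, so is `P`. -/
theorem cyclic_of_finrank (P : Type) [Group P] [Finite P] (p : ℕ) [Fact p.Prime]
    (hP : IsPGroup p P) (h : Module.finrank (ZMod p) (Hm P (ZMod p)) ≤ 1) : IsCyclic P := by
  haveI : Module.Finite (ZMod p) (Hm P (ZMod p)) := by
    unfold Hm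
    infer_instance
  obtain ⟨v, hv⟩ := finrank_le_one_iff.1 h
  have huniq : ∀ M M' : Subgroup P, IsCoatom M → IsCoatom M' → M ≤ M' := by
    intro M M' hM hM' g hg
    obtain ⟨a, ha⟩ := SA_hom P p hP M hM
    obtain ⟨a', ha'⟩ := SA_hom P p hP M' hM'
    obtain ⟨c, hc⟩ := hv a
    obtain ⟨c', hc'⟩ := hv a'
    have hc0 : c ≠ 0 := by
      rintro rfl
      apply hM.1
      rw [eq_top_iff]
      intro x _
      rw [← ha x, ← hc]
      exact zero_mul _
    have h1 : a.1 g = 0 := (ha g).2 hg
    have h2 : c * v.1 g = 0 := by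
      rw [← hc] at h1
      exact h1
    have h3 : v.1 g = 0 := (mul_eq_zero.1 h2).resolve_left hc0
    rw [← ha' g, ← hc']
    change c' * v.1 g = 0
    rw [h3, mul_zero]
  rcases eq_top_or_exists_le_coatom (⊥ : Subgroup P) with h0 | ⟨M, hM, _⟩
  · haveI : Subsingleton P := Subgroup.subsingleton_iff.1 (subsingleton_of_bot_eq_top h0)
    infer_instance
  · have hne : ∃ x, x ∉ M := by
      by_contra hcon
      push Not at hcon
      exact hM.1 (eq_top_iff.2 fun x _ => hcon x)
    obtain ⟨x, hx⟩ := hne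
    rcases eq_top_or_exists_le_coatom (Subgroup.zpowers x) with h1 | ⟨M', hM', h1⟩
    · exact ⟨x, fun y => by
        have : y ∈ Subgroup.zpowers x := by rw [h1]; trivial
        exact this⟩
    · exact absurd (huniq M' M hM' hM (h1 (Subgroup.mem_zpowers x))) hx

end Pool.ACH
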