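import Pool.Agent.Helper20.ACH.PhBase
import Pool.Agent.Helper20.ACH.HM

/-! Project ACH (MP_9d9192_al): the prime two. -/

set_option autoImplicit false

namespace Pool.ACH

variable {G : Type} [Group G]

/-- Evaluation. -/
private def TD_ev (G : Type) [Group G] :
    G →* Multiplicative (Module.Dual (ZMod 2) (Hm G (ZMod 2))) where
  toFun g := Multiplicative.ofAdd
    { toFun := fun a => a.1 g
      map_add' := fun _ _ => rfl
      map_smul' := fun _ _ => rfl }
  map_one' := by
    apply Multiplicative.toAdd.injective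
    ext a
    exact Hm.map_one a
  map_mul' g h := by
    apply Multiplicative.toAdd.injective
    ext a
    exact Hm.map_mul a g h

private theorem TD_ev_apply (g : G) (a : Hm G (ZMod 2)) :
    Multiplicative.toAdd (TD_ev G g) a = a.1 g := rfl

private theorem TD_ker : (TD_ev G).ker = Ph G := by
  ext g
  rw [MonoidHom.mem_ker, mem_Ph]
  constructor
  · intro h a
    rw [← TD_ev_apply, h]
    rfl
  · intro h
    apply Multiplicative.toAdd.injective
    ext a
    exact h a

/-- PIECE ACH-TD (40 lines).  `Ph G` has finite index if `G` is finitely generated: it is the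
kernel of `G → (B → 𝔽₂)`, `B` a finite set (basis) of homomorphisms. -/
theorem Ph_index (hfg : Group.FG G) : (Ph G).index ≠ 0 := by
  have : FiniteDimensional (ZMod 2) (Hm G (ZMod 2)) := finite_Hm hfg (ZMod 2)
  have : Finite (Module.Dual (ZMod 2) (Hm G (ZMod 2))) := Module.finite_of_finite (ZMod 2)
  have : Finite (Multiplicative (Module.Dual (ZMod 2) (Hm G (ZMod 2)))) :=
    inferInstanceAs (Finite (Module.Dual (ZMod 2) (Hm G (ZMod 2))))
  rw [← TD_ker, Subgroup.index_ker]
  exact Nat.card_pos.ne'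

private theorem TD_sq_normal : (sq (⊤ : Subgroup G)).Normal := by
  constructor
  intro n hn g
  have h1 : (sq (⊤ : Subgroup G)) ≤ (sq (⊤ : Subgroup G)).comap (MulAut.conj g).toMonoidHom := by
    unfold sq
    rw [Subgroup.closure_le]
    rintro _ ⟨h, _, rfl⟩
    have h2 : (MulAut.conj g) (h ^ 2) = (MulAut.conj g h) ^ 2 := map_pow _ _ _
    exact Subgroup.subset_closure ⟨MulAut.conj g h, Subgroup.mem_top _, h2.symm⟩
  exact h1 hn

private theorem TD_sep {Q : Type} [Group Q] (hQ : ∀ x : Q, x ^ 2 = 1) (x : Q)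
    (h : ∀ a : Hm Q (ZMod 2), a.1 x = 0) : x = 1 := by
  have hc : ∀ a b : Q, a * b = b * a := by
    intro a b
    have h1 : ∀ y : Q, y⁻¹ = y := by
      intro y
      have := hQ y
      rw [pow_two] at this
      exact inv_eq_of_mul_eq_one_left this
    have h2 := h1 (a * b)
    rw [mul_inv_rev, h1, h1] at h2
    exact h2.symm
  let : CommGroup Q := { (inferInstance : Group Q) with mul_comm := hc }
  let : Module (ZMod 2) (Additive Q) := AddCommGroup.zmodModule (n := 2) (fun y => hQ y.toMul)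
  have h3 : Additive.ofMul x = 0 := by
    rw [← Module.forall_dual_apply_eq_zero_iff (ZMod 2)]
    intro φ
    exact h ⟨fun g => φ (Additive.ofMul g), fun g k => φ.map_add _ _⟩
  exact h3

/-- PIECE ACH-TD (60 lines).  `Ph G` is generated by the squares: `N = sq ⊤` is normal, `G ⧸ N` has
exponent two, so it is an `𝔽₂`-vector space, on which linear functionals separate points. -/
theorem Ph_eq_sq : Ph G = sq (⊤ : Subgroup G) := by
  apply le_antisymm
  · intro g hg
    have : (sq (⊤ : Subgroup G)).Normal := TD_sq_normal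
    have h1 : ∀ x : G ⧸ sq (⊤ : Subgroup G), x ^ 2 = 1 := by
      intro x
      obtain ⟨y, rfl⟩ := QuotientGroup.mk_surjective x
      rw [← QuotientGroup.mk_pow, QuotientGroup.eq_one_iff]
      exact sq_mem_sq (Subgroup.mem_top y)
    have h2 : (g : G ⧸ sq (⊤ : Subgroup G)) = 1 := by
      apply TD_sep h1
      intro a
      exact hg ⟨fun g => a.1 (g : G ⧸ sq (⊤ : Subgroup G)), fun g k =>
        a.2 (g : G ⧸ sq (⊤ : Subgroup G)) (k : G ⧸ sq (⊤ : Subgroup G))⟩
    exact (QuotientGroup.eq_one_iff g).1 h2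
  · unfold sq
    rw [Subgroup.closure_le]
    rintro _ ⟨h, _, rfl⟩
    exact sq_mem_Ph h

/-- PIECE ACH-TD (40 lines).  The index of `Ph G` is `2 ^ dim Hm G (ZMod 2)`: the pairing between
`G ⧸ Ph G` and `Hm G (ZMod 2)` is perfect. -/
theorem Ph_index_eq (hfg : Group.FG G) :
    (Ph G).index = 2 ^ Module.finrank (ZMod 2) (Hm G (ZMod 2)) := by
  have : FiniteDimensional (ZMod 2) (Hm G (ZMod 2)) := finite_Hm hfg (ZMod 2)
  have : Finite (Module.Dual (ZMod 2) (Hm G (ZMod 2))) := Module.finite_of_finite (ZMod 2)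
  obtain ⟨W, hW⟩ : ∃ W : Submodule (ZMod 2) (Module.Dual (ZMod 2) (Hm G (ZMod 2))),
      ∀ φ, φ ∈ W ↔ ∃ g, TD_ev G g = Multiplicative.ofAdd φ := by
    refine ⟨AddSubgroup.toZModSubmodule 2 (Subgroup.toAddSubgroup' (TD_ev G).range), fun φ => ?_⟩
    rfl
  have h1 : W.dualCoannihilator = ⊥ := by
    rw [Submodule.eq_bot_iff]
    intro a ha
    rw [Submodule.mem_dualCoannihilator] at ha
    ext g
    have h2 := ha (Multiplicative.toAdd (TD_ev G g)) ((hW _).2 ⟨g, rfl⟩)
    exact h2
  have h2 : W = ⊤ := by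
    rw [← Subspace.dualCoannihilator_dualAnnihilator_eq (W := W), h1,
      Submodule.dualAnnihilator_bot]
  have h3 : (TD_ev G).range = ⊤ := by
    rw [Subgroup.eq_top_iff']
    intro φ
    have h4 : Multiplicative.toAdd φ ∈ W := by
      rw [h2]
      exact Submodule.mem_top
    obtain ⟨g, hg⟩ := (hW _).1 h4
    exact ⟨g, hg⟩
  rw [← TD_ker, Subgroup.index_ker, h3, Nat.card_congr (Subgroup.topEquiv).toEquiv,
    Nat.card_congr Multiplicative.toAdd, Module.natCard_eq_pow_finrank (K := ZMod 2),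
    Subspace.dual_finrank_eq, Nat.card_zmod]

/-- PIECE ACH-TD (20 lines).  `Ph H`, seen in `G`, is `sq H` (from `Ph_eq_sq` for `H`). -/
theorem Ph_map (H : Subgroup G) : (Ph H).map H.subtype = sq H := by
  rw [Ph_eq_sq]
  unfold sq
  rw [MonoidHom.map_closure]
  congr 1
  ext x
  constructor
  · rintro ⟨_, ⟨h, _, rfl⟩, rfl⟩
    exact ⟨h, h.2, rfl⟩
  · rintro ⟨h, hh, rfl⟩
    exact ⟨⟨h, hh⟩ ^ 2, ⟨⟨h, hh⟩, Subgroup.mem_top _, rfl⟩, rfl⟩

end Pool.ACH
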