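import Pool.Agent.Helper20.ACH.HM
import Pool.Agent.Helper20.ACH.A8
import Pool.Agent.Helper20.ACH.Restr
import Pool.Agent.Helper20.ACH.R3
import Pool.Agent.Helper20.ACH.R5
import Pool.Agent.Helper20.ACH.O6
import Pool.Agent.Helper20.ACH.TD

/-! Project ACH (MP_9d9192_al): the prime two, `d = 2`. -/

set_option autoImplicit false

namespace Pool.ACH

variable {G : Type} [Group G]

private theorem TK_aux {θ : G ≃* G} (hA : Achiral G θ) (hF : FAb G) (H : Subgroup G)
    (hH : H.index ≠ 0) (h : ∀ g, θ g ∈ H ↔ g ∈ H) (b : H →* Multiplicative (ZMod 4))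
    (hb : Function.Surjective b) (hθ : ∀ x : H, b (resAut θ H h x) = b x) : False := by
  have h1 : b.ker.index = 4 := by
    rw [Subgroup.index_ker, MonoidHom.range_eq_top.2 hb,
      Nat.card_congr (Subgroup.topEquiv).toEquiv, Nat.card_congr Multiplicative.toAdd,
      Nat.card_zmod]
  have h2 := index_dvd_two (hA.restrict H hH h) (hF.restrict H hH) b.ker (by rw [h1]; norm_num)
    (fun x => by
      rw [MonoidHom.mem_ker, map_mul, map_inv, hθ, inv_mul_cancel])
  rw [h1] at h2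
  norm_num at h2

/-- The lift `ZMod 2 → ZMod 4` and the doubling map. -/
private def TK_up (x : ZMod 2) : ZMod 4 := if x = 0 then 0 else 1

private theorem TK_b_add : ∀ b b' k k' : ZMod 2,
    TK_up (b + b') + 2 * TK_up (k + k' + b * b') =
      (TK_up b + 2 * TK_up k) + (TK_up b' + 2 * TK_up k') := by decide

private theorem TK_b_neg : ∀ b k : ZMod 2,
    TK_up b + 2 * TK_up (k + b) = - (TK_up b + 2 * TK_up k) := by decide

private theorem TK_gen : ∀ k : ZMod 2, ∀ y : ZMod 4, ∃ n : Fin 4, n.val • (TK_up 1 + 2 * TK_up k) = y := by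
  decide

/-- PIECE ACH-TK1 (130 lines).  A quotient `ℤ/4`.  Let `H = {g | α g = 0}` (index 2,
`θ`-invariant).  On `H` the defect of `κ` is `β g β h`, so
`b = β̂ + 2κ : H → ZMod 4` (`β̂ ∈ {0,1}` the lift of `β`, `2κ` the image of `κ` under
`ZMod 2 → ZMod 4`, `1 ↦ 2`) is a homomorphism: `β̂(x y) = β̂ x + β̂ y - 2 β(x)β(y)`.  It is onto as
`β ≠ 0` on `H`.  The function `κ∘θ - κ - α β` (product) is a homomorphism `G → 𝔽₂`, by
`β∘θ = β + α`; so by `hall` its restriction to `H` is `0` or `β`: `b∘θ = b` or `b∘θ = -b` on `H`.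
If `b∘θ = b`: `L = ker b` is a normal subgroup of `H` of index `4` with `x⁻¹ θ(x) ∈ L`,
contradicting `index_dvd_two` for `H` with `resAut θ H`.  If `b∘θ = -b`: choose `k ∉ H`; for
`x ∈ H`, `κ(k x k⁻¹) = κ x + B(k,x) - B(x,k) = κ x + β x`, so `b(k x k⁻¹) = -b(x)`, and
`b∘(c_k θ) = b` on `H`; use `conjAut k θ` (`Achiral.conj`) instead of `θ`. -/
theorem no_z4 {θ : G ≃* G} (hA : Achiral G θ) (hF : FAb G) (α β : Hm G (ZMod 2))
    (hα : ∀ g, α.1 (θ g) = α.1 g) (hβ : ∀ g, β.1 (θ g) = β.1 g + α.1 g) (hα0 : α ≠ 0)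
    (hβ0 : β ≠ 0) (hαβ : α ≠ β)
    (hall : ∀ a : Hm G (ZMod 2), a = 0 ∨ a = α ∨ a = β ∨ a = α + β) (κ : G → ZMod 2) (c : ZMod 2)
    (hκ : ∀ g h, κ (g * h) = κ g + κ h
      + (c * α.1 g * α.1 h + α.1 g * β.1 h + β.1 g * β.1 h)) : False := by
  have h01 : ∀ x : ZMod 2, x = 0 ∨ x = 1 := by decide
  have h11 : (1 : ZMod 2) + 1 = 0 := by decide
  -- the subgroup
  obtain ⟨k, hk⟩ : ∃ k, α.1 k = 1 := by
    by_contra hno
    push Not at hno
    apply hα0
    ext g
    rcases h01 (α.1 g) with h | h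
    · exact h
    · exact absurd h (hno g)
  let H : Subgroup G :=
    { carrier := {g | α.1 g = 0}
      one_mem' := Hm.map_one α
      mul_mem' := fun {x y} hx hy => by
        show α.1 (x * y) = 0
        rw [Hm.map_mul, hx, hy, add_zero]
      inv_mem' := fun {x} hx => by
        show α.1 x⁻¹ = 0
        rw [Hm.map_inv, hx, neg_zero] }
  have hmem : ∀ g, g ∈ H ↔ α.1 g = 0 := fun g => Iff.rfl
  have hind : H.index ≠ 0 := by
    obtain ⟨L, _, hL, hL2⟩ := ker_index hA.fg 2 α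
    have : L = H := by
      ext g
      rw [hL2, hmem]
    rw [← this]
    exact hL
  obtain ⟨s, hsH, hs⟩ : ∃ s, s ∈ H ∧ β.1 s = 1 := by
    by_contra hno
    push Not at hno
    have h0 : ∀ s, α.1 s = 0 → β.1 s = 0 := by
      intro s h
      rcases h01 (β.1 s) with h1 | h1
      · exact h1
      · exact absurd h1 (hno s h)
    have hg : ∀ g, β.1 g = β.1 k * α.1 g := by
      intro g
      rcases h01 (α.1 g) with h | h
      · rw [h, mul_zero]; exact h0 g h
      · have h2 := h0 (k * g) (by rw [Hm.map_mul, hk, h, h11])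
        rw [Hm.map_mul] at h2
        rw [h, mul_one]
        have h3 : ∀ x y : ZMod 2, x + y = 0 → y = x := by decide
        exact h3 _ _ h2
    rcases h01 (β.1 k) with h | h
    · apply hβ0
      ext g
      rw [hg, h, zero_mul]; rfl
    · apply hαβ
      ext g
      rw [hg, h, one_mul]
  let b : H →* Multiplicative (ZMod 4) :=
    { toFun := fun x => Multiplicative.ofAdd (TK_up (β.1 x) + 2 * TK_up (κ x))
      map_one' := by
        have h1 : κ 1 = 0 := by
          have := hκ 1 1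
          rw [mul_one, Hm.map_one, Hm.map_one] at this
          have h3 : ∀ x c : ZMod 2, x = x + x + (c * 0 * 0 + 0 * 0 + 0 * 0) → x = 0 := by decide
          exact h3 _ _ this
        show Multiplicative.ofAdd (TK_up (β.1 (1 : G)) + 2 * TK_up (κ (1 : G))) = 1
        rw [h1, Hm.map_one]
        rfl
      map_mul' := fun x y => by
        show Multiplicative.ofAdd (TK_up (β.1 ((x : G) * y)) + 2 * TK_up (κ ((x : G) * y))) =
          Multiplicative.ofAdd ((TK_up (β.1 (x : G)) + 2 * TK_up (κ (x : G)))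
            + (TK_up (β.1 (y : G)) + 2 * TK_up (κ (y : G))))
        rw [← TK_b_add, Hm.map_mul, hκ, (hmem _).1 x.2]
        congr 4
        ring }
  have hbdef : ∀ x : H, b x = Multiplicative.ofAdd (TK_up (β.1 x) + 2 * TK_up (κ x)) := fun x => rfl
  have hb : Function.Surjective b := by
    intro y
    obtain ⟨n, hn⟩ := TK_gen (κ s) (Multiplicative.toAdd y)
    refine ⟨⟨s, hsH⟩ ^ n.val, ?_⟩
    rw [map_pow, hbdef]
    apply Multiplicative.toAdd.injective
    rw [toAdd_pow, toAdd_ofAdd, ← hn]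
    show n.val • (TK_up (β.1 s) + 2 * TK_up (κ s)) = _
    rw [hs]
  have hθH : ∀ g, θ g ∈ H ↔ g ∈ H := by
    intro g
    rw [hmem, hmem, hα]
  -- the homomorphism
  let γ : Hm G (ZMod 2) := ⟨fun g => κ (θ g) - κ g - α.1 g * β.1 g, fun g h => by
    show κ (θ (g * h)) - κ (g * h) - α.1 (g * h) * β.1 (g * h) =
      (κ (θ g) - κ g - α.1 g * β.1 g) + (κ (θ h) - κ h - α.1 h * β.1 h)
    rw [map_mul, hκ, hκ, Hm.map_mul, Hm.map_mul, hα, hα, hβ, hβ]
    generalize κ (θ g) = a1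
    generalize κ (θ h) = a2
    generalize κ g = a3
    generalize κ h = a4
    generalize α.1 g = a5
    generalize α.1 h = a6
    generalize β.1 g = a7
    generalize β.1 h = a8
    have h2 : (2 : ZMod 2) = 0 := by decide
    linear_combination (a5 * a6 - a5 * a8 + a5 * a8) * h2⟩
  have hcase : (∀ x : G, x ∈ H → κ (θ x) = κ x) ∨ (∀ x : G, x ∈ H → κ (θ x) = κ x + β.1 x) := by
    have hγ2 : ∀ x : G, x ∈ H → κ (θ x) = κ x + γ.1 x := by
      intro x hx
      show κ (θ x) = κ x + (κ (θ x) - κ x - α.1 x * β.1 x)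
      rw [(hmem x).1 hx]
      ring
    rcases hall γ with h | h | h | h
    · left
      intro x hx
      rw [hγ2 x hx, h]
      show κ x + 0 = κ x
      rw [add_zero]
    · left
      intro x hx
      rw [hγ2 x hx, h, (hmem x).1 hx, add_zero]
    · right
      intro x hx
      rw [hγ2 x hx, h]
    · right
      intro x hx
      rw [hγ2 x hx, h]
      show κ x + (α.1 x + β.1 x) = κ x + β.1 x
      rw [(hmem x).1 hx, zero_add]
  have hβH : ∀ x : G, x ∈ H → β.1 (θ x) = β.1 x := by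
    intro x hx
    rw [hβ, (hmem x).1 hx, add_zero]
  rcases hcase with h | h
  · refine TK_aux hA hF H hind hθH b hb ?_
    intro x
    rw [hbdef, hbdef, coe_resAut, hβH _ x.2, h _ x.2]
  · have hkH : ∀ g, conjAut k θ g ∈ H ↔ g ∈ H := by
      intro g
      rw [hmem, hmem, conjAut_apply, Hm.map_conj, hα]
    refine TK_aux (hA.conj k) hF H hind hkH b hb ?_
    intro x
    have hx : α.1 (θ x) = 0 := by rw [hα]; exact x.2
    have hconj : κ (k * θ x * k⁻¹) = κ (θ x) + β.1 (θ x) := by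
      have e1 := hκ (k * θ x * k⁻¹) k
      rw [inv_mul_cancel_right, hκ k, Hm.map_conj, Hm.map_conj, hx, hk] at e1
      linear_combination (-1 : ZMod 2) * e1
    rw [hbdef, hbdef, coe_resAut, conjAut_apply, Hm.map_conj, hconj, hβH _ x.2, h _ x.2,
      TK_b_neg, TK_b_neg, neg_neg]

private theorem TK2_zmod (x : ZMod 2) : x = 0 ∨ x = 1 := by
  revert x
  decide

private theorem TK2_two (x : ZMod 2) : x + x = 0 := by
  revert x
  decide

private theorem TK2_one (α : Hm G (ZMod 2)) (hα0 : α ≠ 0) : ∃ s, α.1 s = 1 := by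
  by_contra h
  apply hα0
  ext g
  rcases TK2_zmod (α.1 g) with h1 | h1
  · exact h1
  · exact absurd ⟨g, h1⟩ h

private theorem TK2_beta (α β : Hm G (ZMod 2)) (hα0 : α ≠ 0) (hβ0 : β ≠ 0) (hαβ : α ≠ β) :
    ∃ h, α.1 h = 0 ∧ β.1 h = 1 := by
  obtain ⟨s, hs⟩ := TK2_one α hα0
  by_contra hn
  have hz : ∀ h, α.1 h = 0 → β.1 h = 0 := by
    intro h h0
    rcases TK2_zmod (β.1 h) with h1 | h1
    · exact h1
    · exact absurd ⟨h, h0, h1⟩ hn
  have hk : ∀ g, α.1 g = 1 → β.1 g = β.1 s := by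
    intro g hg
    have h1 : α.1 (s⁻¹ * g) = 0 := by
      rw [Hm.map_mul, Hm.map_inv, hs, hg]
      decide
    have h2 := hz _ h1
    rw [Hm.map_mul, Hm.map_inv] at h2
    linear_combination h2
  rcases TK2_zmod (β.1 s) with h1 | h1
  · apply hβ0
    ext g
    rcases TK2_zmod (α.1 g) with h2 | h2
    · exact hz g h2
    · exact (hk g h2).trans h1
  · apply hαβ
    ext g
    rcases TK2_zmod (α.1 g) with h2 | h2
    · exact h2.trans (hz g h2).symm
    · exact h2.trans ((hk g h2).trans h1).symm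

private theorem TK2_ind (α β : Hm G (ZMod 2)) (hα0 : α ≠ 0) (hβ0 : β ≠ 0)
    (hαβ : α ≠ β) (κ1 κ2 : G → ZMod 2)
    (h1 : ∀ g h, κ1 (g * h) = κ1 g + κ1 h + α.1 g * α.1 h)
    (h2 : ∀ g h, κ2 (g * h) = κ2 g + κ2 h + α.1 g * β.1 h) (a b c : ZMod 2)
    (hz : ∀ h, α.1 h = 0 → a * κ1 h + b * κ2 h + c * β.1 h = 0) : a = 0 ∧ b = 0 ∧ c = 0 := by
  obtain ⟨s, hs⟩ := TK2_one α hα0
  obtain ⟨h, hh0, hh1⟩ := TK2_beta α β hα0 hβ0 hαβ
  -- `b = 0`
  have e1 : α.1 (s * h * s⁻¹) = 0 := by rw [Hm.map_conj, hh0]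
  have e2 := hz _ e1
  have e3 := hz _ hh0
  have hb : b = 0 := by
    have k1 := h1 (s * h * s⁻¹) s
    have k2 := h2 (s * h * s⁻¹) s
    have k3 := h1 s h
    have k4 := h2 s h
    rw [inv_mul_cancel_right] at k1 k2
    rw [e1] at k1 k2
    rw [hs, hh0] at k3
    rw [hs, hh1] at k4
    have k5 : β.1 (s * h * s⁻¹) = 1 := by rw [Hm.map_conj, hh1]
    rw [k5] at e2
    rw [hh1] at e3
    linear_combination e2 - e3 + a * k1 - a * k3 + b * k2 - b * k4
  -- `a = 0`
  have e4 : α.1 (s * s) = 0 := by rw [Hm.map_mul, hs]; decide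
  have e5 := hz _ e4
  have ha : a = 0 := by
    have k1 := h1 s s
    have k2 := TK2_two (κ1 s)
    have k3 := TK2_two (β.1 s)
    rw [Hm.map_mul, hb, k1, k2, k3, hs] at e5
    linear_combination e5
  refine ⟨ha, hb, ?_⟩
  rw [ha, hb, hh1] at e3
  linear_combination e3

/-- PIECE ACH-TK2 (90 lines).  Let `H = {g | α g = 0}`.  On `H` the functions `κ1`, `κ2`, `β` are
homomorphisms to `𝔽₂`; they are independent: let `κ = a κ1 + b κ2 + c β` vanish on `H`; its defect
is `α(g)(a α(h) + b β(h))`.  Let `α(s) = 1`.  For `h ∈ H`: `κ(s h) = κ(s) + b β(h)`, and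
`h s = s (s⁻¹ h s)`, so `κ(s) = κ(h s) = κ(s) + b β(h)`; as `β ≠ 0` on `H`, `b = 0`.  Then
`0 = κ(s²) = 2 κ(s) + a = a`.  So `c β = 0` on `H`, `c = 0`. -/
theorem three_of_aa_ab (hfg : Group.FG G) (α β : Hm G (ZMod 2)) (hα0 : α ≠ 0) (hβ0 : β ≠ 0)
    (hαβ : α ≠ β) (κ1 κ2 : G → ZMod 2)
    (h1 : ∀ g h, κ1 (g * h) = κ1 g + κ1 h + α.1 g * α.1 h)
    (h2 : ∀ g h, κ2 (g * h) = κ2 g + κ2 h + α.1 g * β.1 h)
    (H : Subgroup G) (hH : ∀ g, g ∈ H ↔ α.1 g = 0) (hfgH : Group.FG H) :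
    3 ≤ Module.finrank (ZMod 2) (Hm H (ZMod 2)) := by
  classical
  have := finite_Hm hfgH (ZMod 2)
  have hH0 : ∀ x : H, α.1 (x : G) = 0 := fun x => (hH _).1 x.2
  let a1 : Hm H (ZMod 2) := ⟨fun x => κ1 x, fun x y => by
    show κ1 ((x * y : H) : G) = κ1 x + κ1 y
    rw [Subgroup.coe_mul, h1, hH0 x, zero_mul, add_zero]⟩
  let a2 : Hm H (ZMod 2) := ⟨fun x => κ2 x, fun x y => by
    show κ2 ((x * y : H) : G) = κ2 x + κ2 y
    rw [Subgroup.coe_mul, h2, hH0 x, zero_mul, add_zero]⟩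
  have hli : LinearIndependent (ZMod 2) ![a1, a2, resHm H β] := by
    rw [Fintype.linearIndependent_iff]
    intro f hf
    have hz : ∀ h, α.1 h = 0 → f 0 * κ1 h + f 1 * κ2 h + f 2 * β.1 h = 0 := by
      intro h h0
      have k1 := congrArg (fun x : Hm H (ZMod 2) => x.1 ⟨h, (hH h).2 h0⟩) hf
      rw [Fin.sum_univ_three] at k1
      exact k1
    obtain ⟨k1, k2, k3⟩ := TK2_ind α β hα0 hβ0 hαβ κ1 κ2 h1 h2 _ _ _ hz
    intro i
    fin_cases i
    · exact k1
    · exact k2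
    · exact k3
  have h3 := hli.fintype_card_le_finrank
  simpa using h3

/-- PIECE ACH-TK3 (90 lines).  If `α⊗α` and `β⊗β` are defects then so is `α⊗β` (`d = 2`).  By
`factO` for `F = ZMod 2`, the image of `χ` is a subgroup, so an `𝔽₂`-subspace, so `V`:
`ob(α⊗β) = χ v`.  The last clause of `factO` gives `α v = 0`.  The product function `α β` has
defect `α⊗β + β⊗α`, so `ob(β⊗α) = -ob(α⊗β) = ob(α⊗β) = χ v`, and the last clause for `(β, α)`
gives `β v = 0`.  By `hall` all homomorphisms vanish at `v`, so `v ∈ Ph G = sq ⊤`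
(`Ph_eq_sq`), and `χ v = 0` since `χ(g²) = 2 χ(g) = 0`. -/
theorem ab_of_aa_bb {θ : G ≃* G} (hA : Achiral G θ) (α β : Hm G (ZMod 2))
    (hall : ∀ a : Hm G (ZMod 2), a = 0 ∨ a = α ∨ a = β ∨ a = α + β) (κ1 κ2 : G → ZMod 2)
    (h1 : ∀ g h, κ1 (g * h) = κ1 g + κ1 h + α.1 g * α.1 h)
    (h2 : ∀ g h, κ2 (g * h) = κ2 g + κ2 h + β.1 g * β.1 h) :
    ∃ κ : G → ZMod 2, ∀ g h, κ (g * h) = κ g + κ h + α.1 g * β.1 h := by
  obtain ⟨V, _, _, Φ, χ, ob, hχ, hspan, -, hob, -, hlast⟩ := factO hA (ZMod 2)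
  have h2V : ∀ v : V, v + v = 0 := by
    intro v
    have h3 : ((1 : ZMod 2) + 1) • v = v + v := by rw [add_smul, one_smul]
    rw [← h3]
    have h4 : (1 : ZMod 2) + 1 = 0 := by decide
    rw [h4, zero_smul]
  have hneg : ∀ v : V, -v = v := fun v => neg_eq_of_add_eq_zero_left (h2V v)
  have hχ1 : χ 1 = 0 := by
    have h3 := hχ 1 1
    rw [mul_one] at h3
    exact left_eq_add.1 h3
  have hsurj : ∀ v : V, ∃ g, χ g = v := by
    intro v
    have hv : v ∈ Submodule.span (ZMod 2) (Set.range χ) := by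
      rw [hspan]
      exact Submodule.mem_top
    induction hv using Submodule.span_induction with
    | mem x h => exact h
    | zero => exact ⟨1, hχ1⟩
    | add x y _ _ hx hy =>
      obtain ⟨g, rfl⟩ := hx
      obtain ⟨h, rfl⟩ := hy
      exact ⟨g * h, hχ g h⟩
    | smul c x _ hx =>
      obtain ⟨g, rfl⟩ := hx
      rcases TK2_zmod c with h | h
      · exact ⟨1, by rw [h, zero_smul, hχ1]⟩
      · exact ⟨g, by rw [h, one_smul]⟩
  obtain ⟨v, hv⟩ := hsurj (ob (tens α β))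
  have hα : α.1 v = 0 := hlast α β ⟨κ1, h1⟩ v hv.symm
  have hsum : ob (tens α β + tens β α) = 0 := by
    rw [hob]
    refine ⟨fun g => α.1 g * β.1 g, fun g h => ?_⟩
    show α.1 (g * h) * β.1 (g * h) =
      α.1 g * β.1 g + α.1 h * β.1 h + (α.1 g * β.1 h + β.1 g * α.1 h)
    rw [Hm.map_mul, Hm.map_mul]
    ring
  have hba : ob (tens β α) = χ v := by
    rw [map_add, ← hv] at hsum
    rw [← hneg (ob (tens β α))]
    exact (eq_neg_of_add_eq_zero_left hsum).symm
  have hβ : β.1 v = 0 := hlast β α ⟨κ2, h2⟩ v hba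
  have hPh : v ∈ Ph G := by
    intro a
    rcases hall a with h | h | h | h
    · rw [h]; rfl
    · rw [h]; exact hα
    · rw [h]; exact hβ
    · rw [h]
      show α.1 v + β.1 v = 0
      rw [hα, hβ, add_zero]
  have hzero : ∀ x ∈ sq (⊤ : Subgroup G), χ x = 0 := by
    intro x hx
    unfold sq at hx
    induction hx using Subgroup.closure_induction with
    | mem x h =>
      obtain ⟨g, _, rfl⟩ := h
      rw [pow_two, hχ, h2V]
    | one => exact hχ1
    | mul x y _ _ hx hy => rw [hχ, hx, hy, add_zero]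
    | inv x _ hx =>
      have h3 := hχ x x⁻¹
      rw [mul_inv_cancel, hχ1, hx, zero_add] at h3
      exact h3.symm
  rw [Ph_eq_sq] at hPh
  have h0 : ob (tens α β) = 0 := by rw [← hv, hzero v hPh]
  exact (hob (tens α β)).1 h0

end Pool.ACH
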