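import Pool.Agent.Helper20.ACH.TJ
import Pool.Agent.Helper20.ACH.TK

/-! Project ACH (MP_9d9192_al): the prime two, main theorem. -/

set_option autoImplicit false

namespace Pool.ACH

variable {G : Type} [Group G]

/-- PIECE ACH-TL1 (60 lines).  Normal form for `d = 2`: `u = pb θ` is an automorphism of the
two-dimensional space `Hm G (ZMod 2)` with `u^(2^k) = 1` and at most one nonzero fixed vector
(`two_fixed`).  `u ≠ 1`; `(u - 1)² = 0` (`unip_pow` with `K = 1`); take `β` with `u β ≠ β`,
`α = u β - β`. -/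
theorem exists_basis {θ : G ≃* G} (hA : Achiral G θ) (hF : FAb G)
    (hd : Module.finrank (ZMod 2) (Hm G (ZMod 2)) = 2) (k : ℕ)
    (hk : ∀ a : Hm G (ZMod 2), ((pb θ) ^ (2 ^ k) : Module.End (ZMod 2) _) a = a) :
    ∃ α β : Hm G (ZMod 2), (∀ g, α.1 (θ g) = α.1 g) ∧ (∀ g, β.1 (θ g) = β.1 g + α.1 g) ∧
      α ≠ 0 ∧ β ≠ 0 ∧ α ≠ β ∧ ∀ a : Hm G (ZMod 2), a = 0 ∨ a = α ∨ a = β ∨ a = α + β := by
  classical
  have : FiniteDimensional (ZMod 2) (Hm G (ZMod 2)) :=
    Module.finite_of_finrank_pos (by omega)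
  have : Finite (Hm G (ZMod 2)) := Module.finite_of_finite (ZMod 2)
  have : Fintype (Hm G (ZMod 2)) := Fintype.ofFinite _
  have hcard : Fintype.card (Hm G (ZMod 2)) = 4 := by
    rw [Module.card_eq_pow_finrank (K := ZMod 2) (V := Hm G (ZMod 2)), hd, ZMod.card]
    norm_num
  have h2 : ∀ x : Hm G (ZMod 2), x + x = 0 := by
    intro x
    have h := two_smul (ZMod 2) x
    rw [← h, show (2 : ZMod 2) = 0 from rfl, zero_smul]
  have huu : ∀ x : Hm G (ZMod 2), pb θ (pb θ x) = x := by
    intro x
    have h := unip_pow (pb (F := ZMod 2) θ) k 1 hk (by omega) x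
    rw [pow_one, pow_two] at h
    exact h
  have hex : ∃ b : Hm G (ZMod 2), pb θ b ≠ b := by
    by_contra hcon
    push Not at hcon
    have h3 : ∀ x y : Hm G (ZMod 2), x = 0 ∨ y = 0 ∨ x = y := by
      intro x y
      refine two_fixed hA hF x y (fun g => ?_) (fun g => ?_)
      · rw [← pb_apply θ x g, hcon x]
      · rw [← pb_apply θ y g, hcon y]
    have hle : Fintype.card (Hm G (ZMod 2)) ≤ 2 := by
      by_contra hlt
      push Not at hlt
      have hlt' : 2 < (Finset.univ : Finset (Hm G (ZMod 2))).card := by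
        rw [Finset.card_univ]; exact hlt
      obtain ⟨x, y, z, -, -, -, hxy, hxz, hyz⟩ := Finset.two_lt_card_iff.1 hlt'
      by_cases hx0 : x = 0
      · subst hx0
        rcases h3 y z with h | h | h
        · exact hxy h.symm
        · exact hxz h.symm
        · exact hyz h
      · rcases h3 x y with h | h | h
        · exact hx0 h
        · rcases h3 x z with h' | h' | h'
          · exact hx0 h'
          · exact hyz (h.trans h'.symm)
          · exact hxz h'
        · exact hxy h
    omega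
  obtain ⟨b, hb⟩ := hex
  set a : Hm G (ZMod 2) := pb θ b + b with ha
  have hub : pb θ b = b + a := by
    rw [ha, add_comm (pb θ b) b, ← add_assoc, h2, zero_add]
  have hua : pb θ a = a := by
    rw [ha, map_add, huu, add_comm]
  have ha0 : a ≠ 0 := by
    intro h
    rw [h, add_zero] at hub
    exact hb hub
  have hb0 : b ≠ 0 := by
    intro h
    apply hb
    rw [h, map_zero]
  have hab : a ≠ b := by
    intro h
    apply hb
    rw [← h, hua]
  refine ⟨a, b, fun g => ?_, fun g => ?_, ha0, hb0, hab, ?_⟩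
  · rw [← pb_apply θ a g, hua]
  · rw [← pb_apply θ b g, hub]
    rfl
  · intro c
    by_contra hc
    push Not at hc
    obtain ⟨c0, ca, cb, cab⟩ := hc
    have hs : ({0, a, b, a + b, c} : Finset (Hm G (ZMod 2))).card = 5 := by
      have e1 : (0 : Hm G (ZMod 2)) ≠ a + b := by
        intro h
        apply hab
        have h' : a + b + b = 0 + b := by rw [← h]
        rw [add_assoc, h2, add_zero, zero_add] at h'
        exact h'
      have e2 : a ≠ a + b := by
        intro h
        exact hb0 (left_eq_add.1 h)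
      have e3 : b ≠ a + b := by
        intro h
        exact ha0 (right_eq_add.1 h)
      rw [Finset.card_insert_of_notMem, Finset.card_insert_of_notMem,
        Finset.card_insert_of_notMem, Finset.card_insert_of_notMem, Finset.card_singleton]
      · simp only [Finset.mem_singleton]; exact cab.symm
      · simp only [Finset.mem_insert, Finset.mem_singleton, not_or]
        exact ⟨e3, cb.symm⟩
      · simp only [Finset.mem_insert, Finset.mem_singleton, not_or]
        exact ⟨hab, e2, ca.symm⟩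
      · simp only [Finset.mem_insert, Finset.mem_singleton, not_or]
        exact ⟨ha0.symm, hb0.symm, e1, c0.symm⟩
    have hle := Finset.card_le_univ ({0, a, b, a + b, c} : Finset (Hm G (ZMod 2)))
    omega

private theorem TL2_pb_pow (θ : MulAut G) (n : ℕ) (a : Hm G (ZMod 2)) (g : G) :
    ((pb (F := ZMod 2) θ ^ n : Module.End (ZMod 2) (Hm G (ZMod 2))) a).1 g =
      a.1 ((θ ^ n : MulAut G) g) := by
  induction n generalizing a with
  | zero => simp
  | succ n ih =>
    rw [pow_succ, Module.End.mul_apply, ih, pb_apply, pow_succ', MulAut.mul_apply]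

/-- `α⊗α` and `α⊗β` are not both defects. -/
private theorem TL2_one {θ : MulAut G} (hA : Achiral G θ) (hF : FAb G) (α β : Hm G (ZMod 2))
    (hα : ∀ g, α.1 (θ g) = α.1 g) (hα0 : α ≠ 0) (hβ0 : β ≠ 0) (hαβ : α ≠ β)
    (h1 : ∃ κ : G → ZMod 2, ∀ g h, κ (g * h) = κ g + κ h + α.1 g * α.1 h)
    (h2 : ∃ κ : G → ZMod 2, ∀ g h, κ (g * h) = κ g + κ h + α.1 g * β.1 h) : False := by
  obtain ⟨κ1, h1⟩ := h1
  obtain ⟨κ2, h2⟩ := h2
  have : Fact (Nat.Prime 2) := ⟨Nat.prime_two⟩
  obtain ⟨H, -, hi, hH⟩ := ker_index hA.fg 2 α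
  have hθ : ∀ g, θ g ∈ H ↔ g ∈ H := fun g => by rw [hH, hH, hα]
  have hA' : Achiral H (resAut θ H hθ) := hA.restrict H hi hθ
  have hF' : FAb H := hF.restrict H hi
  have h3 := three_of_aa_ab hA.fg α β hα0 hβ0 hαβ κ1 κ2 h1 h2 H hH hA'.fg
  have h4 := two_le_two (θ := (resAut θ H hθ : MulAut H)) hA' hF'
  omega

/-- PIECE ACH-TL2 (170 lines).  `d = 2` is impossible.  Replace `θ` by the odd power of
`exists_odd_pow` and take `α, β` of `exists_basis`.  Let `E(B)` mean that `B` is a defect.  `E` is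
additive, `E(α⊗β + β⊗α)` (product function), and `E(B) → E(B∘θ)`.
(1) `¬(E(αα) ∧ E(αβ))`: `three_of_aa_ab` and `two_le_two` for `H = ker α`.
(2) `¬(E(αα) ∧ E(ββ))`: `ab_of_aa_bb` and (1).
(3) `¬E(c αα + αβ + ββ)`: `no_z4`.
(4) If `E(x αα + y αβ + z ββ)` then, applying `θ` and adding, `E((y+z) αα)` (modulo `αβ + βα`).
So by (1), (2), (3): the only `(x,y,z)` with `E(x αα + y αβ + z ββ)` are multiples of `(1,0,0)`
(if `y ≠ z`, then `E(αα)` and one of `E(αβ)`, `E(ββ)`; if `y = z = 1` use (3)).
With `V` of `factO`, `dim V ≤ 2` (`finrank_V_le`): the three elements `ob(αα), ob(αβ), ob(ββ)` are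
dependent, so `E(αα)`, and `ob(αβ), ob(ββ)` are independent, so a basis of `V`.
`Φ ob(αβ) = ob(αα + αβ) = ob(αβ)`, `Φ ob(ββ) = ob(αα + αβ + βα + ββ) = ob(ββ)`; so `Φ = id`, and
`χ(θ⁻¹ g) = -Φ(χ g) = χ(g)`.  The map `f ↦ f∘χ` from the dual of `V` (dimension 2) to
`Hm G (ZMod 2)` (dimension 2) is injective, so surjective: `β = f∘χ`, so `β∘θ = β`, a
contradiction. -/
theorem two_ne_two {θ : MulAut G} (hA : Achiral G θ) (hF : FAb G) :
    Module.finrank (ZMod 2) (Hm G (ZMod 2)) ≠ 2 := by
  intro hd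
  have hfg : Group.FG G := hA.fg
  obtain ⟨m, hm, k, hk⟩ := exists_odd_pow hfg θ
  have hA' : Achiral G (θ ^ m : MulAut G) := hA.pow hm
  generalize (θ ^ m : MulAut G) = σ at hA' hk
  have hk' : ∀ a : Hm G (ZMod 2), ((pb σ) ^ (2 ^ k) : Module.End (ZMod 2) _) a = a := by
    intro a
    ext g
    rw [TL2_pb_pow, hk]
  obtain ⟨α, β, hα, hβ, hα0, hβ0, hαβ, hall⟩ := exists_basis hA' hF hd k hk'
  obtain ⟨V, _, _, Φ, χ, ob, hχ, hspan, hΦχ, hob, hobΦ, -⟩ := factO hA' (ZMod 2)
  obtain ⟨hV, hVd⟩ := finrank_V_le hfg V χ hχ hspan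
  rw [hd] at hVd
  have h01 : ∀ x : ZMod 2, x = 0 ∨ x = 1 := by decide
  have hxx : ∀ x : ZMod 2, x + x = 0 := by decide
  have hvv : ∀ v : V, v + v = 0 := by
    intro v
    rw [← two_smul (ZMod 2) v, show (2 : ZMod 2) = 0 from rfl, zero_smul]
  -- the obstructions
  have haa : ob (tens α α) = 0 ↔ ∃ κ : G → ZMod 2, ∀ g h, κ (g * h) = κ g + κ h + α.1 g * α.1 h :=
    hob (tens α α)
  have hab : ob (tens α β) = 0 ↔ ∃ κ : G → ZMod 2, ∀ g h, κ (g * h) = κ g + κ h + α.1 g * β.1 h :=
    hob (tens α β)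
  have hbb : ob (tens β β) = 0 ↔ ∃ κ : G → ZMod 2, ∀ g h, κ (g * h) = κ g + κ h + β.1 g * β.1 h :=
    hob (tens β β)
  have hsym : ob (tens α β) + ob (tens β α) = 0 := by
    rw [← map_add, hob]
    refine ⟨fun g => α.1 g * β.1 g, fun g h => ?_⟩
    change α.1 (g * h) * β.1 (g * h) = α.1 g * β.1 g + α.1 h * β.1 h +
      (α.1 g * β.1 h + β.1 g * α.1 h)
    rw [Hm.map_mul, Hm.map_mul]
    ring
  have hba : ob (tens β α) = ob (tens α β) := by
    have h := hvv (ob (tens α β))
    rw [← hsym] at h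
    exact (add_left_cancel h).symm
  have hΦaa : Φ (ob (tens α α)) = ob (tens α α) := by
    rw [← hobΦ (tens α α) (tens α α)]
    intro g h
    rw [tens_apply, tens_apply, hα, hα]
  have hΦab : Φ (ob (tens α β)) = ob (tens α α) + ob (tens α β) := by
    rw [← map_add, ← hobΦ (tens α β) (tens α α + tens α β)]
    intro g h
    change α.1 g * α.1 h + α.1 g * β.1 h = α.1 (σ g) * β.1 (σ h)
    rw [hα, hβ]
    ring
  have hΦbb : Φ (ob (tens β β)) = ob (tens α α) + ob (tens β β) := by
    have h1 : Φ (ob (tens β β)) =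
        ob (tens α α) + ob (tens α β) + ob (tens β α) + ob (tens β β) := by
      rw [← map_add, ← map_add, ← map_add,
        ← hobΦ (tens β β) (tens α α + tens α β + tens β α + tens β β)]
      intro g h
      change α.1 g * α.1 h + α.1 g * β.1 h + β.1 g * α.1 h + β.1 g * β.1 h =
        β.1 (σ g) * β.1 (σ h)
      rw [hβ, hβ]
      ring
    rw [h1, add_assoc (ob (tens α α)), hsym, add_zero]
  -- (1), (2), (3)
  have n1 : ob (tens α α) = 0 → ob (tens α β) = 0 → False := fun h1 h2 =>
    TL2_one hA' hF α β hα hα0 hβ0 hαβ (haa.1 h1) (hab.1 h2)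
  have n2 : ob (tens α α) = 0 → ob (tens β β) = 0 → False := by
    intro h1 h2
    obtain ⟨κ1, e1⟩ := haa.1 h1
    obtain ⟨κ2, e2⟩ := hbb.1 h2
    exact n1 h1 (hab.2 (ab_of_aa_bb hA' α β hall κ1 κ2 e1 e2))
  have n3 : ∀ c : ZMod 2,
      c • ob (tens α α) + ob (tens α β) + ob (tens β β) = 0 → False := by
    intro c h
    rw [← map_smul, ← map_add, ← map_add, hob] at h
    obtain ⟨κ, hκ⟩ := h
    refine no_z4 hA' hF α β hα hβ hα0 hβ0 hαβ hall κ c fun g h => ?_
    rw [hκ]
    change κ g + κ h + (c * (α.1 g * α.1 h) + α.1 g * β.1 h + β.1 g * β.1 h) = _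
    ring
  -- (4)
  have n4 : ∀ x y z : ZMod 2,
      x • ob (tens α α) + y • ob (tens α β) + z • ob (tens β β) = 0 → y = 0 ∧ z = 0 := by
    intro x y z h
    have h1 : (y + z) • ob (tens α α) = 0 := by
      have h2 := congrArg Φ h
      rw [map_add, map_add, map_smul, map_smul, map_smul, hΦaa, hΦab, hΦbb, map_zero, smul_add,
        smul_add] at h2
      have h3 : x • ob (tens α α) + (y • ob (tens α α) + y • ob (tens α β)) +
          (z • ob (tens α α) + z • ob (tens β β)) =
          (x • ob (tens α α) + y • ob (tens α β) + z • ob (tens β β)) +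
            (y + z) • ob (tens α α) := by
        rw [add_smul]
        abel
      rw [h3, h, zero_add] at h2
      exact h2
    rcases h01 y with rfl | rfl <;> rcases h01 z with rfl | rfl
    · exact ⟨rfl, rfl⟩
    · exfalso
      rw [zero_add, one_smul] at h1
      rw [h1, smul_zero, zero_smul, zero_add, zero_add, one_smul] at h
      exact n2 h1 h
    · exfalso
      rw [add_zero, one_smul] at h1
      rw [h1, smul_zero, zero_smul, zero_add, add_zero, one_smul] at h
      exact n1 h1 h
    · exfalso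
      rw [one_smul, one_smul] at h
      exact n3 x h
  -- the first obstruction vanishes
  have haa0 : ob (tens α α) = 0 := by
    by_contra hne
    have hli : LinearIndependent (ZMod 2) ![ob (tens α α), ob (tens α β), ob (tens β β)] := by
      rw [Fintype.linearIndependent_iff]
      intro c hc
      rw [Fin.sum_univ_three] at hc
      change c 0 • ob (tens α α) + c 1 • ob (tens α β) + c 2 • ob (tens β β) = 0 at hc
      obtain ⟨h1, h2⟩ := n4 _ _ _ hc
      rw [h1, h2, zero_smul, zero_smul, add_zero, add_zero] at hc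
      have h0 : c 0 = 0 := by
        rcases h01 (c 0) with h | h
        · exact h
        · exfalso
          rw [h, one_smul] at hc
          exact hne hc
      intro i
      fin_cases i
      · exact h0
      · exact h1
      · exact h2
    have h3 := hli.fintype_card_le_finrank
    rw [Fintype.card_fin] at h3
    omega
  -- the other two are a basis
  have hli : LinearIndependent (ZMod 2) ![ob (tens α β), ob (tens β β)] := by
    rw [LinearIndependent.pair_iff]
    intro s t h
    refine n4 0 s t ?_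
    rw [zero_smul, zero_add]
    exact h
  have hV2 : Module.finrank (ZMod 2) V = 2 := by
    have h3 := hli.fintype_card_le_finrank
    rw [Fintype.card_fin] at h3
    omega
  have htop : Submodule.span (ZMod 2) (Set.range ![ob (tens α β), ob (tens β β)]) = ⊤ :=
    hli.span_eq_top_of_card_eq_finrank' (by rw [Fintype.card_fin, hV2])
  have hΦ : Φ = LinearMap.id := by
    refine LinearMap.ext_on_range htop ?_
    intro i
    fin_cases i
    · change Φ (ob (tens α β)) = ob (tens α β)
      rw [hΦab, haa0, zero_add]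
    · change Φ (ob (tens β β)) = ob (tens β β)
      rw [hΦbb, haa0, zero_add]
  have hχσ : ∀ g, χ (σ g) = χ g := by
    intro g
    have h1 := hΦχ (σ g)
    rw [MulEquiv.symm_apply_apply, hΦ, LinearMap.id_apply] at h1
    rw [h1]
    exact (eq_neg_of_add_eq_zero_left (hvv (χ g))).symm
  -- duality
  have : FiniteDimensional (ZMod 2) (Hm G (ZMod 2)) := finite_Hm hfg (ZMod 2)
  let Ψ : Module.Dual (ZMod 2) V →ₗ[ZMod 2] Hm G (ZMod 2) :=
    { toFun := fun f => ⟨fun g => f (χ g), fun g h => by
        change f (χ (g * h)) = f (χ g) + f (χ h)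
        rw [hχ, map_add]⟩
      map_add' := fun a b => by ext g; rfl
      map_smul' := fun c a => by ext g; rfl }
  have hΨ : Function.Injective Ψ := by
    intro a b hab
    have h1 : ∀ g, a (χ g) = b (χ g) := fun g => congrArg (fun x : Hm G (ZMod 2) => x.1 g) hab
    exact LinearMap.ext_on_range (v := χ) hspan h1
  have hΨs : Function.Surjective Ψ := by
    rw [← LinearMap.injective_iff_surjective_of_finrank_eq_finrank]
    · exact hΨ
    · rw [Subspace.dual_finrank_eq, hV2, hd]
  obtain ⟨f, hf⟩ := hΨs β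
  apply hα0
  ext g
  have h1 := hβ g
  rw [← hf] at h1
  change f (χ (σ g)) = f (χ g) + α.1 g at h1
  rw [hχσ] at h1
  exact (left_eq_add.1 h1)

theorem two_main {θ : MulAut G} (hA : Achiral G θ) (hF : FAb G) :
    Module.finrank (ZMod 2) (Hm G (ZMod 2)) ≤ 1 := by
  have h1 := two_le_two hA hF
  have h2 := two_ne_two hA hF
  omega

end Pool.ACH
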