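import Pool.Agent.Helper20.ACH.OD8
import Pool.Agent.Helper20.ACH.TL

/-! Project ACH (MP_9d9192_al): `dim Hom(G, 𝔽_p) ≤ 1` for all primes. -/

set_option autoImplicit false

namespace Pool.ACH

variable {G : Type} [Group G]

theorem all_main {θ : MulAut G} (hA : Achiral G θ) (hF : FAb G) (p : ℕ) [Fact p.Prime] :
    Module.finrank (ZMod p) (Hm G (ZMod p)) ≤ 1 := by
  by_cases hp : p = 2
  · subst hp
    exact two_main hA hF
  · exact odd_main hA hF p hp

end Pool.ACH
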