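import Pool.Agent.Helper20.ACH.Restr

/-! Project ACH (MP_9d9192_al): the Frattini argument. -/

set_option autoImplicit false

namespace Pool.ACH

variable {G : Type} [Group G]

open scoped Pointwise in
/-- PIECE ACH-SC (60 lines).  `θ̄(P)` is a Sylow subgroup of `G ⧸ L`, so conjugate to `P`: there is
`c` with `c θ(g) c⁻¹ ∈ P` modulo `L` if and only if `g ∈ P` modulo `L`. -/
theorem exists_conj (θ : G ≃* G) (L : Subgroup G) [L.Normal] (hL : L.index ≠ 0)
    (h : ∀ g, θ g ∈ L ↔ g ∈ L) (p : ℕ) [Fact p.Prime] (P : Sylow p (G ⧸ L)) :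
    ∃ c : G, ∀ g, conjAut c θ g ∈ (P : Subgroup (G ⧸ L)).comap (QuotientGroup.mk' L) ↔
      g ∈ (P : Subgroup (G ⧸ L)).comap (QuotientGroup.mk' L) := by
  have hfi : L.FiniteIndex := ⟨hL⟩
  have hmap : L.map (θ : G →* G) = L := by
    ext x
    constructor
    · rintro ⟨y, hy, rfl⟩
      exact (h y).2 hy
    · intro hx
      refine ⟨θ.symm x, ?_, θ.apply_symm_apply x⟩
      have h1 := h (θ.symm x)
      rw [θ.apply_symm_apply] at h1
      exact h1.1 hx
  let t : MulAut (G ⧸ L) := QuotientGroup.congr L L θ hmap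
  have ht : ∀ g : G, t (QuotientGroup.mk' L g) = QuotientGroup.mk' L (θ g) := fun g => rfl
  obtain ⟨q, hq⟩ := MulAction.exists_smul_eq (G ⧸ L) (t • P) P
  obtain ⟨c, rfl⟩ := QuotientGroup.mk'_surjective L q
  have hP : (P : Subgroup (G ⧸ L)) =
      MulAut.conj (QuotientGroup.mk' L c) • (t • (P : Subgroup (G ⧸ L))) := by
    conv_lhs => rw [← hq]
    rfl
  refine ⟨c, fun g => ?_⟩
  rw [Subgroup.mem_comap, Subgroup.mem_comap]
  have h2 : QuotientGroup.mk' L (conjAut c θ g) =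
      MulAut.conj (QuotientGroup.mk' L c) • (t • QuotientGroup.mk' L g) := by
    rw [conjAut_apply, map_mul, map_mul, map_inv]
    rfl
  rw [h2]
  conv_lhs => rw [hP]
  rw [Subgroup.smul_mem_pointwise_smul_iff, Subgroup.smul_mem_pointwise_smul_iff]

end Pool.ACH
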