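import Pool.Agent.Helper20.ACH.SA
import Pool.Agent.Helper20.ACH.SB
import Pool.Agent.Helper20.ACH.SC
import Pool.Agent.Helper20.ACH.R3
import Pool.Agent.Helper20.ACH.R5

/-! Project ACH (MP_9d9192_al): finite quotients are Z-groups. -/

set_option autoImplicit false

namespace Pool.ACH

variable {G : Type} [Group G]

/-- pullback of homomorphisms along a homomorphism of groups -/
private def SD_pull {A B F : Type} [Group A] [Group B] [Field F] (f : A →* B) :
    Hm B F →ₗ[F] Hm A F where
  toFun a := ⟨fun g => a.1 (f g), fun g h => by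
    show a.1 (f (g * h)) = a.1 (f g) + a.1 (f h)
    rw [_root_.map_mul]; exact a.2 _ _⟩
  map_add' a b := by ext g; rfl
  map_smul' c a := by ext g; rfl

private theorem SD_pull_injective {A B F : Type} [Group A] [Group B] [Field F] (f : A →* B)
    (hf : Function.Surjective f) : Function.Injective (SD_pull (F := F) f) := by
  intro a b h
  ext g
  obtain ⟨x, rfl⟩ := hf g
  exact congrArg (fun y : Hm A F => y.1 x) h

/-- PIECE ACH-SD (70 lines).  For a Sylow subgroup `P` of `G ⧸ L` take `c` of `exists_conj` and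
`H` the preimage of `P`; `(H, conjAut c θ)` is achiral and `FAb`, so
`dim Hm H (ZMod p) ≤ 1` (`all_main`), so `dim Hm P (ZMod p) ≤ 1` (pull back along the surjection
`H → P`), and `P` is cyclic (`cyclic_of_finrank`). -/
theorem isZGroup_quotient {θ : MulAut G} (hA : Achiral G θ) (hF : FAb G) (L : Subgroup G)
    [L.Normal] (hL : L.index ≠ 0) (h : ∀ g, θ g ∈ L ↔ g ∈ L) : IsZGroup (G ⧸ L) := by
  have : L.FiniteIndex := ⟨hL⟩
  refine ⟨fun p hp P => ?_⟩
  have : Fact p.Prime := ⟨hp⟩
  obtain ⟨c, hc⟩ := exists_conj θ L hL h p P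
  have hHi : ((P : Subgroup (G ⧸ L)).comap (QuotientGroup.mk' L)).index ≠ 0 := by
    intro h0
    have hle : L ≤ (P : Subgroup (G ⧸ L)).comap (QuotientGroup.mk' L) := by
      intro x hx
      rw [Subgroup.mem_comap, QuotientGroup.mk'_apply, (QuotientGroup.eq_one_iff x).2 hx]
      exact one_mem _
    have h1 := Subgroup.index_dvd_of_le hle
    rw [h0, zero_dvd_iff] at h1
    exact hL h1
  have hA' := (hA.conj c).restrict _ hHi hc
  have hF' := hF.restrict _ hHi
  have h1 := all_main hA' hF' p
  have := finite_Hm hA'.fg (ZMod p)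
  have h2 := LinearMap.finrank_le_finrank_of_injective
    (SD_pull_injective (F := ZMod p) ((QuotientGroup.mk' L).subgroupComap (P : Subgroup (G ⧸ L)))
      (MonoidHom.subgroupComap_surjective_of_surjective _ _ (QuotientGroup.mk'_surjective L)))
  exact cyclic_of_finrank P p P.isPGroup' (h2.trans h1)

end Pool.ACH
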