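import Pool.Agent.Helper20.ACH.SD
import Pool.Agent.Helper20.ACH.L5
import Pool.Agent.Helper20.ACH.F3

/-! Project ACH (MP_9d9192_al): orders of finite quotients. -/

set_option autoImplicit false

namespace Pool.ACH

variable {G : Type} [Group G]

/-- The `p`-part of the abelianization is cyclic. -/
private theorem SE_gen {θ : MulAut G} (hA : Achiral G θ) (hF : FAb G) (p : ℕ) [Fact p.Prime]
    [Finite (Abelianization G)] : ∃ (t : Abelianization G) (m : ℕ), m.Coprime p ∧
      (∀ y : Abelianization G, ∃ k : ℕ, y ^ m = t ^ k) ∧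
      orderOf t = p ^ (Nat.card (Abelianization G)).factorization p := by
  classical
  set T := Abelianization G with hT
  set c := (Nat.card T).factorization p with hc
  have hp : p.Prime := Fact.out
  have hcard : Nat.card T ≠ 0 := Nat.card_pos.ne'
  obtain ⟨P⟩ : Nonempty (Sylow p T) := inferInstance
  have hPc : Nat.card P = p ^ c := Sylow.card_eq_multiplicity P
  set m := ordCompl[p] (Nat.card T) with hm
  have hmc : p ^ c * m = Nat.card T := Nat.ordProj_mul_ordCompl_eq_self _ _
  have hcop : m.Coprime p := by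
    have := Nat.coprime_ordCompl hp hcard
    exact this.symm
  have hin : ∀ y : T, y ^ m ∈ P := by
    intro y
    have h0 : Nat.card (Subgroup.zpowers (y ^ m)) ∣ p ^ c := by
      rw [Nat.card_zpowers, orderOf_dvd_iff_pow_eq_one, ← pow_mul, mul_comm, hmc]
      exact pow_card_eq_one'
    obtain ⟨n, -, hn⟩ := (Nat.dvd_prime_pow hp).1 h0
    have h1 : IsPGroup p (Subgroup.zpowers (y ^ m)) := IsPGroup.of_card hn
    obtain ⟨Q, hQ⟩ := h1.exists_le_sylow
    have : Q = P := by
      have := Sylow.unique_of_normal P inferInstance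
      exact Subsingleton.elim _ _
    rw [← this]
    exact hQ (Subgroup.mem_zpowers _)
  -- the surjection onto `P`
  let φ : T →* P := (powMonoidHom m).codRestrict P.toSubgroup hin
  have hφ : Function.Surjective φ := by
    have hco : (Nat.card P).Coprime m := by
      rw [hPc]
      exact (hcop.pow_right c).symm
    intro x
    obtain ⟨z, hz⟩ := (powCoprime hco).surjective x
    refine ⟨z.1, ?_⟩
    apply Subtype.ext
    show z.1 ^ m = x.1
    rw [← hz]
    rfl
  let L : Hm P (ZMod p) →ₗ[ZMod p] Hm G (ZMod p) :=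
    { toFun := fun a => ⟨fun g => a.1 (φ (Abelianization.of g)), fun g h => by
        show a.1 (φ (Abelianization.of (g * h))) =
          a.1 (φ (Abelianization.of g)) + a.1 (φ (Abelianization.of h))
        rw [map_mul, map_mul, a.2]⟩
      map_add' := fun a b => by ext g; rfl
      map_smul' := fun r a => by ext g; rfl }
  have hL : Function.Injective L := by
    intro a b hab
    ext x
    obtain ⟨y, rfl⟩ := hφ x
    obtain ⟨g, rfl⟩ : ∃ g, Abelianization.of g = y := QuotientGroup.mk_surjective y
    exact congrArg (fun z : Hm G (ZMod p) => z.1 g) hab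
  have hfd : FiniteDimensional (ZMod p) (Hm G (ZMod p)) := finite_Hm hA.fg _
  have hfin : Module.finrank (ZMod p) (Hm P (ZMod p)) ≤ 1 :=
    (LinearMap.finrank_le_finrank_of_injective hL).trans (all_main hA hF p)
  have hcyc : IsCyclic P := cyclic_of_finrank P p P.isPGroup' hfin
  obtain ⟨t, ht⟩ := hcyc.exists_generator
  refine ⟨t.1, m, hcop, ?_, ?_⟩
  · intro y
    have h1 := ht ⟨y ^ m, hin y⟩
    rw [← mem_powers_iff_mem_zpowers] at h1
    obtain ⟨k, hk⟩ := h1
    exact ⟨k, (congrArg Subtype.val hk).symm⟩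
  · rw [Subgroup.orderOf_coe, orderOf_eq_card_of_forall_mem_zpowers ht, hPc]

/-- PIECE ACH-SE1 (120 lines).  `-1` is a square modulo the order `p^b` of the `p`-part of the
abelianization: `T = Additive (Abelianization G)` is finite, its `p`-primary part is cyclic
(`all_main`, `cyclic_of_finrank`) with generator `t` of order `p^b`; `θ t = u t`, `u` an integer;
`ℓ(t,t) ∈ ℚ/ℤ` (`factL`) has order `p^b` (otherwise `p^(b-1) t ≠ 0` pairs trivially with everything:
with multiples of `t`, and with elements of order prime to `p`); `u² ℓ(t,t) = -ℓ(t,t)`, so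
`p^b ∣ u² + 1`. -/
theorem sq_eq_neg_one {θ : MulAut G} (hA : Achiral G θ) (hF : FAb G) (p : ℕ) [Fact p.Prime]
    (b : ℕ) (hb : p ^ b ∣ Nat.card (Abelianization G)) : ∃ u : ℤ, (p : ℤ) ^ b ∣ u ^ 2 + 1 := by
  have hp : p.Prime := Fact.out
  have hno : ¬ ∃ f : G →* Multiplicative ℤ, Function.Surjective f := by
    rintro ⟨f, hf⟩
    exact hF ⊤ (by simp) ⟨f.comp (Subgroup.topEquiv (G := G)).toMonoidHom,
      hf.comp (Subgroup.topEquiv (G := G)).surjective⟩
  have hfin : Finite (Abelianization G) := finite_abelianization hA.fg hno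
  have hcard : Nat.card (Abelianization G) ≠ 0 := Nat.card_pos.ne'
  obtain ⟨t, m, hm, hgen, hord⟩ := SE_gen hA hF p
  obtain ⟨ℓ, h1, h2, h3, -, h5⟩ := factL hA hF
  set c := (Nat.card (Abelianization G)).factorization p with hc
  have hbc : b ≤ c := (hp.pow_dvd_iff_le_factorization hcard).1 hb
  obtain ⟨g, hg⟩ : ∃ g, Abelianization.of g = t := QuotientGroup.mk_surjective t
  -- values on the right and on the left depend on the class only
  have hp1 : ∀ (x y : G) (n : ℕ), ℓ (x ^ n) y = n • ℓ x y := by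
    intro x y n
    have h0 : ℓ 1 y = 0 := by
      have := h1 1 1 y
      rw [mul_one] at this
      exact left_eq_add.1 this
    induction n with
    | zero => simp [h0]
    | succ n ih => rw [pow_succ, h1, ih, succ_nsmul]
  have hp2 : ∀ (x y : G) (n : ℕ), ℓ x (y ^ n) = n • ℓ x y := by
    intro x y n
    have h0 : ℓ x 1 = 0 := by
      have := h2 x 1 1
      rw [mul_one] at this
      exact left_eq_add.1 this
    induction n with
    | zero => simp [h0]
    | succ n ih => rw [pow_succ, h2, ih, succ_nsmul]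
  have hc1 : ∀ x x' y : G, Abelianization.of x = Abelianization.of x' → ℓ x y = ℓ x' y := by
    intro x x' y hxx
    let f : G →* Multiplicative QZ :=
      { toFun := fun z => Multiplicative.ofAdd (ℓ z y)
        map_one' := by
          have := h1 1 1 y
          rw [mul_one] at this
          rw [left_eq_add.1 this]; rfl
        map_mul' := fun z z' => by rw [h1]; rfl }
    have := congrArg (Abelianization.lift f) hxx
    rw [Abelianization.lift_apply_of, Abelianization.lift_apply_of] at this
    exact Multiplicative.ofAdd.injective this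
  have hc2 : ∀ x y y' : G, Abelianization.of y = Abelianization.of y' → ℓ x y = ℓ x y' := by
    intro x y y' hyy
    let f : G →* Multiplicative QZ :=
      { toFun := fun z => Multiplicative.ofAdd (ℓ x z)
        map_one' := by
          have := h2 x 1 1
          rw [mul_one] at this
          rw [left_eq_add.1 this]; rfl
        map_mul' := fun z z' => by rw [h2]; rfl }
    have := congrArg (Abelianization.lift f) hyy
    rw [Abelianization.lift_apply_of, Abelianization.lift_apply_of] at this
    exact Multiplicative.ofAdd.injective this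
  -- `θ g` is a multiple of `g` up to the prime-to-`p` part
  obtain ⟨k, hk⟩ := hgen (Abelianization.of (θ g))
  have hk' : Abelianization.of ((θ g) ^ m) = Abelianization.of (g ^ k) := by
    rw [map_pow, map_pow, hk, hg]
  -- the key relation
  have hrel : (m ^ 2 + k ^ 2) • ℓ g g = 0 := by
    have e1 : ℓ ((θ g) ^ m) ((θ g) ^ m) = ℓ (g ^ k) (g ^ k) := by
      rw [hc1 _ _ _ hk', hc2 _ _ _ hk']
    rw [hp1, hp2, hp1, hp2, h5, ← mul_nsmul', ← mul_nsmul', smul_neg] at e1
    rw [add_nsmul, pow_two, pow_two, ← e1, add_neg_cancel]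
  -- the order of `ℓ g g`
  have hpc : (p ^ c) • ℓ g g = 0 := by
    rw [← hp1, hc1 (g ^ p ^ c) 1 g (by rw [map_pow, hg, ← hord, pow_orderOf_eq_one, map_one])]
    have := h1 1 1 g
    rw [mul_one] at this
    exact left_eq_add.1 this
  have hordℓ : addOrderOf (ℓ g g) = p ^ c := by
    rcases Nat.eq_zero_or_pos c with h0 | h0
    · rw [h0, pow_zero] at hpc ⊢
      rw [one_nsmul] at hpc
      rw [hpc, addOrderOf_zero]
    · obtain ⟨d, hd⟩ : ∃ d, c = d + 1 := ⟨c - 1, by omega⟩
      rw [hd] at hpc ⊢
      apply addOrderOf_eq_prime_pow _ hpc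
      intro hd0
      have hx : ∀ y, ℓ (g ^ p ^ d) y = 0 := by
        intro y
        obtain ⟨k, hk⟩ := hgen (Abelianization.of y)
        have e1 : m • ℓ (g ^ p ^ d) y = 0 := by
          rw [← hp2, hc2 _ (y ^ m) (g ^ k) (by rw [map_pow, map_pow, hk, hg]), hp2, hp1, hd0,
            smul_zero]
        have e2 : (p ^ c) • ℓ (g ^ p ^ d) y = 0 := by
          rw [← hp1, ← pow_mul, mul_comm, pow_mul, hp1, hc1 (g ^ p ^ c) 1 y
            (by rw [map_pow, hg, ← hord, pow_orderOf_eq_one, map_one])]
          have := h1 1 1 y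
          rw [mul_one] at this
          rw [left_eq_add.1 this, smul_zero]
        have e3 : addOrderOf (ℓ (g ^ p ^ d) y) ∣ m := addOrderOf_dvd_of_nsmul_eq_zero e1
        have e4 : addOrderOf (ℓ (g ^ p ^ d) y) ∣ p ^ c := addOrderOf_dvd_of_nsmul_eq_zero e2
        have e5 : addOrderOf (ℓ (g ^ p ^ d) y) = 1 :=
          Nat.eq_one_of_dvd_coprimes (hm.pow_right c) e3 e4
        exact AddMonoid.addOrderOf_eq_one_iff.1 e5
      have h6 := h3 _ hx
      rw [← Abelianization.ker_of, MonoidHom.mem_ker, map_pow, hg] at h6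
      have h7 := orderOf_dvd_of_pow_eq_one h6
      rw [hord, hd] at h7
      have := (Nat.pow_dvd_pow_iff_le_right hp.one_lt).1 h7
      omega
  have hdvd : p ^ c ∣ m ^ 2 + k ^ 2 := by
    rw [← hordℓ]
    exact addOrderOf_dvd_of_nsmul_eq_zero hrel
  -- divide by `m`
  obtain ⟨n, hn⟩ : ∃ n : ℤ, (p : ℤ) ^ c ∣ m * n - 1 := by
    have hco : IsCoprime (m : ℤ) ((p : ℤ) ^ c) := by
      have := Nat.isCoprime_iff_coprime.2 (hm.pow_right c)
      push_cast at this
      exact this
    obtain ⟨x, y, hxy⟩ := hco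
    exact ⟨x, -y, by linear_combination hxy⟩
  refine ⟨k * n, (pow_dvd_pow (p : ℤ) hbc).trans ?_⟩
  obtain ⟨w, hw⟩ := hn
  obtain ⟨z, hz⟩ : (p : ℤ) ^ c ∣ (m : ℤ) ^ 2 + (k : ℤ) ^ 2 := by exact_mod_cast hdvd
  refine ⟨n ^ 2 * z - w * (m * n + 1), ?_⟩
  linear_combination n ^ 2 * hz - (m * n + 1) * hw

/-- PIECE ACH-SE2 (60 lines).  Prime powers dividing the order of a finite quotient.  A Sylow
subgroup `P` of `G ⧸ L` is cyclic (`isZGroup_quotient`), of order divisible by `p^b`; its preimage
`H` (with `conjAut c θ`, `exists_conj`) maps onto `P`, so `|P|` divides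
`Nat.card (Abelianization H)`; use `sq_eq_neg_one` for `H`. -/
theorem sq_eq_neg_one_quotient {θ : MulAut G} (hA : Achiral G θ) (hF : FAb G) (L : Subgroup G)
    [L.Normal] (hL : L.index ≠ 0) (h : ∀ g, θ g ∈ L ↔ g ∈ L) (p : ℕ) [Fact p.Prime] (b : ℕ)
    (hb : p ^ b ∣ L.index) : ∃ u : ℤ, (p : ℤ) ^ b ∣ u ^ 2 + 1 := by
  have hfi : L.FiniteIndex := ⟨hL⟩
  have hfin : Finite (G ⧸ L) := inferInstance
  have hZ := isZGroup_quotient hA hF L hL h
  obtain ⟨P⟩ : Nonempty (Sylow p (G ⧸ L)) := inferInstance
  obtain ⟨c, hc⟩ := exists_conj θ L hL h p P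
  have hHi : ((P : Subgroup (G ⧸ L)).comap (QuotientGroup.mk' L)).index ≠ 0 := by
    rw [Subgroup.index_comap_of_surjective _ (QuotientGroup.mk'_surjective L)]
    exact Subgroup.index_ne_zero_of_finite
  have hAH := (hA.conj c).restrict _ hHi hc
  have hFH := hF.restrict _ hHi
  have hcyc : IsCyclic (P : Subgroup (G ⧸ L)) := hZ.isZGroup p (Fact.out : p.Prime) P
  have hdvd : p ^ b ∣ Nat.card (P : Subgroup (G ⧸ L)) :=
    P.pow_dvd_card_of_pow_dvd_card hb
  have hsurj := (QuotientGroup.mk' L).subgroupComap_surjective_of_surjective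
    (P : Subgroup (G ⧸ L)) (QuotientGroup.mk'_surjective L)
  let _ : CommGroup (P : Subgroup (G ⧸ L)) := IsCyclic.commGroup
  let f := Abelianization.lift ((QuotientGroup.mk' L).subgroupComap (P : Subgroup (G ⧸ L)))
  have hf : Function.Surjective f := by
    intro y
    obtain ⟨x, hx⟩ := hsurj y
    refine ⟨Abelianization.of x, ?_⟩
    rw [Abelianization.lift_apply_of]
    exact hx
  exact sq_eq_neg_one hAH hFH p b (hdvd.trans (Subgroup.card_dvd_of_surjective f hf))

end Pool.ACH
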