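import Pool.Agent.Helper20.ACH.HM
import Pool.Agent.Helper20.ACH.A8

/-! Project ACH (MP_9d9192_al): the prime two. -/

set_option autoImplicit false

namespace Pool.ACH

variable {G : Type} [Group G]

/-- PIECE ACH-TA (70 lines).  At most one nonzero invariant homomorphism to `𝔽₂`.  Otherwise
`a ≠ 0`, `b ≠ 0`, `a ≠ b`; let `L = {g | a g = 0 ∧ b g = 0}` (normal, finite index by
`ker_index` twice; `G → 𝔽₂ × 𝔽₂` is surjective, so `L.index = 4`), `g⁻¹ θ(g) ∈ L`, contradicting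
`index_dvd_two`. -/
theorem two_fixed {θ : G ≃* G} (hA : Achiral G θ) (hF : FAb G) (a b : Hm G (ZMod 2))
    (ha : ∀ g, a.1 (θ g) = a.1 g) (hb : ∀ g, b.1 (θ g) = b.1 g) : a = 0 ∨ b = 0 ∨ a = b := by
  have h01 : ∀ x : ZMod 2, x ≠ 0 → x = 1 := by decide
  have h11 : ∀ x : ZMod 2, x + 1 = 0 → x = 1 := by decide
  have : Fact (Nat.Prime 2) := ⟨Nat.prime_two⟩
  by_contra hcon
  push Not at hcon
  obtain ⟨ha0, hb0, hab⟩ := hcon
  obtain ⟨L1, hn1, hi1, hm1⟩ := ker_index hA.fg 2 a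
  obtain ⟨L2, hn2, hi2, hm2⟩ := ker_index hA.fg 2 b
  have hi : (L1 ⊓ L2).index ≠ 0 := Subgroup.index_inf_ne_zero hi1 hi2
  have hmem : ∀ g, g ∈ L1 ⊓ L2 ↔ a.1 g = 0 ∧ b.1 g = 0 := fun g => by
    rw [Subgroup.mem_inf, hm1, hm2]
  have hd : (L1 ⊓ L2).index ∣ 2 := by
    refine index_dvd_two hA hF _ hi (fun g => ?_)
    rw [hmem]
    constructor
    · rw [Hm.map_mul, Hm.map_inv, ha]
      ring
    · rw [Hm.map_mul, Hm.map_inv, hb]
      ring
  obtain ⟨g, hg⟩ : ∃ g, a.1 g ≠ 0 := by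
    by_contra hc
    push Not at hc
    exact ha0 (by ext g; exact hc g)
  obtain ⟨h, hh⟩ : ∃ h, b.1 h ≠ 0 := by
    by_contra hc
    push Not at hc
    exact hb0 (by ext g; exact hc g)
  obtain ⟨k, hk⟩ : ∃ k, a.1 k ≠ b.1 k := by
    by_contra hc
    push Not at hc
    exact hab (by ext g; exact hc g)
  have hg1 := h01 _ hg
  have hh1 := h01 _ hh
  have hgL : g ∉ L1 ⊓ L2 := fun hc => hg ((hmem g).1 hc).1
  have hhL : h ∉ L1 ⊓ L2 := fun hc => hh ((hmem h).1 hc).2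
  have hkL : k ∉ L1 ⊓ L2 := fun hc => hk (by rw [((hmem k).1 hc).1, ((hmem k).1 hc).2])
  have hi2 : (L1 ⊓ L2).index = 2 := by
    rcases (Nat.dvd_prime Nat.prime_two).1 hd with h1 | h1
    · exfalso
      rw [Subgroup.index_eq_one] at h1
      exact hgL (by rw [h1]; exact Subgroup.mem_top g)
    · exact h1
  have e1 : k * g ∈ L1 ⊓ L2 :=
    (Subgroup.mul_mem_iff_of_index_two hi2).2 ⟨fun hc => absurd hc hkL, fun hc => absurd hc hgL⟩
  have e2 : k * h ∈ L1 ⊓ L2 :=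
    (Subgroup.mul_mem_iff_of_index_two hi2).2 ⟨fun hc => absurd hc hkL, fun hc => absurd hc hhL⟩
  have f1 := ((hmem _).1 e1).1
  have f2 := ((hmem _).1 e2).2
  rw [Hm.map_mul, hg1] at f1
  rw [Hm.map_mul, hh1] at f2
  exact hk (by rw [h11 _ f1, h11 _ f2])

end Pool.ACH
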