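import Pool.Agent.Helper20.ACH.HM

/-! Project ACH (MP_9d9192_al): the prime two. -/

set_option autoImplicit false

namespace Pool.ACH

variable {G : Type} [Group G]

/-- PIECE ACH-TB (60 lines).  `Hm G (ZMod 2)` is finite and `pb θ` is a permutation of it, of
order `2^k m` with `m` odd. -/
theorem exists_odd_pow (hfg : Group.FG G) (θ : MulAut G) :
    ∃ m : ℕ, Odd m ∧ ∃ k : ℕ, ∀ (a : Hm G (ZMod 2)) (g : G),
      a.1 (((θ ^ m) ^ (2 ^ k) : MulAut G) g) = a.1 g := by
  have h1 := finite_Hm hfg (ZMod 2)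
  have h2 : Finite (Hm G (ZMod 2)) := Module.finite_of_finite (ZMod 2)
  have hinj : Function.Injective (pb (F := ZMod 2) θ) := pb_injective θ
  let σ : Equiv.Perm (Hm G (ZMod 2)) :=
    Equiv.ofBijective (pb (F := ZMod 2) θ) ⟨hinj, Finite.surjective_of_injective hinj⟩
  have hσ : ∀ a g, (σ a).1 g = a.1 (θ g) := fun a g => rfl
  have key : ∀ (n : ℕ) (a : Hm G (ZMod 2)) (g : G),
      a.1 ((θ ^ n : MulAut G) g) = ((σ ^ n) a).1 g := by
    intro n
    induction n with
    | zero =>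
      intro a g
      rw [pow_zero, pow_zero]
      rfl
    | succ n ih =>
      intro a g
      rw [pow_succ, pow_succ', MulAut.mul_apply, ih, Equiv.Perm.mul_apply, hσ]
  have hN : orderOf σ ≠ 0 := (orderOf_pos σ).ne'
  obtain ⟨k, m, hm, hkm⟩ := Nat.exists_eq_two_pow_mul_odd hN
  refine ⟨m, hm, k, fun a g => ?_⟩
  rw [← pow_mul, mul_comm m, ← hkm, key, pow_orderOf_eq_one, Equiv.Perm.one_apply]

end Pool.ACH
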