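import Mathlib

/-! Project ACH (MP_9d9192_al): unipotent endomorphisms over `𝔽₂`. -/

set_option autoImplicit false

namespace Pool.ACH

private theorem TC_pow {V : Type} [AddCommGroup V] [Module (ZMod 2) V]
    (u : Module.End (ZMod 2) V) (k : ℕ) : (u - 1) ^ (2 ^ k) = u ^ (2 ^ k) - 1 := by
  have h : ((Polynomial.X - 1 : Polynomial (ZMod 2)) ^ (2 ^ k)) = Polynomial.X ^ (2 ^ k) - 1 := by
    rw [sub_pow_char_pow, one_pow]
  have := congrArg (Polynomial.aeval u) h
  simpa using this

private theorem TC_ker {V : Type} [AddCommGroup V] [Module (ZMod 2) V]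
    [FiniteDimensional (ZMod 2) V] (n : Module.End (ZMod 2) V)
    (h1 : Module.finrank (ZMod 2) (LinearMap.ker n) ≤ 1) (j : ℕ) :
    Module.finrank (ZMod 2) (LinearMap.ker (n ^ j)) ≤ j := by
  induction j with
  | zero =>
    have : LinearMap.ker (n ^ 0) = ⊥ := by
      rw [pow_zero]; exact LinearMap.ker_id
    rw [this]; simp
  | succ j ih =>
    let f : LinearMap.ker (n ^ (j + 1)) →ₗ[ZMod 2] V := n.domRestrict (LinearMap.ker (n ^ (j + 1)))
    have hr : LinearMap.range f ≤ LinearMap.ker (n ^ j) := by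
      rintro _ ⟨x, rfl⟩
      have hx : (n ^ (j + 1)) (x : V) = 0 := LinearMap.mem_ker.1 x.2
      have hp : n ^ (j + 1) = n ^ j * n := pow_succ n j
      rw [LinearMap.mem_ker]
      have h3 : (n ^ (j + 1)) (x : V) = (n ^ j) (n (x : V)) := LinearMap.congr_fun hp (x : V)
      exact h3.symm.trans hx
    have hk : Module.finrank (ZMod 2) (LinearMap.ker f) ≤ 1 := by
      have hinj : Module.finrank (ZMod 2) (LinearMap.ker f) ≤
          Module.finrank (ZMod 2) (LinearMap.ker n) := by
        let g : LinearMap.ker f →ₗ[ZMod 2] LinearMap.ker n :=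
          LinearMap.codRestrict (LinearMap.ker n)
            ((LinearMap.ker (n ^ (j + 1))).subtype ∘ₗ (LinearMap.ker f).subtype) (by
              intro x
              have hx := x.2
              rw [LinearMap.mem_ker] at hx ⊢
              exact hx)
        refine LinearMap.finrank_le_finrank_of_injective (f := g) ?_
        intro x y hxy
        have := congrArg Subtype.val hxy
        exact Subtype.ext (Subtype.ext this)
      exact hinj.trans h1
    have := LinearMap.finrank_range_add_finrank_ker f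
    have h2 := Submodule.finrank_mono hr
    omega

/-- PIECE ACH-TC (40 lines).  `(u - 1)^(2^k) = u^(2^k) - 1 = 0`, so `u - 1` is nilpotent, so
`(u - 1)^(dim V) = 0`, so `0 = (u - 1)^(2^K) = u^(2^K) - 1`. -/
theorem unip_pow {V : Type} [AddCommGroup V] [Module (ZMod 2) V] [FiniteDimensional (ZMod 2) V]
    (u : V →ₗ[ZMod 2] V) (k K : ℕ) (hu : ∀ x, (u ^ (2 ^ k) : Module.End (ZMod 2) V) x = x)
    (hK : Module.finrank (ZMod 2) V ≤ 2 ^ K) :
    ∀ x, (u ^ (2 ^ K) : Module.End (ZMod 2) V) x = x := by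
  have h1 : (u ^ (2 ^ k) : Module.End (ZMod 2) V) = 1 := LinearMap.ext hu
  have h2 : (u - 1 : Module.End (ZMod 2) V) ^ (2 ^ k) = 0 := by
    rw [TC_pow, h1, sub_self]
  have h3 : IsNilpotent (u - 1 : Module.End (ZMod 2) V) := ⟨_, h2⟩
  have h4 := (LinearMap.isNilpotent_iff_charpoly (u - 1 : Module.End (ZMod 2) V)).1 h3
  have h5 := LinearMap.aeval_self_charpoly (u - 1 : Module.End (ZMod 2) V)
  rw [h4, map_pow, Polynomial.aeval_X] at h5
  have h6 : (u - 1 : Module.End (ZMod 2) V) ^ (2 ^ K) = 0 := pow_eq_zero_of_le hK h5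
  rw [TC_pow, sub_eq_zero] at h6
  intro x
  rw [h6]; rfl

/-- PIECE ACH-TC (60 lines).  If the fixed space of `u` has at most two elements, then
`dim ker (u - 1)^j ≤ j` by induction (`(u-1)` maps `ker (u-1)^(j+1)` to `ker (u-1)^j` with kernel
of dimension at most one), and `V = ker (u - 1)^(2^K)`. -/
theorem finrank_le_of_fixed {V : Type} [AddCommGroup V] [Module (ZMod 2) V]
    [FiniteDimensional (ZMod 2) V] (u : V →ₗ[ZMod 2] V) (K : ℕ)
    (hu : ∀ x, (u ^ (2 ^ K) : Module.End (ZMod 2) V) x = x)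
    (hfix : ∀ x y, u x = x → u y = y → x = 0 ∨ y = 0 ∨ x = y) :
    Module.finrank (ZMod 2) V ≤ 2 ^ K := by
  have h1 : (u ^ (2 ^ K) : Module.End (ZMod 2) V) = 1 := LinearMap.ext hu
  have h2 : (u - 1 : Module.End (ZMod 2) V) ^ (2 ^ K) = 0 := by
    rw [TC_pow, h1, sub_self]
  have hmem : ∀ x : LinearMap.ker (u - 1 : Module.End (ZMod 2) V), u (x : V) = x := by
    intro x
    have hx := x.2
    rw [LinearMap.mem_ker, LinearMap.sub_apply, sub_eq_zero] at hx
    exact hx
  have hk : Module.finrank (ZMod 2) (LinearMap.ker (u - 1 : Module.End (ZMod 2) V)) ≤ 1 := by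
    by_cases hex : ∃ v : LinearMap.ker (u - 1 : Module.End (ZMod 2) V), v ≠ 0
    · obtain ⟨v, hv⟩ := hex
      refine finrank_le_one v ?_
      intro w
      rcases hfix v w (hmem v) (hmem w) with h | h | h
      · exact absurd (Subtype.ext h) hv
      · exact ⟨0, by rw [zero_smul]; exact (Subtype.ext h).symm⟩
      · exact ⟨1, by rw [one_smul]; exact Subtype.ext h⟩
    · push Not at hex
      have : Subsingleton (LinearMap.ker (u - 1 : Module.End (ZMod 2) V)) :=
        ⟨fun a b => by rw [hex a, hex b]⟩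
      rw [Module.finrank_zero_of_subsingleton]
      exact zero_le_one
  have h3 := TC_ker (u - 1 : Module.End (ZMod 2) V) hk (2 ^ K)
  rw [h2] at h3
  have h4 : LinearMap.ker (0 : Module.End (ZMod 2) V) = ⊤ := LinearMap.ker_zero
  rw [h4, finrank_top] at h3
  exact h3

end Pool.ACH
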