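import Pool.Agent.Helper20.ACH.PhBase

/-! Project ACH (MP_9d9192_al): the prime two. -/

set_option autoImplicit false

namespace Pool.ACH

variable {G : Type} [Group G]

/-- The defect of `κ` as a homomorphism in the first variable. -/
private def TE_defL (κ : G → ZMod 2) (hκ : κ ∈ Kap G) (h : G) : Hm G (ZMod 2) :=
  ⟨fun g => κ (g * h) - κ g - κ h, fun g g' => by
    have := hκ.1 g g' h
    simpa using this⟩

/-- The defect of `κ` as a homomorphism in the second variable. -/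
private def TE_defR (κ : G → ZMod 2) (hκ : κ ∈ Kap G) (g : G) : Hm G (ZMod 2) :=
  ⟨fun h => κ (g * h) - κ g - κ h, fun h h' => by
    have := hκ.2 g h h'
    simpa using this⟩

private theorem TE_left (κ : G → ZMod 2) (hκ : κ ∈ Kap G) {x : G} (hx : x ∈ Ph G) (h : G) :
    κ (x * h) = κ x + κ h := by
  have h1 : κ (x * h) - κ x - κ h = 0 := hx (TE_defL κ hκ h)
  linear_combination h1

private theorem TE_right (κ : G → ZMod 2) (hκ : κ ∈ Kap G) {x : G} (hx : x ∈ Ph G) (g : G) :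
    κ (g * x) = κ g + κ x := by
  have h1 : κ (g * x) - κ g - κ x = 0 := hx (TE_defR κ hκ g)
  linear_combination h1

/-- PIECE ACH-TE (30 lines).  The restriction of `κ ∈ Kap G` to `Ph G` is a homomorphism: its
defect `B` satisfies `B g h = 0` if `g` or `h` is in `Ph G`, as `B(·, h)` and `B(g, ·)` are
homomorphisms. -/
theorem Kap_res (κ : G → ZMod 2) (hκ : κ ∈ Kap G) :
    ∃ r : Hm (Ph G) (ZMod 2), r ∈ KI G ∧ ∀ x : Ph G, r.1 x = κ x := by
  refine ⟨⟨fun x => κ x, fun x y => ?_⟩, ⟨κ, hκ, fun x => rfl⟩, fun x => rfl⟩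
  show κ ((x * y : Ph G) : G) = κ x + κ y
  rw [Subgroup.coe_mul]
  exact TE_left κ hκ x.2 y

/-- PIECE ACH-TE (30 lines).  Elements of `KI G` are invariant under conjugation by `G`:
`κ(g x g⁻¹) + κ(g) = κ(g x) = κ(g) + κ(x)` for `x ∈ Ph G`. -/
theorem KI_conj (r : Hm (Ph G) (ZMod 2)) (hr : r ∈ KI G) (g : G) (x y : Ph G)
    (hy : (y : G) = g * x * g⁻¹) : r.1 y = r.1 x := by
  obtain ⟨κ, hκ, hr⟩ := hr
  rw [hr, hr]
  have h1 : κ ((y : G) * g) = κ y + κ g := TE_left κ hκ y.2 g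
  have h2 : κ (g * (x : G)) = κ g + κ x := TE_right κ hκ x.2 g
  have h3 : (y : G) * g = g * x := by rw [hy]; group
  rw [h3, h2] at h1
  linear_combination -h1

/-- PIECE ACH-TE (20 lines).  Stability under automorphisms (`κ∘θ`). -/
theorem KI_theta (θ : G ≃* G) (r : Hm (Ph G) (ZMod 2)) (hr : r ∈ KI G) :
    pb (resAut θ (Ph G) (Ph_theta θ)) r ∈ KI G := by
  obtain ⟨κ, hκ, hr⟩ := hr
  refine ⟨fun g => κ (θ g), ⟨fun g h k => ?_, fun g h k => ?_⟩, fun x => ?_⟩
  · have := hκ.1 (θ g) (θ h) (θ k)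
    simpa using this
  · have := hκ.2 (θ g) (θ h) (θ k)
    simpa using this
  · show r.1 (resAut θ (Ph G) (Ph_theta θ) x) = κ (θ x)
    rw [hr]
    rfl

/-- PIECE ACH-TE (40 lines).  If `σ` acts trivially on `Hm G (ZMod 2)` then it acts trivially on
`KI G`: `κ∘σ` and `κ` have the same defect (`B(σ g, σ h) = B(g, σ h) = B(g, h)`), so differ by a
homomorphism `G → 𝔽₂`, which vanishes on `Ph G`. -/
theorem KI_trivial (σ : G ≃* G) (hσ : ∀ (a : Hm G (ZMod 2)) (g : G), a.1 (σ g) = a.1 g)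
    (r : Hm (Ph G) (ZMod 2)) (hr : r ∈ KI G) (x y : Ph G) (hy : (y : G) = σ x) :
    r.1 y = r.1 x := by
  obtain ⟨κ, hκ, hr⟩ := hr
  rw [hr, hr, hy]
  let d : Hm G (ZMod 2) := ⟨fun g => κ (σ g) - κ g, fun g h => by
    have h1 : κ (σ g * σ h) - κ (σ g) - κ (σ h) = κ (g * σ h) - κ g - κ (σ h) :=
      hσ (TE_defL κ hκ (σ h)) g
    have h2 : κ (g * σ h) - κ g - κ (σ h) = κ (g * h) - κ g - κ h :=
      hσ (TE_defR κ hκ g) h
    show κ (σ (g * h)) - κ (g * h) = (κ (σ g) - κ g) + (κ (σ h) - κ h)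
    rw [map_mul]
    linear_combination h1 + h2⟩
  have h3 : κ (σ x) - κ x = 0 := x.2 d
  linear_combination h3

end Pool.ACH
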