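import Pool.Agent.Helper20.ACH.TE
import Pool.Agent.Helper20.ACH.HM
import Pool.Agent.Helper20.ACH.O6
import Pool.Agent.Helper20.ACH.F1
import Pool.Agent.Helper20.ACH.TD

/-! Project ACH (MP_9d9192_al): the prime two. -/

set_option autoImplicit false

namespace Pool.ACH

variable {G : Type} [Group G]

/-- PIECE ACH-TF1 (60 lines).  With `V` of `factO` for `F = ZMod 2`: `dim V ≤ dim Hm G (ZMod 2)`,
as `f ↦ f∘χ` is an injective linear map from the dual of `V` to `Hm G (ZMod 2)` (and `V` is
finite-dimensional: it is spanned by the finite set `χ(S)`, `S` a finite generating set of `G`).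
Stated for an abstract `V`. -/
theorem finrank_V_le (hfg : Group.FG G) (V : Type) [AddCommGroup V] [Module (ZMod 2) V]
    (χ : G → V) (hχ : ∀ g h, χ (g * h) = χ g + χ h)
    (hspan : Submodule.span (ZMod 2) (Set.range χ) = ⊤) :
    FiniteDimensional (ZMod 2) V ∧
      Module.finrank (ZMod 2) V ≤ Module.finrank (ZMod 2) (Hm G (ZMod 2)) := by
  classical
  have hone : χ 1 = 0 := by
    have := hχ 1 1
    rw [mul_one] at this
    exact left_eq_add.mp this
  have hinv : ∀ g, χ g⁻¹ = - χ g := by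
    intro g
    have := hχ g g⁻¹
    rw [mul_inv_cancel, hone] at this
    exact (neg_eq_of_add_eq_zero_right this.symm).symm
  have hfin : FiniteDimensional (ZMod 2) V := by
    obtain ⟨S, hS, hSf⟩ := Group.fg_iff.mp hfg
    have h1 : ∀ g : G, χ g ∈ Submodule.span (ZMod 2) (χ '' S) := by
      intro g
      have hg : g ∈ Subgroup.closure S := by rw [hS]; trivial
      induction hg using Subgroup.closure_induction with
      | mem x hx => exact Submodule.subset_span ⟨x, hx, rfl⟩
      | one => rw [hone]; exact Submodule.zero_mem _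
      | mul x y _ _ hx hy => rw [hχ]; exact Submodule.add_mem _ hx hy
      | inv x _ hx => rw [hinv]; exact Submodule.neg_mem _ hx
    have h2 : Submodule.span (ZMod 2) (χ '' S) = ⊤ := by
      rw [eq_top_iff, ← hspan, Submodule.span_le]
      rintro _ ⟨g, rfl⟩
      exact h1 g
    exact Module.finite_def.mpr (h2 ▸ Submodule.fg_span (hSf.image χ))
  refine ⟨hfin, ?_⟩
  have := finite_Hm hfg (ZMod 2)
  let Φ : Module.Dual (ZMod 2) V →ₗ[ZMod 2] Hm G (ZMod 2) :=
    { toFun := fun f => ⟨fun g => f (χ g), fun g h => by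
        show f (χ (g * h)) = f (χ g) + f (χ h)
        rw [hχ, map_add]⟩
      map_add' := fun a b => by ext g; rfl
      map_smul' := fun c a => by ext g; rfl }
  have hΦ : Function.Injective Φ := by
    intro a b hab
    have h1 : ∀ g, a (χ g) = b (χ g) := fun g => congrArg (fun x : Hm G (ZMod 2) => x.1 g) hab
    refine LinearMap.ext_on_range (v := χ) hspan h1
  have h2 := LinearMap.finrank_le_finrank_of_injective hΦ
  rwa [Subspace.dual_finrank_eq] at h2

private theorem TF2_dual {d : ℕ} (a : Fin d → Hm G (ZMod 2))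
    (ha : LinearIndependent (ZMod 2) a) (y : Fin d → ZMod 2) :
    ∃ g : G, ∀ i, (a i).1 g = y i := by
  classical
  let R : Submodule (ZMod 2) (Fin d → ZMod 2) :=
    { carrier := {y | ∃ g : G, ∀ i, (a i).1 g = y i}
      zero_mem' := ⟨1, fun i => Hm.map_one (a i)⟩
      add_mem' := by
        rintro y z ⟨g, hg⟩ ⟨h, hh⟩
        exact ⟨g * h, fun i => by rw [Hm.map_mul, hg, hh, Pi.add_apply]⟩
      smul_mem' := by
        rintro c y ⟨g, hg⟩
        refine ⟨g ^ c.val, fun i => ?_⟩
        rw [Hm.map_pow, hg, Pi.smul_apply, smul_eq_mul, ZMod.natCast_zmod_val] }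
  by_contra hy
  have hyR : y ∉ R := hy
  obtain ⟨f, hf, hR⟩ := Submodule.exists_le_ker_of_notMem hyR
  have h1 : ∀ z : Fin d → ZMod 2, f z = ∑ i, z i * f (Pi.single i 1) := by
    intro z
    conv_lhs => rw [← Finset.univ_sum_single z]
    rw [map_sum]
    refine Finset.sum_congr rfl fun i _ => ?_
    rw [← smul_eq_mul, ← map_smul]
    congr 1
    ext j
    by_cases hj : j = i
    · subst hj
      simp
    · simp [Pi.single_eq_of_ne hj]
  have h2 : ∑ i, f (Pi.single i 1) • a i = 0 := by
    apply Subtype.ext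
    funext g
    have h3 : (fun i => (a i).1 g) ∈ R := ⟨g, fun i => rfl⟩
    have h4 := hR h3
    rw [LinearMap.mem_ker, h1] at h4
    have h5 : ((∑ i, f (Pi.single i 1) • a i : Hm G (ZMod 2)) : G → ZMod 2) g
        = ∑ i, f (Pi.single i 1) * (a i).1 g := by
      rw [Submodule.coe_sum, Finset.sum_apply]
      rfl
    rw [h5]
    calc ∑ i, f (Pi.single i 1) * (a i).1 g = ∑ i, (a i).1 g * f (Pi.single i 1) :=
          Finset.sum_congr rfl fun i _ => mul_comm _ _
      _ = 0 := h4
      _ = _ := rfl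
  have h6 := Fintype.linearIndependent_iff.1 ha _ h2
  apply hf
  rw [h1]
  refine Finset.sum_eq_zero fun i _ => ?_
  rw [h6 i, mul_zero]

/-- The bilinear function of a family of coefficients. -/
private noncomputable def TF2_B {d : ℕ} (a : Fin d → Hm G (ZMod 2)) :
    (Sym2 (Fin d) → ZMod 2) →ₗ[ZMod 2] Bl G (ZMod 2) :=
  ∑ z : Sym2 (Fin d), (LinearMap.proj z).smulRight (tens (a (Quot.out z).1) (a (Quot.out z).2))

private theorem TF2_B_apply {d : ℕ} (a : Fin d → Hm G (ZMod 2)) (c : Sym2 (Fin d) → ZMod 2)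
    (g h : G) : (TF2_B a c).1 g h =
      ∑ z : Sym2 (Fin d), c z * ((a (Quot.out z).1).1 g * (a (Quot.out z).2).1 h) := by
  have h1 : TF2_B a c = ∑ z : Sym2 (Fin d), c z • tens (a (Quot.out z).1) (a (Quot.out z).2) := by
    rw [TF2_B, LinearMap.sum_apply]
    rfl
  rw [h1, Submodule.coe_sum, Finset.sum_apply, Finset.sum_apply]
  rfl

private theorem TF2_B_eval {d : ℕ} (a : Fin d → Hm G (ZMod 2)) (c : Sym2 (Fin d) → ZMod 2)
    (g : Fin d → G) (hg : ∀ i j, (a i).1 (g j) = if i = j then 1 else 0) (i j : Fin d) :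
    (TF2_B a c).1 (g i) (g j) =
      if (Quot.out s(i, j) : Fin d × Fin d) = (i, j) then c s(i, j) else 0 := by
  classical
  rw [TF2_B_apply]
  have h1 : ∀ z : Sym2 (Fin d), c z * ((a (Quot.out z).1).1 (g i) * (a (Quot.out z).2).1 (g j)) =
      if (Quot.out z : Fin d × Fin d) = (i, j) then c z else 0 := by
    intro z
    rw [hg, hg]
    by_cases h : (Quot.out z : Fin d × Fin d) = (i, j)
    · rw [if_pos h, h]
      simp
    · rw [if_neg h]
      by_cases h2 : (Quot.out z).1 = i
      · by_cases h3 : (Quot.out z).2 = j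
        · exact absurd (Prod.ext h2 h3) h
        · rw [if_neg h3, mul_zero, mul_zero]
      · rw [if_neg h2, zero_mul, mul_zero]
  rw [Finset.sum_congr rfl fun z _ => h1 z]
  have h4 : ∀ z : Sym2 (Fin d), (Quot.out z : Fin d × Fin d) = (i, j) → z = s(i, j) := by
    intro z hz
    have := Quot.out_eq z
    rw [hz] at this
    exact this.symm
  by_cases h : (Quot.out s(i, j) : Fin d × Fin d) = (i, j)
  · rw [if_pos h, Finset.sum_eq_single s(i, j)]
    · rw [if_pos h]
    · intro z _ hz
      rw [if_neg fun h5 => hz (h4 z h5)]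
    · intro h5
      exact absurd (Finset.mem_univ _) h5
  · rw [if_neg h]
    refine Finset.sum_eq_zero fun z _ => ?_
    rw [if_neg]
    intro h5
    rw [h4 z h5] at h5
    exact h h5

private theorem TF2_B_zero {d : ℕ} (a : Fin d → Hm G (ZMod 2))
    (ha : LinearIndependent (ZMod 2) a) (c : Sym2 (Fin d) → ZMod 2)
    (h1 : ∀ g, (TF2_B a c).1 g g = 0) (h2 : ∀ g h, (TF2_B a c).1 g h = (TF2_B a c).1 h g) :
    c = 0 := by
  classical
  choose g hg using fun j : Fin d => TF2_dual a ha (fun i => if i = j then 1 else 0)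
  have hg' : ∀ i j, (a i).1 (g j) = if i = j then 1 else 0 := fun i j => hg j i
  funext z
  obtain ⟨i, j, hz⟩ : ∃ i j, (Quot.out z : Fin d × Fin d) = (i, j) := ⟨_, _, rfl⟩
  have hzz : z = s(i, j) := by
    have := Quot.out_eq z
    rw [hz] at this
    exact this.symm
  have h3 := TF2_B_eval a c g hg' i j
  rw [← hzz, if_pos hz] at h3
  by_cases hij : i = j
  · subst hij
    rw [h1] at h3
    exact h3.symm
  · have h4 := TF2_B_eval a c g hg' j i
    rw [Sym2.eq_swap, ← hzz, if_neg, h2] at h4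
    · rw [← h3, h4]
      rfl
    · rw [hz]
      intro h5
      exact hij (Prod.ext_iff.1 h5).1

private theorem TF2_agree (κ κ' : G → ZMod 2) (B : G → G → ZMod 2)
    (h : ∀ g h, κ (g * h) = κ g + κ h + B g h) (h' : ∀ g h, κ' (g * h) = κ' g + κ' h + B g h)
    (x : Ph G) : κ x = κ' x := by
  have h1 : (fun g => κ g - κ' g) ∈ Hm G (ZMod 2) := by
    intro g k
    change κ (g * k) - κ' (g * k) = (κ g - κ' g) + (κ k - κ' k)
    rw [h, h']
    ring
  have h2 := x.2 ⟨_, h1⟩
  exact sub_eq_zero.1 h2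

private theorem TF2_vanish (κ : G → ZMod 2) (B : Bl G (ZMod 2))
    (hκ : ∀ g h, κ (g * h) = κ g + κ h + B.1 g h) (h0 : ∀ x : Ph G, κ x = 0) :
    (∀ g, B.1 g g = 0) ∧ ∀ g h, B.1 g h = B.1 h g := by
  have h2 : (2 : ZMod 2) = 0 := by decide
  constructor
  · intro g
    have h1 := hκ g g
    have h3 := h0 ⟨g ^ 2, sq_mem_Ph g⟩
    simp only [pow_two] at h3
    rw [h3] at h1
    have h4 : κ g + κ g = 0 := by rw [← two_mul, h2, zero_mul]
    rw [h4, zero_add] at h1
    exact h1.symm
  · intro g h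
    have h3 : κ (g * h) = κ (h * g) := by
      have e : g * h = (g * h * g⁻¹ * h⁻¹) * (h * g) := by group
      have h4 : B.1 (g * h * g⁻¹ * h⁻¹) (h * g) = 0 :=
        comm_mem_Ph g h ⟨fun x => B.1 x (h * g), fun x y => B.2.1 x y _⟩
      have h5 := h0 ⟨g * h * g⁻¹ * h⁻¹, comm_mem_Ph g h⟩
      simp only at h5
      conv_lhs => rw [e]
      rw [hκ, h4, h5, zero_add, add_zero]
    have h6 := hκ g h
    have h7 := hκ h g
    rw [h3, h7] at h6
    have h8 : κ h + κ g + B.1 h g = κ h + κ g + B.1 g h := by rw [h6]; ring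
    exact (add_left_cancel h8).symm

/-- PIECE ACH-TF2 (150 lines).  Let `a_1, …, a_d` be a basis of `Hm G (ZMod 2)` and
`C` the space of functions `c` on `{(i,j) | i ≤ j}`, of dimension `d(d+1)/2`,
`B_c = Σ_{i ≤ j} c_ij a_i ⊗ a_j`.  The kernel `W` of `c ↦ ob B_c ∈ V` has dimension at least
`d(d+1)/2 - d` (`finrank_V_le`).  For `c ∈ W` there is `κ_c` with defect `B_c`, unique up to
homomorphisms, so its restriction to `Ph G` gives a well-defined linear map `W → KI G` (`Kap_res`).
It is injective: if `κ_c` vanishes on `Ph G` then `κ_c(g^2) = B_c(g,g) = 0` and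
`κ_c(g h) - κ_c(h g) = B_c(g,h) - B_c(h,g) = 0`, as `g h = c' h g`, `c' ∈ Ph G`.  As the `a_i` are a
basis there are `g_i ∈ G` with `a_i(g_j) = δ_ij` (dual basis of `G ⧸ Ph G`), so
`c_ii = B_c(g_i,g_i) = 0` and for `i < j`: `c_ij = B_c(g_i,g_j) = B_c(g_j,g_i) = 0`. -/
theorem finrank_KI {θ : G ≃* G} (hA : Achiral G θ) :
    Module.finrank (ZMod 2) (Hm G (ZMod 2)) * (Module.finrank (ZMod 2) (Hm G (ZMod 2)) - 1) / 2
      ≤ Module.finrank (ZMod 2) (KI G) := by
  classical
  have hfg : Group.FG G := hA.fg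
  haveI := hfg
  haveI : FiniteDimensional (ZMod 2) (Hm G (ZMod 2)) := finite_Hm hfg (ZMod 2)
  haveI : (Ph G).FiniteIndex := ⟨Ph_index hfg⟩
  haveI hfgP : Group.FG (Ph G) := Subgroup.fg_of_index_ne_zero (Ph G)
  haveI : FiniteDimensional (ZMod 2) (Hm (Ph G) (ZMod 2)) := finite_Hm hfgP (ZMod 2)
  obtain ⟨V, _, _, Φ, χ, ob, hχ, hspan, -, hob, -, -⟩ := factO hA (ZMod 2)
  obtain ⟨hV, hVd⟩ := finrank_V_le hfg V χ hχ hspan
  obtain ⟨d, hd⟩ : ∃ d, d = Module.finrank (ZMod 2) (Hm G (ZMod 2)) := ⟨_, rfl⟩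
  rw [← hd] at hVd ⊢
  let a : Module.Basis (Fin d) (ZMod 2) (Hm G (ZMod 2)) := Module.finBasisOfFinrankEq _ _ hd.symm
  let L : (Sym2 (Fin d) → ZMod 2) →ₗ[ZMod 2] V := ob ∘ₗ TF2_B a
  -- the restriction
  have hk : ∀ c : LinearMap.ker L, ∃ κ : G → ZMod 2, ∀ g h,
      κ (g * h) = κ g + κ h + (TF2_B a c.1).1 g h := fun c => (hob _).1 c.2
  choose κ hκ using hk
  have hκK : ∀ c, κ c ∈ Kap G := by
    intro c
    have h1 : (fun g h => κ c (g * h) - κ c g - κ c h) = (TF2_B a c.1).1 := by
      funext g h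
      rw [hκ c g h]
      ring
    change (fun g h => κ c (g * h) - κ c g - κ c h) ∈ Bl G (ZMod 2)
    rw [h1]
    exact (TF2_B a c.1).2
  choose r hr hrx using fun c => Kap_res (κ c) (hκK c)
  let Λ : LinearMap.ker L →ₗ[ZMod 2] KI G :=
    { toFun := fun c => ⟨r c, hr c⟩
      map_add' := by
        intro c c'
        apply Subtype.ext
        apply Subtype.ext
        funext x
        change (r (c + c')).1 x = (r c).1 x + (r c').1 x
        rw [hrx, hrx, hrx]
        refine TF2_agree (κ (c + c')) (fun g => κ c g + κ c' g) (TF2_B a (c + c').1).1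
          (hκ _) ?_ x
        intro g h
        have h1 : (TF2_B a (c + c').1).1 g h = (TF2_B a c.1).1 g h + (TF2_B a c'.1).1 g h := by
          rw [Submodule.coe_add, map_add]
          rfl
        rw [h1, hκ c, hκ c']
        ring
      map_smul' := by
        intro s c
        apply Subtype.ext
        apply Subtype.ext
        funext x
        change (r (s • c)).1 x = s * (r c).1 x
        rw [hrx, hrx]
        refine TF2_agree (κ (s • c)) (fun g => s * κ c g) (TF2_B a (s • c).1).1
          (hκ _) ?_ x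
        intro g h
        have h1 : (TF2_B a (s • c).1).1 g h = s * (TF2_B a c.1).1 g h := by
          rw [Submodule.coe_smul, map_smul]
          rfl
        rw [h1, hκ c]
        ring }
  have hinj : Function.Injective Λ := by
    rw [← LinearMap.ker_eq_bot, LinearMap.ker_eq_bot']
    intro c hc
    have h0 : ∀ x : Ph G, κ c x = 0 := by
      intro x
      rw [← hrx]
      have : r c = 0 := congrArg Subtype.val hc
      rw [this]
      rfl
    obtain ⟨h1, h2⟩ := TF2_vanish (κ c) (TF2_B a c.1) (hκ c) h0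
    apply Subtype.ext
    exact TF2_B_zero a a.linearIndependent c.1 h1 h2
  have h3 := LinearMap.finrank_le_finrank_of_injective hinj
  have h4 := LinearMap.finrank_range_add_finrank_ker L
  have h5 : Module.finrank (ZMod 2) (LinearMap.range L) ≤ d :=
    (Submodule.finrank_le _).trans hVd
  rw [Module.finrank_fintype_fun_eq_card, Sym2.card, Fintype.card_fin] at h4
  have h6 : (d + 1).choose 2 = d + d.choose 2 := by
    rw [Nat.choose_succ_succ' d 1, Nat.choose_one_right]
  rw [← Nat.choose_two_right]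
  omega

end Pool.ACH
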