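import Pool.Agent.Helper20.ACH.TA
import Pool.Agent.Helper20.ACH.TB
import Pool.Agent.Helper20.ACH.TC
import Pool.Agent.Helper20.ACH.TD
import Pool.Agent.Helper20.ACH.TF
import Pool.Agent.Helper20.ACH.Restr
import Pool.Agent.Helper20.ACH.R4

/-! Project ACH (MP_9d9192_al): the prime two. -/

set_option autoImplicit false

namespace Pool.ACH

variable {G : Type} [Group G]

private theorem TG_pb_pow (θ : MulAut G) (n : ℕ) (a : Hm G (ZMod 2)) (g : G) :
    ((pb (F := ZMod 2) θ ^ n : Module.End (ZMod 2) (Hm G (ZMod 2))) a).1 g =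
      a.1 ((θ ^ n : MulAut G) g) := by
  induction n generalizing a with
  | zero => simp
  | succ n ih =>
    rw [pow_succ, Module.End.mul_apply, ih, pb_apply, pow_succ', MulAut.mul_apply]

private theorem TG_u_pow (θ : MulAut G) (u : KI G →ₗ[ZMod 2] KI G)
    (hu : ∀ (r : KI G) (y z : Ph G), (z : G) = θ (y : G) → (u r).1.1 y = r.1.1 z) (n : ℕ)
    (r : KI G) (y z : Ph G) (hz : (z : G) = (θ ^ n : MulAut G) (y : G)) :
    ((u ^ n : Module.End (ZMod 2) (KI G)) r).1.1 y = r.1.1 z := by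
  induction n generalizing r z with
  | zero =>
    have : z = y := by
      ext
      simpa using hz
    rw [this]
    simp
  | succ n ih =>
    have h1 : (θ ^ n : MulAut G) (y : G) ∈ Ph G := (Ph_theta (θ ^ n : MulAut G) _).2 y.2
    rw [pow_succ, Module.End.mul_apply, ih (u r) ⟨_, h1⟩ rfl]
    refine hu r ⟨_, h1⟩ z ?_
    rw [hz, pow_succ', MulAut.mul_apply]

/-- PIECE ACH-TG1 (90 lines).  If `d = dim Hm G (ZMod 2) ≤ 2^K` then `dim KI G ≤ 2^K`.
Replace `θ` by the odd power of `exists_odd_pow` (`Achiral.pow`); then `pb θ` on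
`Hm G (ZMod 2)` is unipotent and `θ^(2^K)` acts trivially on it (`unip_pow`), so also on `KI G`
(`KI_trivial`); the fixed elements of `KI G` are invariant homomorphisms of the achiral
group `Ph G` (`Achiral.restrict`, `FAb.restrict`, `Ph_index`), at most one of them is
nonzero (`two_fixed`); use `finrank_le_of_fixed` for `pb` on `KI G` (`KI_theta`). -/
theorem finrank_KI_le {θ : MulAut G} (hA : Achiral G θ) (hF : FAb G) (K : ℕ)
    (hK : Module.finrank (ZMod 2) (Hm G (ZMod 2)) ≤ 2 ^ K) :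
    Module.finrank (ZMod 2) (KI G) ≤ 2 ^ K := by
  have hfg : Group.FG G := hA.fg
  obtain ⟨m, hm, k, hk⟩ := exists_odd_pow hfg θ
  have hA' : Achiral G (θ ^ m : MulAut G) := hA.pow hm
  generalize (θ ^ m : MulAut G) = σ at hA' hk
  have : FiniteDimensional (ZMod 2) (Hm G (ZMod 2)) := finite_Hm hfg (ZMod 2)
  have h1 : ∀ x, (pb (F := ZMod 2) σ ^ (2 ^ k) : Module.End (ZMod 2) (Hm G (ZMod 2))) x = x := by
    intro x
    ext g
    rw [TG_pb_pow, hk]
  have h2 := unip_pow (pb (F := ZMod 2) σ) k K h1 hK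
  have h3 : ∀ (a : Hm G (ZMod 2)) (g : G), a.1 ((σ ^ (2 ^ K) : MulAut G) g) = a.1 g := by
    intro a g
    rw [← TG_pb_pow, h2]
  have hAP : Achiral (Ph G) (resAut σ (Ph G) (Ph_theta σ)) :=
    hA'.restrict (Ph G) (Ph_index hfg) (Ph_theta σ)
  have hFP : FAb (Ph G) := hF.restrict (Ph G) (Ph_index hfg)
  have : FiniteDimensional (ZMod 2) (Hm (Ph G) (ZMod 2)) := finite_Hm hAP.fg (ZMod 2)
  let u : KI G →ₗ[ZMod 2] KI G :=
    (pb (F := ZMod 2) (resAut σ (Ph G) (Ph_theta σ))).restrict (fun r hr => KI_theta σ r hr)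
  have hu : ∀ (r : KI G) (y z : Ph G), (z : G) = σ (y : G) → (u r).1.1 y = r.1.1 z := by
    intro r y z hz
    have e : z = resAut σ (Ph G) (Ph_theta σ) y := by
      ext
      rw [hz, coe_resAut]
    rw [e]
    rfl
  refine finrank_le_of_fixed u K ?_ ?_
  · intro x
    ext y
    have h4 : (σ ^ (2 ^ K) : MulAut G) (y : G) ∈ Ph G := (Ph_theta (σ ^ (2 ^ K) : MulAut G) _).2 y.2
    have h5 := TG_u_pow σ u hu (2 ^ K) x y ⟨_, h4⟩ rfl
    rw [h5]
    exact KI_trivial (σ ^ (2 ^ K) : MulAut G) h3 x.1 x.2 y ⟨_, h4⟩ rfl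
  · intro x y hx hy
    have hx' : ∀ g, x.1.1 (resAut σ (Ph G) (Ph_theta σ) g) = x.1.1 g := by
      intro g
      have := hu x g (resAut σ (Ph G) (Ph_theta σ) g) (by rw [coe_resAut])
      rw [← this, hx]
    have hy' : ∀ g, y.1.1 (resAut σ (Ph G) (Ph_theta σ) g) = y.1.1 g := by
      intro g
      have := hu y g (resAut σ (Ph G) (Ph_theta σ) g) (by rw [coe_resAut])
      rw [← this, hy]
    rcases two_fixed hAP hFP x.1 y.1 hx' hy' with h | h | h
    · exact Or.inl (Subtype.ext h)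
    · exact Or.inr (Or.inl (Subtype.ext h))
    · exact Or.inr (Or.inr (Subtype.ext h))

/-- PIECE ACH-TG2 (40 lines).  `d(d-1)/2 ≤ dim KI G ≤ 2^K` where `2^K` is the least power
of two with `d ≤ 2^K`; so `2^K ≤ 2(d-1)` for `d ≥ 2`, and `d ≥ 4` is impossible (`d = 4`: `6 ≤ 4`;
`d ≥ 5`: `d(d-1)/2 > 2(d-1)`). -/
theorem two_le_three {θ : MulAut G} (hA : Achiral G θ) (hF : FAb G) :
    Module.finrank (ZMod 2) (Hm G (ZMod 2)) ≤ 3 := by
  by_contra hd
  push Not at hd
  have h1 := finrank_KI hA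
  have h2 := finrank_KI_le hA hF (Nat.clog 2 (Module.finrank (ZMod 2) (Hm G (ZMod 2))))
    (Nat.le_pow_clog (by norm_num) _)
  have h3 := Nat.pow_pred_clog_lt_self (b := 2) (by norm_num)
    (x := Module.finrank (ZMod 2) (Hm G (ZMod 2))) (by omega)
  have h4 : Nat.clog 2 (Module.finrank (ZMod 2) (Hm G (ZMod 2))) ≠ 0 := by
    intro h0
    have h5 := Nat.le_pow_clog (b := 2) (by norm_num) (Module.finrank (ZMod 2) (Hm G (ZMod 2)))
    rw [h0] at h5
    omega
  obtain ⟨k, hk⟩ := Nat.exists_eq_succ_of_ne_zero h4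
  rw [hk] at h2 h3
  rw [Nat.pred_succ] at h3
  rw [Nat.succ_eq_add_one, pow_succ] at h2
  generalize Module.finrank (ZMod 2) (Hm G (ZMod 2)) = d at *
  generalize Module.finrank (ZMod 2) (KI G) = e at *
  have h6 : d * (d - 1) / 2 ≤ 2 ^ k * 2 := h1.trans h2
  obtain ⟨c, rfl⟩ : ∃ c, d = c + 4 := ⟨d - 4, by omega⟩
  have h7 : (c + 4) * (c + 4 - 1) / 2 ≤ 2 * (c + 3) := by omega
  have h8 : (c + 4) * (c + 4 - 1) = c * c + 7 * c + 12 := by
    have : c + 4 - 1 = c + 3 := by omega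
    rw [this]
    ring
  rw [h8] at h7
  have h9 : c = 0 := by
    by_contra hc
    have : 1 ≤ c := by omega
    have h10 : c ≤ c * c := Nat.le_mul_self c
    omega
  subst h9
  have h11 : 2 ^ k < 4 := h3
  have h12 : k < 2 := by
    by_contra hk2
    have : 2 ^ 2 ≤ 2 ^ k := Nat.pow_le_pow_right (by norm_num) (by omega)
    omega
  have h13 : 2 ^ k ≤ 2 := by
    have : 2 ^ k ≤ 2 ^ 1 := Nat.pow_le_pow_right (by norm_num) (by omega)
    simpa using this
  omega

/-- PIECE ACH-TG3 (50 lines).  If `d = 3`, then `dim KI G ≥ 3` (`finrank_KI`), while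
`dim Hm (Ph G) (ZMod 2) ≤ 3` by `two_le_three` for `Ph G`; so `KI G` is everything, and
`KI_conj` applies to all homomorphisms. -/
theorem three_step {θ : MulAut G} (hA : Achiral G θ) (hF : FAb G)
    (hd : Module.finrank (ZMod 2) (Hm G (ZMod 2)) = 3) :
    Module.finrank (ZMod 2) (Hm (Ph G) (ZMod 2)) = 3 ∧
      ∀ (r : Hm (Ph G) (ZMod 2)) (g : G) (x y : Ph G), (y : G) = g * x * g⁻¹ →
        r.1 y = r.1 x := by
  have hfg := hA.fg
  have hidx := Ph_index hfg
  have hA' : Achiral (Ph G) (resAut θ (Ph G) (Ph_theta θ)) :=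
    hA.restrict (Ph G) hidx (Ph_theta θ)
  have hF' : FAb (Ph G) := hF.restrict (Ph G) hidx
  have h1 := two_le_three (θ := resAut θ (Ph G) (Ph_theta θ)) hA' hF'
  have h2 := finrank_KI hA
  rw [hd] at h2
  have h2' : 3 ≤ Module.finrank (ZMod 2) (KI G) := by simpa using h2
  have : FiniteDimensional (ZMod 2) (Hm (Ph G) (ZMod 2)) := finite_Hm hA'.fg (ZMod 2)
  have h3 : Module.finrank (ZMod 2) (KI G) ≤ Module.finrank (ZMod 2) (Hm (Ph G) (ZMod 2)) :=
    Submodule.finrank_le _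
  have h4 : Module.finrank (ZMod 2) (Hm (Ph G) (ZMod 2)) = 3 := by omega
  have h5 : KI G = ⊤ := Submodule.eq_top_of_finrank_eq (by omega)
  refine ⟨h4, fun r g x y hy => KI_conj r (by rw [h5]; trivial) g x y hy⟩

end Pool.ACH
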