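import Pool.Agent.Helper20.ACH.PhBase

/-! Project ACH (MP_9d9192_al): commutators and squares. -/

set_option autoImplicit false

namespace Pool.ACH

variable {G : Type} [Group G]

private theorem TH_sq_normal (H : Subgroup G) [hH : H.Normal] : (sq H).Normal := by
  refine ⟨fun n hn g => ?_⟩
  have h : (sq H).map (MulAut.conj g).toMonoidHom ≤ sq H := by
    conv_lhs => unfold sq
    rw [MonoidHom.map_closure, Subgroup.closure_le]
    rintro _ ⟨_, ⟨a, ha, rfl⟩, rfl⟩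
    have e : (MulAut.conj g).toMonoidHom (a ^ 2) = (g * a * g⁻¹) ^ 2 := by
      rw [map_pow]; rfl
    rw [e]
    exact sq_mem_sq (hH.conj_mem a ha g)
  exact h ⟨n, hn, rfl⟩

private theorem TH_comm_symm (K : Subgroup G) {x y : G} (h : x * y * x⁻¹ * y⁻¹ ∈ K) :
    y * x * y⁻¹ * x⁻¹ ∈ K := by
  have h2 := K.inv_mem h
  have e : (x * y * x⁻¹ * y⁻¹)⁻¹ = y * x * y⁻¹ * x⁻¹ := by group
  rwa [e] at h2

/-- The elements commuting with `g` modulo the normal subgroup `K`. -/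
private def TH_cen (K : Subgroup G) [hK : K.Normal] (g : G) : Subgroup G where
  carrier := {y | g * y * g⁻¹ * y⁻¹ ∈ K}
  one_mem' := by
    show g * 1 * g⁻¹ * 1⁻¹ ∈ K
    have e : g * 1 * g⁻¹ * 1⁻¹ = 1 := by group
    rw [e]; exact K.one_mem
  mul_mem' := fun {x y} hx hy => by
    show g * (x * y) * g⁻¹ * (x * y)⁻¹ ∈ K
    have h := K.mul_mem hx (hK.conj_mem _ hy x)
    have e : g * x * g⁻¹ * x⁻¹ * (x * (g * y * g⁻¹ * y⁻¹) * x⁻¹) =
        g * (x * y) * g⁻¹ * (x * y)⁻¹ := by group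
    rwa [e] at h
  inv_mem' := fun {x} hx => by
    show g * x⁻¹ * g⁻¹ * (x⁻¹)⁻¹ ∈ K
    have h := hK.conj_mem _ (K.inv_mem hx) x⁻¹
    have e : x⁻¹ * (g * x * g⁻¹ * x⁻¹)⁻¹ * (x⁻¹)⁻¹ = g * x⁻¹ * g⁻¹ * (x⁻¹)⁻¹ := by group
    rwa [e] at h

/-- PIECE ACH-TH1 (90 lines).  Pure group theory, `K1 = sq ⊤`, `K2 = sq K1`, `K3 = sq K2`, all
normal in `G` (characteristic).  Write `[a,b] = a b a⁻¹ b⁻¹`.
Step 1: `[g, y] ∈ K3` for `g ∈ G`, `y ∈ K2`.  For `y = x²`, `x ∈ K1`: `[g,x] ∈ K2` and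
`[g, x²] = [g,x] · x [g,x] x⁻¹ ≡ [g,x]² ≡ 1` modulo `K3` (`hc2` for `x ∈ K1`, `[g,x] ∈ K2`, and
`[g,x]² ∈ K3`); and `K2 ∋ y ↦ [g,y] mod K3` is a homomorphism as `K2 ⧸ K3` is abelian.
Step 2: for `x, y ∈ G`: `u = [x, y²] ∈ K2` (`hc1`, as `y² ∈ K1`), and
`[x², y²] = x u x⁻¹ · u ≡ u² ≡ 1` modulo `K3` by step 1.
Step 3: `K1` is generated by squares, which commute modulo `K3`. -/
theorem comm_mem_sq (K1 K2 K3 : Subgroup G) (h1 : K1 = sq ⊤) (h2 : K2 = sq K1)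
    (h3 : K3 = sq K2) (hc1 : ∀ g : G, ∀ x ∈ K1, g * x * g⁻¹ * x⁻¹ ∈ K2)
    (hc2 : ∀ x ∈ K1, ∀ y ∈ K2, x * y * x⁻¹ * y⁻¹ ∈ K3) :
    ∀ x ∈ K1, ∀ y ∈ K1, x * y * x⁻¹ * y⁻¹ ∈ K3 := by
  have hn1 : K1.Normal := by rw [h1]; exact TH_sq_normal ⊤
  have hn2 : K2.Normal := by rw [h2]; exact TH_sq_normal K1
  have hn3 : K3.Normal := by rw [h3]; exact TH_sq_normal K2
  have hs2 : ∀ u ∈ K2, u ^ 2 ∈ K3 := by
    intro u hu; rw [h3]; exact sq_mem_sq hu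
  have step1 : ∀ g : G, ∀ y ∈ K2, g * y * g⁻¹ * y⁻¹ ∈ K3 := by
    intro g
    have h : K2 ≤ TH_cen K3 g := by
      conv_lhs => rw [h2]
      unfold sq
      rw [Subgroup.closure_le]
      rintro _ ⟨x, hx, rfl⟩
      show g * x ^ 2 * g⁻¹ * (x ^ 2)⁻¹ ∈ K3
      have hc := hc1 g x hx
      have hk := hc2 x hx _ hc
      have hq := hs2 _ hc
      have hk' := hn3.conj_mem _ hk (g * x * g⁻¹ * x⁻¹)
      have e : g * x ^ 2 * g⁻¹ * (x ^ 2)⁻¹ =
          ((g * x * g⁻¹ * x⁻¹) * (x * (g * x * g⁻¹ * x⁻¹) * x⁻¹ * (g * x * g⁻¹ * x⁻¹)⁻¹) *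
            (g * x * g⁻¹ * x⁻¹)⁻¹) * (g * x * g⁻¹ * x⁻¹) ^ 2 := by
        rw [pow_two, pow_two]; group
      rw [e]
      exact K3.mul_mem hk' hq
    exact fun y hy => h hy
  have step2 : ∀ x y : G, x ^ 2 * y ^ 2 * (x ^ 2)⁻¹ * (y ^ 2)⁻¹ ∈ K3 := by
    intro x y
    have hy : y ^ 2 ∈ K1 := by rw [h1]; exact sq_mem_sq (Subgroup.mem_top y)
    have hu := hc1 x (y ^ 2) hy
    have ha := step1 x _ hu
    have hb := hs2 _ hu
    have e : x ^ 2 * y ^ 2 * (x ^ 2)⁻¹ * (y ^ 2)⁻¹ =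
        (x * (x * y ^ 2 * x⁻¹ * (y ^ 2)⁻¹) * x⁻¹ * (x * y ^ 2 * x⁻¹ * (y ^ 2)⁻¹)⁻¹) *
          (x * y ^ 2 * x⁻¹ * (y ^ 2)⁻¹) ^ 2 := by
      rw [pow_two (x * y ^ 2 * x⁻¹ * (y ^ 2)⁻¹), pow_two x, pow_two y]; group
    rw [e]
    exact K3.mul_mem ha hb
  have step3 : ∀ a : G, ∀ y ∈ K1, a ^ 2 * y * (a ^ 2)⁻¹ * y⁻¹ ∈ K3 := by
    intro a
    have h : K1 ≤ TH_cen K3 (a ^ 2) := by
      conv_lhs => rw [h1]
      unfold sq
      rw [Subgroup.closure_le]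
      rintro _ ⟨b, -, rfl⟩
      exact step2 a b
    exact fun y hy => h hy
  intro x hx y hy
  have h : K1 ≤ TH_cen K3 y := by
    conv_lhs => rw [h1]
    unfold sq
    rw [Subgroup.closure_le]
    rintro _ ⟨a, -, rfl⟩
    exact TH_comm_symm K3 (step3 a y hy)
  exact TH_comm_symm K3 (h hx)

/-- PIECE ACH-TH2 (80 lines).  Let `K = sq ⊤` and `K' = sq K` in the group `G`, `G ⧸ K'` abelian
(`hab`), and `|G : K| = |K : K'|` finite.  The map `G ⧸ K → K ⧸ K'`, `x K ↦ x² K'` is a well-defined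
homomorphism (`(x y)² ≡ x² y²` modulo `K'`, `K'` contains the squares of `K`), surjective (`K` is
generated by squares), so injective. -/
theorem sq_inj (K K' : Subgroup G) (hK : K = sq ⊤) (hK' : K' = sq K)
    (hab : ∀ x y : G, x * y * x⁻¹ * y⁻¹ ∈ K') (hcard : K.index = K'.relIndex K)
    (hfin : K.index ≠ 0) (x : G) (hx : x ^ 2 ∈ K') : x ∈ K := by
  have hN : K'.Normal := by
    refine ⟨fun n hn g => ?_⟩
    have h := K'.mul_mem (hab g n) hn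
    have e : g * n * g⁻¹ * n⁻¹ * n = g * n * g⁻¹ := by group
    rwa [e] at h
  have hcomm : ∀ a b : G, (QuotientGroup.mk' K') a * (QuotientGroup.mk' K') b =
      (QuotientGroup.mk' K') b * (QuotientGroup.mk' K') a := by
    intro a b
    have h := (QuotientGroup.eq_one_iff (N := K') (a * b * a⁻¹ * b⁻¹)).2 (hab a b)
    have h2 : (QuotientGroup.mk' K') a * (QuotientGroup.mk' K') b *
        ((QuotientGroup.mk' K') a)⁻¹ * ((QuotientGroup.mk' K') b)⁻¹ = 1 := h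
    have h3 := mul_inv_eq_one.1 h2
    exact mul_inv_eq_iff_eq_mul.1 h3
  let f : G →* G ⧸ K' := MonoidHom.mk' (fun a => (QuotientGroup.mk' K') (a ^ 2)) (by
    intro a b
    show (QuotientGroup.mk' K') ((a * b) ^ 2) =
      (QuotientGroup.mk' K') (a ^ 2) * (QuotientGroup.mk' K') (b ^ 2)
    rw [map_pow, map_pow, map_pow, map_mul]
    exact (Commute.mul_pow (hcomm a b) 2))
  have hf : ∀ a, f a = (QuotientGroup.mk' K') (a ^ 2) := fun a => rfl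
  have hle : K ≤ f.ker := by
    intro a ha
    rw [MonoidHom.mem_ker, hf]
    refine (QuotientGroup.eq_one_iff (N := K') (a ^ 2)).2 ?_
    rw [hK']
    exact sq_mem_sq ha
  have hrange : K.map (QuotientGroup.mk' K') = f.range := by
    apply le_antisymm
    · rw [hK, sq, MonoidHom.map_closure, Subgroup.closure_le]
      rintro _ ⟨_, ⟨a, -, rfl⟩, rfl⟩
      exact ⟨a, rfl⟩
    · rintro _ ⟨a, rfl⟩
      refine ⟨a ^ 2, ?_, rfl⟩
      rw [hK]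
      exact sq_mem_sq (Subgroup.mem_top a)
  have hidx : f.ker.index = K.index := by
    rw [Subgroup.index_ker, ← hrange, ← Subgroup.relIndex_ker, QuotientGroup.ker_mk', hcard]
  have h1 := Subgroup.relIndex_mul_index hle
  rw [hidx] at h1
  have h2 : K.relIndex f.ker = 1 := by
    have h3 : K.relIndex f.ker * K.index = 1 * K.index := by rw [h1, one_mul]
    exact Nat.eq_of_mul_eq_mul_right (Nat.pos_of_ne_zero hfin) h3
  have h4 := Subgroup.relIndex_eq_one.1 h2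
  apply h4
  rw [MonoidHom.mem_ker, hf]
  exact (QuotientGroup.eq_one_iff (N := K') (x ^ 2)).2 hx

end Pool.ACH
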