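import Pool.Agent.Helper20.ACH.Link

/-! Project ACH (MP_9d9192_al): the determinant lemma. -/

set_option autoImplicit false

namespace Pool.ACH

private theorem ti_card_two (f : ℕ) :
    Nat.card {x : ZMod (2 ^ (f + 1)) // (2 : ℤ) • x = 0} = 2 := by
  have : NeZero (2 ^ (f + 1)) := ⟨by positivity⟩
  have hz : (2 : ℤ) • (((2 ^ f : ℕ) : ZMod (2 ^ (f + 1)))) = 0 := by
    have : (2 : ℤ) • (((2 ^ f : ℕ) : ZMod (2 ^ (f + 1)))) = ((2 ^ (f + 1) : ℕ) : ZMod (2 ^ (f + 1))) := by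
      rw [zsmul_eq_mul, pow_succ]
      push_cast
      ring
    rw [this, ZMod.natCast_self]
  have hne : (((2 ^ f : ℕ) : ZMod (2 ^ (f + 1)))) ≠ 0 := by
    intro h
    rw [ZMod.natCast_eq_zero_iff] at h
    have := Nat.le_of_dvd (by positivity) h
    have : 2 ^ f < 2 ^ (f + 1) := Nat.pow_lt_pow_right (by norm_num) (by omega)
    omega
  have hb : Function.Bijective (fun b : Bool =>
      (if b then ⟨((2 ^ f : ℕ) : ZMod (2 ^ (f + 1))), hz⟩ else ⟨0, by simp⟩ :
        {x : ZMod (2 ^ (f + 1)) // (2 : ℤ) • x = 0})) := by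
    constructor
    · intro a b hab
      cases a <;> cases b <;> simp_all
    · rintro ⟨x, hx⟩
      have h1 : ((2 * x.val : ℕ) : ZMod (2 ^ (f + 1))) = 0 := by
        push_cast
        rw [ZMod.natCast_zmod_val]
        rw [zsmul_eq_mul] at hx
        exact_mod_cast hx
      rw [ZMod.natCast_eq_zero_iff] at h1
      have h2 : 2 ^ f ∣ x.val := by
        obtain ⟨q, hq⟩ := h1
        refine ⟨q, ?_⟩
        have e1 : 2 ^ (f + 1) * q = 2 * (2 ^ f * q) := by ring
        omega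
      obtain ⟨m, hm⟩ := h2
      have hlt := x.val_lt
      have hm2 : m < 2 := by
        rw [hm, pow_succ] at hlt
        exact Nat.lt_of_mul_lt_mul_left hlt
      have hxv : x = ((x.val : ℕ) : ZMod (2 ^ (f + 1))) := (ZMod.natCast_zmod_val x).symm
      interval_cases m
      · refine ⟨false, ?_⟩
        apply Subtype.ext
        rw [hm] at hxv
        simp at hxv
        simp [hxv]
      · refine ⟨true, ?_⟩
        apply Subtype.ext
        rw [hm, mul_one] at hxv
        simp only [if_true]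
        exact hxv.symm
  rw [← Nat.card_congr (Equiv.ofBijective _ hb)]
  simp

/-- multiplication by a power of two is injective on `ZMod (p ^ e)`, `p` odd -/
private theorem ti_odd {p e : ℕ} (hp : p.Prime) (h : p ≠ 2 ∨ e = 0) (n : ℕ)
    (x : ZMod (p ^ e)) (hx : (2 ^ n : ℤ) • x = 0) : x = 0 := by
  rcases h with h | h
  · have hc : Nat.Coprime (2 ^ n) (p ^ e) := by
      apply Nat.Coprime.pow
      exact (Nat.coprime_primes Nat.prime_two hp).mpr (Ne.symm h)
    have hu := (ZMod.unitOfCoprime (2 ^ n) hc).isUnit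
    rw [ZMod.coe_unitOfCoprime] at hu
    rw [zsmul_eq_mul] at hx
    have : ((2 ^ n : ℕ) : ZMod (p ^ e)) * x = 0 := by
      push_cast at hx ⊢
      exact hx
    exact (hu.mul_right_eq_zero).mp this
  · subst h
    have : Subsingleton (ZMod (p ^ 0)) := by
      rw [pow_zero]
      infer_instance
    exact Subsingleton.elim _ _

/-- PIECE ACH-TI1 (120 lines).  Generators of the 2-primary component of a finite abelian group in
which every element of order two is divisible by two (from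
`AddCommGroup.equiv_directSum_zmod_of_finite`; take the factors `ℤ/2^e` with `e > 0`; by `h2` no
`e` is `1`). -/
theorem exists_two_basis (T : Type) [AddCommGroup T] [Finite T]
    (h2 : ∀ x : T, (2 : ℤ) • x = 0 → ∃ y, x = (2 : ℤ) • y) (r : ℕ)
    (hr : Nat.card {x : T // (2 : ℤ) • x = 0} = 2 ^ r) :
    ∃ (t : Fin r → T) (e : Fin r → ℕ), (∀ i, 2 ≤ e i) ∧ (∀ i, (2 ^ e i : ℤ) • t i = 0) ∧
      (∀ (x : T) (n : ℕ), (2 ^ n : ℤ) • x = 0 → ∃ c : Fin r → ℤ, x = ∑ i, c i • t i) ∧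
      (∀ c : Fin r → ℤ, ∑ i, c i • t i = 0 → ∀ i, (2 ^ e i : ℤ) ∣ c i) := by
  classical
  obtain ⟨ι, hι, p, hp, e, ⟨F0⟩⟩ := AddCommGroup.equiv_directSum_zmod_of_finite T
  have := hι
  let F : T ≃+ ∀ i, ZMod (p i ^ e i) := F0.trans (DirectSum.addEquivProd _)
  -- the number of elements of order two
  let J := {i : ι // p i = 2 ∧ e i ≠ 0}
  have hcard : Nat.card {x : T // (2 : ℤ) • x = 0} = 2 ^ Fintype.card J := by
    let E1 : {x : T // (2 : ℤ) • x = 0} ≃
        {x : ∀ i, ZMod (p i ^ e i) // (2 : ℤ) • x = 0} :=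
      F.toEquiv.subtypeEquiv fun x => by
        show _ ↔ (2 : ℤ) • F x = 0
        rw [← map_zsmul, EmbeddingLike.map_eq_zero_iff]
    let E2 : {x : ∀ i, ZMod (p i ^ e i) // (2 : ℤ) • x = 0} ≃
        ∀ i, {x : ZMod (p i ^ e i) // (2 : ℤ) • x = 0} :=
      { toFun := fun x i => ⟨x.1 i, by have := congrFun x.2 i; simpa using this⟩
        invFun := fun x => ⟨fun i => (x i).1, by funext i; simpa using (x i).2⟩
        left_inv := fun x => rfl
        right_inv := fun x => rfl }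
    rw [Nat.card_congr (E1.trans E2), Nat.card_pi]
    have h1 : ∀ i, Nat.card {x : ZMod (p i ^ e i) // (2 : ℤ) • x = 0} =
        if p i = 2 ∧ e i ≠ 0 then 2 else 1 := by
      intro i
      split_ifs with h
      · obtain ⟨f, hf⟩ := Nat.exists_eq_succ_of_ne_zero h.2
        have := ti_card_two f
        rw [h.1, hf]
        exact this
      · have hs : Subsingleton {x : ZMod (p i ^ e i) // (2 : ℤ) • x = 0} := by
          constructor
          rintro ⟨x, hx⟩ ⟨y, hy⟩
          have h' : p i ≠ 2 ∨ e i = 0 := by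
            by_cases hpi : p i = 2
            · right
              by_contra hcon
              exact h ⟨hpi, hcon⟩
            · left
              exact hpi
          apply Subtype.ext
          show x = y
          have e1 := ti_odd (hp i) h' 1 x (by simpa using hx)
          have e2 := ti_odd (hp i) h' 1 y (by simpa using hy)
          rw [e1, e2]
        have : Nonempty {x : ZMod (p i ^ e i) // (2 : ℤ) • x = 0} := ⟨⟨0, by simp⟩⟩
        exact Nat.card_unique
    rw [Finset.prod_congr rfl fun i _ => h1 i, Finset.prod_ite, Finset.prod_const_one, mul_one,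
      Finset.prod_const]
    congr 1
    rw [Fintype.card_subtype]
  have hJr : Fintype.card J = r := by
    rw [hcard] at hr
    exact Nat.pow_right_injective (le_refl 2) hr
  let σ : Fin r ≃ J := (Fintype.equivFinOfCardEq hJr).symm
  have hFt : ∀ (c : Fin r → ℤ) (k : Fin r),
      F (∑ i, c i • F.symm (Pi.single (σ i).1 (1 : ZMod (p (σ i).1 ^ e (σ i).1)))) (σ k).1 =
        (c k : ZMod (p (σ k).1 ^ e (σ k).1)) := by
    intro c k
    rw [map_sum, Finset.sum_apply, Finset.sum_eq_single k]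
    · rw [map_zsmul, AddEquiv.apply_symm_apply, Pi.smul_apply, Pi.single_eq_same]
      simp
    · intro i _ hik
      rw [map_zsmul, AddEquiv.apply_symm_apply, Pi.smul_apply, Pi.single_eq_of_ne, smul_zero]
      intro h
      apply hik
      exact (σ.injective (Subtype.ext h)).symm
    · intro h
      exact absurd (Finset.mem_univ k) h
  refine ⟨fun k => F.symm (Pi.single (σ k).1 1), fun k => e (σ k).1, ?_, ?_, ?_, ?_⟩
  · -- no exponent is one
    intro k
    have hk := (σ k).2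
    show 2 ≤ e (σ k).1
    by_contra hcon
    have he1 : e (σ k).1 = 1 := by
      have := hk.2
      omega
    have hzero : (2 : ℤ) • (Pi.single (σ k).1 1 : ∀ i, ZMod (p i ^ e i)) = 0 := by
      rw [← Pi.single_smul]
      have : (2 : ℤ) • (1 : ZMod (p (σ k).1 ^ e (σ k).1)) = 0 := by
        rw [zsmul_eq_mul, mul_one]
        have h' := ZMod.natCast_self (p (σ k).1 ^ e (σ k).1)
        rw [hk.1, he1] at h'
        rw [hk.1, he1]
        exact_mod_cast h'
      rw [this, Pi.single_zero]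
    obtain ⟨y, hy⟩ := h2 (F.symm (Pi.single (σ k).1 1)) (by
      rw [← map_zsmul, hzero, map_zero])
    have hy2 : (Pi.single (σ k).1 1 : ∀ i, ZMod (p i ^ e i)) = (2 : ℤ) • F y := by
      have := congrArg F hy
      rwa [AddEquiv.apply_symm_apply, map_zsmul] at this
    have hy3 := congrFun hy2 (σ k).1
    rw [Pi.single_eq_same, Pi.smul_apply] at hy3
    have key : ∀ (a b : ℕ), a = 2 → b = 1 → ∀ z : ZMod (a ^ b), (1 : ZMod (a ^ b)) ≠ (2 : ℤ) • z := by
      rintro a b rfl rfl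
      decide
    exact key _ _ hk.1 he1 _ hy3
  · intro k
    have hk := (σ k).2
    rw [← map_zsmul, ← Pi.single_smul]
    have : (2 ^ e (σ k).1 : ℤ) • (1 : ZMod (p (σ k).1 ^ e (σ k).1)) = 0 := by
      have key : ∀ (a b : ℕ), a = 2 → (2 ^ b : ℤ) • (1 : ZMod (a ^ b)) = 0 := by
        rintro a b rfl
        rw [zsmul_eq_mul, mul_one]
        have h' := ZMod.natCast_self (2 ^ b)
        exact_mod_cast h'
      exact key _ _ hk.1
    rw [this, Pi.single_zero, map_zero]
  · intro x n hx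
    refine ⟨fun k => ((F x (σ k).1).val : ℤ), ?_⟩
    apply F.injective
    funext i
    by_cases hi : p i = 2 ∧ e i ≠ 0
    · obtain ⟨k, hk⟩ := σ.surjective ⟨i, hi⟩
      have hki : (σ k).1 = i := by rw [hk]
      subst hki
      rw [hFt]
      have : NeZero (p (σ k).1 ^ e (σ k).1) := ⟨pow_ne_zero _ (hp _).ne_zero⟩
      have := ZMod.natCast_zmod_val (F x (σ k).1)
      rw [Int.cast_natCast, this]
    · have h' : p i ≠ 2 ∨ e i = 0 := by
        by_cases hpi : p i = 2
        · right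
          by_contra hcon
          exact hi ⟨hpi, hcon⟩
        · left
          exact hpi
      have h3 : (2 ^ n : ℤ) • F x i = 0 := by
        have := congrArg (fun y => F y i) hx
        simpa using this
      rw [ti_odd (hp i) h' n _ h3, map_sum, Finset.sum_apply]
      symm
      refine Finset.sum_eq_zero fun k _ => ?_
      rw [map_zsmul, AddEquiv.apply_symm_apply, Pi.smul_apply, Pi.single_eq_of_ne, smul_zero]
      intro h
      apply hi
      rw [h]
      exact (σ k).2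
  · intro c hc k
    have h3 := hFt c k
    rw [hc, map_zero, Pi.zero_apply] at h3
    have hk := (σ k).2
    have h4 := (ZMod.intCast_zmod_eq_zero_iff_dvd (c k) (p (σ k).1 ^ e (σ k).1)).mp h3.symm
    rw [hk.1] at h4
    exact_mod_cast h4

private theorem TI_coef (x : QZ) (n : ℕ) (h : (2 ^ n : ℤ) • x = 0) :
    ∃ b : ℤ, x = toQZ ((b : ℚ) / 2 ^ n) := by
  obtain ⟨q, hq⟩ := QuotientAddGroup.mk'_surjective (AddSubgroup.zmultiples (1 : ℚ)) x
  change toQZ q = x at hq
  subst hq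
  rw [← map_zsmul] at h
  obtain ⟨b, hb⟩ := (toQZ_eq_zero _).1 h
  refine ⟨b, ?_⟩
  congr 1
  rw [hb, zsmul_eq_mul]
  push_cast
  field_simp

private theorem TI_sum_left {T : Type} [AddCommGroup T] (ℓ : T →+ T →+ QZ) {r : ℕ}
    (c : Fin r → ℤ) (t : Fin r → T) (y : T) :
    ℓ (∑ i, c i • t i) y = ∑ i, c i • ℓ (t i) y := by
  have := map_sum (ℓ.flip y) (fun i => c i • t i) Finset.univ
  simpa only [AddMonoidHom.flip_apply, map_zsmul] using this

private theorem TI_sum_right {T : Type} [AddCommGroup T] (ℓ : T →+ T →+ QZ) {r : ℕ}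
    (c : Fin r → ℤ) (t : Fin r → T) (y : T) :
    ℓ y (∑ i, c i • t i) = ∑ i, c i • ℓ y (t i) := by
  simp only [map_sum, map_zsmul]

private theorem TI_smul_left {T : Type} [AddCommGroup T] (ℓ : T →+ T →+ QZ) (n : ℤ) (x y : T) :
    ℓ (n • x) y = n • ℓ x y := by
  have := map_zsmul (ℓ.flip y) n x
  simpa only [AddMonoidHom.flip_apply] using this

private theorem TI_dec : ∀ D β : ZMod 4, D * β * D = -β → β = 0 ∨ β = 2 := by decide

/-- `det B` is odd. -/
private theorem TI_odd (T : Type) [AddCommGroup T] [Finite T] (ℓ : T →+ T →+ QZ)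
    (hℓ : ∀ x, (∀ y, ℓ x y = 0) → x = 0) {r : ℕ} (t : Fin r → T) (e : Fin r → ℕ)
    (he : ∀ i, 2 ≤ e i) (het : ∀ i, (2 ^ e i : ℤ) • t i = 0)
    (hgen : ∀ (x : T) (n : ℕ), (2 ^ n : ℤ) • x = 0 → ∃ c : Fin r → ℤ, x = ∑ i, c i • t i)
    (hind : ∀ c : Fin r → ℤ, ∑ i, c i • t i = 0 → ∀ i, (2 ^ e i : ℤ) ∣ c i)
    (B : Matrix (Fin r) (Fin r) ℤ)
    (hB : ∀ i j, ℓ (t i) (t j) = toQZ ((B i j : ℚ) / 2 ^ e i)) : ¬ (2 : ℤ) ∣ B.det := by
  intro hdet
  have h0 : (B.map (Int.castRingHom (ZMod 2))).det = 0 := by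
    have : ((Int.castRingHom (ZMod 2)) B.det) = 0 := by
      simpa using (ZMod.intCast_zmod_eq_zero_iff_dvd B.det 2).2 (by exact_mod_cast hdet)
    rw [RingHom.map_det] at this
    exact this
  obtain ⟨v, hv, hvB⟩ := Matrix.exists_vecMul_eq_zero_iff.2 h0
  obtain ⟨v', hv'⟩ : ∃ v' : Fin r → ℤ, ∀ i, ((v' i : ℤ) : ZMod 2) = v i :=
    ⟨fun i => ((v i).val : ℤ), fun i => by simp⟩
  have hev : ∀ j, ∃ m : ℤ, ∑ i, v' i * B i j = 2 * m := by
    intro j
    have : ((∑ i, v' i * B i j : ℤ) : ZMod 2) = 0 := by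
      have h1 := congrFun hvB j
      simp only [Matrix.vecMul, dotProduct, Matrix.map_apply, Int.coe_castRingHom,
        Pi.zero_apply] at h1
      push_cast
      simp only [hv']
      exact h1
    exact (ZMod.intCast_zmod_eq_zero_iff_dvd _ 2).1 this
  set x : T := ∑ i, (v' i * 2 ^ (e i - 1)) • t i with hx
  have hpow : ∀ i, (2 : ℤ) ^ e i = 2 * 2 ^ (e i - 1) := fun i => by
    rw [← pow_succ']; congr 1; have := he i; omega
  have hpowq : ∀ i, (2 : ℚ) ^ e i = 2 * 2 ^ (e i - 1) := fun i => by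
    rw [← pow_succ']; congr 1; have := he i; omega
  -- `ℓ(x, t_j) = 0`
  have hxt : ∀ j, ℓ x (t j) = 0 := by
    intro j
    obtain ⟨m, hm⟩ := hev j
    rw [hx, TI_sum_left]
    have : ∀ i, (v' i * 2 ^ (e i - 1)) • ℓ (t i) (t j) = toQZ ((v' i * B i j : ℤ) / 2 : ℚ) := by
      intro i
      rw [hB, ← map_zsmul]
      congr 1
      rw [zsmul_eq_mul, hpowq]
      push_cast
      field_simp
    rw [Finset.sum_congr rfl fun i _ => this i, ← map_sum, ← Finset.sum_div, ← Int.cast_sum, hm]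
    refine (toQZ_eq_zero _).2 ⟨m, ?_⟩
    push_cast
    ring
  have hx2 : (2 : ℤ) • x = 0 := by
    rw [hx, Finset.smul_sum]
    refine Finset.sum_eq_zero fun i _ => ?_
    rw [smul_smul, show (2 : ℤ) * (v' i * 2 ^ (e i - 1)) = v' i * 2 ^ e i by rw [hpow]; ring,
      mul_smul, het, smul_zero]
  -- `x = 0`
  have hx0 : x = 0 := by
    refine hℓ x fun y => ?_
    obtain ⟨a, m, hm, hN⟩ := Nat.exists_eq_pow_mul_and_not_dvd
      (Nat.card_pos (α := T)).ne' 2 (by norm_num)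
    have hy : (2 ^ a : ℤ) • ((m : ℤ) • y) = 0 := by
      rw [smul_smul, ← Nat.cast_ofNat (R := ℤ) (n := 2), ← Nat.cast_pow, ← Nat.cast_mul, ← hN,
        natCast_zsmul, card_nsmul_eq_zero']
    obtain ⟨c, hc⟩ := hgen _ a hy
    have h1 : (m : ℤ) • ℓ x y = 0 := by
      rw [← map_zsmul, hc, TI_sum_right]
      exact Finset.sum_eq_zero fun i _ => by rw [hxt, smul_zero]
    have h2 : (2 : ℤ) • ℓ x y = 0 := by
      rw [← TI_smul_left, hx2, map_zero, AddMonoidHom.zero_apply]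
    obtain ⟨k, hk⟩ : ∃ k : ℤ, (m : ℤ) = k * 2 + 1 := ⟨(m : ℤ) / 2, by omega⟩
    rw [hk, add_smul, mul_smul, h2, smul_zero, zero_add, one_smul] at h1
    exact h1
  -- all `v_i` are even
  refine hv (funext fun i => ?_)
  have h3 := hind (fun i => v' i * 2 ^ (e i - 1)) (by rw [← hx0]) i
  simp only [hpow] at h3
  have h4 : (2 : ℤ) ∣ v' i := by
    have h5 : (2 : ℤ) ^ (e i - 1) ≠ 0 := by positivity
    exact (mul_dvd_mul_iff_right h5).1 h3
  rw [← hv' i, Pi.zero_apply]
  exact (ZMod.intCast_zmod_eq_zero_iff_dvd _ 2).2 (by exact_mod_cast h4)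

/-- PIECE ACH-TI2 (200 lines).  Let `t_i, e_i` be as in `exists_two_basis`; `θ(t_j) = Σ_i Θ_ij t_i`
(`2^{e_j} θ(t_j) = 0`), `Θ` integral, and `2^{e_i} ∣ 2^{e_j} Θ_ij`; put
`Θ'_ij = 2^{e_j} Θ_ij / 2^{e_i}`, so `E Θ' = Θ E`, `E = diag(2^{e_i})`, and `det Θ' = det Θ`.
`ℓ(t_i, t_j) = b_ij / 2^{e_i}` with integers `b_ij`.  From `ℓ(θ t_i, θ t_j) = -ℓ(t_i, t_j)`:
`Σ_{k,l} Θ_ki Θ_lj b_kl / 2^{e_k} = (Θ'ᵀ B Θ)_ij / 2^{e_i}`, so `Θ'ᵀ B Θ ≡ -B` with the row `i`
modulo `2^{e_i}`, so modulo `4`.  So `det(Θ)² det B ≡ (-1)^r det B` modulo `4`.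
`det B` is odd: if `Σ_i v_i b_ij` is even for all `j` and some `v_i` is odd, then
`x = Σ v_i 2^{e_i - 1} t_i ≠ 0` has `ℓ(x, t_j) = Σ_i v_i b_ij / 2 = 0` for all `j`, and
`ℓ(x, y) = 0` for `y` of odd order (`2 x = 0`), so `ℓ(x, ·) = 0`, a contradiction.
`det Θ` is odd: if `Σ_j Θ_ij v_j` is even for all `i`, then `θ(Σ v_j t_j) ∈ 2T`, so
`Σ v_j t_j ∈ 2 T` and all `v_j` are even.  So `det(Θ)² ≡ 1` modulo `4`, `det B` is invertible
modulo `4`, `(-1)^r ≡ 1` modulo `4`, and `r` is even. -/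
theorem det_lemma (T : Type) [AddCommGroup T] [Finite T] (θ : T ≃+ T) (ℓ : T →+ T →+ QZ)
    (hℓ : ∀ x, (∀ y, ℓ x y = 0) → x = 0) (hθ : ∀ x y, ℓ (θ x) (θ y) = - ℓ x y)
    (h2 : ∀ x : T, (2 : ℤ) • x = 0 → ∃ y, x = (2 : ℤ) • y) (r : ℕ)
    (hr : Nat.card {x : T // (2 : ℤ) • x = 0} = 2 ^ r) : Even r := by
  classical
  obtain ⟨t, e, he, het, hgen, hind⟩ := exists_two_basis T h2 r hr
  have hΘ : ∀ j, ∃ c : Fin r → ℤ, θ (t j) = ∑ i, c i • t i := fun j =>
    hgen (θ (t j)) (e j) (by rw [← map_zsmul, het, map_zero])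
  choose Θ0 hΘ0 using hΘ
  have hΘ1 : ∀ i j, ∃ c : ℤ, 2 ^ e j * Θ0 j i = 2 ^ e i * c := by
    intro i j
    refine hind (fun i => 2 ^ e j * Θ0 j i) ?_ i
    have h1 : (2 ^ e j : ℤ) • θ (t j) = 0 := by rw [← map_zsmul, het, map_zero]
    rw [hΘ0 j, Finset.smul_sum] at h1
    rw [← h1]
    exact Finset.sum_congr rfl fun i _ => by rw [mul_smul]
  choose Θ' hΘ' using hΘ1
  have hB : ∀ i j, ∃ b : ℤ, ℓ (t i) (t j) = toQZ ((b : ℚ) / 2 ^ e i) := fun i j =>
    TI_coef _ _ (by rw [← TI_smul_left, het, map_zero, AddMonoidHom.zero_apply])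
  choose B hB using hB
  obtain ⟨MΘ, hMΘ⟩ : ∃ M : Matrix (Fin r) (Fin r) ℤ, ∀ i j, M i j = Θ0 j i :=
    ⟨fun i j => Θ0 j i, fun _ _ => rfl⟩
  obtain ⟨M', hM'⟩ : ∃ M : Matrix (Fin r) (Fin r) ℤ, ∀ i j, M i j = Θ' i j :=
    ⟨fun i j => Θ' i j, fun _ _ => rfl⟩
  obtain ⟨MB, hMB⟩ : ∃ M : Matrix (Fin r) (Fin r) ℤ, ∀ i j, M i j = B i j :=
    ⟨fun i j => B i j, fun _ _ => rfl⟩
  -- `det Θ' = det Θ`
  have hdet : M'.det = MΘ.det := by
    have h1 : Matrix.diagonal (fun i => (2 : ℤ) ^ e i) * M' =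
        MΘ * Matrix.diagonal (fun i => (2 : ℤ) ^ e i) := by
      ext i j
      rw [Matrix.diagonal_mul, Matrix.mul_diagonal, hM', hMΘ, ← hΘ' i j, mul_comm]
    have h2 := congrArg Matrix.det h1
    rw [Matrix.det_mul, Matrix.det_mul, mul_comm] at h2
    have h3 : (Matrix.diagonal (fun i => (2 : ℤ) ^ e i)).det ≠ 0 := by
      rw [Matrix.det_diagonal]
      exact Finset.prod_ne_zero_iff.2 fun i _ => by positivity
    exact mul_right_cancel₀ h3 h2
  -- the relation modulo `2 ^ e i`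
  have hrel : ∀ i j, (2 ^ e i : ℤ) ∣ (M'.transpose * MB * MΘ + MB) i j := by
    intro i j
    have h1 := hθ (t i) (t j)
    rw [hΘ0 i, hΘ0 j, TI_sum_left] at h1
    have h3 : ∀ k, Θ0 i k • ℓ (t k) (∑ l, Θ0 j l • t l) =
        toQZ (∑ l, ((Θ' k i * B k l * Θ0 j l : ℤ) : ℚ) / 2 ^ e i) := by
      intro k
      rw [TI_sum_right, map_sum toQZ, Finset.smul_sum]
      refine Finset.sum_congr rfl fun l _ => ?_
      rw [hB k l, ← map_zsmul, ← map_zsmul]
      congr 1
      have h4 : (2 : ℚ) ^ e i * (Θ0 i k : ℚ) = 2 ^ e k * (Θ' k i : ℚ) := by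
        exact_mod_cast hΘ' k i
      rw [zsmul_eq_mul, zsmul_eq_mul]
      push_cast
      have h5 : (2 : ℚ) ^ e i ≠ 0 := by positivity
      have h6 : (2 : ℚ) ^ e k ≠ 0 := by positivity
      field_simp
      linear_combination (Θ0 j l : ℚ) * (B k l : ℚ) * h4
    rw [Finset.sum_congr rfl fun k _ => h3 k, ← map_sum, hB i j, eq_neg_iff_add_eq_zero,
      ← map_add] at h1
    obtain ⟨n, hn⟩ := (toQZ_eq_zero _).1 h1
    refine ⟨n, ?_⟩
    have h7 : (((M'.transpose * MB * MΘ + MB) i j : ℤ) : ℚ) = 2 ^ e i * n := by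
      rw [hn, mul_add, Finset.mul_sum]
      have h5 : (2 : ℚ) ^ e i ≠ 0 := by positivity
      simp only [Matrix.add_apply, Matrix.mul_apply, Matrix.transpose_apply, hM', hMB, hMΘ,
        Finset.sum_mul, Finset.mul_sum]
      push_cast
      rw [Finset.sum_comm, mul_div_cancel₀ _ h5]
      congr 1
      refine Finset.sum_congr rfl fun k _ => Finset.sum_congr rfl fun l _ => ?_
      rw [mul_div_cancel₀ _ h5]
    exact_mod_cast h7
  have hodd := TI_odd T ℓ hℓ t e he het hgen hind MB (fun i j => by rw [hMB]; exact hB i j)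
  -- determinants modulo four
  by_contra hr'
  have hr1 : Odd r := Nat.not_even_iff_odd.1 hr'
  have h8 : (M'.transpose * MB * MΘ).map (Int.castRingHom (ZMod 4)) =
      -(MB.map (Int.castRingHom (ZMod 4))) := by
    ext i j
    rw [Matrix.map_apply, Matrix.neg_apply, Matrix.map_apply, eq_neg_iff_add_eq_zero, ← map_add,
      ← Matrix.add_apply]
    have h9 : (4 : ℤ) ∣ (M'.transpose * MB * MΘ + MB) i j := by
      refine dvd_trans ?_ (hrel i j)
      have := pow_dvd_pow (2 : ℤ) (he i)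
      simpa using this
    exact (ZMod.intCast_zmod_eq_zero_iff_dvd _ 4).2 (by exact_mod_cast h9)
  have h10 := congrArg Matrix.det h8
  have h11 : ((M'.transpose * MB * MΘ).map (Int.castRingHom (ZMod 4))).det =
      (Int.castRingHom (ZMod 4)) ((M'.transpose * MB * MΘ).det) := by
    rw [RingHom.map_det]; rfl
  have h12 : (MB.map (Int.castRingHom (ZMod 4))).det = (Int.castRingHom (ZMod 4)) MB.det := by
    rw [RingHom.map_det]; rfl
  rw [h11, Matrix.det_neg, h12, Matrix.det_mul, Matrix.det_mul, Matrix.det_transpose, hdet,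
    map_mul, map_mul, Fintype.card_fin, hr1.neg_one_pow, neg_one_mul] at h10
  have h13 : ∀ z : ℤ, ((z : ZMod 4) = 0 ∨ (z : ZMod 4) = 2) → (2 : ℤ) ∣ z := by
    intro z hz
    rcases hz with hz | hz
    · have := (ZMod.intCast_zmod_eq_zero_iff_dvd z 4).1 hz
      omega
    · have : ((z - 2 : ℤ) : ZMod 4) = 0 := by push_cast; rw [hz]; decide
      have := (ZMod.intCast_zmod_eq_zero_iff_dvd (z - 2) 4).1 this
      omega
  exact hodd (h13 _ (TI_dec _ _ h10))

end Pool.ACH
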