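import Pool.Agent.Helper20.ACH.TG
import Pool.Agent.Helper20.ACH.TH
import Pool.Agent.Helper20.ACH.TI
import Pool.Agent.Helper20.ACH.L5

/-! Project ACH (MP_9d9192_al): the prime two, `d ≠ 3`. -/

set_option autoImplicit false

namespace Pool.ACH

variable {G : Type} [Group G]

/-- PIECE ACH-TJ1 (90 lines).  Translation of `det_lemma`: for an achiral group `G` with
`x² ∈ commutator G → x ∈ Ph G`, the dimension `d` of `Hm G (ZMod 2)` is even.  `T = Additive
(Abelianization G)` (finite), `ℓ` from `factL` descends to `T`; `Ph G` is the preimage of `2T`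
(`Ph_eq_sq`), so `h2` holds; `|T[2]| = |T/2T| = |G ⧸ Ph G| = 2^d` (`Ph_index_eq`). -/
theorem even_of_divisible {θ : G ≃* G} (hA : Achiral G θ) (hF : FAb G)
    (h : ∀ x : G, x ^ 2 ∈ commutator G → x ∈ Ph G) :
    Even (Module.finrank (ZMod 2) (Hm G (ZMod 2))) := by
  classical
  have hfg := hA.fg
  have hno : ¬ ∃ f : G →* Multiplicative ℤ, Function.Surjective f := by
    rintro ⟨f, hf⟩
    exact hF ⊤ (by simp) ⟨f.comp (Subgroup.topEquiv (G := G)).toMonoidHom,
      hf.comp (Subgroup.topEquiv (G := G)).surjective⟩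
  have hfin := finite_abelianization hfg hno
  obtain ⟨ℓ, h1, h2, h3, _, h5⟩ := factL hA hF
  have h10 : ∀ z, ℓ 1 z = 0 := by
    intro z
    have := h1 1 1 z
    rw [mul_one] at this
    exact left_eq_add.1 this
  have h20 : ∀ z, ℓ z 1 = 0 := by
    intro z
    have := h2 z 1 1
    rw [mul_one] at this
    exact left_eq_add.1 this
  let b : G → (Abelianization G →* Multiplicative QZ) := fun x =>
    Abelianization.lift
      { toFun := fun g => Multiplicative.ofAdd (ℓ x g)
        map_one' := by rw [h20]; rfl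
        map_mul' := fun g g' => by rw [h2]; rfl }
  have hb : ∀ x y, b x (Abelianization.of y) = Multiplicative.ofAdd (ℓ x y) := by
    intro x y
    simp [b]
  let Ψ : Abelianization G →* (Abelianization G →* Multiplicative QZ) :=
    Abelianization.lift
      { toFun := b
        map_one' := by
          apply Abelianization.hom_ext
          ext y
          simp [hb, h10]
        map_mul' := fun g g' => by
          apply Abelianization.hom_ext
          ext y
          simp [hb, h1] }
  have hΨ : ∀ x y, Ψ (Abelianization.of x) (Abelianization.of y) =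
      Multiplicative.ofAdd (ℓ x y) := by
    intro x y
    simp [Ψ, hb]
  let L : Additive (Abelianization G) →+ Additive (Abelianization G) →+ QZ :=
    { toFun := fun s =>
        { toFun := fun t => Multiplicative.toAdd (Ψ (Additive.toMul s) (Additive.toMul t))
          map_zero' := by rw [toMul_zero, map_one]; rfl
          map_add' := fun t t' => by rw [toMul_add, map_mul]; rfl }
      map_zero' := by
        refine AddMonoidHom.ext fun t => ?_
        show Multiplicative.toAdd (Ψ (Additive.toMul 0) (Additive.toMul t)) = 0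
        rw [toMul_zero, map_one]
        rfl
      map_add' := fun s s' => by
        refine AddMonoidHom.ext fun t => ?_
        show Multiplicative.toAdd (Ψ (Additive.toMul (s + s')) (Additive.toMul t)) =
          Multiplicative.toAdd (Ψ (Additive.toMul s) (Additive.toMul t)) +
          Multiplicative.toAdd (Ψ (Additive.toMul s') (Additive.toMul t))
        rw [toMul_add, map_mul]
        rfl }
  have hL : ∀ x y : G, L (Additive.ofMul (Abelianization.of x))
      (Additive.ofMul (Abelianization.of y)) = ℓ x y := by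
    intro x y
    show Multiplicative.toAdd (Ψ (Abelianization.of x) (Abelianization.of y)) = ℓ x y
    rw [hΨ]
    rfl
  have hof : ∀ t : Additive (Abelianization G), ∃ g : G,
      t = Additive.ofMul (Abelianization.of g) := by
    intro t
    obtain ⟨g, hg⟩ := QuotientGroup.mk_surjective (Additive.toMul t)
    exact ⟨g, by rw [show Abelianization.of g = Additive.toMul t from hg]; rfl⟩
  have hof1 : ∀ g : G, Abelianization.of g = 1 ↔ g ∈ commutator G := by
    intro g
    rw [← Abelianization.ker_of, MonoidHom.mem_ker]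
  -- the subgroup of squares of the abelianization
  let S : Subgroup (Abelianization G) := (powMonoidHom 2 : Abelianization G →* _).range
  have hPh : Ph G = S.comap Abelianization.of := by
    apply le_antisymm
    · rw [Ph_eq_sq, sq, Subgroup.closure_le]
      rintro _ ⟨h, _, rfl⟩
      exact ⟨Abelianization.of h, by simp⟩
    · intro g hg
      obtain ⟨z, hz⟩ := hg
      obtain ⟨h, rfl⟩ := QuotientGroup.mk_surjective z
      have e1 : Abelianization.of (g * (h ^ 2)⁻¹) = 1 := by
        rw [map_mul, map_inv, map_pow]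
        have : Abelianization.of h ^ 2 = Abelianization.of g := hz
        rw [this, mul_inv_cancel]
      have e2 : commutator G ≤ Ph G := by
        rw [commutator_def, Subgroup.commutator_le]
        intro x _ y _
        exact comm_mem_Ph x y
      have e3 := e2 ((hof1 _).1 e1)
      have e4 : g = g * (h ^ 2)⁻¹ * h ^ 2 := by group
      rw [e4]
      exact (Ph G).mul_mem e3 (sq_mem_Ph h)
  have hSi : S.index = 2 ^ Module.finrank (ZMod 2) (Hm G (ZMod 2)) := by
    rw [← Ph_index_eq hfg, hPh, Subgroup.index_comap_of_surjective]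
    exact QuotientGroup.mk_surjective
  refine det_lemma (Additive (Abelianization G)) (MulEquiv.toAdditive θ.abelianizationCongr) L
    ?_ ?_ ?_ _ ?_
  · intro x hx
    obtain ⟨g, rfl⟩ := hof x
    have e1 : Abelianization.of g = 1 := by
      rw [hof1]
      refine h3 g fun y => ?_
      rw [← hL]
      exact hx _
    rw [e1]
    rfl
  · intro x y
    obtain ⟨g, rfl⟩ := hof x
    obtain ⟨h, rfl⟩ := hof y
    rw [hL, ← h5, ← hL]
    rfl
  · intro x hx
    obtain ⟨g, rfl⟩ := hof x
    have e1 : g ^ 2 ∈ commutator G := by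
      rw [← hof1, map_pow]
      rw [two_zsmul] at hx
      rw [pow_two]
      exact hx
    have e2 := h g e1
    rw [hPh] at e2
    obtain ⟨z, hz⟩ := e2
    refine ⟨Additive.ofMul z, ?_⟩
    rw [two_zsmul]
    have e3 : z ^ 2 = Abelianization.of g := hz
    rw [← e3, pow_two]
    rfl
  · rw [← hSi]
    have e1 : Nat.card {x : Additive (Abelianization G) // (2 : ℤ) • x = 0} =
        Nat.card (powMonoidHom 2 : Abelianization G →* Abelianization G).ker := by
      refine Nat.card_congr ⟨fun x => ⟨Additive.toMul x.1, ?_⟩,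
        fun x => ⟨Additive.ofMul x.1, ?_⟩, fun x => rfl, fun x => rfl⟩
      · have := x.2
        rw [two_zsmul] at this
        rw [MonoidHom.mem_ker, powMonoidHom_apply, pow_two]
        exact this
      · have := x.2
        rw [MonoidHom.mem_ker, powMonoidHom_apply, pow_two] at this
        rw [two_zsmul]
        exact this
    rw [e1]
    have e2 := (powMonoidHom 2 : Abelianization G →* Abelianization G).ker.card_mul_index
    have e3 := (powMonoidHom 2 : Abelianization G →* Abelianization G).range.card_mul_index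
    rw [Subgroup.index_ker] at e2
    have e4 : 0 < Nat.card (powMonoidHom 2 : Abelianization G →* Abelianization G).range :=
      Nat.card_pos
    rw [← e3, mul_comm] at e2
    exact Nat.eq_of_mul_eq_mul_left e4 e2

/-- PIECE ACH-TJ2 (120 lines).  `d = 3` is impossible.  Let `K1 = Ph G = sq ⊤`, `K2 = sq K1`,
`K3 = sq K2` (subgroups of `G`; `Ph_map`).  `three_step` for `G` gives `hc1` of `comm_mem_sq`
(`g x g⁻¹ x⁻¹` is killed by all homomorphisms `K1 → 𝔽₂`), and `three_step` for `K1` (with the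
restricted automorphism; `dim Hm K1 = 3`) gives `hc2` and `dim Hm (Ph K1) = 3`.  So
`[K1, K1] ⊆ K3` by `comm_mem_sq`.  Now apply `sq_inj` to the group `K1` and its subgroups
`Ph K1 = sq ⊤`, `sq (Ph K1)`, whose indices are `2^3` and relative index `2^3`
(`Ph_index_eq` for `K1` and for `Ph K1`): so `x² ∈ commutator K1 → x ∈ Ph K1`, and
`even_of_divisible` for `K1` gives that `3` is even. -/
theorem two_ne_three {θ : MulAut G} (hA : Achiral G θ) (hF : FAb G) :
    Module.finrank (ZMod 2) (Hm G (ZMod 2)) ≠ 3 := by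
  intro hd
  have hfg := hA.fg
  have hidx := Ph_index hfg
  obtain ⟨hd1, hr1⟩ := three_step hA hF hd
  have hA1 : Achiral (Ph G) (resAut θ (Ph G) (Ph_theta θ)) :=
    hA.restrict (Ph G) hidx (Ph_theta θ)
  have hF1 : FAb (Ph G) := hF.restrict (Ph G) hidx
  have hfg1 := hA1.fg
  have hidx1 := Ph_index hfg1
  obtain ⟨hd2, hr2⟩ := three_step (θ := resAut θ (Ph G) (Ph_theta θ)) hA1 hF1 hd1
  have hA2 := hA1.restrict (Ph (Ph G)) hidx1 (Ph_theta _)
  have hfg2 := hA2.fg
  have hK2 : ((Ph (Ph G)).map (Ph G).subtype) = sq (Ph G) := Ph_map (Ph G)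
  have hK3' : (Ph (Ph (Ph G))).map (Ph (Ph G)).subtype = sq (Ph (Ph G)) := Ph_map (Ph (Ph G))
  have hK3 : sq (sq (Ph G)) = (sq (Ph (Ph G))).map (Ph G).subtype := by
    rw [← hK2]
    unfold sq
    rw [MonoidHom.map_closure]
    congr 1
    ext x
    constructor
    · rintro ⟨_, ⟨h, hh, rfl⟩, rfl⟩
      exact ⟨h ^ 2, ⟨h, hh, rfl⟩, by simp⟩
    · rintro ⟨_, ⟨h, hh, rfl⟩, rfl⟩
      exact ⟨(h : G), ⟨h, hh, rfl⟩, by simp⟩
  have hc1 : ∀ g : G, ∀ x ∈ Ph G, g * x * g⁻¹ * x⁻¹ ∈ sq (Ph G) := by
    intro g x hx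
    rw [← hK2]
    have hy : g * x * g⁻¹ ∈ Ph G := (inferInstance : (Ph G).Normal).conj_mem x hx g
    refine ⟨⟨g * x * g⁻¹, hy⟩ * ⟨x, hx⟩⁻¹, ?_, rfl⟩
    intro r
    have e1 := hr1 r g ⟨x, hx⟩ ⟨g * x * g⁻¹, hy⟩ rfl
    rw [Hm.map_mul, Hm.map_inv, e1]
    ring
  have hc2' : ∀ x : Ph G, ∀ y ∈ Ph (Ph G), x * y * x⁻¹ * y⁻¹ ∈ sq (Ph (Ph G)) := by
    intro g x hx
    rw [← hK3']
    have hy : g * x * g⁻¹ ∈ Ph (Ph G) := (inferInstance : (Ph (Ph G)).Normal).conj_mem x hx g
    refine ⟨⟨g * x * g⁻¹, hy⟩ * ⟨x, hx⟩⁻¹, ?_, rfl⟩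
    intro r
    have e1 := hr2 r g ⟨x, hx⟩ ⟨g * x * g⁻¹, hy⟩ rfl
    rw [Hm.map_mul, Hm.map_inv, e1]
    ring
  have hc2 : ∀ x ∈ Ph G, ∀ y ∈ sq (Ph G), x * y * x⁻¹ * y⁻¹ ∈ sq (sq (Ph G)) := by
    intro x hx y hy
    rw [← hK2] at hy
    obtain ⟨y', hy', rfl⟩ := hy
    rw [hK3]
    exact ⟨⟨x, hx⟩ * y' * ⟨x, hx⟩⁻¹ * y'⁻¹, hc2' ⟨x, hx⟩ y' hy', rfl⟩
  have hcomm := comm_mem_sq (Ph G) (sq (Ph G)) (sq (sq (Ph G))) Ph_eq_sq rfl rfl hc1 hc2
  have hab : ∀ x y : Ph G, x * y * x⁻¹ * y⁻¹ ∈ sq (Ph (Ph G)) := by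
    intro x y
    have e1 := hcomm x x.2 y y.2
    rw [hK3] at e1
    obtain ⟨z, hz, hz2⟩ := e1
    have e2 : z = x * y * x⁻¹ * y⁻¹ := by
      ext
      exact hz2
    rw [← e2]
    exact hz
  have hcard : (Ph (Ph G)).index = (sq (Ph (Ph G))).relIndex (Ph (Ph G)) := by
    rw [Ph_index_eq hfg1, hd1, Subgroup.relIndex, ← hK3']
    have e1 : ((Ph (Ph (Ph G))).map (Ph (Ph G)).subtype).subgroupOf (Ph (Ph G)) =
        Ph (Ph (Ph G)) := by
      rw [Subgroup.subgroupOf, Subgroup.comap_map_eq_self_of_injective]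
      exact Subtype.coe_injective
    rw [e1, Ph_index_eq hfg2, hd2]
  have hinj := sq_inj (Ph (Ph G)) (sq (Ph (Ph G))) Ph_eq_sq rfl hab hcard hidx1
  have hcl : commutator (Ph G) ≤ sq (Ph (Ph G)) := by
    rw [commutator_def, Subgroup.commutator_le]
    intro x _ y _
    exact hab x y
  have hev := even_of_divisible hA1 hF1 fun x hx => hinj x (hcl hx)
  rw [hd1] at hev
  exact absurd hev (by decide)

theorem two_le_two {θ : MulAut G} (hA : Achiral G θ) (hF : FAb G) :
    Module.finrank (ZMod 2) (Hm G (ZMod 2)) ≤ 2 := by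
  have h1 := two_le_three hA hF
  have h2 := two_ne_three hA hF
  omega

end Pool.ACH
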